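import Mathlib
import Pool.Agent.Lib.MP_209724_lc.GD.Centers
import Pool.Agent.Lib.MP_209724_lc.GS.Comp
import Pool.Agent.Lib.MP_209724_lc.GS.Final
import Pool.Agent.Lib.MP_209724_lc.GD.Local
import Pool.Agent.Lib.MP_209724_lc.GP.Local

section

namespace Pool.Agent.Lib.MP_209724_lc.GF

open Filter Topology Metric Set
open GS (Ew)
open GD (UnifOpen)

variable {n d : ℕ}

/-- **Centers**, from points over `t ν → t₀`. As `GD.exists_centers` (`GD/Centers.lean`), where the points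
`v₀ ν` are over `t₀` itself.

Proof. The proof of `GD.exists_centers` with `‖(v₀ ν).1 - t₀‖ + N ν / r ν` instead of `N ν / r ν` (apply
`GP.path` with `δ = ‖(v₀ ν).1 - t₀‖ + N ν / r ν`, which tends to `0`). -/
theorem exists_centersK (r : ℕ → ℝ) (hr0 : ∀ ν, 0 < r ν) (hr : Tendsto r atTop atTop)
    (x : ℕ → Ew d → Fin n → ℂ) (G : ℕ → Set (Ew d × (Fin n → ℂ))) {t₀ : Ew d} {δ : ℝ}
    (hδ : 0 < δ) (huo : UnifOpen r x G t₀ δ) (v₀ : ℕ → Ew d × (Fin n → ℂ))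
    (hv₀ : ∀ ν, v₀ ν ∈ G ν) (ht : Tendsto (fun ν => (v₀ ν).1) atTop (𝓝 t₀))
    (hsm : ∀ ε : ℝ, 0 < ε → ∀ᶠ ν in atTop, ‖x ν (v₀ ν).1 - (v₀ ν).2‖ ≤ ε * r ν) :
    ∃ cen : ℕ → Ew d × (Fin n → ℂ), (∀ᶠ ν in atTop, cen ν ∈ G ν) ∧
      Tendsto (fun ν => (cen ν).1) atTop (𝓝 t₀) ∧
      Tendsto (fun ν => x ν (cen ν).1 - (cen ν).2) atTop (𝓝 0) := by
  classical
  obtain ⟨c₀, hc₀, hev⟩ := huo 1 one_pos
  set N : ℕ → ℕ := fun ν => ⌈2 * ‖x ν (v₀ ν).1 - (v₀ ν).2‖ / c₀⌉₊ with hN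
  have hN1 : ∀ ν, ‖x ν (v₀ ν).1 - (v₀ ν).2‖ ≤ N ν * (c₀ / 2) := by
    intro ν
    have h1 : 2 * ‖x ν (v₀ ν).1 - (v₀ ν).2‖ / c₀ ≤ N ν := Nat.le_ceil _
    rw [div_le_iff₀ hc₀] at h1
    linarith
  have hN2 : ∀ ν, (N ν : ℝ) ≤ 2 * ‖x ν (v₀ ν).1 - (v₀ ν).2‖ / c₀ + 1 := by
    intro ν
    exact (Nat.ceil_lt_add_one (by positivity)).le
  -- the radii tend to zero
  have hrad : Tendsto (fun ν => (N ν : ℝ) / r ν) atTop (𝓝 0) := by
    rw [Metric.tendsto_atTop']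
    intro ε hε
    have h1 := hsm (ε * c₀ / 8) (by positivity)
    have h2 := hr.eventually_ge_atTop (4 / ε)
    obtain ⟨ν₀, hν₀⟩ := (h1.and h2).exists_forall_of_atTop
    refine ⟨ν₀, fun ν hν => ?_⟩
    obtain ⟨h3, h4⟩ := hν₀ ν hν.le
    have hrp := hr0 ν
    rw [Real.dist_eq, sub_zero, abs_of_nonneg (by positivity), div_lt_iff₀ hrp]
    have h5 : 4 ≤ ε * r ν := by
      rw [div_le_iff₀ hε] at h4
      linarith
    have h6 : 2 * ‖x ν (v₀ ν).1 - (v₀ ν).2‖ / c₀ ≤ ε * r ν / 4 := by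
      rw [div_le_iff₀ hc₀]
      nlinarith
    have h7 := hN2 ν
    nlinarith
  have hst : Tendsto (fun ν => ‖(v₀ ν).1 - t₀‖) atTop (𝓝 0) := by
    rw [← tendsto_iff_norm_sub_tendsto_zero]
    exact ht
  have hrad' : Tendsto (fun ν => ‖(v₀ ν).1 - t₀‖ + (N ν : ℝ) / r ν) atTop (𝓝 0) := by
    have h1 := hst.add hrad
    rwa [add_zero] at h1
  have hδev : ∀ᶠ ν in atTop, ‖(v₀ ν).1 - t₀‖ + (N ν : ℝ) / r ν ≤ δ := by
    filter_upwards [hrad'.eventually (Iio_mem_nhds hδ)] with ν hν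
    exact le_of_lt hν
  have key : ∀ᶠ ν in atTop, ∃ v, v ∈ G ν ∧
      ‖v.1 - t₀‖ ≤ ‖(v₀ ν).1 - t₀‖ + (N ν : ℝ) / r ν ∧
      ‖x ν v.1 - v.2‖ ≤ 1 / ((ν : ℝ) + 1) := by
    filter_upwards [hev, hδev] with ν h1 h2
    obtain ⟨v, hv1, hv2, hv3⟩ := GP.path (M := G ν) (F := fun v => x ν v.1 - v.2)
      (p := fun _ => (1 : ℂ)) (v₀ := v₀ ν) (hv₀ ν) one_ne_zero (R := 1 / r ν) (c₀ := c₀)
      (δ := ‖(v₀ ν).1 - t₀‖ + (N ν : ℝ) / r ν) (by have := hr0 ν; positivity) hc₀ (N ν) t₀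
      (fun v hv hvt _ c hc η hη => by
        obtain ⟨v', h3, h4, h5⟩ := h1 v hv (hvt.trans h2) c hc η hη
        exact ⟨v', h3, h4, h5, one_ne_zero⟩)
      (hN1 ν) (by rw [mul_one_div])
      (η := 1 / ((ν : ℝ) + 1)) (by positivity)
    exact ⟨v, hv1, hv2, hv3⟩
  let cen : ℕ → Ew d × (Fin n → ℂ) := fun ν =>
    if h : ∃ v, v ∈ G ν ∧ ‖v.1 - t₀‖ ≤ ‖(v₀ ν).1 - t₀‖ + (N ν : ℝ) / r ν ∧
      ‖x ν v.1 - v.2‖ ≤ 1 / ((ν : ℝ) + 1)
    then h.choose else v₀ ν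
  have hcen : ∀ᶠ ν in atTop, cen ν ∈ G ν ∧
      ‖(cen ν).1 - t₀‖ ≤ ‖(v₀ ν).1 - t₀‖ + (N ν : ℝ) / r ν ∧
      ‖x ν (cen ν).1 - (cen ν).2‖ ≤ 1 / ((ν : ℝ) + 1) := by
    filter_upwards [key] with ν hν
    have h1 : cen ν = hν.choose := dif_pos hν
    rw [h1]
    exact hν.choose_spec
  refine ⟨cen, hcen.mono fun ν hν => hν.1, ?_, ?_⟩
  · rw [tendsto_iff_norm_sub_tendsto_zero]
    exact squeeze_zero' (Eventually.of_forall fun ν => norm_nonneg _)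
      (hcen.mono fun ν hν => hν.2.1) hrad'
  · rw [tendsto_zero_iff_norm_tendsto_zero]
    exact squeeze_zero' (Eventually.of_forall fun ν => norm_nonneg _)
      (hcen.mono fun ν hν => hν.2.2) tendsto_one_div_add_atTop_nhds_zero_nat

end Pool.Agent.Lib.MP_209724_lc.GF
end

section

namespace Pool.Agent.Lib.MP_209724_lc.GF

open Filter Topology Metric Set
open GS (Ew)
open GD (esum)

variable {n d : ℕ}

/-- **Relations pass to the limit**, with the support in a face. As `GD.lam_rel` (`GD/LRel.lean`), for centers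
`cen ν` with `Re u(cen ν) / r ν → η`: the exponents with nonzero coefficient `κ α` are in the face `fac S η`.

Proof. Repeat the proof of `GD.lam_rel` (`κ α` is the limit along `𝒰` of
`b ν α / m ν`, `b ν α = c ν α (cen ν).1 * exp(α · (cen ν).2)`, `m ν` the maximum of the `‖b ν α‖`). Let
`α ∈ S` be not in `fac S η`: there is `β ∈ S` with `β · η = α · η + 2 δ'`, `δ' > 0`. Then
`‖b ν α / m ν‖ ≤ ‖b ν α‖ / ‖b ν β‖ ≤ r ν ^ (2 C) * exp(∑ i, (α i - β i) * ((cen ν).2 i).re)` by `hcb`, and the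
exponent is `≤ - δ' r ν` for large `ν` by `hη`; so the quotient tends to `0` and `κ α = 0`. -/
theorem lam_relK (𝒰 : Ultrafilter ℕ) (h𝒰 : (𝒰 : Filter ℕ) ≤ atTop) (r : ℕ → ℝ)
    (hr0 : ∀ ν, 0 < r ν) (hr : Tendsto r atTop atTop) {t₀ : Ew d} {δ : ℝ} (hδ : 0 < δ)
    (cen : ℕ → Ew d × (Fin n → ℂ))
    (hcen1 : Tendsto (fun ν => (cen ν).1) atTop (𝓝 t₀)) (S : Finset (Fin n → ℕ))
    (hS : S.Nonempty) (c : ℕ → (Fin n → ℕ) → Ew d → ℂ)
    (hc0 : ∀ α ∈ S, ∀ᶠ ν in atTop, c ν α (cen ν).1 ≠ 0)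
    (hratio : ∀ α ∈ S, ∀ R : ℝ, ∀ ε : ℝ, 0 < ε → ∀ᶠ ν in atTop, ∀ t, ‖t - t₀‖ ≤ δ →
      ∀ t', ‖t' - t‖ ≤ R / r ν → ‖c ν α t' / c ν α t - 1‖ ≤ ε) (C : ℕ)
    (hcb : ∀ α ∈ S, ∀ᶠ ν in atTop, (r ν ^ C)⁻¹ ≤ ‖c ν α (cen ν).1‖ ∧
      ‖c ν α (cen ν).1‖ ≤ r ν ^ C)
    (η : Fin n → ℝ)
    (hη : ∀ i, Tendsto (fun ν => (r ν)⁻¹ * ((cen ν).2 i).re) atTop (𝓝 (η i))) :
    ∃ κ : (Fin n → ℕ) → ℂ, (∃ α ∈ S, κ α ≠ 0) ∧ (∀ α ∈ S, κ α ≠ 0 → α ∈ fac S η) ∧
      ∀ (a : ℕ → Ew d × (Fin n → ℂ)) (v : Ew d × (Fin n → ℂ)),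
        Tendsto (fun ν => (r ν : ℂ) • ((a ν).1 - (cen ν).1)) 𝒰 (𝓝 v.1) →
        Tendsto (fun ν => (a ν).2 - (cen ν).2) 𝒰 (𝓝 v.2) →
        (∀ᶠ ν in 𝒰, ∑ α ∈ S, c ν α (a ν).1 * Complex.exp (∑ i, (α i : ℂ) * (a ν).2 i) = 0) →
        esum S κ v.2 = 0 := by
  classical
  set b : ℕ → (Fin n → ℕ) → ℂ := fun ν α =>
    c ν α (cen ν).1 * Complex.exp (∑ i, (α i : ℂ) * (cen ν).2 i) with hb
  set m : ℕ → ℝ := fun ν => S.sup' hS (fun α => ‖b ν α‖) with hm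
  have hle : ∀ ν, ∀ α ∈ S, ‖b ν α‖ ≤ m ν := fun ν α hα =>
    Finset.le_sup' (fun α => ‖b ν α‖) hα
  have hm0 : ∀ ν, 0 ≤ m ν := by
    intro ν
    obtain ⟨α, hα⟩ := hS
    exact (norm_nonneg _).trans (hle ν α hα)
  have hb0 : ∀ α ∈ S, ∀ᶠ ν in (𝒰 : Filter ℕ), b ν α ≠ 0 := by
    intro α hα
    filter_upwards [h𝒰 (hc0 α hα)] with ν hν
    exact mul_ne_zero hν (Complex.exp_ne_zero _)
  have hq1 : ∀ ν, ∀ α ∈ S, ‖b ν α / (m ν : ℂ)‖ ≤ 1 := by
    intro ν α hα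
    rw [norm_div, Complex.norm_real, Real.norm_of_nonneg (hm0 ν)]
    exact div_le_one_of_le₀ (hle ν α hα) (hm0 ν)
  have hlim : ∀ α, ∃ k : ℂ, α ∈ S → Tendsto (fun ν => b ν α / (m ν : ℂ)) 𝒰 (𝓝 k) := by
    intro α
    by_cases hα : α ∈ S
    · obtain ⟨k, -, hk⟩ := (isCompact_closedBall (0 : ℂ) 1).ultrafilter_le_nhds
        (𝒰.map (fun ν => b ν α / (m ν : ℂ))) (by
          rw [Filter.le_principal_iff]
          change ∀ᶠ ν in (𝒰 : Filter ℕ), b ν α / (m ν : ℂ) ∈ Metric.closedBall (0 : ℂ) 1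
          exact Filter.Eventually.of_forall (fun ν => by
            simpa using hq1 ν α hα))
      exact ⟨k, fun _ => hk⟩
    · exact ⟨0, fun h => absurd h hα⟩
  choose κ hκ using hlim
  refine ⟨κ, ?_, ?_, ?_⟩
  · have h1 : ∀ᶠ ν in (𝒰 : Filter ℕ), ∃ α ∈ (S : Set (Fin n → ℕ)), ‖b ν α‖ = m ν := by
      refine Filter.Eventually.of_forall (fun ν => ?_)
      obtain ⟨α, hα, h⟩ := Finset.exists_mem_eq_sup' hS (fun α => ‖b ν α‖)
      exact ⟨α, hα, h.symm⟩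
    have h2 : ∃ α ∈ (S : Set (Fin n → ℕ)), ∀ᶠ ν in (𝒰 : Filter ℕ), ‖b ν α‖ = m ν := by
      by_contra hcon
      push Not at hcon
      have h3 : ∀ᶠ ν in (𝒰 : Filter ℕ), ∀ α ∈ S, ¬ ‖b ν α‖ = m ν := by
        rw [Filter.eventually_all_finset]
        intro α hα
        exact hcon α hα
      obtain ⟨ν, ⟨α, hα, h4⟩, h5⟩ := (h1.and h3).exists
      exact h5 α hα h4
    obtain ⟨α, hα, h3⟩ := h2
    refine ⟨α, hα, ?_⟩
    have h4 : Tendsto (fun ν => ‖b ν α / (m ν : ℂ)‖) 𝒰 (𝓝 ‖κ α‖) := (hκ α hα).norm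
    have h5 : (fun ν => ‖b ν α / (m ν : ℂ)‖) =ᶠ[𝒰] fun _ => (1 : ℝ) := by
      filter_upwards [h3, hb0 α hα] with ν h6 h7
      rw [norm_div, Complex.norm_real, Real.norm_of_nonneg (hm0 ν), h6]
      exact div_self (h6 ▸ norm_ne_zero_iff.2 h7)
    have h6 : ‖κ α‖ = 1 := tendsto_nhds_unique h4 (tendsto_const_nhds.congr' h5.symm)
    intro h7
    rw [h7, norm_zero] at h6
    exact zero_ne_one h6
  · intro α hα hκα
    by_contra hnot
    rw [mem_fac] at hnot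
    push Not at hnot
    obtain ⟨β, hβ, hlt⟩ := hnot hα
    obtain ⟨D, hD0, hD⟩ : ∃ D : ℝ, 0 < D ∧ ∑ i, (α i : ℝ) * η i + 2 * D ≤ ∑ i, (β i : ℝ) * η i :=
      ⟨(∑ i, (β i : ℝ) * η i - ∑ i, (α i : ℝ) * η i) / 2, by linarith, by linarith⟩
    have hlimsum : Tendsto (fun ν => ∑ i, ((α i : ℝ) - β i) * ((r ν)⁻¹ * ((cen ν).2 i).re)) atTop
        (𝓝 (∑ i, ((α i : ℝ) - β i) * η i)) :=
      tendsto_finsetSum _ (fun i _ => (hη i).const_mul _)
    have hval : ∑ i, ((α i : ℝ) - β i) * η i < - D := by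
      have h1 : ∑ i, ((α i : ℝ) - β i) * η i = ∑ i, (α i : ℝ) * η i - ∑ i, (β i : ℝ) * η i := by
        rw [← Finset.sum_sub_distrib]
        exact Finset.sum_congr rfl (fun i _ => by ring)
      rw [h1]; linarith
    have hev : ∀ᶠ ν in atTop, ∑ i, ((α i : ℝ) - β i) * ((r ν)⁻¹ * ((cen ν).2 i).re) < - D :=
      hlimsum.eventually (gt_mem_nhds hval)
    have hnb : ∀ ν (γ : Fin n → ℕ), ‖b ν γ‖ =
        ‖c ν γ (cen ν).1‖ * Real.exp (∑ i, (γ i : ℝ) * ((cen ν).2 i).re) := by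
      intro ν γ
      rw [hb]
      simp only
      rw [norm_mul, Complex.norm_exp, Complex.re_sum]
      congr 2
      refine Finset.sum_congr rfl (fun i _ => ?_)
      simp
    have hzero : Tendsto (fun ν => r ν ^ (2 * C) / Real.exp (D * r ν)) atTop (𝓝 0) :=
      (isLittleO_pow_exp_pos_mul_atTop hD0 (k := 2 * C)).tendsto_div_nhds_zero.comp hr
    have hbound : ∀ᶠ ν in (𝒰 : Filter ℕ), ‖b ν α / (m ν : ℂ)‖ ≤ r ν ^ (2 * C) / Real.exp (D * r ν) := by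
      filter_upwards [h𝒰 hev, h𝒰 (hcb α hα), h𝒰 (hcb β hβ), hb0 β hβ] with ν h1 h2 h3 h4
      have hrν := hr0 ν
      have hβpos : 0 < ‖b ν β‖ := norm_pos_iff.2 h4
      have hmpos : 0 < m ν := lt_of_lt_of_le hβpos (hle ν β hβ)
      rw [norm_div, Complex.norm_real, Real.norm_of_nonneg (hm0 ν)]
      have h5 : ‖b ν α‖ / m ν ≤ ‖b ν α‖ / ‖b ν β‖ :=
        div_le_div_of_nonneg_left (norm_nonneg _) hβpos (hle ν β hβ)
      refine h5.trans ?_
      rw [div_le_div_iff₀ hβpos (Real.exp_pos _), hnb ν α, hnb ν β]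
      have h6 : Real.exp (∑ i, (α i : ℝ) * ((cen ν).2 i).re) * Real.exp (D * r ν) ≤
          Real.exp (∑ i, (β i : ℝ) * ((cen ν).2 i).re) := by
        rw [← Real.exp_add, Real.exp_le_exp]
        have h7 : ∑ i, ((α i : ℝ) - β i) * ((r ν)⁻¹ * ((cen ν).2 i).re) =
            (r ν)⁻¹ * (∑ i, (α i : ℝ) * ((cen ν).2 i).re - ∑ i, (β i : ℝ) * ((cen ν).2 i).re) := by
          rw [← Finset.sum_sub_distrib, Finset.mul_sum]
          exact Finset.sum_congr rfl (fun i _ => by ring)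
        rw [h7] at h1
        have h8 := mul_lt_mul_of_pos_left h1 hrν
        rw [← mul_assoc, mul_inv_cancel₀ hrν.ne', one_mul] at h8
        linarith
      have h9 : (1 : ℝ) ≤ r ν ^ C * ‖c ν β (cen ν).1‖ := by
        have h10 := mul_le_mul_of_nonneg_left h3.1 (pow_nonneg hrν.le C)
        rwa [mul_inv_cancel₀ (pow_pos hrν C).ne'] at h10
      have hEa := Real.exp_pos (∑ i, (α i : ℝ) * ((cen ν).2 i).re)
      have hEb := Real.exp_pos (∑ i, (β i : ℝ) * ((cen ν).2 i).re)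
      have hED := Real.exp_pos (D * r ν)
      calc ‖c ν α (cen ν).1‖ * Real.exp (∑ i, (α i : ℝ) * ((cen ν).2 i).re) * Real.exp (D * r ν)
          = ‖c ν α (cen ν).1‖ * (Real.exp (∑ i, (α i : ℝ) * ((cen ν).2 i).re) * Real.exp (D * r ν)) := by
            ring
        _ ≤ r ν ^ C * Real.exp (∑ i, (β i : ℝ) * ((cen ν).2 i).re) :=
            mul_le_mul h2.2 h6 (mul_pos hEa hED).le (pow_nonneg hrν.le C)
        _ ≤ r ν ^ C * Real.exp (∑ i, (β i : ℝ) * ((cen ν).2 i).re) * (r ν ^ C * ‖c ν β (cen ν).1‖) :=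
            le_mul_of_one_le_right (mul_nonneg (pow_nonneg hrν.le C) hEb.le) h9
        _ = r ν ^ (2 * C) * (‖c ν β (cen ν).1‖ * Real.exp (∑ i, (β i : ℝ) * ((cen ν).2 i).re)) := by
            rw [two_mul, pow_add]; ring
    have h0 : Tendsto (fun ν => ‖b ν α / (m ν : ℂ)‖) 𝒰 (𝓝 0) :=
      squeeze_zero' (Filter.Eventually.of_forall fun ν => norm_nonneg _) hbound (hzero.mono_left h𝒰)
    have h1 : Tendsto (fun ν => ‖b ν α / (m ν : ℂ)‖) 𝒰 (𝓝 ‖κ α‖) := (hκ α hα).norm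
    exact hκα (norm_eq_zero.1 (tendsto_nhds_unique h1 h0))
  · intro a v hv1 hv2 hrel
    have hR : ∀ᶠ ν in (𝒰 : Filter ℕ), ‖(a ν).1 - (cen ν).1‖ ≤ (‖v.1‖ + 1) / r ν := by
      have h1 := hv1.norm
      have h2 : ∀ᶠ ν in (𝒰 : Filter ℕ), ‖(r ν : ℂ) • ((a ν).1 - (cen ν).1)‖ < ‖v.1‖ + 1 :=
        h1.eventually (gt_mem_nhds (by linarith))
      filter_upwards [h2] with ν h3
      rw [norm_smul, Complex.norm_real, Real.norm_of_nonneg (hr0 ν).le] at h3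
      rw [le_div_iff₀ (hr0 ν), mul_comm]
      exact h3.le
    have hcδ : ∀ᶠ ν in (𝒰 : Filter ℕ), ‖(cen ν).1 - t₀‖ ≤ δ := by
      have h1 : ∀ᶠ ν in atTop, ‖(cen ν).1 - t₀‖ ≤ δ := by
        have h2 := (tendsto_iff_norm_sub_tendsto_zero.1 hcen1)
        exact (h2.eventually (gt_mem_nhds hδ)).mono (fun ν h => h.le)
      exact h𝒰 h1
    have hρ : ∀ α ∈ S, Tendsto (fun ν => c ν α (a ν).1 / c ν α (cen ν).1) 𝒰 (𝓝 1) := by
      intro α hα
      rw [tendsto_iff_norm_sub_tendsto_zero, Metric.tendsto_nhds]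
      intro ε hε
      filter_upwards [hR, hcδ, h𝒰 (hratio α hα (‖v.1‖ + 1) (ε / 2) (by positivity))] with ν h1 h2 h3
      have h4 := h3 (cen ν).1 h2 (a ν).1 h1
      rw [Real.dist_eq, sub_zero, abs_of_nonneg (norm_nonneg _)]
      linarith
    have hexp : ∀ α : Fin n → ℕ, Tendsto
        (fun ν => Complex.exp (∑ i, (α i : ℂ) * ((a ν).2 - (cen ν).2) i)) 𝒰
        (𝓝 (Complex.exp (∑ i, (α i : ℂ) * v.2 i))) := by
      intro α
      refine (Complex.continuous_exp.tendsto _).comp ?_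
      refine tendsto_finsetSum _ (fun i _ => ?_)
      refine Tendsto.const_mul _ ?_
      exact (tendsto_pi_nhds.1 hv2 i)
    have hsum : Tendsto (fun ν => ∑ α ∈ S, b ν α / (m ν : ℂ) *
        (c ν α (a ν).1 / c ν α (cen ν).1) *
        Complex.exp (∑ i, (α i : ℂ) * ((a ν).2 - (cen ν).2) i)) 𝒰 (𝓝 (esum S κ v.2)) := by
      have h1 : esum S κ v.2 = ∑ α ∈ S, κ α * 1 * Complex.exp (∑ i, (α i : ℂ) * v.2 i) := by
        simp [esum]
      rw [h1]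
      exact tendsto_finsetSum _ (fun α hα => ((hκ α hα).mul (hρ α hα)).mul (hexp α))
    have hzero : (fun ν => ∑ α ∈ S, b ν α / (m ν : ℂ) *
        (c ν α (a ν).1 / c ν α (cen ν).1) *
        Complex.exp (∑ i, (α i : ℂ) * ((a ν).2 - (cen ν).2) i)) =ᶠ[𝒰] fun _ => (0 : ℂ) := by
      have hall : ∀ᶠ ν in (𝒰 : Filter ℕ), ∀ α ∈ S, c ν α (cen ν).1 ≠ 0 := by
        rw [Filter.eventually_all_finset]
        intro α hα
        exact h𝒰 (hc0 α hα)
      filter_upwards [hrel, hall] with ν h1 h2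
      have h3 : ∀ α ∈ S, b ν α / (m ν : ℂ) * (c ν α (a ν).1 / c ν α (cen ν).1) *
          Complex.exp (∑ i, (α i : ℂ) * ((a ν).2 - (cen ν).2) i)
          = (c ν α (a ν).1 * Complex.exp (∑ i, (α i : ℂ) * (a ν).2 i)) / (m ν : ℂ) := by
        intro α hα
        have h4 : ∑ i, (α i : ℂ) * ((a ν).2 - (cen ν).2) i
            = ∑ i, (α i : ℂ) * (a ν).2 i - ∑ i, (α i : ℂ) * (cen ν).2 i := by
          rw [← Finset.sum_sub_distrib]
          refine Finset.sum_congr rfl (fun i _ => ?_)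
          rw [Pi.sub_apply, mul_sub]
        rw [h4, Complex.exp_sub, hb]
        have h5 := h2 α hα
        have h6 := Complex.exp_ne_zero (∑ i, (α i : ℂ) * (cen ν).2 i)
        simp only
        field_simp
      rw [Finset.sum_congr rfl h3, ← Finset.sum_div, h1, zero_div]
    exact tendsto_nhds_unique hsum (tendsto_const_nhds.congr' hzero.symm)

end Pool.Agent.Lib.MP_209724_lc.GF
end

section

namespace Pool.Agent.Lib.MP_209724_lc.GF

open Filter Topology Metric Set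
open GS (Ew)
open GD (esum LamOpen)

variable {n d : ℕ}

/-- **Moving in `Λ` modulo `K`.** As `GD.chain` (`GD/Chain.lean`), when the exponents of the sums
`esum (S j) (κ j)` with nonzero coefficients differ by vectors which vanish on `K`: one can also move
`w` by an element of `K`.

Proof. The proof of `GD.chain` with `c_σ = L ζ_σ - v.2 - σ s`, `σ ∈ [0, 1]`: if `v' ∈ Λ` has
`L v'.1 - v'.2 = c_σ`, then with `θ = v'.1 - ζ_σ` we have `v'.2 = v.2 + σ s + L θ`. By `hΛ`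
`esum (S j) (κ j) (v.2 + σ s + L θ) = 0`, and this is `exp(α₀ · (σ s))` times `esum (S j) (κ j) (v.2 + L θ)`
for any `α₀ ∈ S j` with `κ j α₀ ≠ 0` (all `α` with `κ j α ≠ 0` have the same value at `σ s`, by `hK`). So again
`θ` is a common zero of the sums `∑ α, (κ j α exp(α · v.2)) exp(α · L θ)`. The number `N` of steps is
chosen such that `‖ζ' - v.1‖ / N ≤ τ / 2` and `(‖L‖ ‖ζ' - v.1‖ + ‖s‖) / N ≤ c₀`. -/
theorem chainK {J : Type} [Fintype J] (S : J → Finset (Fin n → ℕ)) (L : Ew d →L[ℂ] (Fin n → ℂ))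
    (hsel : ∀ b : Ew d, ∀ α β : J → Fin n → ℕ, (∀ j, α j ∈ S j ∧ β j ∈ S j ∧ α j ≠ β j) →
      (∀ j, ∑ i, ((α j i : ℂ) - β j i) * L b i = 0) → b = 0)
    (κ : J → (Fin n → ℕ) → ℂ) (hκ : ∀ j, ∃ α ∈ S j, κ j α ≠ 0) (Λ : Set (Ew d × (Fin n → ℂ)))
    (hopen : LamOpen L Λ) (hΛ : ∀ v ∈ Λ, ∀ j, esum (S j) (κ j) v.2 = 0)
    (K : Submodule ℂ (Fin n → ℂ))
    (hK : ∀ j, ∀ α ∈ S j, ∀ β ∈ S j, κ j α ≠ 0 → κ j β ≠ 0 → ∀ s ∈ K,
      ∑ i, ((α i : ℂ) - β i) * s i = 0)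
    {v : Ew d × (Fin n → ℂ)} (hv : v ∈ Λ) (ζ' : Ew d) {s : Fin n → ℂ} (hs : s ∈ K) {ε : ℝ}
    (hε : 0 < ε) :
    ∃ v' ∈ Λ, ‖v'.1 - ζ'‖ ≤ ε ∧ L v'.1 - v'.2 = L ζ' - v.2 - s := by
  classical
  set a : J → (Fin n → ℕ) → ℂ := fun j α => κ j α * Complex.exp (∑ i, (α i : ℂ) * v.2 i) with hadef
  have ha : ∀ j, ∃ α ∈ S j, a j α ≠ 0 := by
    intro j
    obtain ⟨α, hα, h⟩ := hκ j
    exact ⟨α, hα, mul_ne_zero h (Complex.exp_ne_zero _)⟩
  have h0 : ∀ j, ∑ α ∈ S j, a j α = 0 := fun j => hΛ v hv j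
  obtain ⟨σ, hσ0, hσε, hσ⟩ := GP.sphere_of_sel S L hsel a ha h0 hε
  -- the common zeros
  set g : Ew d → ℝ := fun θ => ∑ j, ‖∑ α ∈ S j, a j α * Complex.exp (∑ i, (α i : ℂ) * L θ i)‖
    with hgdef
  have hgc : Continuous g := by
    rw [hgdef]
    fun_prop
  have hg0 : ∀ θ, (∀ j, ∑ α ∈ S j, a j α * Complex.exp (∑ i, (α i : ℂ) * L θ i) = 0) → g θ = 0 := by
    intro θ h
    rw [hgdef]
    exact Finset.sum_eq_zero fun j _ => by rw [h j, norm_zero]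
  have hg1 : ∀ θ, g θ = 0 → ∀ j, ∑ α ∈ S j, a j α * Complex.exp (∑ i, (α i : ℂ) * L θ i) = 0 := by
    intro θ h j
    have h1 := (Finset.sum_eq_zero_iff_of_nonneg (fun j _ => norm_nonneg _)).1 h j (Finset.mem_univ j)
    exact norm_eq_zero.1 h1
  have hcpt : IsCompact (closedBall (0 : Ew d) (2 * σ) ∩ {θ | g θ = 0}) :=
    (isCompact_closedBall _ _).inter_right (isClosed_eq hgc continuous_const)
  have hne : (closedBall (0 : Ew d) (2 * σ) ∩ {θ | g θ = 0}).Nonempty := by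
    refine ⟨0, mem_closedBall_self (by positivity), hg0 0 fun j => ?_⟩
    rw [← h0 j]
    refine Finset.sum_congr rfl fun α _ => ?_
    simp
  have hcf : Continuous (fun θ : Ew d => |‖θ‖ - σ|) := by fun_prop
  obtain ⟨θ₀, hθ₀, hmin⟩ := hcpt.exists_isMinOn hne hcf.continuousOn
  have hm : 0 < |‖θ₀‖ - σ| := by
    rw [abs_pos]
    intro h
    obtain ⟨j, hj⟩ := hσ θ₀ (by linarith)
    exact hj (hg1 θ₀ hθ₀.2 j)
  set m : ℝ := |‖θ₀‖ - σ| with hmdef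
  obtain ⟨τ, hτ0, hτσ, hτm⟩ : ∃ τ : ℝ, 0 < τ ∧ τ < σ ∧ τ < m :=
    ⟨min σ m / 2, by positivity, by linarith [min_le_left σ m, lt_min hσ0 hm],
      by linarith [min_le_right σ m, lt_min hσ0 hm]⟩
  have key : ∀ θ, g θ = 0 → ‖θ‖ < σ + τ → ‖θ‖ < σ := by
    intro θ hθ hlt
    have h1 : m ≤ |‖θ‖ - σ| := by
      have h2 := hmin (⟨mem_closedBall_zero_iff.2 (by linarith), hθ⟩ :
        θ ∈ closedBall (0 : Ew d) (2 * σ) ∩ {θ | g θ = 0})
      exact h2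
    by_contra hcon
    push Not at hcon
    rw [abs_of_nonneg (by linarith)] at h1
    linarith
  obtain ⟨c₀, hc₀, hop⟩ := hopen (τ / 2) (by positivity)
  -- the number of steps
  obtain ⟨N, hN⟩ := exists_nat_gt (max (2 * ‖ζ' - v.1‖ / τ) ((‖L‖ * ‖ζ' - v.1‖ + ‖s‖) / c₀))
  have hNpos : (0 : ℝ) < N := lt_of_le_of_lt (le_max_of_le_left (by positivity)) hN
  have hN1 : ‖ζ' - v.1‖ / N ≤ τ / 2 := by
    have h1 := (le_max_left _ _).trans_lt hN
    rw [div_lt_iff₀ hτ0] at h1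
    rw [div_le_iff₀ hNpos]
    linarith
  have hN2 : ‖L‖ * (‖ζ' - v.1‖ / N) + ‖s‖ / N ≤ c₀ := by
    have h1 := (le_max_right _ _).trans_lt hN
    rw [div_lt_iff₀ hc₀] at h1
    rw [← mul_div_assoc, ← add_div, div_le_iff₀ hNpos]
    linarith
  set ζs : ℕ → Ew d := fun k => v.1 + ((k : ℂ) / N) • (ζ' - v.1) with hζs
  have hdiff : ∀ k, ζs (k + 1) - ζs k = ((1 : ℂ) / N) • (ζ' - v.1) := by
    intro k
    rw [hζs]
    simp only [Nat.cast_add, Nat.cast_one]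
    rw [add_sub_add_left_eq_sub, ← sub_smul]
    congr 1
    ring
  have hdn : ∀ k, ‖ζs (k + 1) - ζs k‖ = ‖ζ' - v.1‖ / N := by
    intro k
    rw [hdiff, norm_smul, norm_div, norm_one, Complex.norm_natCast]
    ring
  have ind : ∀ k : ℕ, ∃ u ∈ Λ, L u.1 - u.2 = L (ζs k) - v.2 - ((k : ℂ) / N) • s ∧
      ‖u.1 - ζs k‖ < σ := by
    intro k
    induction k with
    | zero =>
      refine ⟨v, hv, ?_, ?_⟩
      · rw [hζs]
        simp
      · rw [hζs]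
        simpa using hσ0
    | succ k ih =>
      obtain ⟨u, hu, hu1, hu2⟩ := ih
      obtain ⟨u', hu', h1, h2⟩ := hop u hu
        (L (ζs (k + 1)) - v.2 - (((k + 1 : ℕ) : ℂ) / N) • s) (by
        have e0 : L (ζs (k + 1)) - v.2 - (((k + 1 : ℕ) : ℂ) / N) • s - (L u.1 - u.2) =
            L (ζs (k + 1) - ζs k) - ((1 : ℂ) / N) • s := by
          rw [hu1, map_sub]
          have e3 : (((k + 1 : ℕ) : ℂ) / N) • s = ((k : ℂ) / N) • s + ((1 : ℂ) / N) • s := by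
            rw [← add_smul]
            congr 1
            push_cast
            ring
          rw [e3]
          abel
        rw [e0]
        refine (norm_sub_le _ _).trans (le_trans (add_le_add (L.le_opNorm _) le_rfl) ?_)
        rw [hdn, norm_smul, norm_div, norm_one, Complex.norm_natCast, one_div_mul_eq_div]
        exact hN2)
      refine ⟨u', hu', h2, key _ ?_ ?_⟩
      · refine hg0 _ fun j => ?_
        have h3 := hΛ u' hu' j
        obtain ⟨α₀, hα₀, hκ₀⟩ := hκ j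
        set c : ℂ := ((k + 1 : ℕ) : ℂ) / N with hcdef
        have h4 : ∀ i, u'.2 i = v.2 i + c * s i + L (u'.1 - ζs (k + 1)) i := by
          intro i
          have h5 := congrFun h2 i
          simp only [Pi.sub_apply, Pi.smul_apply, smul_eq_mul] at h5
          rw [map_sub, Pi.sub_apply]
          linear_combination -h5
        have h6 : esum (S j) (κ j) u'.2 = Complex.exp (∑ i, (α₀ i : ℂ) * (c * s i)) *
            ∑ α ∈ S j, a j α * Complex.exp (∑ i, (α i : ℂ) * L (u'.1 - ζs (k + 1)) i) := by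
          unfold esum
          rw [Finset.mul_sum]
          refine Finset.sum_congr rfl fun α hα => ?_
          by_cases hz : κ j α = 0
          · simp [hadef, hz]
          · have h7 := hK j α hα α₀ hα₀ hz hκ₀ s hs
            have h8 : ∑ i, (α i : ℂ) * u'.2 i = ∑ i, (α₀ i : ℂ) * (c * s i) +
                (∑ i, (α i : ℂ) * v.2 i + ∑ i, (α i : ℂ) * L (u'.1 - ζs (k + 1)) i) := by
              have h9 : ∑ i, (α i : ℂ) * u'.2 i - (∑ i, (α₀ i : ℂ) * (c * s i) +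
                  (∑ i, (α i : ℂ) * v.2 i + ∑ i, (α i : ℂ) * L (u'.1 - ζs (k + 1)) i)) =
                  c * ∑ i, ((α i : ℂ) - α₀ i) * s i := by
                rw [Finset.mul_sum, ← Finset.sum_add_distrib, ← Finset.sum_add_distrib,
                  ← Finset.sum_sub_distrib]
                refine Finset.sum_congr rfl fun i _ => ?_
                rw [h4 i]
                ring
              rw [h7, mul_zero, sub_eq_zero] at h9
              exact h9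
            rw [h8, Complex.exp_add, Complex.exp_add]
            rw [hadef]
            ring
        rw [h6] at h3
        exact (mul_eq_zero.1 h3).resolve_left (Complex.exp_ne_zero _)
      · have e1 : u'.1 - ζs (k + 1) = (u'.1 - u.1) + (u.1 - ζs k) - (ζs (k + 1) - ζs k) := by abel
        rw [e1]
        have e2 := norm_sub_le ((u'.1 - u.1) + (u.1 - ζs k)) (ζs (k + 1) - ζs k)
        have e3 := norm_add_le (u'.1 - u.1) (u.1 - ζs k)
        rw [hdn] at e2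
        linarith
  obtain ⟨u, hu, hu1, hu2⟩ := ind N
  have hNζ : ζs N = ζ' := by
    rw [hζs]
    have h1 : (N : ℂ) ≠ 0 := by
      exact_mod_cast hNpos.ne'
    simp only
    rw [div_self h1, one_smul]
    abel
  have hN0 : (N : ℂ) ≠ 0 := by
    exact_mod_cast hNpos.ne'
  rw [hNζ, div_self hN0, one_smul] at hu1
  rw [hNζ] at hu2
  exact ⟨u, hu, (hu2.trans hσε).le, hu1⟩

end Pool.Agent.Lib.MP_209724_lc.GF
end

section

namespace Pool.Agent.Lib.MP_209724_lc.GF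

open Filter Topology Metric Set
open GS (Ew)
open GD (esum LamOpen kronecker)

variable {n d : ℕ}

/-- **Recurrence modulo `K`.** As `GD.recur` (`GD/Rec.lean`), modulo a subspace `K` of `ℂⁿ` stable under
complex conjugation: `T + K` is stable under conjugation, where `T = L(ℂ^d)`, and no nonzero integral form
vanishes on it.

Proof. The proof of `GD.recur` with `T_R = {τ : Fin n → ℝ | ∃ ζ, ∃ s ∈ K, ∀ i, L ζ i = τ i + s i}`, a real
subspace. It contains the real vectors of `K` (`ζ = 0`), and for every `ζ` the real and imaginary part of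
`L ζ`: with `ζ'` from `hconj`, `L ζ' = conj(L ζ) + s'`, `s' ∈ K`, so
`L ((ζ + ζ')/2) = Re(L ζ) + s'/2`, `L ((ζ - ζ')/(2i)) = Im(L ζ) - s'/(2i)`. Let `m ≠ 0`. If `m · s ≠ 0` for some
`s ∈ K`, then `m · Re s ≠ 0` or `m · Im s ≠ 0`, and `Re s, Im s ∈ K` by `hKc`, so they are in `T_R`.
Otherwise `hm` gives `ζ` with `m · L ζ ≠ 0`, and the real or the imaginary part of `L ζ` works. So by
`kronecker` there are `τ ∈ T_R`, `L ζ₁ = τ + s₁`, and `m` with `|τ_i - Im v.2_i - 2π m_i| ≤ min c₀ ε'`. Let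
`L ζ₀ = Re v.2 + s₀`, `ζ' = ζ₀ + i ζ₁`, `s = s₀ + i s₁ ∈ K`. Then `L ζ' - v.2 - s = i (τ - Im v.2)`. By
`chainK` there is `v'' ∈ Λ` with `‖v''.1 - ζ'‖ ≤ ε'` and this value; by `hopen` there is `v' ∈ Λ` with
`‖v'.1 - v''.1‖ ≤ ε'`, `L v'.1 - v'.2 = 2πi m`, and as there `‖v'.2 - v.2 - s‖ ≤ (2 ‖L‖ + 1) ε'`. -/
theorem recurK {J : Type} [Fintype J] (S : J → Finset (Fin n → ℕ)) (L : Ew d →L[ℂ] (Fin n → ℂ))
    (hsel : ∀ b : Ew d, ∀ α β : J → Fin n → ℕ, (∀ j, α j ∈ S j ∧ β j ∈ S j ∧ α j ≠ β j) →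
      (∀ j, ∑ i, ((α j i : ℂ) - β j i) * L b i = 0) → b = 0)
    (κ : J → (Fin n → ℕ) → ℂ) (hκ : ∀ j, ∃ α ∈ S j, κ j α ≠ 0) (Λ : Set (Ew d × (Fin n → ℂ)))
    (hopen : LamOpen L Λ) (hΛ : ∀ v ∈ Λ, ∀ j, esum (S j) (κ j) v.2 = 0)
    (K : Submodule ℂ (Fin n → ℂ))
    (hK : ∀ j, ∀ α ∈ S j, ∀ β ∈ S j, κ j α ≠ 0 → κ j β ≠ 0 → ∀ s ∈ K,
      ∑ i, ((α i : ℂ) - β i) * s i = 0)
    (hKc : ∀ s ∈ K, (fun i => (starRingEnd ℂ) (s i)) ∈ K)
    (hconj : ∀ ζ : Ew d, ∃ ζ' : Ew d, (fun i => L ζ' i - (starRingEnd ℂ) (L ζ i)) ∈ K)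
    (hm : ∀ m : Fin n → ℤ, m ≠ 0 → (∀ s ∈ K, ∑ i, (m i : ℂ) * s i = 0) →
      ∃ ζ : Ew d, ∑ i, (m i : ℂ) * L ζ i ≠ 0)
    {v : Ew d × (Fin n → ℂ)} (hv : v ∈ Λ) (ζ₀ : Ew d)
    (hre : (fun i => L ζ₀ i - ((v.2 i).re : ℂ)) ∈ K) {ε : ℝ} (hε : 0 < ε) :
    ∃ v' ∈ Λ, ∃ m : Fin n → ℤ, (∀ i, L v'.1 i - v'.2 i = 2 * Real.pi * Complex.I * m i) ∧
      ∃ s ∈ K, ‖v'.2 - v.2 - s‖ ≤ ε := by
  let T : Submodule ℝ (Fin n → ℝ) :=
    { carrier := {τ | ∃ ζ : Ew d, (fun i => L ζ i - (τ i : ℂ)) ∈ K}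
      add_mem' := by
        rintro a b ⟨ζ, hζ⟩ ⟨ξ, hξ⟩
        refine ⟨ζ + ξ, ?_⟩
        have e : (fun i => L (ζ + ξ) i - (((a + b) i : ℝ) : ℂ)) =
            (fun i => L ζ i - (a i : ℂ)) + (fun i => L ξ i - (b i : ℂ)) := by
          funext i
          rw [map_add, Pi.add_apply, Pi.add_apply, Pi.add_apply, Complex.ofReal_add]
          ring
        rw [e]
        exact K.add_mem hζ hξ
      zero_mem' := by
        refine ⟨0, ?_⟩
        have e : (fun i => L (0 : Ew d) i - (((0 : Fin n → ℝ) i : ℝ) : ℂ)) = 0 := by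
          funext i
          rw [map_zero, Pi.zero_apply, Pi.zero_apply, Complex.ofReal_zero, sub_zero]
        rw [e]
        exact K.zero_mem
      smul_mem' := by
        rintro c a ⟨ζ, hζ⟩
        refine ⟨(c : ℂ) • ζ, ?_⟩
        have e : (fun i => L ((c : ℂ) • ζ) i - (((c • a) i : ℝ) : ℂ)) =
            (c : ℂ) • (fun i => L ζ i - (a i : ℂ)) := by
          funext i
          rw [map_smul, Pi.smul_apply, Pi.smul_apply, Pi.smul_apply, smul_eq_mul, smul_eq_mul,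
            smul_eq_mul, Complex.ofReal_mul]
          ring
        rw [e]
        exact K.smul_mem _ hζ }
  have hTmem : ∀ τ : Fin n → ℝ, τ ∈ T ↔ ∃ ζ : Ew d, (fun i => L ζ i - (τ i : ℂ)) ∈ K :=
    fun τ => Iff.rfl
  have hKreim : ∀ s ∈ K, ((fun i => (((s i).re : ℝ) : ℂ)) ∈ K) ∧
      ((fun i => (((s i).im : ℝ) : ℂ)) ∈ K) := by
    intro s hs
    constructor
    · have e : (fun i => (((s i).re : ℝ) : ℂ)) =
          (1 / 2 : ℂ) • (s + (fun i => (starRingEnd ℂ) (s i))) := by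
        funext i
        rw [Pi.smul_apply, Pi.add_apply, smul_eq_mul, Complex.add_conj]
        push_cast
        ring
      rw [e]
      exact K.smul_mem _ (K.add_mem hs (hKc s hs))
    · have e : (fun i => (((s i).im : ℝ) : ℂ)) =
          (1 / (2 * Complex.I) : ℂ) • (s - (fun i => (starRingEnd ℂ) (s i))) := by
        funext i
        rw [Pi.smul_apply, Pi.sub_apply, smul_eq_mul, Complex.sub_conj]
        have hI : Complex.I ≠ 0 := Complex.I_ne_zero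
        push_cast
        field_simp
      rw [e]
      exact K.smul_mem _ (K.sub_mem hs (hKc s hs))
  have hTK : ∀ τ : Fin n → ℝ, (fun i => ((τ i : ℝ) : ℂ)) ∈ K → τ ∈ T := by
    intro τ hτ
    rw [hTmem]
    refine ⟨0, ?_⟩
    have e : (fun i => L (0 : Ew d) i - (τ i : ℂ)) = -(fun i => ((τ i : ℝ) : ℂ)) := by
      funext i
      rw [map_zero, Pi.zero_apply, Pi.neg_apply, zero_sub]
    rw [e]
    exact K.neg_mem hτ
  have hT : ∀ m : Fin n → ℤ, m ≠ 0 → ∃ τ ∈ T, ∑ i, (m i : ℝ) * τ i ≠ 0 := by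
    intro m hm0
    by_contra hcon
    push Not at hcon
    have hzero : ∀ w : Fin n → ℂ, (fun i => (w i).re) ∈ T → (fun i => (w i).im) ∈ T →
        ∑ i, (m i : ℂ) * w i = 0 := by
      intro w h1 h2
      have e1 := hcon _ h1
      have e2 := hcon _ h2
      apply Complex.ext
      · rw [Complex.re_sum, Complex.zero_re, ← e1]
        refine Finset.sum_congr rfl fun i _ => ?_
        simp [Complex.mul_re]
      · rw [Complex.im_sum, Complex.zero_im, ← e2]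
        refine Finset.sum_congr rfl fun i _ => ?_
        simp [Complex.mul_im]
    have hsK : ∀ s ∈ K, ∑ i, (m i : ℂ) * s i = 0 := fun s hs =>
      hzero s (hTK _ (hKreim s hs).1) (hTK _ (hKreim s hs).2)
    obtain ⟨ζ, hζ⟩ := hm m hm0 hsK
    obtain ⟨ξ, hξ⟩ := hconj ζ
    have h1 : (fun i => (L ζ i).re) ∈ T := by
      rw [hTmem]
      refine ⟨(1 / 2 : ℂ) • (ζ + ξ), ?_⟩
      have e : (fun i => L ((1 / 2 : ℂ) • (ζ + ξ)) i - (((L ζ i).re : ℝ) : ℂ)) =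
          (1 / 2 : ℂ) • (fun i => L ξ i - (starRingEnd ℂ) (L ζ i)) := by
        funext i
        have h := Complex.add_conj (L ζ i)
        push_cast at h
        rw [map_smul, map_add, Pi.smul_apply, Pi.add_apply, Pi.smul_apply, smul_eq_mul, smul_eq_mul]
        linear_combination (1 / 2 : ℂ) * h
      rw [e]
      exact K.smul_mem _ hξ
    have h2 : (fun i => (L ζ i).im) ∈ T := by
      rw [hTmem]
      refine ⟨(1 / (2 * Complex.I) : ℂ) • (ζ - ξ), ?_⟩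
      have e : (fun i => L ((1 / (2 * Complex.I) : ℂ) • (ζ - ξ)) i - (((L ζ i).im : ℝ) : ℂ)) =
          (-(1 / (2 * Complex.I)) : ℂ) • (fun i => L ξ i - (starRingEnd ℂ) (L ζ i)) := by
        funext i
        have h := Complex.sub_conj (L ζ i)
        push_cast at h
        have hI : Complex.I ≠ 0 := Complex.I_ne_zero
        have h2 : (((L ζ i).im : ℝ) : ℂ) = 1 / (2 * Complex.I) *
            (L ζ i - (starRingEnd ℂ) (L ζ i)) := by
          rw [h]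
          field_simp
        rw [map_smul, map_sub, Pi.smul_apply, Pi.sub_apply, Pi.smul_apply, smul_eq_mul, smul_eq_mul,
          h2]
        ring
      rw [e]
      exact K.smul_mem _ hξ
    exact hζ (hzero (L ζ) h1 h2)
  have hC : 0 < 2 * ‖L‖ + 1 := by positivity
  set ε' : ℝ := ε / (2 * ‖L‖ + 1) with hε'def
  have hε' : 0 < ε' := div_pos hε hC
  obtain ⟨c₀, hc₀, hop⟩ := hopen ε' hε'
  obtain ⟨τ, hτ, m, hτm⟩ := kronecker T hT (fun i => (v.2 i).im) (lt_min hc₀ hε')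
  obtain ⟨ζ₁, hζ₁⟩ := (hTmem τ).1 hτ
  set s : Fin n → ℂ := (fun i => L ζ₀ i - ((v.2 i).re : ℂ)) +
    Complex.I • (fun i => L ζ₁ i - (τ i : ℂ)) with hsdef
  have hs : s ∈ K := K.add_mem hre (K.smul_mem _ hζ₁)
  obtain ⟨v'', hv'', hd, he⟩ :=
    chainK S L hsel κ hκ Λ hopen hΛ K hK hv (ζ₀ + Complex.I • ζ₁) hs hε'
  have hval : ∀ i, (L v''.1 - v''.2) i = Complex.I * ((τ i - (v.2 i).im : ℝ) : ℂ) := by
    intro i
    have hsi : s i = (L ζ₀ i - ((v.2 i).re : ℂ)) + Complex.I * (L ζ₁ i - (τ i : ℂ)) := by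
      rw [hsdef, Pi.add_apply, Pi.smul_apply, smul_eq_mul]
    have hv2 : v.2 i = ((v.2 i).re : ℂ) + Complex.I * ((v.2 i).im : ℂ) := by
      rw [mul_comm Complex.I, Complex.re_add_im]
    rw [he, Pi.sub_apply, Pi.sub_apply, map_add, map_smul, Pi.add_apply, Pi.smul_apply, hsi,
      smul_eq_mul]
    push_cast
    linear_combination -hv2
  have hcd : ‖(fun i => 2 * Real.pi * Complex.I * (m i : ℂ)) - (L v''.1 - v''.2)‖ ≤ min c₀ ε' := by
    rw [pi_norm_le_iff_of_nonneg (lt_min hc₀ hε').le]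
    intro i
    have e : ((fun i => 2 * Real.pi * Complex.I * (m i : ℂ)) - (L v''.1 - v''.2)) i =
        Complex.I * ((-(τ i - (v.2 i).im - 2 * Real.pi * m i) : ℝ) : ℂ) := by
      rw [Pi.sub_apply, hval]
      push_cast
      ring
    rw [e, norm_mul, Complex.norm_I, one_mul, Complex.norm_real, norm_neg, Real.norm_eq_abs]
    exact hτm i
  obtain ⟨v', hv', hd', he'⟩ := hop v'' hv'' _ (hcd.trans (min_le_left _ _))
  refine ⟨v', hv', m, fun i => ?_, s, hs, ?_⟩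
  · have := congrFun he' i
    rw [Pi.sub_apply] at this
    exact this
  · have key : v'.2 - v.2 - s = L (v'.1 - v''.1) + L (v''.1 - (ζ₀ + Complex.I • ζ₁)) -
        ((fun i => 2 * Real.pi * Complex.I * (m i : ℂ)) - (L v''.1 - v''.2)) := by
      rw [← he', he, map_sub, map_sub]
      abel
    rw [key]
    have n1 : ‖L (v'.1 - v''.1)‖ ≤ ‖L‖ * ε' :=
      (L.le_opNorm _).trans (mul_le_mul_of_nonneg_left hd' (norm_nonneg _))
    have n2 : ‖L (v''.1 - (ζ₀ + Complex.I • ζ₁))‖ ≤ ‖L‖ * ε' :=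
      (L.le_opNorm _).trans (mul_le_mul_of_nonneg_left hd (norm_nonneg _))
    have n3 := hcd.trans (min_le_right _ _)
    have hfin : (2 * ‖L‖ + 1) * ε' = ε := by
      rw [hε'def]
      field_simp
    calc _ ≤ ‖L (v'.1 - v''.1) + L (v''.1 - (ζ₀ + Complex.I • ζ₁))‖ +
          ‖(fun i => 2 * Real.pi * Complex.I * (m i : ℂ)) - (L v''.1 - v''.2)‖ := norm_sub_le _ _
      _ ≤ (‖L‖ * ε' + ‖L‖ * ε') + ε' :=
          add_le_add ((norm_add_le _ _).trans (add_le_add n1 n2)) n3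
      _ = ε := by rw [← hfin]; ring

end Pool.Agent.Lib.MP_209724_lc.GF
end

section

namespace Pool.Agent.Lib.MP_209724_lc.GF

open Filter Topology Metric Set
open GS (Ew)
open GD (esum LamOpen)

variable {n d : ℕ}

private theorem esumK_cont (S : Finset (Fin n → ℕ)) (κ : (Fin n → ℕ) → ℂ) :
    Continuous fun w : Fin n → ℂ => esum S κ w := by
  unfold esum
  fun_prop

/-- restriction to the first coordinates -/
private noncomputable def resK (d : ℕ) : Ew (d + 1) →ₗ[ℂ] Ew d where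
  toFun z := WithLp.toLp 2 fun i => z (Fin.castSucc i)
  map_add' x y := by
    ext i
    simp
  map_smul' a x := by
    ext i
    simp

/-- `z ↦ z_last b` -/
private noncomputable def lstK (d : ℕ) (b : Fin n → ℝ) : Ew (d + 1) →ₗ[ℂ] (Fin n → ℂ) where
  toFun z := fun i => z (Fin.last d) * b i
  map_add' x y := by
    funext i
    simp [add_mul]
  map_smul' a x := by
    funext i
    simp [mul_assoc]

private theorem esumK_shift (S : Finset (Fin n → ℕ)) (κ : (Fin n → ℕ) → ℂ)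
    (hκ : ∃ α ∈ S, κ α ≠ 0) (s : Fin n → ℂ)
    (hs : ∀ α ∈ S, ∀ β ∈ S, κ α ≠ 0 → κ β ≠ 0 → ∑ i, ((α i : ℂ) - β i) * s i = 0)
    (w : Fin n → ℂ) (hw : esum S κ w = 0) : esum S κ (w - s) = 0 := by
  obtain ⟨α₀, hα₀, hne₀⟩ := hκ
  have h1 : esum S κ (w - s) = Complex.exp (-∑ i, (α₀ i : ℂ) * s i) * esum S κ w := by
    unfold esum
    rw [Finset.mul_sum]
    refine Finset.sum_congr rfl fun α hα => ?_
    by_cases h0 : κ α = 0
    · rw [h0]
      ring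
    · have h2 := hs α hα α₀ hα₀ h0 hne₀
      have h3 : ∑ i, (α i : ℂ) * (w - s) i =
          -(∑ i, (α₀ i : ℂ) * s i) + ∑ i, (α i : ℂ) * w i := by
        have h4 : ∑ i, (α i : ℂ) * (w - s) i =
            ∑ i, (α i : ℂ) * w i - ∑ i, ((α i : ℂ) - α₀ i) * s i - ∑ i, (α₀ i : ℂ) * s i := by
          rw [← Finset.sum_sub_distrib, ← Finset.sum_sub_distrib]
          refine Finset.sum_congr rfl fun i _ => ?_
          rw [Pi.sub_apply]
          ring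
        rw [h4, h2]
        ring
      rw [h3, Complex.exp_add]
      ring
  rw [h1, hw, mul_zero]

/-- **The contradiction modulo `K`.** As `GD.no_limit_set` (`GD/Abs.lean`); now the exponents with nonzero
coefficients in each of the sums `esum (S j) (κ j)`, `esum (S' j) (κ' j)` differ by vectors which vanish on
`K`.

Proof. The proof of `GD.no_limit_set`: `v_θ ∈ Λ` with `L v_θ.1 - v_θ.2 = -(i θ) b`, so the real part of
`v_θ.2` is that of `L v_θ.1`, which is `L ((ζ + ζ')/2)` modulo `K` (`hconj`: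
`L ζ' = conj(L ζ) + s'`, so `L ((ζ + ζ')/2) = Re(L ζ) + s'/2`). By `recurK` for every `ε > 0` there are
`v' ∈ Λ` with `L v'.1 - v'.2 ∈ 2πi ℤⁿ` and `s ∈ K` with `‖v'.2 - s - v_θ.2‖ ≤ ε`. By `hΛ'`
`esum (S' j) (κ' j) v'.2 = 0`, and `esum (S' j) (κ' j) (v'.2 - s)` is `exp(- α₀ · s)` times it (`hK'`: all
`α` with `κ' j α ≠ 0` have the same value `α₀ · s` at `s`), so it is also `0`. By continuity
`esum (S' j) (κ' j) v_θ.2 = 0` for all `j`. The rest is the same. -/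
theorem no_limit_setK {J : Type} [Fintype J] (S : J → Finset (Fin n → ℕ))
    (L : Ew d →L[ℂ] (Fin n → ℂ))
    (hsel : ∀ b : Ew d, ∀ α β : J → Fin n → ℕ, (∀ j, α j ∈ S j ∧ β j ∈ S j ∧ α j ≠ β j) →
      (∀ j, ∑ i, ((α j i : ℂ) - β j i) * L b i = 0) → b = 0)
    (κ : J → (Fin n → ℕ) → ℂ) (hκ : ∀ j, ∃ α ∈ S j, κ j α ≠ 0) (Λ : Set (Ew d × (Fin n → ℂ)))
    (h0 : (0 : Ew d × (Fin n → ℂ)) ∈ Λ)
    (hopen : LamOpen L Λ) (hΛ : ∀ v ∈ Λ, ∀ j, esum (S j) (κ j) v.2 = 0)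
    (K : Submodule ℂ (Fin n → ℂ))
    (hK : ∀ j, ∀ α ∈ S j, ∀ β ∈ S j, κ j α ≠ 0 → κ j β ≠ 0 → ∀ s ∈ K,
      ∑ i, ((α i : ℂ) - β i) * s i = 0)
    (hKc : ∀ s ∈ K, (fun i => (starRingEnd ℂ) (s i)) ∈ K)
    (hconj : ∀ ζ : Ew d, ∃ ζ' : Ew d, (fun i => L ζ' i - (starRingEnd ℂ) (L ζ i)) ∈ K)
    (hm : ∀ m : Fin n → ℤ, m ≠ 0 → (∀ s ∈ K, ∑ i, (m i : ℂ) * s i = 0) →
      ∃ ζ : Ew d, ∑ i, (m i : ℂ) * L ζ i ≠ 0)
    {J' : Type} [Fintype J'] (S' : J' → Finset (Fin n → ℕ)) (b : Fin n → ℝ)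
    (hsel' : ∀ ζ : Ew d, ∀ s : ℂ, ∀ α β : J' → Fin n → ℕ,
      (∀ j, α j ∈ S' j ∧ β j ∈ S' j ∧ α j ≠ β j) →
      (∀ j, ∑ i, ((α j i : ℂ) - β j i) * (L ζ i + s * b i) = 0) → ζ = 0 ∧ s = 0)
    (κ' : J' → (Fin n → ℕ) → ℂ) (hκ' : ∀ j, ∃ α ∈ S' j, κ' j α ≠ 0)
    (hK' : ∀ j, ∀ α ∈ S' j, ∀ β ∈ S' j, κ' j α ≠ 0 → κ' j β ≠ 0 → ∀ s ∈ K,
      ∑ i, ((α i : ℂ) - β i) * s i = 0)
    (hΛ' : ∀ v ∈ Λ, ∀ m : Fin n → ℤ, (∀ i, L v.1 i - v.2 i = 2 * Real.pi * Complex.I * m i) →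
      ∀ j, esum (S' j) (κ' j) v.2 = 0) :
    False := by
  obtain ⟨c₀, hc₀, hop⟩ := hopen 1 one_pos
  set θ₀ : ℝ := c₀ / (‖b‖ + 1) with hθ₀
  have hb1 : 0 < ‖b‖ + 1 := by positivity
  have hθ₀pos : 0 < θ₀ := div_pos hc₀ hb1
  have key : ∀ θ : ℝ, ∃ v : Ew d × (Fin n → ℂ), θ ∈ Ioo 0 θ₀ →
      (∀ i, v.2 i = L v.1 i + Complex.I * θ * b i) ∧
      ∀ j, esum (S' j) (κ' j) v.2 = 0 := by
    intro θ
    by_cases hθ : θ ∈ Ioo 0 θ₀
    swap
    · exact ⟨0, fun h => absurd h hθ⟩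
    obtain ⟨hθ1, hθ2⟩ := hθ
    have hnorm : ‖(fun i => -(Complex.I * θ * b i) : Fin n → ℂ) - (L (0 : Ew d × (Fin n → ℂ)).1 -
        (0 : Ew d × (Fin n → ℂ)).2)‖ ≤ c₀ := by
      rw [Prod.fst_zero, Prod.snd_zero, map_zero, sub_zero, sub_zero,
        pi_norm_le_iff_of_nonneg hc₀.le]
      intro i
      rw [norm_neg, norm_mul, norm_mul, Complex.norm_I, one_mul, Complex.norm_real,
        Complex.norm_real, Real.norm_eq_abs, abs_of_pos hθ1]
      have h1 : ‖b i‖ ≤ ‖b‖ := norm_le_pi_norm b i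
      have h2 : θ * (‖b‖ + 1) ≤ c₀ := by
        rw [← le_div_iff₀ hb1]
        exact hθ2.le
      have h3 : θ * ‖b i‖ ≤ θ * ‖b‖ := mul_le_mul_of_nonneg_left h1 hθ1.le
      nlinarith
    obtain ⟨v, hv, -, hvc⟩ := hop 0 h0 _ hnorm
    have hv2 : ∀ i, v.2 i = L v.1 i + Complex.I * θ * b i := by
      intro i
      have h1 := congrFun hvc i
      rw [Pi.sub_apply] at h1
      linear_combination -h1
    refine ⟨v, fun _ => ⟨hv2, fun j => ?_⟩⟩
    -- the real part of `v.2`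
    obtain ⟨ζ', hζ'⟩ := hconj v.1
    have hre : (fun i => L ((1 / 2 : ℂ) • (v.1 + ζ')) i - ((v.2 i).re : ℂ)) ∈ K := by
      have h0 : (fun i => L ((1 / 2 : ℂ) • (v.1 + ζ')) i - ((v.2 i).re : ℂ)) =
          (1 / 2 : ℂ) • (fun i => L ζ' i - (starRingEnd ℂ) (L v.1 i)) := by
        funext i
        have h1 : (Complex.I * (θ : ℂ) * (b i : ℂ)).re = 0 := by
          rw [mul_assoc, ← Complex.ofReal_mul, Complex.I_mul_re, Complex.ofReal_im, neg_zero]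
        have h2 : ((v.2 i).re : ℂ) = (L v.1 i + (starRingEnd ℂ) (L v.1 i)) / 2 := by
          rw [Complex.add_conj, hv2 i, Complex.add_re, h1, add_zero]
          push_cast
          ring
        rw [h2, Pi.smul_apply, smul_eq_mul, map_smul, map_add, Pi.smul_apply, Pi.add_apply,
          smul_eq_mul]
        ring
      rw [h0]
      exact K.smul_mem _ hζ'
    -- approximation
    have hclosed : IsClosed {w : Fin n → ℂ | esum (S' j) (κ' j) w = 0} :=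
      isClosed_eq (esumK_cont _ _) continuous_const
    have hmem : v.2 ∈ closure {w : Fin n → ℂ | esum (S' j) (κ' j) w = 0} := by
      rw [Metric.mem_closure_iff]
      intro ε hε
      obtain ⟨v', hv', m, hm1, s, hs, hm2⟩ := recurK S L hsel κ hκ Λ hopen hΛ K hK hKc hconj hm hv
        _ hre (half_pos hε)
      refine ⟨v'.2 - s, esumK_shift _ _ (hκ' j) s
        (fun α hα β hβ h1 h2 => hK' j α hα β hβ h1 h2 s hs) _ (hΛ' v' hv' m hm1 j), ?_⟩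
      rw [dist_comm, dist_eq_norm]
      have h1 : v'.2 - s - v.2 = v'.2 - v.2 - s := by abel
      rw [h1]
      linarith
    rw [hclosed.closure_eq] at hmem
    exact hmem
  choose v hv using key
  -- the linear map
  set ℓ : Ew (d + 1) →L[ℂ] (Fin n → ℂ) :=
    LinearMap.toContinuousLinearMap ((L : Ew d →ₗ[ℂ] (Fin n → ℂ)).comp (resK d) + lstK d b) with hℓ
  have hℓv : ∀ z i, ℓ z i = L (resK d z) i + z (Fin.last d) * b i := fun z i => rfl
  have hcount := GD.countable_of_sel S' ℓ (by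
    intro z α β hαβ hz
    obtain ⟨h1, h2⟩ := hsel' (resK d z) (z (Fin.last d)) α β hαβ hz
    ext i
    refine Fin.lastCases ?_ (fun i => ?_) i
    · exact h2
    · have h3 := congrArg (fun w : Ew d => w i) h1
      exact h3) κ' hκ'
  -- uncountably many zeros
  let ξ : ℝ → Ew (d + 1) := fun θ =>
    WithLp.toLp 2 (Fin.snoc (fun i => (v θ).1 i) (Complex.I * θ) : Fin (d + 1) → ℂ)
  have hξlast : ∀ θ, ξ θ (Fin.last d) = Complex.I * θ := fun θ => by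
    show (Fin.snoc (fun i => (v θ).1 i) (Complex.I * θ) : Fin (d + 1) → ℂ) (Fin.last d) = _
    rw [Fin.snoc_last]
  have hξres : ∀ θ, resK d (ξ θ) = (v θ).1 := fun θ => by
    ext i
    show (Fin.snoc (fun i => (v θ).1 i) (Complex.I * θ) : Fin (d + 1) → ℂ) (Fin.castSucc i) = _
    rw [Fin.snoc_castSucc]
  have hξ : ∀ θ ∈ Ioo 0 θ₀, ξ θ ∈ {ξ : Ew (d + 1) | ∀ j, esum (S' j) (κ' j) (ℓ ξ) = 0} := by
    intro θ hθ j
    obtain ⟨h1, h2⟩ := hv θ hθ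
    have h3 : ℓ (ξ θ) = (v θ).2 := by
      funext i
      rw [hℓv, hξres, hξlast, h1 i]
    rw [h3]
    exact h2 j
  have hinj : InjOn ξ (Ioo 0 θ₀) := by
    intro θ _ θ' _ h
    have h1 := congrArg (fun w : Ew (d + 1) => w (Fin.last d)) h
    simp only [hξlast] at h1
    have h2 := mul_left_cancel₀ Complex.I_ne_zero h1
    exact_mod_cast h2
  have hIoo : (Ioo (0 : ℝ) θ₀).Countable := MapsTo.countable_of_injOn hξ hinj hcount
  have hd := hIoo.dense_compl ℝ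
  obtain ⟨θ, hθ1, hθ2⟩ := hd.exists_mem_open isOpen_Ioo (nonempty_Ioo.2 hθ₀pos)
  exact hθ1 hθ2

end Pool.Agent.Lib.MP_209724_lc.GF
end

section

namespace Pool.Agent.Lib.MP_209724_lc.GP

open MvPolynomial
open GC (prj)

variable {n d k : ℕ}

private lemma line_eval (z : Fin n → ℂ) (f : MvPolynomial (Fin n) ℂ) (c : ℂ) :
    (aeval (fun i => Polynomial.C (z i) * Polynomial.X) f : Polynomial ℂ).eval c =
      eval (fun i => c * z i) f := by
  induction f using MvPolynomial.induction_on with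
  | C a => simp
  | add f g hf hg => simp [hf, hg]
  | mul_X f i hf =>
    rw [map_mul, aeval_X, Polynomial.eval_mul, hf, map_mul, eval_X, Polynomial.eval_mul,
      Polynomial.eval_C, Polynomial.eval_X]
    ring

private lemma rot_eval (c : ℂ) (z : Fin n → ℂ) (f : MvPolynomial (Fin n) ℂ) :
    eval z (aeval (fun i => C c * X i : Fin n → MvPolynomial (Fin n) ℂ) f) =
      eval (fun i => c * z i) f := by
  induction f using MvPolynomial.induction_on with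
  | C a => rw [aeval_C, algebraMap_eq, eval_C, eval_C]
  | add f g hf hg => rw [map_add, map_add, hf, hg, map_add]
  | mul_X f i hf =>
    rw [map_mul, aeval_X, map_mul, hf, map_mul, map_mul, eval_C, eval_X, eval_X]

/-- **Components of the cone are complex cones.** Proof. For `f ∈ q` and a zero `z` of `q` the polynomial
`P(c) = f(c z)` in one variable (`aeval (fun i => C (z i) * X) f : Polynomial ℂ`) vanishes for all real
`c > 0` by `GS.scale_component`, so `P = 0`. -/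
theorem scale_complex (p q : Ideal (MvPolynomial (Fin n) ℂ)) [q.IsPrime]
    (hq1 : ∀ z : Fin n → ℂ, (∀ f ∈ q, eval z f = 0) → z ∈ GC.cone p)
    (G : MvPolynomial (Fin n) ℂ) (hG : G ∉ q)
    (hq2 : ∀ z ∈ GC.cone p, eval z G ≠ 0 → ∀ f ∈ q, eval z f = 0) (z : Fin n → ℂ)
    (hz : ∀ f ∈ q, eval z f = 0) (c : ℂ) :
    ∀ f ∈ q, eval (fun i => c * z i) f = 0 := by
  intro f hf
  rw [← line_eval]
  have h0 : (aeval (fun i => Polynomial.C (z i) * Polynomial.X) f : Polynomial ℂ) = 0 := by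
    refine Polynomial.eq_zero_of_infinite_isRoot _ ?_
    have h4 : ((fun a : ℝ => (a : ℂ)) '' Set.Ioi (0:ℝ)).Infinite :=
      (Set.Ioi_infinite (0:ℝ)).image Complex.ofReal_injective.injOn
    refine h4.mono ?_
    rintro _ ⟨a, ha, rfl⟩
    show Polynomial.eval (a : ℂ) _ = 0
    rw [line_eval]
    exact GS.scale_component p q hq1 G hG hq2 z hz a ha f hf
  rw [h0, Polynomial.eval_zero]

/-- **A purely imaginary point.** Proof. Let `G' = aeval (fun i => C I * X i) G` (`I` the imaginary unit),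
so `eval z G' = eval (I z) G`. `G' ∉ q`: otherwise for every zero `z` of `q` also `-I z` is a zero of `q`
(`scale_complex`), so `eval z G = eval (-I z) G' = 0`, and `G ∈ q` by `GS.mem_of_forall_zero`. By `hreal`
for `G'` there is a real zero `η` of `q` with `G'(η) ≠ 0`; take `z = I η`. -/
theorem exists_imag (p q : Ideal (MvPolynomial (Fin n) ℂ)) [q.IsPrime]
    (hq1 : ∀ z : Fin n → ℂ, (∀ f ∈ q, eval z f = 0) → z ∈ GC.cone p)
    (hq2 : ∃ G ∉ q, ∀ z ∈ GC.cone p, eval z G ≠ 0 → ∀ f ∈ q, eval z f = 0)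
    (hreal : ∀ f ∉ q, ∃ η : Fin n → ℝ, (∀ h ∈ q, eval (fun i => (η i : ℂ)) h = 0) ∧
      eval (fun i => (η i : ℂ)) f ≠ 0)
    (G : MvPolynomial (Fin n) ℂ) (hG : G ∉ q) :
    ∃ z : Fin n → ℂ, (∀ i, (z i).re = 0) ∧ (∀ f ∈ q, eval z f = 0) ∧ eval z G ≠ 0 := by
  obtain ⟨G₀, hG₀, hq2⟩ := hq2
  have hG' : (aeval (fun i => C Complex.I * X i : Fin n → MvPolynomial (Fin n) ℂ) G) ∉ q := by
    intro h
    apply hG
    refine GS.mem_of_forall_zero q _ fun z hz => ?_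
    have h1 := scale_complex p q hq1 G₀ hG₀ hq2 z hz (-Complex.I) _ h
    rw [rot_eval] at h1
    have h2 : (fun i => Complex.I * (-Complex.I * z i)) = z := by
      funext i
      rw [← mul_assoc, mul_neg, Complex.I_mul_I, neg_neg, one_mul]
    rwa [h2] at h1
  obtain ⟨η, hη1, hη2⟩ := hreal _ hG'
  rw [rot_eval] at hη2
  refine ⟨fun i => Complex.I * (η i : ℂ), fun i => ?_, ?_, hη2⟩
  · simp
  · exact scale_complex p q hq1 G₀ hG₀ hq2 _ hη1 Complex.I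

end Pool.Agent.Lib.MP_209724_lc.GP
end

section

namespace Pool.Agent.Lib.MP_209724_lc.GP

open MvPolynomial
open GC (prj)

variable {n d k : ℕ}

/-- **Generic tangent spaces.** If `d` linear forms are algebraically independent on `Z` (of dimension
`d`), then outside of the zeros of some `G ∉ q` they have no common zero `b ≠ 0` in the tangent space.

Proof. `GS.exists_generic_pt q hqd` gives a generic point `ξ₂` with
`c ∈ q ↔ aeval ξ₂ c = 0`. The elements `ζ j = ∑ i, algebraMap ℂ L (m j i) * ξ₂ i` are algebraically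
independent over `ℂ` (transport `hm` along the inclusion of `MvPolynomial ⧸ q` in `L`: a polynomial
relation `P(ζ) = 0` means `aeval (fun j => ∑ k, C (m j k) * X k) P ∈ q`). `GS.isAlgebraic_coord` and
`GS.exists_rel ξ₂ m ζ` give `F i ∈ q`, `D i ∉ q` with `∑ b_k ∂_k F_i(z) = b_i D_i(z)` when `m b = 0`. Take
`G = ∏ i, D i`. -/
theorem exists_tangent_poly (q : Ideal (MvPolynomial (Fin n) ℂ)) [q.IsPrime]
    (hqd : Algebra.trdeg ℂ (MvPolynomial (Fin n) ℂ ⧸ q) = d) (m : Fin d → Fin n → ℂ)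
    (hm : AlgebraicIndependent ℂ fun j => Ideal.Quotient.mk q (∑ k, C (m j k) * X k)) :
    ∃ G ∉ q, ∀ z : Fin n → ℂ, (∀ f ∈ q, eval z f = 0) → eval z G ≠ 0 → ∀ b : Fin n → ℂ,
      (∀ f ∈ q, ∑ k, b k * eval z (pderiv k f) = 0) → (∀ j, ∑ k, m j k * b k = 0) → b = 0 := by
  classical
  obtain ⟨L, _, _, ξ, hξ, htr⟩ := GS.exists_generic_pt q hqd
  set ζ : Fin d → L := fun j => ∑ i, algebraMap ℂ L (m j i) * ξ i with hζd
  have hcomp : ∀ P : MvPolynomial (Fin d) ℂ,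
      aeval ξ (aeval (fun j => ∑ k, C (m j k) * X k : Fin d → MvPolynomial (Fin n) ℂ) P) = aeval ζ P := by
    intro P
    rw [← AlgHom.comp_apply, MvPolynomial.comp_aeval]
    congr 2
    funext j
    simp [hζd, MvPolynomial.algebraMap_eq]
  have hζ : AlgebraicIndependent ℂ ζ := by
    rw [algebraicIndependent_iff]
    intro P hP
    rw [← hcomp, ← hξ] at hP
    apply (algebraicIndependent_iff.mp hm)
    have h1 : aeval (fun j => Ideal.Quotient.mk q (∑ k, C (m j k) * X k)) P =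
        Ideal.Quotient.mkₐ ℂ q
          (aeval (fun j => ∑ k, C (m j k) * X k : Fin d → MvPolynomial (Fin n) ℂ) P) := by
      rw [← AlgHom.comp_apply, MvPolynomial.comp_aeval]
      rfl
    rw [h1, Ideal.Quotient.mkₐ_eq_mk, Ideal.Quotient.eq_zero_iff_mem]
    exact hP
  have hmem : ∀ j, ζ j ∈ IntermediateField.adjoin ℂ (Set.range ξ) := by
    intro j
    refine sum_mem fun i _ => mul_mem ?_ (IntermediateField.subset_adjoin _ _ ⟨i, rfl⟩)
    exact IntermediateField.algebraMap_mem _ _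
  have halg : ∀ i, IsAlgebraic (Algebra.adjoin ℂ (Set.range ζ)) (ξ i) := fun i =>
    GS.isAlgebraic_coord ξ htr ζ hmem hζ i
  choose F D hF hD hFD using fun i => GS.exists_rel ξ m ζ (fun j => rfl) hζ i (halg i)
  refine ⟨∏ i, D i, ?_, ?_⟩
  · rw [Ideal.IsPrime.prod_mem_iff]
    rintro ⟨i, _, hi⟩
    exact hD i ((hξ _).1 hi)
  · intro z _ hz b hb hmb
    rw [map_prod, Finset.prod_ne_zero_iff] at hz
    have hprj : prj m b = 0 := by
      funext j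
      exact hmb j
    funext i
    have h1 := hFD i z b hprj
    rw [hb (F i) ((hξ _).2 (hF i))] at h1
    rcases mul_eq_zero.1 h1.symm with h2 | h2
    · exact h2
    · exact absurd h2 (hz i (Finset.mem_univ i))

end Pool.Agent.Lib.MP_209724_lc.GP
end

section

/-!
# Exponential points outside of `D = 0` over a family of sheets, from general centers
-/

namespace Pool.Agent.Lib.MP_209724_lc.GF

open MvPolynomial Filter Topology Metric Set
open GC (prj)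
open GS (Ew)
open GP GD

variable {n d k : ℕ}

private theorem exp_shift (u : ℂ) (m : ℤ) :
    Complex.exp (u + 2 * Real.pi * Complex.I * m) = Complex.exp u := by
  have h : u + 2 * Real.pi * Complex.I * m = u + m * (2 * Real.pi * Complex.I) := by ring
  rw [h, Complex.exp_add, Complex.exp_int_mul_two_pi_mul_I, mul_one]

/-- **Exponential points over the sheets, outside of `D = 0`**, from general centers. -/
theorem local_denseK {L : Type} [Field L] [Algebra ℂ L] (ξ υ : Fin n → L)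
    (Z : Fin d → Fin n → ℂ) (B : Fin (k + 1) → Fin n) (e : Fin d ⊕ Fin (k + 1) ≃ Fin n)
    (β : MvPolynomial (Fin d ⊕ Fin (k + 1)) ℂ)
    (hV : ∀ x₀ y₀ : Fin n → ℂ, OnV ξ υ x₀ y₀ →
      eval (Sum.elim (prj Z x₀) fun j => y₀ (B j)) β ≠ 0 →
      ∃ (δ : ℝ) (Φ Ψ : (Fin d ⊕ Fin (k + 1) → ℂ) → Fin n → ℂ), 0 < δ ∧
        Φ (Sum.elim (prj Z x₀) fun j => y₀ (B j)) = x₀ ∧
        Ψ (Sum.elim (prj Z x₀) fun j => y₀ (B j)) = y₀ ∧
        DifferentiableOn ℂ Φ (ball (Sum.elim (prj Z x₀) fun j => y₀ (B j)) δ) ∧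
        DifferentiableOn ℂ Ψ (ball (Sum.elim (prj Z x₀) fun j => y₀ (B j)) δ) ∧
        ∀ s ∈ ball (Sum.elim (prj Z x₀) fun j => y₀ (B j)) δ, OnV ξ υ (Φ s) (Ψ s) ∧
          (∀ j, prj Z (Φ s) j = s (Sum.inl j)) ∧ ∀ j, Ψ s (B j) = s (Sum.inr j))
    (t₀ : Ew d) {ρ δ : ℝ} (hδ : 0 < δ) (hδρ : δ < ρ) (r : ℕ → ℝ) (hr0 : ∀ ν, 0 < r ν)
    (hr : Tendsto r atTop atTop) (X : ℕ → Ew d → Fin n → ℂ)
    (hX : ∀ ν, DifferentiableOn ℂ (X ν) (ball t₀ ρ)) (H : Ew d → Fin n → ℂ)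
    (hH : DifferentiableOn ℂ H (ball t₀ ρ))
    (hXH : ∀ ε : ℝ, 0 < ε → ∀ᶠ ν in atTop, ∀ t ∈ ball t₀ ρ, ‖X ν t - H t‖ ≤ ε)
    (hXW : ∀ ν, ∀ t ∈ ball t₀ ρ, OnW ξ ((r ν : ℂ) • X ν t))
    (hXZ : ∀ ν, ∀ t ∈ ball t₀ ρ, ∀ j, prj Z (X ν t) j = t j)
    (F D : Fin n → MvPolynomial (Fin n) ℂ) (hF : ∀ i, aeval ξ (F i) = 0)
    (hFD : ∀ i, ∀ z b : Fin n → ℂ, prj Z b = 0 →
      ∑ k, b k * eval z (pderiv k (F i)) = b i * eval z (D i))
    (hD : ∀ ν, ∀ t ∈ ball t₀ ρ, ∀ i, eval ((r ν : ℂ) • X ν t) (D i) ≠ 0)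
    (S : {I : Finset (Fin n) // I.card = k + 1 + 1} → Finset (Fin n → ℕ))
    (hS : ∀ I, (S I).Nonempty)
    (c : {I : Finset (Fin n) // I.card = k + 1 + 1} → (Fin n → ℕ) → MvPolynomial (Fin n) ℂ)
    (hrel : ∀ I, ∑ α ∈ S I, aeval ξ (c I α) * ∏ i, υ i ^ α i = 0) (C : ℕ)
    (hc : ∀ I, ∀ α ∈ S I, ∀ᶠ ν in atTop, ∀ t ∈ ball t₀ ρ,
      (r ν ^ C)⁻¹ ≤ ‖eval ((r ν : ℂ) • X ν t) (c I α)‖ ∧
        ‖eval ((r ν : ℂ) • X ν t) (c I α)‖ ≤ r ν ^ C)
    (hc0 : ∀ ν, ∀ I, ∀ α ∈ S I, ∀ t ∈ ball t₀ ρ, eval ((r ν : ℂ) • X ν t) (c I α) ≠ 0)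
    (hsel : ∀ t, ‖t - t₀‖ ≤ δ → ∀ b : Ew d,
      ∀ α β : {I : Finset (Fin n) // I.card = k + 1 + 1} → Fin n → ℕ,
      (∀ j, α j ∈ S j ∧ β j ∈ S j ∧ α j ≠ β j) →
      (∀ j, ∑ i, ((α j i : ℂ) - β j i) * fderiv ℂ H t b i = 0) → b = 0)
    (tc : ℕ → Ew d) (uc : ℕ → Fin n → ℂ) (htc : Tendsto tc atTop (𝓝 t₀))
    (hcen : ∀ ν, (tc ν, uc ν) ∈ Fam ξ υ (fun t => (r ν : ℂ) • X ν t) (ball t₀ ρ) ∧
      pf Z B β (fun t => (r ν : ℂ) • X ν t) (tc ν, uc ν) ≠ 0)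
    (hsmall : ∀ ε : ℝ, 0 < ε → ∀ᶠ ν in atTop, ‖(r ν : ℂ) • X ν (tc ν) - uc ν‖ ≤ ε * r ν)
    -- the relations on `D = 0`
    (Dp : MvPolynomial (Fin n ⊕ Fin n) ℂ)
    (S' : {I : Finset (Fin n) // I.card = k + 1} → Finset (Fin n → ℕ))
    (hS' : ∀ I, (S' I).Nonempty)
    (c' : {I : Finset (Fin n) // I.card = k + 1} → (Fin n → ℕ) → MvPolynomial (Fin n) ℂ)
    (hrel' : ∀ I, ∀ x y : Fin n → ℂ, OnV ξ υ x y → eval (Sum.elim x y) Dp = 0 →
      ∑ α ∈ S' I, eval x (c' I α) * ∏ i, y i ^ α i = 0) (C' : ℕ)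
    (hc' : ∀ I, ∀ α ∈ S' I, ∀ᶠ ν in atTop, ∀ t ∈ ball t₀ ρ,
      (r ν ^ C')⁻¹ ≤ ‖eval ((r ν : ℂ) • X ν t) (c' I α)‖ ∧
        ‖eval ((r ν : ℂ) • X ν t) (c' I α)‖ ≤ r ν ^ C')
    (hc0' : ∀ ν, ∀ I, ∀ α ∈ S' I, ∀ t ∈ ball t₀ ρ, eval ((r ν : ℂ) • X ν t) (c' I α) ≠ 0)
    (b : Fin n → ℝ)
    (hsel' : ∀ (ζ : Ew d) (s : ℂ), ∀ α β : {I : Finset (Fin n) // I.card = k + 1} → Fin n → ℕ,
      (∀ j, α j ∈ S' j ∧ β j ∈ S' j ∧ α j ≠ β j) →
      (∀ j, ∑ i, ((α j i : ℂ) - β j i) * (fderiv ℂ H t₀ ζ i + s * b i) = 0) → ζ = 0 ∧ s = 0)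
    (K : Submodule ℂ (Fin n → ℂ))
    (hK : ∀ I, ∀ α ∈ fac (S I) (fun i => (H t₀ i).re), ∀ α' ∈ fac (S I) (fun i => (H t₀ i).re),
      ∀ s ∈ K, ∑ i, ((α i : ℂ) - α' i) * s i = 0)
    (hK' : ∀ I, ∀ α ∈ fac (S' I) (fun i => (H t₀ i).re), ∀ α' ∈ fac (S' I) (fun i => (H t₀ i).re),
      ∀ s ∈ K, ∑ i, ((α i : ℂ) - α' i) * s i = 0)
    (hKc : ∀ s ∈ K, (fun i => (starRingEnd ℂ) (s i)) ∈ K)
    (hconj : ∀ ζ : Ew d, ∃ ζ' : Ew d,
      (fun i => fderiv ℂ H t₀ ζ' i - (starRingEnd ℂ) (fderiv ℂ H t₀ ζ i)) ∈ K)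
    (hm : ∀ m : Fin n → ℤ, m ≠ 0 → (∀ s ∈ K, ∑ i, (m i : ℂ) * s i = 0) →
      ∃ ζ : Ew d, ∑ i, (m i : ℂ) * fderiv ℂ H t₀ ζ i ≠ 0) :
    ∃ᶠ ν in atTop, ∃ t, ‖t - t₀‖ ≤ δ ∧
      OnV ξ υ ((r ν : ℂ) • X ν t) (fun i => Complex.exp ((r ν : ℂ) * X ν t i)) ∧
      eval (Sum.elim ((r ν : ℂ) • X ν t) fun i => Complex.exp ((r ν : ℂ) * X ν t i)) Dp ≠ 0 := by
  classical
  by_contra hcon
  rw [not_frequently] at hcon
  have hρ : 0 < ρ := hδ.trans hδρ
  have ht₀ : t₀ ∈ ball t₀ ρ := mem_ball_self hρ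
  obtain ⟨x, hx⟩ : ∃ x : ℕ → Ew d → Fin n → ℂ, x = fun ν t => (r ν : ℂ) • X ν t := ⟨_, rfl⟩
  have hxd : ∀ ν, DifferentiableOn ℂ (x ν) (ball t₀ ρ) := fun ν => by
    rw [hx]
    exact (hX ν).const_smul (r ν : ℂ)
  obtain ⟨G, hG⟩ : ∃ G : ℕ → Set (Ew d × (Fin n → ℂ)), G = fun ν => Good ξ υ Z B β (x ν)
    (ball t₀ ρ) := ⟨_, rfl⟩
  have hGm : ∀ ν v, v ∈ G ν ↔ v ∈ Fam ξ υ (x ν) (ball t₀ ρ) ∧ pf Z B β (x ν) v ≠ 0 := by
    intro ν v
    rw [hG]
    rfl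
  -- uniform openness
  have huo : UnifOpen r x G t₀ δ := by
    intro R₀ hR₀
    obtain ⟨c₀, hc₀, h⟩ := uniform_openness ξ υ Z B e β hV t₀ hδ hδρ r hr0 hr X hX H hH hXH hXW hXZ
      F D hF hFD hD S hS c hrel C hc hc0 hsel hR₀
    refine ⟨c₀, hc₀, ?_⟩
    filter_upwards [h] with ν h v hv hvt cc hcc η hη
    rw [hGm] at hv
    have hxν : x ν = fun t => (r ν : ℂ) • X ν t := by rw [hx]
    rw [hxν] at hv hcc ⊢
    obtain ⟨v', h1, h2, h3, h4⟩ := h v hv.1 hvt hv.2 cc hcc η hη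
    refine ⟨v', ?_, h2, h3⟩
    rw [hGm, hxν]
    exact ⟨h1, h4⟩
  -- exact points near approximate ones
  have hex : ∀ R₀ : ℝ, 0 < R₀ → ∃ c₀ : ℝ, 0 < c₀ ∧ ∀ᶠ ν in atTop, ∀ v ∈ G ν,
      ‖v.1 - t₀‖ ≤ δ / 2 → ‖x ν v.1 - v.2‖ ≤ c₀ →
      ∃ v' ∈ Fam ξ υ (x ν) (ball t₀ ρ), ‖v'.1 - v.1‖ ≤ R₀ / r ν ∧ x ν v'.1 = v'.2 := by
    intro R₀ hR₀
    obtain ⟨c₀, hc₀, h⟩ := huo R₀ hR₀
    refine ⟨c₀, hc₀, ?_⟩
    have hsmall : ∀ᶠ ν in atTop, R₀ / r ν < δ / 2 :=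
      (hr.const_div_atTop R₀).eventually_lt_const (by positivity)
    filter_upwards [h, hsmall] with ν h hsmall v hv hvt hvF
    have hKb : closedBall v.1 (R₀ / r ν) ⊆ ball t₀ ρ := by
      intro t ht
      rw [mem_closedBall] at ht
      rw [mem_ball]
      have h1 : dist t t₀ ≤ dist t v.1 + dist v.1 t₀ := dist_triangle _ _ _
      rw [dist_eq_norm v.1 t₀] at h1
      linarith
    have hKset : {v' | v' ∈ Fam ξ υ (x ν) (ball t₀ ρ) ∧ ‖v'.1 - v.1‖ ≤ R₀ / r ν ∧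
        ‖x ν v'.1 - v'.2‖ ≤ 1} =
        {v' | v' ∈ Fam ξ υ (x ν) (ball t₀ ρ) ∧ v'.1 ∈ closedBall v.1 (R₀ / r ν) ∧
          ‖x ν v'.1 - v'.2 - 0‖ ≤ 1} := by
      ext v'
      simp only [mem_ofPred_eq, mem_closedBall, dist_eq_norm, sub_zero]
    have hKc : IsCompact {v' | v' ∈ Fam ξ υ (x ν) (ball t₀ ρ) ∧ ‖v'.1 - v.1‖ ≤ R₀ / r ν ∧
        ‖x ν v'.1 - v'.2‖ ≤ 1} := by
      rw [hKset]
      exact fam_compact ξ υ (x ν) (hxd ν).continuousOn (isCompact_closedBall _ _) hKb _ _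
    obtain ⟨v', hv', h1, h2⟩ := exists_exact (F := fun v => x ν v.1 - v.2) hKc (by
      refine ContinuousOn.sub ?_ continuous_snd.continuousOn
      refine (hxd ν).continuousOn.comp continuous_fst.continuousOn ?_
      rintro v' ⟨h1, -, -⟩
      exact h1.1) (by
      intro η hη
      obtain ⟨v', h1, h2, h3⟩ := h v hv (hvt.trans (half_le_self hδ.le)) 0 (by
        rw [zero_sub, norm_neg]
        exact hvF) η hη
      rw [sub_zero] at h3
      exact ⟨v', ((hGm ν v').1 h1).1, h2, h3⟩)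
    exact ⟨v', hv', h1, sub_eq_zero.1 h2⟩
  -- the centers
  have hv₀ : ∀ ν, ((tc ν, uc ν) : Ew d × (Fin n → ℂ)) ∈ G ν := by
    intro ν
    rw [hGm, hx]
    exact hcen ν
  obtain ⟨cen, hcenG, hcen1, hcen2⟩ := exists_centersK r hr0 hr x G hδ huo
    (fun ν => (tc ν, uc ν)) hv₀ htc (by
      intro ε hε
      rw [hx]
      exact hsmall ε hε)
  have hcenη : ∀ i, Tendsto (fun ν => (r ν)⁻¹ * ((cen ν).2 i).re) atTop (𝓝 (H t₀ i).re) := by
    intro i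
    have hHt : ContinuousAt H t₀ := (hH.differentiableAt (isOpen_ball.mem_nhds ht₀)).continuousAt
    have h1 : Tendsto (fun ν => X ν (cen ν).1) atTop (𝓝 (H t₀)) := by
      rw [tendsto_iff_norm_sub_tendsto_zero, Metric.tendsto_nhds]
      intro ε hε
      have h2 : ∀ᶠ ν in atTop, ‖H (cen ν).1 - H t₀‖ < ε / 2 := by
        have h3 := (hHt.tendsto.comp hcen1)
        have h4 := (tendsto_iff_norm_sub_tendsto_zero.1 h3)
        exact h4.eventually (gt_mem_nhds (half_pos hε))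
      filter_upwards [hXH (ε / 4) (by positivity), h2, hcen1.eventually (ball_mem_nhds t₀ hρ)]
        with ν h3 h4 h5
      have h6 := h3 _ h5
      rw [Real.dist_eq, sub_zero, abs_of_nonneg (norm_nonneg _)]
      have h7 := norm_add_le (X ν (cen ν).1 - H (cen ν).1) (H (cen ν).1 - H t₀)
      rw [sub_add_sub_cancel] at h7
      linarith
    have h2 : Tendsto (fun ν => (X ν (cen ν).1 i).re) atTop (𝓝 (H t₀ i).re) :=
      (Complex.continuous_re.tendsto _).comp (tendsto_pi_nhds.1 h1 i)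
    have h3 : Tendsto (fun ν => (r ν)⁻¹ * ((x ν (cen ν).1 - (cen ν).2) i).re) atTop (𝓝 0) := by
      have h4 : Tendsto (fun ν => ((x ν (cen ν).1 - (cen ν).2) i).re) atTop (𝓝 0) := by
        have := (Complex.continuous_re.tendsto _).comp (tendsto_pi_nhds.1 hcen2 i)
        rw [Pi.zero_apply, Complex.zero_re] at this
        exact this
      have h5 := hr.inv_tendsto_atTop.mul h4
      rw [zero_mul] at h5
      exact h5
    have h4 := h2.sub h3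
    rw [sub_zero] at h4
    refine h4.congr fun ν => ?_
    have hr0ν := (hr0 ν).ne'
    rw [hx]
    simp only [Pi.sub_apply, Pi.smul_apply, smul_eq_mul, Complex.sub_re, Complex.re_ofReal_mul]
    field_simp
    ring
  -- the ultrafilter
  obtain ⟨𝒰, h𝒰⟩ : ∃ 𝒰 : Ultrafilter ℕ, (𝒰 : Filter ℕ) ≤ atTop :=
    ⟨Ultrafilter.of atTop, Ultrafilter.of_le atTop⟩
  have hinc : ∀ (a : ℕ → Ew d) (ζ : Ew d),
      Tendsto (fun ν => (r ν : ℂ) • (a ν - (cen ν).1)) 𝒰 (𝓝 ζ) →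
      Tendsto (fun ν => x ν (a ν) - x ν (cen ν).1) 𝒰 (𝓝 (fderiv ℂ H t₀ ζ)) := by
    intro a ζ ha
    rw [hx]
    exact increments_u t₀ hρ r hr0 hr X hX H hH hXH 𝒰 h𝒰 (fun ν => (cen ν).1) a
      (hcen1.mono_left h𝒰) ha
  have hopen := lam_open 𝒰 h𝒰 r hr0 hr x G hδ huo cen hcen1 hcen2 (fderiv ℂ H t₀) hinc
  have hlam0 : (0 : Ew d × (Fin n → ℂ)) ∈ Lam 𝒰 r G cen := by
    refine ⟨cen, h𝒰 hcenG, ?_, ?_⟩
    · simp
    · simp
  -- the relations
  have hcdiff : ∀ (ν : ℕ) (P : MvPolynomial (Fin n) ℂ), DifferentiableOn ℂ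
      (fun t => eval ((r ν : ℂ) • X ν t) P) (ball t₀ ρ) := by
    intro ν P
    have h1 : Differentiable ℂ fun x : Fin n → ℂ => eval x P := by
      intro x
      have h := GS.hasFDerivAt_aeval (fun j (x : Fin n → ℂ) => x j)
        (fun j => (ContinuousLinearMap.proj j : (Fin n → ℂ) →L[ℂ] ℂ)) x
        (fun j => (ContinuousLinearMap.proj j : (Fin n → ℂ) →L[ℂ] ℂ).hasFDerivAt) P
      exact h.differentiableAt
    exact h1.comp_differentiableOn ((hX ν).const_smul (r ν : ℂ))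
  have hcenb : ∀ᶠ ν in atTop, (cen ν).1 ∈ ball t₀ ρ := hcen1 (ball_mem_nhds t₀ hρ)
  choose κ hκ0 hκf hκ using fun I => lam_relK 𝒰 h𝒰 r hr0 hr hδ cen hcen1 (S I) (hS I)
    (fun ν α t => eval ((r ν : ℂ) • X ν t) (c I α))
    (fun α hα => hcenb.mono fun ν hν => hc0 ν I α hα _ hν)
    (fun α hα R ε hε => ratio_near t₀ hδρ r hr (fun ν t => eval ((r ν : ℂ) • X ν t) (c I α))
      (fun ν => hcdiff ν _) C (hc I α hα) R hε) C
    (fun α hα => (hcenb.and (hc I α hα)).mono fun ν hν => hν.2 _ hν.1) _ hcenη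
  choose κ' hκ0' hκf' hκ' using fun I => lam_relK 𝒰 h𝒰 r hr0 hr hδ cen hcen1 (S' I) (hS' I)
    (fun ν α t => eval ((r ν : ℂ) • X ν t) (c' I α))
    (fun α hα => hcenb.mono fun ν hν => hc0' ν I α hα _ hν)
    (fun α hα R ε hε => ratio_near t₀ hδρ r hr (fun ν t => eval ((r ν : ℂ) • X ν t) (c' I α))
      (fun ν => hcdiff ν _) C' (hc' I α hα) R hε) C'
    (fun α hα => (hcenb.and (hc' I α hα)).mono fun ν hν => hν.2 _ hν.1) _ hcenη
  have hΛ : ∀ v ∈ Lam 𝒰 r G cen, ∀ I, esum (S I) (κ I) v.2 = 0 := by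
    rintro v ⟨a, ha, h1, h2⟩ I
    refine hκ I a v h1 h2 ?_
    filter_upwards [ha] with ν hν
    rw [hGm] at hν
    have h3 := OnV.rel (hrel I) hν.1.2
    rw [hx] at h3
    exact h3
  have hΛ' : ∀ v ∈ Lam 𝒰 r G cen, ∀ m : Fin n → ℤ,
      (∀ i, fderiv ℂ H t₀ v.1 i - v.2 i = 2 * Real.pi * Complex.I * m i) →
      ∀ I, esum (S' I) (κ' I) v.2 = 0 := by
    intro v hv m hvm I
    obtain ⟨a, ha, h1, h2⟩ := lam_exact 𝒰 h𝒰 r hr0 hr x
      (fun ν => Fam ξ υ (x ν) (ball t₀ ρ)) G (half_pos hδ) (by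
        intro ν v hv m
        rw [hGm] at hv ⊢
        refine ⟨⟨hv.1.1, ?_⟩, ?_⟩
        · simp only [exp_shift]
          exact hv.1.2
        · unfold pf
          simp only [exp_shift]
          exact hv.2) hex cen hcen1 hcen2 (fderiv ℂ H t₀) hinc hv m hvm
    rw [← esum_shift _ _ _ m]
    refine hκ' I a (v.1, _) h1 h2 ?_
    filter_upwards [ha, h𝒰 hcon] with ν hν hcν
    obtain ⟨haM, haF, hat⟩ := hν
    push Not at hcν
    have h3 : x ν (a ν).1 = (r ν : ℂ) • X ν (a ν).1 := by rw [hx]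
    have h4 : (fun i => Complex.exp ((a ν).2 i)) =
        fun i => Complex.exp ((r ν : ℂ) * X ν (a ν).1 i) := by
      funext i
      rw [← haF, h3]
      rfl
    have h5 : OnV ξ υ ((r ν : ℂ) • X ν (a ν).1)
        (fun i => Complex.exp ((r ν : ℂ) * X ν (a ν).1 i)) := by
      rw [← h4, ← h3]
      exact haM.2
    have h6 := hcν (a ν).1 (hat.trans (half_le_self hδ.le)) h5
    have h7 := hrel' I _ _ h5 h6
    rw [← h7]
    refine Finset.sum_congr rfl fun α _ => ?_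
    congr 1
    rw [Complex.exp_sum]
    refine Finset.prod_congr rfl fun i _ => ?_
    rw [← Complex.exp_nat_mul, ← haF, h3]
    rfl
  exact no_limit_setK S (fderiv ℂ H t₀) (hsel t₀ (by simpa using hδ.le)) κ hκ0 (Lam 𝒰 r G cen)
    hlam0 hopen hΛ K (fun I α hα α' hα' h1 h2 => hK I α (hκf I α hα h1) α' (hκf I α' hα' h2)) hKc
    hconj hm S' b hsel' κ' hκ0'
    (fun I α hα α' hα' h1 h2 => hK' I α (hκf' I α hα h1) α' (hκf' I α' hα' h2)) hΛ'

end Pool.Agent.Lib.MP_209724_lc.GF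
end
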