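import Mathlib
import Pool.Agent.Lib.MP_209724_lc.GP.Low
import Pool.Agent.Lib.MP_209724_lc.GP.Slice
import Pool.Agent.Lib.MP_209724_lc.GD.Centers
import Pool.Agent.Lib.MP_209724_lc.GS.Final
import Pool.Agent.Lib.MP_209724_lc.GP.Local

section

namespace Pool.Agent.Lib.MP_209724_lc.GD

open Filter Topology Metric Set

variable {n d : ℕ}

/-- **Identity theorem on polydiscs, coordinate by coordinate.** A function that is holomorphic on a
polydisc `ball x₀ ρ` in `ℂ^d` (sup norm) and constant on the set of the `i τ`, `τ` in a box of real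
points, is constant.

Proof. By induction on `k ≤ d`: `h t = c` for all `t ∈ ball x₀ ρ` such that for every `j ≥ k` there is a real
`τ_j` with `|τ_j - a_j| < σ` and `t_j = i τ_j`. `k = 0`: the hypothesis. Step: let `t` be as for `k + 1`. The function
`g(z) = h (Function.update t k z)` is holomorphic on the disc `ball (x₀ k) ρ`, and `g(z) = c` for
`z = i τ`, `|τ - a_k| < σ` (these `z` are in the disc and the induction hypothesis applies). By the identity
theorem in one variable (`AnalyticOnNhd.eqOn_of_preconnected_of_frequently_eq`, with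
`DifferentiableOn.analyticOnNhd`) `g = c` on the disc, in particular at `z = t k`. `k = d` is the claim. -/
theorem const_of_box (h : (Fin d → ℂ) → ℂ) {x₀ : Fin d → ℂ} {ρ : ℝ}
    (hh : DifferentiableOn ℂ h (ball x₀ ρ)) (a : Fin d → ℝ) {σ : ℝ} (hσ : 0 < σ)
    (hbox : ∀ τ : Fin d → ℝ, (∀ j, |τ j - a j| < σ) →
      (fun j => Complex.I * (τ j : ℂ)) ∈ ball x₀ ρ) (c : ℂ)
    (hc : ∀ τ : Fin d → ℝ, (∀ j, |τ j - a j| < σ) → h (fun j => Complex.I * (τ j : ℂ)) = c) :
    ∀ t ∈ ball x₀ ρ, h t = c := by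
  classical
  have key : ∀ k : ℕ, ∀ t ∈ ball x₀ ρ,
      (∀ j : Fin d, k ≤ j.val → ∃ τ : ℝ, |τ - a j| < σ ∧ t j = Complex.I * (τ : ℂ)) → h t = c := by
    intro k
    induction k with
    | zero =>
      intro t ht hk
      choose τ hτ1 hτ2 using fun j : Fin d => hk j (Nat.zero_le _)
      have : t = fun j => Complex.I * (τ j : ℂ) := funext hτ2
      rw [this]
      exact hc τ hτ1
    | succ k ih =>
      intro t ht hk
      by_cases hkd : k < d
      · set kk : Fin d := ⟨k, hkd⟩ with hkk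
        have hρ : 0 < ρ := pos_of_mem_ball ht
        have htb : ∀ z ∈ ball (x₀ kk) ρ, Function.update t kk z ∈ ball x₀ ρ := by
          intro z hz
          rw [ball_pi x₀ hρ, Set.mem_pi] at ht ⊢
          intro j _
          by_cases hj : j = kk
          · subst hj
            rw [Function.update_self]
            exact hz
          · rw [Function.update_of_ne hj]
            exact ht j (Set.mem_univ j)
        have hg : DifferentiableOn ℂ (fun z => h (Function.update t kk z)) (ball (x₀ kk) ρ) := by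
          refine hh.comp ?_ htb
          intro z _
          apply DifferentiableAt.differentiableWithinAt
          rw [differentiableAt_pi]
          intro j
          by_cases hj : j = kk
          · subst hj
            simp only [Function.update_self]
            exact differentiableAt_id
          · simp only [Function.update_of_ne hj]
            exact differentiableAt_const _
        have hin : ∀ τ : ℝ, |τ - a kk| < σ → Complex.I * (τ : ℂ) ∈ ball (x₀ kk) ρ := by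
          intro τ hτ
          have h1 := hbox (Function.update a kk τ) (by
            intro j
            by_cases hj : j = kk
            · subst hj
              rw [Function.update_self]
              exact hτ
            · rw [Function.update_of_ne hj, sub_self, abs_zero]
              exact hσ)
          rw [ball_pi x₀ hρ, Set.mem_pi] at h1
          have h2 := h1 kk (Set.mem_univ kk)
          simpa using h2
        have hval : ∀ τ : ℝ, |τ - a kk| < σ →
            h (Function.update t kk (Complex.I * (τ : ℂ))) = c := by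
          intro τ hτ
          apply ih _ (htb _ (hin τ hτ))
          intro j hj
          by_cases hjk : j = kk
          · subst hjk
            exact ⟨τ, hτ, by rw [Function.update_self]⟩
          · have hj' : k + 1 ≤ j.val := by
              rcases Nat.lt_or_ge k j.val with h | h
              · exact h
              · exfalso
                apply hjk
                apply Fin.ext
                simp only [hkk]
                omega
            obtain ⟨τ', h1, h2⟩ := hk j hj'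
            exact ⟨τ', h1, by rw [Function.update_of_ne hjk]; exact h2⟩
        have hz₀ : Complex.I * ((a kk : ℝ) : ℂ) ∈ ball (x₀ kk) ρ :=
          hin (a kk) (by rw [sub_self, abs_zero]; exact hσ)
        have hcont : Tendsto (fun τ : ℝ => Complex.I * (τ : ℂ)) (𝓝[≠] (a kk))
            (𝓝[≠] (Complex.I * ((a kk : ℝ) : ℂ))) := by
          rw [tendsto_nhdsWithin_iff]
          constructor
          · apply tendsto_nhdsWithin_of_tendsto_nhds
            have : Continuous (fun τ : ℝ => Complex.I * (τ : ℂ)) := by fun_prop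
            exact this.tendsto (a kk)
          · filter_upwards [self_mem_nhdsWithin] with τ hτ
            intro hE
            apply hτ
            have hE' : Complex.I * (τ : ℂ) = Complex.I * ((a kk : ℝ) : ℂ) := hE
            have := mul_left_cancel₀ Complex.I_ne_zero hE'
            exact_mod_cast this
        have hev : ∀ᶠ τ : ℝ in 𝓝[≠] (a kk),
            h (Function.update t kk (Complex.I * (τ : ℂ))) = c := by
          have h1 : ∀ᶠ τ : ℝ in 𝓝 (a kk), |τ - a kk| < σ := by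
            have := Metric.ball_mem_nhds (a kk) hσ
            filter_upwards [this] with τ hτ
            rwa [Metric.mem_ball, Real.dist_eq] at hτ
          filter_upwards [nhdsWithin_le_nhds h1] with τ hτ
          exact hval τ hτ
        have hfr : ∃ᶠ z in 𝓝[≠] (Complex.I * ((a kk : ℝ) : ℂ)),
            (fun z => h (Function.update t kk z)) z = (fun _ => c) z :=
          hcont.frequently hev.frequently
        have hEq := AnalyticOnNhd.eqOn_of_preconnected_of_frequently_eq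
          (hg.analyticOnNhd isOpen_ball) analyticOnNhd_const
          (convex_ball (x₀ kk) ρ).isPreconnected hz₀ hfr
        have htk : t kk ∈ ball (x₀ kk) ρ := by
          rw [ball_pi x₀ hρ, Set.mem_pi] at ht
          exact ht kk (Set.mem_univ kk)
        have := hEq htk
        simpa using this
      · apply ih t ht
        intro j hj
        exfalso
        have := j.isLt
        omega
  intro t ht
  apply key d t ht
  intro j hj
  exfalso
  have := j.isLt
  omega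

/-- **Generic purely imaginary points.**

Proof. Let `B = {τ : Fin d → ℝ | i τ ∈ ball x₀ ρ}`, a nonempty (`Im x₀`) open subset of `ℝ^d`, and for
`m ≠ 0` let `A_m = {τ ∈ B | ∀ b, ∑ i, m_i * fderiv ℂ H (i τ) b i = 0}`. `A_m` is closed in `B` because
`t ↦ fderiv ℂ H t` is continuous on the ball (`hH` is `C¹`). It has empty interior: if it contains a box
`|τ_j - a_j| < σ`, then the function `h(t) = ∑ i, m_i H(t) i` has derivative `0` at the points `i τ` of the
box, so `τ ↦ h(i τ)` has derivative zero on the (convex) box and is constant `c` there; by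
`const_of_box` `h = c` on `ball x₀ ρ`, so its derivative vanishes on the ball, contrary to `hne`. There
are countably many `m`. By the Baire category theorem (`ℝ^d` is a Baire space;
`dense_iInter_of_isOpen`: the open sets `(closure of A_m)ᶜ` or `B \ A_m ∪ (closure B)ᶜ` are dense) there is
`τ ∈ B` outside of all `A_m`; take `t = i τ`. -/
theorem exists_generic_imag (H : (Fin d → ℂ) → Fin n → ℂ) {x₀ : Fin d → ℂ}
    (hx₀ : ∀ j, (x₀ j).re = 0) {ρ : ℝ} (hρ : 0 < ρ) (hH : ContDiffOn ℂ 1 H (ball x₀ ρ))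
    (hne : ∀ m : Fin n → ℤ, m ≠ 0 → ∃ t ∈ ball x₀ ρ, ∃ b : Fin d → ℂ,
      ∑ i, (m i : ℂ) * fderiv ℂ H t b i ≠ 0) :
    ∃ t ∈ ball x₀ ρ, (∀ j, (t j).re = 0) ∧ ∀ m : Fin n → ℤ, m ≠ 0 →
      ∃ b : Fin d → ℂ, ∑ i, (m i : ℂ) * fderiv ℂ H t b i ≠ 0 := by
  classical
  set ι : (Fin d → ℝ) → (Fin d → ℂ) := fun τ j => Complex.I * (τ j : ℂ) with hι
  have hιc : Continuous ι := by
    rw [hι]
    fun_prop
  set B : Set (Fin d → ℝ) := ι ⁻¹' (ball x₀ ρ) with hB
  have hBo : IsOpen B := isOpen_ball.preimage hιc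
  have hBne : (fun j => (x₀ j).im) ∈ B := by
    have : ι (fun j => (x₀ j).im) = x₀ := by
      funext j
      apply Complex.ext
      · simp [hι, hx₀ j]
      · simp [hι]
    rw [hB, Set.mem_preimage, this]
    exact mem_ball_self hρ
  have hHd : DifferentiableOn ℂ H (ball x₀ ρ) := hH.differentiableOn (by norm_num)
  have hHf : ContinuousOn (fderiv ℂ H) (ball x₀ ρ) :=
    hH.continuousOn_fderiv_of_isOpen isOpen_ball (by norm_num)
  set O : (Fin n → ℤ) → Set (Fin d → ℝ) :=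
    fun m => {τ | τ ∈ B ∧ ∃ b : Fin d → ℂ, ∑ i, (m i : ℂ) * fderiv ℂ H (ι τ) b i ≠ 0} with hO
  have hOopen : ∀ m, IsOpen (O m) := by
    intro m
    have h1 : O m = ⋃ b : Fin d → ℂ,
        (B ∩ (fun τ => ∑ i, (m i : ℂ) * fderiv ℂ H (ι τ) b i) ⁻¹' {0}ᶜ) := by
      ext τ
      simp only [hO, Set.mem_ofPred_eq, Set.mem_iUnion, Set.mem_inter_iff, Set.mem_preimage,
        Set.mem_compl_iff, Set.mem_singleton_iff]
      constructor
      · rintro ⟨h1, b, hb⟩
        exact ⟨b, h1, hb⟩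
      · rintro ⟨b, h1, hb⟩
        exact ⟨h1, b, hb⟩
    rw [h1]
    apply isOpen_iUnion
    intro b
    apply ContinuousOn.isOpen_inter_preimage _ hBo isClosed_singleton.isOpen_compl
    have h2 : ContinuousOn (fun τ => fderiv ℂ H (ι τ)) B :=
      hHf.comp hιc.continuousOn (fun τ hτ => hτ)
    apply continuousOn_finsetSum
    intro i _
    apply ContinuousOn.mul continuousOn_const
    have h3 : ContinuousOn (fun τ => fderiv ℂ H (ι τ) b) B :=
      h2.clm_apply continuousOn_const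
    exact (continuousOn_pi.1 h3) i
  have hdense : ∀ m : Fin n → ℤ, m ≠ 0 → Dense (O m ∪ (closure B)ᶜ) := by
    intro m hm
    rw [dense_iff_inter_open]
    intro U hU hUne
    by_cases hUB : (U ∩ B).Nonempty
    · obtain ⟨τ0, hτ0⟩ := hUB
      obtain ⟨σ, hσ, hball⟩ := Metric.isOpen_iff.1 (hU.inter hBo) τ0 hτ0
      by_contra hno
      have hz : ∀ τ ∈ ball τ0 σ, ∀ b : Fin d → ℂ,
          ∑ i, (m i : ℂ) * fderiv ℂ H (ι τ) b i = 0 := by
        intro τ hτ b
        by_contra hb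
        apply hno
        exact ⟨τ, (hball hτ).1, Or.inl ⟨(hball hτ).2, b, hb⟩⟩
      set h : (Fin d → ℂ) → ℂ := fun t => ∑ i, (m i : ℂ) * H t i with hh
      have hder : ∀ t ∈ ball x₀ ρ, HasFDerivAt h
          (∑ i, (m i : ℂ) • ((ContinuousLinearMap.proj i).comp (fderiv ℂ H t))) t := by
        intro t ht
        have h1 : HasFDerivAt H (fderiv ℂ H t) t :=
          (hHd.differentiableAt (isOpen_ball.mem_nhds ht)).hasFDerivAt
        have h2 := fun i : Fin n => (hasFDerivAt_pi'.1 h1) i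
        have h3 := HasFDerivAt.fun_sum (u := Finset.univ)
          (fun i _ => (h2 i).const_mul ((m i : ℂ)))
        exact h3
      have hdiff : DifferentiableOn ℂ h (ball x₀ ρ) :=
        fun t ht => (hder t ht).differentiableAt.differentiableWithinAt
      have hcomp : ∀ τ ∈ ball τ0 σ, HasFDerivAt (fun τ => h (ι τ))
          (0 : (Fin d → ℝ) →L[ℝ] ℂ) τ := by
        intro τ hτ
        have h1 := (hder (ι τ) (hball hτ).2).restrictScalars ℝ
        have hι' : HasFDerivAt ι (ContinuousLinearMap.pi fun j =>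
            Complex.I • (Complex.ofRealCLM.comp (ContinuousLinearMap.proj j))) τ := by
          rw [hasFDerivAt_pi]
          intro j
          have h4 : HasFDerivAt (fun τ : Fin d → ℝ => ((τ j : ℝ) : ℂ))
              (Complex.ofRealCLM.comp (ContinuousLinearMap.proj j)) τ :=
            (Complex.ofRealCLM.comp (ContinuousLinearMap.proj (R := ℝ) (φ := fun _ : Fin d => ℝ) j)).hasFDerivAt
          exact h4.const_mul Complex.I
        have h5 := h1.comp τ hι'
        refine h5.congr_fderiv ?_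
        ext v
        have h6 := hz τ hτ ((ContinuousLinearMap.pi fun j =>
            Complex.I • (Complex.ofRealCLM.comp (ContinuousLinearMap.proj (R := ℝ) (φ := fun _ : Fin d => ℝ) j))) v)
        simpa using h6
      have hconst : ∀ τ ∈ ball τ0 σ, h (ι τ) = h (ι τ0) := by
        intro τ hτ
        refine isOpen_ball.is_const_of_fderiv_eq_zero (𝕜 := ℝ) (convex_ball τ0 σ).isPreconnected
          (f := fun τ => h (ι τ)) ?_ ?_ hτ (mem_ball_self hσ)
        · intro τ hτ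
          exact (hcomp τ hτ).differentiableAt.differentiableWithinAt
        · intro τ hτ
          exact (hcomp τ hτ).fderiv
      have hboxball : ∀ τ : Fin d → ℝ, (∀ j, |τ j - τ0 j| < σ) → τ ∈ ball τ0 σ := by
        intro τ hτ
        rw [ball_pi τ0 hσ, Set.mem_pi]
        intro j _
        rw [Metric.mem_ball, Real.dist_eq]
        exact hτ j
      have hall := const_of_box h hdiff τ0 hσ
        (fun τ hτ => (hball (hboxball τ hτ)).2) (h (ι τ0))
        (fun τ hτ => hconst τ (hboxball τ hτ))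
      obtain ⟨t, ht, b, hb⟩ := hne m hm
      apply hb
      have h7 : HasFDerivAt h (0 : (Fin d → ℂ) →L[ℂ] ℂ) t := by
        have h8 : h =ᶠ[𝓝 t] fun _ => h (ι τ0) := by
          filter_upwards [isOpen_ball.mem_nhds ht] with s hs
          exact hall s hs
        exact (hasFDerivAt_const _ t).congr_of_eventuallyEq h8
      have h9 := (hder t ht).unique h7
      have h10 := congrArg (fun L : (Fin d → ℂ) →L[ℂ] ℂ => L b) h9
      simpa using h10
    · obtain ⟨τ, hτ⟩ := hUne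
      refine ⟨τ, hτ, Or.inr ?_⟩
      intro hcl
      rw [_root_.mem_closure_iff] at hcl
      exact hUB (hcl U hU hτ)
  have hBaire : Dense (⋂ m : {m : Fin n → ℤ // m ≠ 0}, (O m.1 ∪ (closure B)ᶜ)) := by
    apply dense_iInter_of_isOpen
    · intro m
      exact (hOopen m.1).union isClosed_closure.isOpen_compl
    · intro m
      exact hdense m.1 m.2
  obtain ⟨τ, hτB, hτ⟩ := hBaire.inter_open_nonempty B hBo ⟨_, hBne⟩
  refine ⟨ι τ, hτB, ?_, ?_⟩
  · intro j
    simp [hι]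
  · intro m hm
    have h1 := Set.mem_iInter.1 hτ ⟨m, hm⟩
    rcases h1 with h1 | h1
    · exact h1.2
    · exact absurd (subset_closure hτB) h1

end Pool.Agent.Lib.MP_209724_lc.GD
end

section

namespace Pool.Agent.Lib.MP_209724_lc.GE

open MvPolynomial Filter Topology Metric Set

variable {n : ℕ}

private theorem nrm_zero' : nrm (0 : Fin n → ℝ) = 0 := by
  simp [nrm]

private theorem continuous_nrm : Continuous (nrm : (Fin n → ℝ) → ℝ) := by
  unfold nrm
  fun_prop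

private theorem abs_le_nrm (b : Fin n → ℝ) (i : Fin n) : |b i| ≤ nrm b := by
  unfold nrm
  rw [← Real.sqrt_sq_eq_abs]
  exact Real.sqrt_le_sqrt (Finset.single_le_sum (f := fun i => b i ^ 2)
    (fun j _ => sq_nonneg (b j)) (Finset.mem_univ i))

private theorem nrm_nonneg' (b : Fin n → ℝ) : 0 ≤ nrm b := Real.sqrt_nonneg _

private theorem claim1 (A : Set ((Fin n → ℂ) × (Fin n → ℝ))) {z₁ : Fin n → ℂ} {ρ : ℝ}
    (Q : MvPolynomial (Fin n) ℂ)
    (h : ∀ z : Fin n → ℂ, (z, (0 : Fin n → ℝ)) ∈ closure A → ‖z - z₁‖ = ρ →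
      (eval z Q).re ≤ (eval z₁ Q).re - 1) :
    ∃ δ : ℝ, 0 < δ ∧ ∀ (z : Fin n → ℂ) (b : Fin n → ℝ), (z, b) ∈ closure A → ‖z - z₁‖ = ρ →
      nrm b ≤ δ → (eval z Q).re ≤ (eval z₁ Q).re - 3 / 4 := by
  by_contra hcon
  push Not at hcon
  choose zs bs hcl hsp hb hre using fun j : ℕ => hcon (1 / ((j : ℝ) + 1)) (by positivity)
  have hmem : ∀ j, zs j ∈ sphere z₁ ρ := fun j => by
    rw [mem_sphere, dist_eq_norm]; exact hsp j
  obtain ⟨z, hz, φ, hφ, hlim⟩ := (isCompact_sphere z₁ ρ).tendsto_subseq hmem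
  have hb0 : Tendsto bs atTop (𝓝 0) := by
    rw [tendsto_pi_nhds]
    intro i
    rw [Pi.zero_apply, tendsto_zero_iff_norm_tendsto_zero]
    refine squeeze_zero (fun j => norm_nonneg _) (fun j => ?_)
      tendsto_one_div_add_atTop_nhds_zero_nat
    rw [Real.norm_eq_abs]
    exact (abs_le_nrm _ i).trans (hb j)
  have hb1 : Tendsto (fun j => bs (φ j)) atTop (𝓝 0) := hb0.comp hφ.tendsto_atTop
  have hpair : Tendsto (fun j => (zs (φ j), bs (φ j))) atTop (𝓝 (z, (0 : Fin n → ℝ))) :=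
    hlim.prodMk_nhds hb1
  have h1 : (z, (0 : Fin n → ℝ)) ∈ closure A :=
    isClosed_closure.mem_of_tendsto hpair (Eventually.of_forall fun j => hcl (φ j))
  have h2 : ‖z - z₁‖ = ρ := by
    rw [← dist_eq_norm]; exact hz
  have h3 := h z h1 h2
  have h4 : Tendsto (fun j => (eval (zs (φ j)) Q).re) atTop (𝓝 (eval z Q).re) := by
    have hc : Continuous fun z : Fin n → ℂ => (eval z Q).re :=
      Complex.continuous_re.comp (MvPolynomial.continuous_eval Q)
    exact (hc.tendsto z).comp hlim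
  have h5 : (eval z₁ Q).re - 3 / 4 ≤ (eval z Q).re :=
    ge_of_tendsto h4 (Eventually.of_forall fun j => (hre (φ j)).le)
  linarith

/-- **The hull property.** `A` a set of pairs `(z, b)`, invariant under positive multiples, with the maximum
principle `hmmp`. Let `(z₁, 0)` be in the closure of `A` and `ρ > 0`. Then for every polynomial `Q` there is
`z` with `(z, 0)` in the closure of `A`, `‖z - z₁‖ = ρ` and `Re Q(z) > Re Q(z₁) - 1`.

Proof. Suppose not. Claim 1: there is `δ > 0` with `Re Q(z) ≤ Re Q(z₁) - 3/4` for all `(z, b)` in the closure of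
`A` with `‖z - z₁‖ = ρ`, `nrm b ≤ δ`: otherwise there is a sequence `(z_j, b_j)` in the closure of `A`,
`‖z_j - z₁‖ = ρ`, `nrm b_j → 0`, `Re Q(z_j) > Re Q(z₁) - 3/4`; by compactness of the sphere a limit `z`,
`(z, 0) ∈ closure A`, `Re Q(z) ≥ Re Q(z₁) - 3/4 > Re Q(z₁) - 1`. Let `q̄ ≥ |Q(z)|` for `‖z - z₁‖ ≤ ρ`, `K > 0` with
`- K δ + 2 q̄ ≤ - 3/4`. Claim 2: `- K nrm b + Re Q(z) ≤ Re Q(z₁) - 3/4` for ALL `(z, b)` in the closure of `A`
with `‖z - z₁‖ = ρ` (two cases, `nrm b ≤ δ` or `> δ`). As `(z₁, 0) ∈ closure A`, there is `w₂ ∈ A` with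
`‖w₂.1 - z₁‖ < ρ`, `- K nrm w₂.2 + Re Q(w₂.1) ≥ Re Q(z₁) - 1/8` (continuity). Let `C` be an upper bound of `g` on
`‖z‖ ≤ ‖z₁‖ + ρ`, and `ε > 0` with `ε (|g w₂.1| + |C|) ≤ 1/8`. `hmmp` with `η = 1/8` gives `w ∈ A`,
`‖w.1 - z₁‖ = ρ` with `Re Q(z₁) - 1/8 + ε g(w₂.1) - 1/8 ≤ - K nrm w.2 + Re Q(w.1) + ε g(w.1)
≤ Re Q(z₁) - 3/4 + ε C`, so `1/2 ≤ ε (C - g(w₂.1)) ≤ 1/8`: a contradiction. -/
theorem hull (A : Set ((Fin n → ℂ) × (Fin n → ℝ))) (g : (Fin n → ℂ) → ℝ)
    (hg : ∀ R : ℝ, ∃ C : ℝ, ∀ z : Fin n → ℂ, ‖z‖ ≤ R → g z ≤ C)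
    (hmmp : ∀ K ε : ℝ, 0 < K → 0 < ε → ∀ (Q : MvPolynomial (Fin n) ℂ) (z₁ : Fin n → ℂ) (ρ : ℝ),
      ∀ w₂ ∈ A, ‖w₂.1 - z₁‖ < ρ → ∀ η : ℝ, 0 < η → ∃ w ∈ A, ‖w.1 - z₁‖ = ρ ∧
        -(K * nrm w₂.2) + (eval w₂.1 Q).re + ε * g w₂.1 - η ≤
          -(K * nrm w.2) + (eval w.1 Q).re + ε * g w.1)
    {z₁ : Fin n → ℂ} (hz₁ : (z₁, (0 : Fin n → ℝ)) ∈ closure A) {ρ : ℝ} (hρ : 0 < ρ)
    (Q : MvPolynomial (Fin n) ℂ) :
    ∃ z : Fin n → ℂ, (z, (0 : Fin n → ℝ)) ∈ closure A ∧ ‖z - z₁‖ = ρ ∧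
      (eval z₁ Q).re - 1 < (eval z Q).re := by
  by_contra hcon
  push Not at hcon
  obtain ⟨δ, hδ, hc1⟩ := claim1 A Q hcon
  obtain ⟨q, hq⟩ := (isCompact_closedBall z₁ ρ).exists_bound_of_continuousOn
    (f := fun z : Fin n → ℂ => eval z Q) (MvPolynomial.continuous_eval Q).continuousOn
  have hq₁ : ‖eval z₁ Q‖ ≤ q := hq z₁ (mem_closedBall_self hρ.le)
  have hq0 : 0 ≤ q := (norm_nonneg _).trans hq₁
  set K : ℝ := (2 * q + 3 / 4) / δ with hK
  have hKpos : 0 < K := by positivity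
  have hKδ : K * δ = 2 * q + 3 / 4 := by
    rw [hK]; field_simp
  have hc2 : ∀ (z : Fin n → ℂ) (b : Fin n → ℝ), (z, b) ∈ closure A → ‖z - z₁‖ = ρ →
      -(K * nrm b) + (eval z Q).re ≤ (eval z₁ Q).re - 3 / 4 := by
    intro z b hzb hz
    rcases le_or_gt (nrm b) δ with hb | hb
    · have h1 := hc1 z b hzb hz hb
      have h2 : 0 ≤ K * nrm b := mul_nonneg hKpos.le (nrm_nonneg' b)
      linarith
    · have h1 : K * δ ≤ K * nrm b := mul_le_mul_of_nonneg_left hb.le hKpos.le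
      have h2 : ‖eval z Q‖ ≤ q := hq z (by rw [mem_closedBall, dist_eq_norm]; exact hz.le)
      have h3 : (eval z Q).re ≤ q := (Complex.re_le_norm _).trans h2
      have h4 : -q ≤ (eval z₁ Q).re := by
        have := (Complex.abs_re_le_norm (eval z₁ Q)).trans hq₁
        exact (abs_le.1 this).1
      linarith
  -- a point of `A` near `(z₁, 0)`
  have hcont : Continuous fun w : (Fin n → ℂ) × (Fin n → ℝ) =>
      -(K * nrm w.2) + (eval w.1 Q).re := by
    have h1 : Continuous fun w : (Fin n → ℂ) × (Fin n → ℝ) => nrm w.2 :=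
      continuous_nrm.comp continuous_snd
    have h2 : Continuous fun w : (Fin n → ℂ) × (Fin n → ℝ) => (eval w.1 Q).re :=
      Complex.continuous_re.comp ((MvPolynomial.continuous_eval Q).comp continuous_fst)
    exact (continuous_const.mul h1).neg.add h2
  have hU : {w : (Fin n → ℂ) × (Fin n → ℝ) | (eval z₁ Q).re - 1 / 8 <
      -(K * nrm w.2) + (eval w.1 Q).re} ∈ 𝓝 (z₁, (0 : Fin n → ℝ)) := by
    refine (isOpen_lt continuous_const hcont).mem_nhds ?_
    rw [Set.mem_ofPred_eq]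
    simp only [nrm_zero', mul_zero, neg_zero, zero_add]
    linarith
  have hV : {w : (Fin n → ℂ) × (Fin n → ℝ) | ‖w.1 - z₁‖ < ρ} ∈ 𝓝 (z₁, (0 : Fin n → ℝ)) := by
    refine (isOpen_lt (continuous_fst.sub continuous_const).norm continuous_const).mem_nhds ?_
    simp [hρ]
  obtain ⟨w₂, ⟨hw₂U, hw₂V⟩, hw₂A⟩ := mem_closure_iff_nhds.1 hz₁ _ (inter_mem hU hV)
  rw [Set.mem_ofPred_eq] at hw₂U hw₂V
  obtain ⟨C, hC⟩ := hg (‖z₁‖ + ρ)
  set ε : ℝ := 1 / (8 * (|g w₂.1| + |C| + 1)) with hε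
  have hpos : 0 < |g w₂.1| + |C| + 1 := by positivity
  have hεpos : 0 < ε := by positivity
  have hε1 : ε * (|g w₂.1| + |C| + 1) = 1 / 8 := by
    rw [hε]; field_simp
  obtain ⟨w, hwA, hwρ, hw⟩ := hmmp K ε hKpos hεpos Q z₁ ρ w₂ hw₂A hw₂V (1 / 8) (by norm_num)
  have h1 := hc2 w.1 w.2 (subset_closure hwA) hwρ
  have h2 : ‖w.1‖ ≤ ‖z₁‖ + ρ := by
    calc ‖w.1‖ = ‖z₁ + (w.1 - z₁)‖ := by rw [add_sub_cancel]
      _ ≤ ‖z₁‖ + ‖w.1 - z₁‖ := norm_add_le _ _
      _ = ‖z₁‖ + ρ := by rw [hwρ]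
  have h3 := hC w.1 h2
  have h4 : ε * g w.1 ≤ ε * C := mul_le_mul_of_nonneg_left h3 hεpos.le
  have h5 : ε * (C - g w₂.1) ≤ ε * (|g w₂.1| + |C| + 1) := by
    refine mul_le_mul_of_nonneg_left ?_ hεpos.le
    have h6 := le_abs_self C
    have h7 := neg_abs_le (g w₂.1)
    linarith
  rw [hε1, mul_sub] at h5
  linarith

end Pool.Agent.Lib.MP_209724_lc.GE
end

section

namespace Pool.Agent.Lib.MP_209724_lc.GD

open MvPolynomial
open GP (OnV)

variable {n k : ℕ}

private theorem alg_rels_dep {L : Type} [Field L] [Algebra ℂ L] (ξ υ : Fin n → L) (I : Finset (Fin n))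
    (hnot : ¬ AlgebraicIndependent (IntermediateField.adjoin ℂ (Set.range ξ)) (fun i : I => υ i)) :
    ∃ (S : Finset (Fin n → ℕ)) (c : (Fin n → ℕ) → MvPolynomial (Fin n) ℂ), S.Nonempty ∧
      (∀ α ∈ S, aeval ξ (c α) ≠ 0) ∧ (∀ α ∈ S, ∀ i ∉ I, α i = 0) ∧
      ∑ α ∈ S, aeval ξ (c α) * ∏ i, υ i ^ α i = 0 := by
  classical
  rw [algebraicIndependent_iff] at hnot
  push Not at hnot
  obtain ⟨P, hP, hP0⟩ := hnot
  let cf : (I →₀ ℕ) → L := fun α =>
    algebraMap (IntermediateField.adjoin ℂ (Set.range ξ)) L (coeff α P)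
  have hfrac : ∀ α : I →₀ ℕ, ∃ r s : MvPolynomial (Fin n) ℂ, aeval ξ s ≠ 0 ∧
      aeval ξ r = aeval ξ s * cf α := by
    intro α
    obtain ⟨r, s, hrs⟩ := (IntermediateField.mem_adjoin_range_iff ℂ _ (cf α)).1
      (coeff α P).2
    by_cases hs : aeval ξ s = 0
    · refine ⟨0, 1, by simp, ?_⟩
      rw [hrs, hs]
      simp
    · refine ⟨r, s, hs, ?_⟩
      rw [hrs]
      field_simp
  choose r s hs hrs using hfrac
  have hDs : ∀ α ∈ P.support, aeval ξ (r α * ∏ β ∈ P.support.erase α, s β) =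
      aeval ξ (∏ β ∈ P.support, s β) * cf α := by
    intro α hα
    rw [map_mul, hrs, ← Finset.mul_prod_erase P.support s hα, map_mul]
    ring
  have hD : aeval ξ (∏ β ∈ P.support, s β) ≠ 0 := by
    rw [map_prod]
    exact Finset.prod_ne_zero_iff.2 fun β _ => hs β
  let ext : (I →₀ ℕ) → (Fin n → ℕ) := fun α i => if h : i ∈ I then α ⟨i, h⟩ else 0
  let res : (Fin n → ℕ) → (I →₀ ℕ) := fun γ => Finsupp.equivFunOnFinite.symm fun i => γ i
  have hres : ∀ α, res (ext α) = α := by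
    intro α
    ext i
    simp [res, ext]
  have hinj : Function.Injective ext := fun α β h => by rw [← hres α, ← hres β, h]
  have hprod : ∀ α : I →₀ ℕ, ∏ i, υ i ^ ext α i = ∏ i : I, υ i ^ α i := by
    intro α
    rw [← Finset.prod_subset (Finset.subset_univ I), ← Finset.prod_coe_sort]
    · refine Finset.prod_congr rfl fun i _ => ?_
      simp [ext]
    · intro i _ hi
      simp [ext, hi]
  refine ⟨P.support.image ext, fun γ => r (res γ) * ∏ β ∈ P.support.erase (res γ), s β, ?_, ?_, ?_,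
    ?_⟩
  · rw [Finset.image_nonempty]
    exact support_nonempty.2 hP0
  · intro γ hγ
    obtain ⟨α, hα, rfl⟩ := Finset.mem_image.1 hγ
    simp only [hres]
    rw [hDs α hα]
    refine mul_ne_zero hD ?_
    have h1 := mem_support_iff.1 hα
    exact fun h => h1 (Subtype.ext h)
  · intro γ hγ i hi
    obtain ⟨α, hα, rfl⟩ := Finset.mem_image.1 hγ
    simp [ext, hi]
  · rw [Finset.sum_image fun α _ β _ h => hinj h]
    have h1 : ∀ α ∈ P.support, aeval ξ (r (res (ext α)) *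
        ∏ β ∈ P.support.erase (res (ext α)), s β) * ∏ i, υ i ^ ext α i =
        aeval ξ (∏ β ∈ P.support, s β) * (cf α * ∏ i : I, υ i ^ α i) := by
      intro α hα
      rw [hres, hDs α hα, hprod, mul_assoc]
    rw [Finset.sum_congr rfl h1, ← Finset.mul_sum]
    have h2 : ∑ α ∈ P.support, cf α * ∏ i : I, υ i ^ α i = 0 := by
      rw [← hP, aeval_def, eval₂_eq']
    rw [h2, mul_zero]

private theorem alg_mono {L : Type} [Field L] {A B : Type} [CommRing A] [CommRing B] [Algebra A L]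
    [Algebra B L] (S1 : Subalgebra A L) (S2 : Subalgebra B L) (h : ∀ x, x ∈ S1 → x ∈ S2) {z : L}
    (hz : IsAlgebraic S1 z) : IsAlgebraic S2 z := by
  let f : S1 →+* S2 :=
    { toFun := fun x => ⟨x.1, h _ x.2⟩
      map_one' := rfl
      map_mul' := fun _ _ => rfl
      map_zero' := rfl
      map_add' := fun _ _ => rfl }
  have hf : Function.Injective f := by
    intro x y hxy
    apply Subtype.ext
    exact congrArg (fun u : S2 => (u : L)) hxy
  exact hz.ringHom_of_comp_eq f (RingHom.id L) hf (by ext; rfl)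

private theorem alg_K {L : Type} [Field L] [Algebra ℂ L] (ξ : Fin n → L) {x : L}
    (hx : x ∈ IntermediateField.adjoin ℂ (Set.range ξ)) :
    IsAlgebraic (Algebra.adjoin ℂ (Set.range ξ)) x := by
  induction hx using IntermediateField.adjoin_induction with
  | mem x hx => exact isAlgebraic_algebraMap (⟨x, Algebra.subset_adjoin hx⟩ :
      Algebra.adjoin ℂ (Set.range ξ))
  | algebraMap x => exact isAlgebraic_algebraMap (⟨algebraMap ℂ L x, Subalgebra.algebraMap_mem _ x⟩ :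
      Algebra.adjoin ℂ (Set.range ξ))
  | add x y _ _ hx hy => exact hx.add hy
  | inv x _ hx => exact hx.inv
  | mul x y _ _ hx hy => exact hx.mul hy

/-- If the `υ i`, `i ∈ I`, are a transcendence basis, everything is algebraic over the algebra
generated by the `ξ` and these `υ i`. -/
private theorem alg_all {L : Type} [Field L] [Algebra ℂ L] (ξ υ : Fin n → L)
    (htr : Algebra.trdeg (IntermediateField.adjoin ℂ (Set.range ξ)) L = k) (I : Finset (Fin n))
    (hI : I.card = k)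
    (h : AlgebraicIndependent (IntermediateField.adjoin ℂ (Set.range ξ)) (fun i : I => υ i)) (z : L) :
    IsAlgebraic (Algebra.adjoin ℂ (Set.range (Sum.elim (fun i : I => υ i) ξ))) z := by
  classical
  have hbas : IsTranscendenceBasis (IntermediateField.adjoin ℂ (Set.range ξ)) (fun i : I => υ i) := by
    refine h.isTranscendenceBasis_of_trdeg_le_of_finite ?_
    rw [htr, Cardinal.mk_fintype, Fintype.card_coe, hI]
  set K := IntermediateField.adjoin ℂ (Set.range ξ) with hK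
  have hz : IsAlgebraic (Algebra.adjoin K (Set.range fun i : I => υ i)) z := hbas.isAlgebraic.1 z
  set S : Set L := Set.range fun i : I => υ i with hS
  have h2 : IsAlgebraic (Algebra.adjoin ℂ ((K : Set L) ∪ S)) z := by
    refine alg_mono _ _ (fun x hx => ?_) hz
    induction hx using Algebra.adjoin_induction with
    | mem x hx => exact Algebra.subset_adjoin (Or.inr hx)
    | algebraMap r => exact Algebra.subset_adjoin (Or.inl r.2)
    | add x y _ _ hx hy => exact add_mem hx hy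
    | mul x y _ _ hx hy => exact mul_mem hx hy
  refine h2.adjoin_of_forall_isAlgebraic fun x hx => ?_
  rcases hx.1 with hx1 | hx1
  · refine alg_mono _ _ (fun y hy => Algebra.adjoin_mono ?_ hy) (alg_K ξ hx1)
    rintro _ ⟨i, rfl⟩
    exact ⟨Sum.inr i, rfl⟩
  · refine absurd ?_ hx.2
    obtain ⟨i, rfl⟩ := hx1
    exact ⟨Sum.inl i, rfl⟩

private theorem alg_expand {R : Type} [CommRing R] [Algebra ℂ R] (I : Finset (Fin n))
    (P : MvPolynomial (I ⊕ Fin n) ℂ) (x : Fin n → R) (y : I → R) :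
    aeval (Sum.elim y x) P =
      ∑ α ∈ (sumAlgEquiv ℂ I (Fin n) P).support,
        aeval x (coeff α (sumAlgEquiv ℂ I (Fin n) P)) * ∏ i, y i ^ α i := by
  have h1 : (aeval (Sum.elim y x) : MvPolynomial (I ⊕ Fin n) ℂ →ₐ[ℂ] R).toRingHom =
      (eval₂Hom (aeval x : MvPolynomial (Fin n) ℂ →ₐ[ℂ] R).toRingHom y).comp
        (sumAlgEquiv ℂ I (Fin n)).toRingEquiv.toRingHom := by
    apply MvPolynomial.ringHom_ext
    · intro r
      simp
    · rintro (i | i)
      · simp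
      · simp
  have h2 := congrArg (fun f : MvPolynomial (I ⊕ Fin n) ℂ →+* R => f P) h1
  have h3 : aeval (Sum.elim y x) P =
      eval₂ (aeval x : MvPolynomial (Fin n) ℂ →ₐ[ℂ] R).toRingHom y (sumAlgEquiv ℂ I (Fin n) P) := h2
  rw [h3, eval₂_eq']
  rfl

/-- **Relations on `V ∩ {D = 0}`.** `(ξ, υ)` is the generic point of `V`, the transcendence degree of `L`
over `ℂ(ξ)` is `k`, and `D` does not vanish on `V`. For every set `I` of `k` coordinates there is a
polynomial in `x` and the `y_i`, `i ∈ I`, all of whose coefficients are nonzero at `ξ`, which vanishes on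
`V ∩ {D = 0}`.

Proof. Let `K = IntermediateField.adjoin ℂ (range ξ)` and `A₀ = Algebra.adjoin ℂ (range ξ)`.
Case 1: the family `(υ i)_{i ∈ I}` is not algebraically independent over `K`. As in `GP.exists_rels`
(`GP/Rels.lean`) there is a relation `∑ α ∈ S, aeval ξ (c α) * ∏ i, υ i ^ α i = 0` with all
`aeval ξ (c α) ≠ 0`, `S` nonempty, and it holds at all points of `V` (`OnV` applied to
`∑ α ∈ S, rename Sum.inl (c α) * ∏ i, X (Sum.inr i) ^ α i`).
Case 2: it is algebraically independent. It has `k` elements, so it is a transcendence basis of `L` over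
`K` (`AlgebraicIndependent.isTranscendenceBasis_of_...trdeg`, finite cardinality) and `δ = D(ξ, υ)` is
algebraic over `A₁ = Algebra.adjoin ℂ (range ξ ∪ {υ i | i ∈ I})` (elements of `K` are fractions of
elements of `A₀`). As `δ ≠ 0`, `A = Algebra.adjoin ℂ (range (Sum.elim ξ υ))` is a domain and `δ ∈ A` is
algebraic over `A₁`, `δ` divides in `A` a nonzero element of `A₁` (`IsAlgebraic.exists_nonzero_dvd`, or
directly from a polynomial relation with nonzero constant term; multiply an algebraic equation of `δ` over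
`A₁` with constant term `a₀ ≠ 0`: `a₀ = - δ * (…)`). So there are `P = ∑ α ∈ S₀, (c α)(x) ∏_{i ∈ I} y_i ^ α_i`
(not all `aeval ξ (c α)` zero) and `E : MvPolynomial (Fin n ⊕ Fin n) ℂ` with
`P(ξ, υ) = D(ξ, υ) E(ξ, υ)`. At the points `(x, y)` of `V` `P(x, y) = D(x, y) E(x, y)`, which is `0` if
`D(x, y) = 0`. Let `S = {α ∈ S₀ | aeval ξ (c α) ≠ 0}`; the terms with `aeval ξ (c α) = 0` vanish at the
points of `V`; `S` is not empty because `P(ξ, υ) ≠ 0`. -/
theorem exists_rels_D {L : Type} [Field L] [Algebra ℂ L] (ξ υ : Fin n → L)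
    (htr : Algebra.trdeg (IntermediateField.adjoin ℂ (Set.range ξ)) L = k)
    (D : MvPolynomial (Fin n ⊕ Fin n) ℂ) (hD : aeval (Sum.elim ξ υ) D ≠ 0) (I : Finset (Fin n))
    (hI : I.card = k) :
    ∃ (S : Finset (Fin n → ℕ)) (c : (Fin n → ℕ) → MvPolynomial (Fin n) ℂ), S.Nonempty ∧
      (∀ α ∈ S, aeval ξ (c α) ≠ 0) ∧ (∀ α ∈ S, ∀ i ∉ I, α i = 0) ∧
      ∀ x y : Fin n → ℂ, OnV ξ υ x y → eval (Sum.elim x y) D = 0 →
        ∑ α ∈ S, eval x (c α) * ∏ i, y i ^ α i = 0 := by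
  classical
  by_cases hind : AlgebraicIndependent (IntermediateField.adjoin ℂ (Set.range ξ)) (fun i : I => υ i)
  swap
  · obtain ⟨S, c, hS, hc, hα, hrel⟩ := alg_rels_dep ξ υ I hind
    refine ⟨S, c, hS, hc, hα, fun x y hV _ => ?_⟩
    have h1 := hV (∑ α ∈ S, rename Sum.inl (c α) * ∏ i, X (Sum.inr i) ^ α i) (by
      rw [map_sum, ← hrel]
      refine Finset.sum_congr rfl fun α _ => ?_
      rw [map_mul, aeval_rename, Sum.elim_comp_inl, map_prod]
      congr 1
      refine Finset.prod_congr rfl fun i _ => ?_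
      rw [map_pow, aeval_X, Sum.elim_inr])
    rw [map_sum] at h1
    rw [← h1]
    refine Finset.sum_congr rfl fun α _ => ?_
    rw [map_mul, eval_rename, Sum.elim_comp_inl, map_prod]
    congr 1
    refine Finset.prod_congr rfl fun i _ => ?_
    rw [map_pow, eval_X, Sum.elim_inr]
  -- the two algebras
  let A₁ : Subalgebra ℂ L := Algebra.adjoin ℂ (Set.range (Sum.elim (fun i : I => υ i) ξ))
  let A : Subalgebra ℂ L := Algebra.adjoin ℂ (Set.range (Sum.elim ξ υ))
  have hle : A₁ ≤ A := by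
    refine Algebra.adjoin_le ?_
    rintro _ ⟨i | i, rfl⟩
    · exact Algebra.subset_adjoin ⟨Sum.inr i, rfl⟩
    · exact Algebra.subset_adjoin ⟨Sum.inl i, rfl⟩
  let _ : Algebra A₁ A := (Subalgebra.inclusion hle).toRingHom.toAlgebra
  have : IsScalarTower A₁ A L := IsScalarTower.of_algebraMap_eq fun x => rfl
  have hδA : aeval (Sum.elim ξ υ) D ∈ A := by
    show _ ∈ Algebra.adjoin ℂ (Set.range (Sum.elim ξ υ))
    rw [Algebra.adjoin_range_eq_range_aeval]
    exact ⟨D, rfl⟩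
  let δ : A := ⟨aeval (Sum.elim ξ υ) D, hδA⟩
  have hδalg : IsAlgebraic A₁ δ := by
    rw [← isAlgebraic_algebraMap_iff (S := A) (A := L) Subtype.val_injective]
    exact alg_all ξ υ htr I hI hind _
  have hδ0 : δ ≠ 0 := fun h => hD (congrArg Subtype.val h)
  obtain ⟨r, hr0, e, hre⟩ := hδalg.exists_nonzero_dvd (mem_nonZeroDivisors_of_ne_zero hδ0)
  have hre' : (r : L) = aeval (Sum.elim ξ υ) D * (e : L) := congrArg Subtype.val hre
  have hr0' : (r : L) ≠ 0 := fun h => hr0 (Subtype.ext h)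
  have hrmem : (r : L) ∈ Algebra.adjoin ℂ (Set.range (Sum.elim (fun i : I => υ i) ξ)) := r.2
  rw [Algebra.adjoin_range_eq_range_aeval] at hrmem
  obtain ⟨P, hP⟩ := hrmem
  have hemem : (e : L) ∈ Algebra.adjoin ℂ (Set.range (Sum.elim ξ υ)) := e.2
  rw [Algebra.adjoin_range_eq_range_aeval] at hemem
  obtain ⟨E, hE⟩ := hemem
  have hP' : aeval (Sum.elim (fun i : I => υ i) ξ) P = (r : L) := hP
  have hE' : aeval (Sum.elim ξ υ) E = (e : L) := hE
  let Q := sumAlgEquiv ℂ I (Fin n) P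
  let ext : (I →₀ ℕ) → (Fin n → ℕ) := fun α i => if h : i ∈ I then α ⟨i, h⟩ else 0
  let res : (Fin n → ℕ) → (I →₀ ℕ) := fun γ => Finsupp.equivFunOnFinite.symm fun i => γ i
  have hres : ∀ α, res (ext α) = α := by
    intro α
    ext i
    simp [res, ext]
  have hinj : Function.Injective ext := fun α β h => by rw [← hres α, ← hres β, h]
  have hprod : ∀ {R : Type} [CommRing R] (y : Fin n → R) (α : I →₀ ℕ),
      ∏ i, y i ^ ext α i = ∏ i : I, y i ^ α i := by
    intro R _ y α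
    rw [← Finset.prod_subset (Finset.subset_univ I), ← Finset.prod_coe_sort]
    · refine Finset.prod_congr rfl fun i _ => ?_
      simp [ext]
    · intro i _ hi
      simp [ext, hi]
  let S₀ := Q.support.filter fun α => aeval ξ (coeff α Q) ≠ 0
  refine ⟨S₀.image ext, fun γ => coeff (res γ) Q, ?_, ?_, ?_, ?_⟩
  · rw [Finset.image_nonempty]
    by_contra hne
    rw [Finset.not_nonempty_iff_eq_empty] at hne
    apply hr0'
    rw [← hP', alg_expand]
    refine Finset.sum_eq_zero fun α hα => ?_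
    have h1 : α ∉ S₀ := by rw [hne]; simp
    have h2 : aeval ξ (coeff α Q) = 0 := by
      by_contra h3
      exact h1 (Finset.mem_filter.2 ⟨hα, h3⟩)
    show aeval ξ (coeff α Q) * _ = 0
    rw [h2, zero_mul]
  · intro γ hγ
    obtain ⟨α, hα, rfl⟩ := Finset.mem_image.1 hγ
    simp only [hres]
    exact (Finset.mem_filter.1 hα).2
  · intro γ hγ i hi
    obtain ⟨α, hα, rfl⟩ := Finset.mem_image.1 hγ
    simp [ext, hi]
  · intro x y hV hDxy
    rw [Finset.sum_image fun α _ β _ h => hinj h]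
    have h1 : ∀ α ∈ S₀, eval x (coeff (res (ext α)) Q) * ∏ i, y i ^ ext α i =
        aeval x (coeff α Q) * ∏ i : I, y i ^ α i := by
      intro α _
      rw [hres, hprod]
      rfl
    rw [Finset.sum_congr rfl h1]
    have h2 : ∑ α ∈ S₀, aeval x (coeff α Q) * ∏ i : I, y i ^ α i =
        ∑ α ∈ Q.support, aeval x (coeff α Q) * ∏ i : I, y i ^ α i := by
      refine Finset.sum_subset (Finset.filter_subset _ _) fun α hα hα' => ?_
      have h3 : aeval ξ (coeff α Q) = 0 := by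
        by_contra h3
        exact hα' (Finset.mem_filter.2 ⟨hα, h3⟩)
      have h4 := hV.onW (coeff α Q) h3
      have h5 : aeval x (coeff α Q) = 0 := h4
      rw [h5, zero_mul]
    rw [h2]
    have h3 := alg_expand I P x (fun i : I => y i)
    have h4 : ∑ α ∈ Q.support, aeval x (coeff α Q) * ∏ i : I, y i ^ α i =
        aeval (Sum.elim (fun i : I => y i) x) P := h3.symm
    rw [h4]
    -- the identity `P = D E` on `V`
    let inj : I ⊕ Fin n → Fin n ⊕ Fin n := Sum.elim (fun i => Sum.inr i.1) Sum.inl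
    have h5 := hV (rename inj P - D * E) (by
      rw [map_sub, map_mul, aeval_rename, hE', ← hre', ← hP']
      have h6 : (Sum.elim ξ υ) ∘ inj = Sum.elim (fun i : I => υ i) ξ := by
        funext i
        rcases i with i | i <;> rfl
      rw [h6, sub_self])
    rw [map_sub, map_mul, eval_rename, hDxy, zero_mul, sub_zero] at h5
    have h6 : (Sum.elim x y) ∘ inj = Sum.elim (fun i : I => y i) x := by
      funext i
      rcases i with i | i <;> rfl
    rw [h6] at h5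
    exact h5

end Pool.Agent.Lib.MP_209724_lc.GD
end

section

namespace Pool.Agent.Lib.MP_209724_lc.GE

open MvPolynomial Filter Topology Metric Set

variable {n : ℕ}

/-- **Contradiction.** `A` as before, in `V(q)`, with ties; `hfin`: for every tie space `τ_s` with complex
equations `∑_l m s I l z_l = 0` the fibre of these forms through a point of `V(q)` is isolated.

Proof. Let `A0 = {z | (z, 0) ∈ closure A}`: a closed set, invariant under positive multiples (`hsc` passes to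
the closure), contained in `V(q)`, and for `z ∈ A0` there is `s` with
`∑_l m s I l (z l).re = 0` for all `I` (`hties` passes to the closure because there are finitely many `s` and the
conditions are closed). `0 ∈ A0`: for `w ∈ A`, `(w.1 / N, w.2 / N) ∈ A` tends to `(0, 0)`. By `hull` with `z₁ = 0`,
`ρ = 1` there is `z ∈ A0` with `‖z‖ = 1`. For `z` let `J z` be the set of all `s` such that
`∑_l m s I l (z l).re = 0` for all `I`; it is nonempty for `z ∈ A0`. Choose `z₁ ∈ A0`, `z₁ ≠ 0`, with `J z₁` of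
minimal cardinality (`Set.ncard`, finite). There is `ρ₀ > 0`, `ρ₀ ≤ ‖z₁‖ / 2`, such that `J z ⊆ J z₁` for
`‖z - z₁‖ ≤ ρ₀` (for each `s ∉ J z₁` one of the continuous functions `∑_l m s I l (z l).re` is nonzero at `z₁`).
For `z ∈ A0`, `‖z - z₁‖ ≤ ρ₀` we have `z ≠ 0`, hence `J z = J z₁` by minimality. Let `s ∈ J z₁` and `ρ' < ρ₀` from
`hfin s z₁ ρ₀`. The set `V(q) ∩ {‖z - z₁‖ = ρ'}` is compact, and `∑_I |∑_l m s I l (z_l - z₁_l)|² > 0` on it, so it
is `≥ κ > 0`. Let `Q = C (κ⁻¹) * ∑_I (∑_l C (m s I l) * (X l - C (z₁ l)))²`. For `z ∈ A0`, `‖z - z₁‖ = ρ'`: `s ∈ J z`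
and `s ∈ J z₁`, so the numbers `∑_l m s I l (z_l - z₁_l)` have real part `0`, their squares are
`- |…|²`, `Re Q(z) = Q(z) ≤ - 1 = Re Q(z₁) - 1`. This contradicts `hull` for `z₁`, `ρ'`, `Q`. -/
theorem absurd_of_mmp {ι κ : Type} [Finite ι] [Fintype κ]
    (A : Set ((Fin n → ℂ) × (Fin n → ℝ))) (hne : A.Nonempty)
    (hsc : ∀ w ∈ A, ∀ s : ℝ, 0 < s → (s • w.1, s • w.2) ∈ A)
    (q : Ideal (MvPolynomial (Fin n) ℂ)) (hAq : ∀ w ∈ A, ∀ f ∈ q, eval w.1 f = 0)
    (g : (Fin n → ℂ) → ℝ) (hg : ∀ R : ℝ, ∃ C : ℝ, ∀ z : Fin n → ℂ, ‖z‖ ≤ R → g z ≤ C)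
    (hmmp : ∀ K ε : ℝ, 0 < K → 0 < ε → ∀ (Q : MvPolynomial (Fin n) ℂ) (z₁ : Fin n → ℂ) (ρ : ℝ),
      ∀ w₂ ∈ A, ‖w₂.1 - z₁‖ < ρ → ∀ η : ℝ, 0 < η → ∃ w ∈ A, ‖w.1 - z₁‖ = ρ ∧
        -(K * nrm w₂.2) + (eval w₂.1 Q).re + ε * g w₂.1 - η ≤
          -(K * nrm w.2) + (eval w.1 Q).re + ε * g w.1)
    (m : ι → κ → Fin n → ℤ)
    (hties : ∀ w ∈ A, ∃ s, ∀ I, ∑ l, (m s I l : ℝ) * ((w.1 l).re - w.2 l) = 0)
    (hfin : ∀ (s : ι) (z₁ : Fin n → ℂ), (∀ f ∈ q, eval z₁ f = 0) → ∀ ρ : ℝ, 0 < ρ →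
      ∃ ρ' : ℝ, 0 < ρ' ∧ ρ' < ρ ∧ ∀ z : Fin n → ℂ, (∀ f ∈ q, eval z f = 0) → ‖z - z₁‖ = ρ' →
        ∃ I, ∑ l, (m s I l : ℂ) * (z l - z₁ l) ≠ 0) : False := by
  -- the equations on the closure
  have hA0q : ∀ z : Fin n → ℂ, (z, (0 : Fin n → ℝ)) ∈ closure A → ∀ f ∈ q, eval z f = 0 := by
    intro z hz f hf
    have hcl : IsClosed {w : (Fin n → ℂ) × (Fin n → ℝ) | eval w.1 f = 0} :=
      isClosed_eq ((MvPolynomial.continuous_eval f).comp continuous_fst) continuous_const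
    exact closure_minimal (fun w hw => hAq w hw f hf) hcl hz
  have hA0t : ∀ z : Fin n → ℂ, (z, (0 : Fin n → ℝ)) ∈ closure A →
      ∃ s, ∀ I, ∑ l, (m s I l : ℝ) * (z l).re = 0 := by
    intro z hz
    have hcl : IsClosed (⋃ s, {w : (Fin n → ℂ) × (Fin n → ℝ) |
        ∀ I, ∑ l, (m s I l : ℝ) * ((w.1 l).re - w.2 l) = 0}) := by
      refine isClosed_iUnion_of_finite fun s => ?_
      have h1 : {w : (Fin n → ℂ) × (Fin n → ℝ) |
          ∀ I, ∑ l, (m s I l : ℝ) * ((w.1 l).re - w.2 l) = 0} =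
          ⋂ I, {w : (Fin n → ℂ) × (Fin n → ℝ) |
            ∑ l, (m s I l : ℝ) * ((w.1 l).re - w.2 l) = 0} := by
        ext w
        simp
      rw [h1]
      refine isClosed_iInter fun I => isClosed_eq ?_ continuous_const
      refine continuous_finsetSum _ fun l _ => continuous_const.mul (Continuous.sub ?_ ?_)
      · exact Complex.continuous_re.comp ((continuous_apply l).comp continuous_fst)
      · exact (continuous_apply l).comp continuous_snd
    have h2 := closure_minimal (fun w hw => by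
      obtain ⟨s, hs⟩ := hties w hw
      exact Set.mem_iUnion.2 ⟨s, hs⟩) hcl hz
    obtain ⟨s, hs⟩ := Set.mem_iUnion.1 h2
    refine ⟨s, fun I => ?_⟩
    have h3 : ∑ l, (m s I l : ℝ) * ((z l).re - (0 : Fin n → ℝ) l) = 0 := hs I
    simpa using h3
  have h00 : ((0 : Fin n → ℂ), (0 : Fin n → ℝ)) ∈ closure A := by
    obtain ⟨w, hw⟩ := hne
    have h1 : Tendsto (fun N : ℕ => ((1 : ℝ) / ((N : ℝ) + 1)) • w.1) atTop (𝓝 0) := by
      have := (tendsto_one_div_add_atTop_nhds_zero_nat (𝕜 := ℝ)).smul_const w.1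
      simpa using this
    have h2 : Tendsto (fun N : ℕ => ((1 : ℝ) / ((N : ℝ) + 1)) • w.2) atTop (𝓝 0) := by
      have := (tendsto_one_div_add_atTop_nhds_zero_nat (𝕜 := ℝ)).smul_const w.2
      simpa using this
    exact mem_closure_of_tendsto (h1.prodMk_nhds h2)
      (Eventually.of_forall fun N => hsc w hw _ (by positivity))
  obtain ⟨z₀, hz₀, hz₀n, -⟩ := hull A g hg hmmp h00 one_pos 0
  rw [sub_zero] at hz₀n
  obtain ⟨J, hJ⟩ : ∃ J : (Fin n → ℂ) → Set ι,
      ∀ z s, s ∈ J z ↔ ∀ I, ∑ l, (m s I l : ℝ) * (z l).re = 0 :=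
    ⟨fun z => {s | ∀ I, ∑ l, (m s I l : ℝ) * (z l).re = 0}, fun z s => Iff.rfl⟩
  obtain ⟨z₁, ⟨hz₁, hz₁0⟩, hmin⟩ := (measure fun z : Fin n → ℂ => (J z).ncard).wf.has_min
    {z | (z, (0 : Fin n → ℝ)) ∈ closure A ∧ z ≠ 0} ⟨z₀, hz₀, fun h => by
      rw [h, norm_zero] at hz₀n
      exact zero_ne_one hz₀n⟩
  have hev : ∀ᶠ z in 𝓝 z₁, ∀ s, s ∉ J z₁ → s ∉ J z := by
    rw [eventually_all]
    intro s
    by_cases hs : s ∈ J z₁
    · exact Eventually.of_forall fun z h => absurd hs h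
    · rw [hJ] at hs
      push Not at hs
      obtain ⟨I, hI⟩ := hs
      have hcont : Continuous fun z : Fin n → ℂ => ∑ l, (m s I l : ℝ) * (z l).re :=
        continuous_finsetSum _ fun l _ => continuous_const.mul
          (Complex.continuous_re.comp (continuous_apply l))
      filter_upwards [hcont.continuousAt.eventually_ne hI] with z hz _ hz'
      rw [hJ] at hz'
      exact hz (hz' I)
  obtain ⟨ε, hε, hball⟩ := Metric.eventually_nhds_iff.1 hev
  have hn1 : 0 < ‖z₁‖ := norm_pos_iff.2 hz₁0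
  obtain ⟨ρ₀, hρ₀, hρε, hρn⟩ : ∃ ρ₀ : ℝ, 0 < ρ₀ ∧ ρ₀ < ε ∧ ρ₀ < ‖z₁‖ := by
    refine ⟨min (ε / 2) (‖z₁‖ / 2), by positivity, ?_, ?_⟩
    · exact lt_of_le_of_lt (min_le_left _ _) (by linarith)
    · exact lt_of_le_of_lt (min_le_right _ _) (by linarith)
  have hJeq : ∀ z : Fin n → ℂ, (z, (0 : Fin n → ℝ)) ∈ closure A → ‖z - z₁‖ ≤ ρ₀ →
      J z = J z₁ := by
    intro z hz hzρ
    have h1 : z ≠ 0 := by
      rintro rfl
      rw [zero_sub, norm_neg] at hzρ
      linarith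
    have h2 : J z ⊆ J z₁ := by
      intro s hs
      by_contra hs'
      refine hball (y := z) ?_ s hs' hs
      rw [dist_eq_norm]
      exact lt_of_le_of_lt hzρ hρε
    have h3 : ¬ (J z).ncard < (J z₁).ncard := hmin z ⟨hz, h1⟩
    exact Set.eq_of_subset_of_ncard_le h2 (not_lt.1 h3) (Set.toFinite _)
  obtain ⟨s, hs⟩ := hA0t z₁ hz₁
  obtain ⟨ρ', hρ', hρ'ρ, hnz⟩ := hfin s z₁ (hA0q z₁ hz₁) ρ₀ hρ₀
  obtain ⟨F, hF⟩ : ∃ F : (Fin n → ℂ) → ℝ,
      ∀ z, F z = ∑ I, ‖∑ l, (m s I l : ℂ) * (z l - z₁ l)‖ ^ 2 := ⟨_, fun z => rfl⟩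
  have hFc : Continuous F := by
    have : F = fun z => ∑ I, ‖∑ l, (m s I l : ℂ) * (z l - z₁ l)‖ ^ 2 := funext hF
    rw [this]
    refine continuous_finsetSum _ fun I _ => (Continuous.norm ?_).pow 2
    exact continuous_finsetSum _ fun l _ =>
      continuous_const.mul ((continuous_apply l).sub continuous_const)
  obtain ⟨κ', hκ', hκF⟩ : ∃ κ' : ℝ, 0 < κ' ∧ ∀ z : Fin n → ℂ, (∀ f ∈ q, eval z f = 0) →
      ‖z - z₁‖ = ρ' → κ' ≤ F z := by
    have hcl : IsClosed {z : Fin n → ℂ | ∀ f ∈ q, eval z f = 0} := by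
      have h1 : {z : Fin n → ℂ | ∀ f ∈ q, eval z f = 0} =
          ⋂ f, ⋂ (_ : f ∈ q), {z : Fin n → ℂ | eval z f = 0} := by
        ext z
        simp
      rw [h1]
      exact isClosed_iInter fun f => isClosed_iInter fun _ =>
        isClosed_eq (MvPolynomial.continuous_eval f) continuous_const
    have hcomp : IsCompact (sphere z₁ ρ' ∩ {z : Fin n → ℂ | ∀ f ∈ q, eval z f = 0}) :=
      (isCompact_sphere z₁ ρ').inter_right hcl
    rcases (sphere z₁ ρ' ∩ {z : Fin n → ℂ | ∀ f ∈ q, eval z f = 0}).eq_empty_or_nonempty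
      with he | hne'
    · refine ⟨1, one_pos, fun z hz hzρ => ?_⟩
      have h1 : z ∈ sphere z₁ ρ' ∩ {z : Fin n → ℂ | ∀ f ∈ q, eval z f = 0} :=
        ⟨by rw [mem_sphere, dist_eq_norm]; exact hzρ, hz⟩
      rw [he] at h1
      exact absurd h1 (Set.notMem_empty z)
    · obtain ⟨z₂, hz₂, hmin₂⟩ := hcomp.exists_isMinOn hne' hFc.continuousOn
      refine ⟨F z₂, ?_, fun z hz hzρ => hmin₂ ⟨by rw [mem_sphere, dist_eq_norm]; exact hzρ, hz⟩⟩
      obtain ⟨I, hI⟩ := hnz z₂ hz₂.2 (by rw [← dist_eq_norm]; exact hz₂.1)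
      rw [hF]
      refine Finset.sum_pos' (fun I _ => by positivity) ⟨I, Finset.mem_univ I, ?_⟩
      have := norm_pos_iff.2 hI
      positivity
  obtain ⟨Q, hQ⟩ : ∃ Q : MvPolynomial (Fin n) ℂ, ∀ z : Fin n → ℂ,
      eval z Q = ((κ'⁻¹ : ℝ) : ℂ) * ∑ I, (∑ l, (m s I l : ℂ) * (z l - z₁ l)) ^ 2 := by
    refine ⟨C ((κ'⁻¹ : ℝ) : ℂ) * ∑ I, (∑ l, C (m s I l : ℂ) * (X l - C (z₁ l))) ^ 2,
      fun z => ?_⟩
    simp only [map_mul, map_sum, map_pow, map_sub, eval_C, eval_X]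
  have hre : ∀ z : Fin n → ℂ, (z, (0 : Fin n → ℝ)) ∈ closure A → ‖z - z₁‖ ≤ ρ₀ → ∀ I,
      (∑ l, (m s I l : ℂ) * (z l - z₁ l)).re = 0 := by
    intro z hz hzρ I
    have h1 : s ∈ J z := by
      rw [hJeq z hz hzρ, hJ]
      exact hs
    rw [hJ] at h1
    have h2 := h1 I
    have h3 := hs I
    have h4 : (∑ l, (m s I l : ℂ) * (z l - z₁ l)).re =
        ∑ l, (m s I l : ℝ) * (z l).re - ∑ l, (m s I l : ℝ) * (z₁ l).re := by
      rw [Complex.re_sum, ← Finset.sum_sub_distrib]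
      refine Finset.sum_congr rfl fun l _ => ?_
      simp [Complex.mul_re]
      ring
    rw [h4, h2, h3, sub_zero]
  have hsq : ∀ w : ℂ, w.re = 0 → (w ^ 2).re = -‖w‖ ^ 2 := by
    intro w hw
    rw [← Complex.normSq_eq_norm_sq, Complex.normSq_apply, pow_two, Complex.mul_re, hw]
    ring
  have hQre : ∀ z : Fin n → ℂ, (z, (0 : Fin n → ℝ)) ∈ closure A → ‖z - z₁‖ ≤ ρ₀ →
      (eval z Q).re = -(κ'⁻¹ * F z) := by
    intro z hz hzρ
    rw [hQ, Complex.re_ofReal_mul, Complex.re_sum, hF]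
    rw [Finset.sum_congr rfl fun I _ => hsq _ (hre z hz hzρ I), Finset.sum_neg_distrib]
    ring
  obtain ⟨z, hz, hzρ, hlt⟩ := hull A g hg hmmp hz₁ hρ' Q
  have h1 := hQre z hz (by rw [hzρ]; exact hρ'ρ.le)
  have h2 := hQre z₁ hz₁ (by rw [sub_self, norm_zero]; exact hρ₀.le)
  have h3 : F z₁ = 0 := by
    rw [hF]
    simp
  have h4 := hκF z (hA0q z hz) hzρ
  rw [h1, h2, h3] at hlt
  have h5 : 1 ≤ κ'⁻¹ * F z := by
    rw [inv_mul_eq_div, le_div_iff₀ hκ']
    linarith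
  linarith

end Pool.Agent.Lib.MP_209724_lc.GE
end

section

namespace Pool.Agent.Lib.MP_209724_lc.GD

open MvPolynomial GP

variable {n d k : ℕ}

/-- Algebraicity over an adjoin and injective homomorphisms. -/
private theorem sl_alg {E Ω : Type} [Field E] [Field Ω] [Algebra ℂ E] [Algebra ℂ Ω]
    (g : E →ₐ[ℂ] Ω) (S : Set E) (z : E) :
    IsAlgebraic (Algebra.adjoin ℂ (g '' S)) (g z) ↔ IsAlgebraic (Algebra.adjoin ℂ S) z := by
  have hinj : Function.Injective g := RingHom.injective (g : E →+* Ω)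
  rw [← AlgHom.map_adjoin]
  let f := (Algebra.adjoin ℂ S).equivMapOfInjective g hinj
  constructor
  · intro h
    exact h.of_ringHom_of_comp_eq (f : _ →+* _) (g : E →+* Ω) f.surjective hinj (by ext; rfl)
  · intro h
    exact h.ringHom_of_comp_eq (f : _ →+* _) (g : E →+* Ω) f.injective (by ext; rfl)

/-- Elements of the field generated by `S` are algebraic over a subalgebra over which the elements
of `S` are. -/
private theorem sl_field {Ω : Type} [Field Ω] [Algebra ℂ Ω] (R : Subalgebra ℂ Ω) (S : Set Ω)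
    (hS : ∀ s ∈ S, IsAlgebraic R s) {z : Ω} (hz : z ∈ IntermediateField.adjoin ℂ S) :
    IsAlgebraic R z := by
  induction hz using IntermediateField.adjoin_induction with
  | mem x hx => exact hS x hx
  | algebraMap x =>
    exact isAlgebraic_algebraMap (⟨algebraMap ℂ Ω x, Subalgebra.algebraMap_mem _ x⟩ : R)
  | add x y _ _ hx hy => exact hx.add hy
  | inv x _ hx => exact hx.inv
  | mul x y _ _ hx hy => exact hx.mul hy

/-- The transcendence degree of a generated field. -/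
private theorem sl_trdeg {Ω : Type} [Field Ω] [Algebra ℂ Ω] {ι : Type} (w : ι → Ω) (S : Set Ω)
    (hw : AlgebraicIndependent ℂ w) (hwS : ∀ i, w i ∈ IntermediateField.adjoin ℂ S)
    (hS : ∀ s ∈ S, IsAlgebraic (Algebra.adjoin ℂ (Set.range w)) s) :
    Algebra.trdeg ℂ (IntermediateField.adjoin ℂ S) = Cardinal.mk ι := by
  set E := IntermediateField.adjoin ℂ S with hE
  let w' : ι → E := fun i => ⟨w i, hwS i⟩
  have hw' : AlgebraicIndependent ℂ w' := AlgebraicIndependent.of_comp E.val hw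
  have hr : E.val '' (Set.range w') = Set.range w := by
    rw [← Set.range_comp]
    rfl
  have halg : Algebra.IsAlgebraic (Algebra.adjoin ℂ (Set.range w')) E := ⟨fun z => by
    rw [← sl_alg E.val, hr]
    exact sl_field _ S hS z.2⟩
  have hb := hw'.isTranscendenceBasis_iff_isAlgebraic.2 halg
  exact hb.cardinalMk_eq_trdeg.symm

/-- Homomorphisms and values of polynomials. -/
private theorem map_aeval_sl {σ : Type} {E F : Type} [CommRing E] [CommRing F] [Algebra ℂ E]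
    [Algebra ℂ F] (g : E →ₐ[ℂ] F) (x : σ → E) (f : MvPolynomial σ ℂ) :
    g (aeval x f) = aeval (fun i => g (x i)) f := by
  have h : g.comp (aeval x) = aeval fun i => g (x i) := by
    ext i
    simp
  exact congrArg (fun u => u f) h

/-- **Slices outside of `D = 0`.** As `GP.exists_slice` (`GP/Slice.lean`), and `D` does not vanish
identically on the slice.

Proof. Copy the proof of `GP.exists_slice` with the larger finitely generated algebra
`A = Algebra.adjoin ℂ (range ξ ∪ range υ ∪ range υ⁻¹ ∪ {(aeval (Sum.elim ξ υ) D)⁻¹})`: then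
`ψ (D(ξ, υ))` is a unit, and it is the image of `D(ξ', υ')`. -/
theorem exists_slice_D {L : Type} [Field L] [Algebra ℂ L] (ξ υ : Fin n → L) (hυ : ∀ i, υ i ≠ 0)
    (hgen : ∀ z : L, IsAlgebraic (Algebra.adjoin ℂ (Set.range (Sum.elim ξ υ))) z) (hdk : d + k = n)
    (hξ : Algebra.trdeg ℂ (IntermediateField.adjoin ℂ (Set.range ξ)) = d) {e : ℕ}
    (hL : Algebra.trdeg ℂ L = (n + e : ℕ)) (D : MvPolynomial (Fin n ⊕ Fin n) ℂ)
    (hD : aeval (Sum.elim ξ υ) D ≠ 0) :
    ∃ (L' : Type) (_ : Field L') (_ : Algebra ℂ L') (ξ' υ' : Fin n → L'),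
      (∀ f : MvPolynomial (Fin n ⊕ Fin n) ℂ, aeval (Sum.elim ξ υ) f = 0 →
        aeval (Sum.elim ξ' υ') f = 0) ∧
      (∀ f : MvPolynomial (Fin n) ℂ, aeval ξ f = 0 ↔ aeval ξ' f = 0) ∧ (∀ i, υ' i ≠ 0) ∧
      (∀ z : L', IsAlgebraic (Algebra.adjoin ℂ (Set.range (Sum.elim ξ' υ'))) z) ∧
      Algebra.trdeg ℂ (IntermediateField.adjoin ℂ (Set.range ξ')) = d ∧
      Algebra.trdeg ℂ L' = n ∧ aeval (Sum.elim ξ' υ') D ≠ 0 := by
  classical
  -- transcendence basis
  have htr := trdeg_over (k := k + e) ξ hξ hL (by omega)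
  obtain ⟨B, hBinj, ht, hBalg⟩ := exists_B ξ υ hgen htr
  set K := IntermediateField.adjoin ℂ (Set.range ξ) with hK
  set t : Fin (k + e) → L := fun j => υ (B j) with htdef
  set B₀ := Algebra.adjoin ℂ (Set.range ξ ∪ Set.range t) with hB₀
  set A := Algebra.adjoin ℂ (Set.range ξ ∪ Set.range υ ∪ (Set.range fun i => (υ i)⁻¹) ∪
    {(aeval (Sum.elim ξ υ) D)⁻¹}) with hA
  have hξA : ∀ i, ξ i ∈ A := fun i => Algebra.subset_adjoin (Or.inl (Or.inl (Or.inl ⟨i, rfl⟩)))
  have hυA : ∀ i, υ i ∈ A := fun i => Algebra.subset_adjoin (Or.inl (Or.inl (Or.inr ⟨i, rfl⟩)))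
  have hυA' : ∀ i, (υ i)⁻¹ ∈ A := fun i => Algebra.subset_adjoin (Or.inl (Or.inr ⟨i, rfl⟩))
  have hDA : (aeval (Sum.elim ξ υ) D)⁻¹ ∈ A := Algebra.subset_adjoin (Or.inr rfl)
  have hξB : ∀ i, ξ i ∈ B₀ := fun i => Algebra.subset_adjoin (Or.inl ⟨i, rfl⟩)
  have htB : ∀ j, t j ∈ B₀ := fun j => Algebra.subset_adjoin (Or.inr ⟨j, rfl⟩)
  have hBA : B₀ ≤ A := by
    apply Algebra.adjoin_le
    rintro _ (⟨i, rfl⟩ | ⟨j, rfl⟩)
    · exact hξA i
    · exact hυA (B j)
  have hAfg : A.FG := by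
    refine ⟨((((Set.finite_range ξ).union (Set.finite_range υ)).union
      (Set.finite_range fun i => (υ i)⁻¹)).union
        (Set.finite_singleton (aeval (Sum.elim ξ υ) D)⁻¹)).toFinset, ?_⟩
    rw [Set.Finite.coe_toFinset]
  obtain ⟨b₀, hb₀, hext⟩ := exists_ext_field B₀ A hBA hAfg fun x _ => hBalg x
  obtain ⟨c, φ, hφb, hφξ, hφt, hφc⟩ := exists_spec ξ t ht b₀ hb₀
  let Ω := AlgebraicClosure L
  let ι : L →ₐ[ℂ] Ω := IsScalarTower.toAlgHom ℂ L Ω
  have hιinj : Function.Injective ι := RingHom.injective (ι : L →+* Ω)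
  obtain ⟨ψ, hψ, hψalg⟩ := hext Ω (ι.comp φ) (by
    intro h0
    apply hφb
    apply hιinj
    rw [map_zero]
    exact h0)
  have hψξ : ∀ i, ψ ⟨ξ i, hξA i⟩ = ι (ξ i) := by
    intro i
    have h1 := hψ ⟨ξ i, hξB i⟩
    rw [AlgHom.comp_apply, hφξ i] at h1
    exact h1
  have hψt : ∀ j : Fin k, ψ ⟨υ (B (Fin.castAdd e j)), hυA _⟩ = ι (t (Fin.castAdd e j)) := by
    intro j
    have h1 := hψ ⟨t (Fin.castAdd e j), htB _⟩
    rw [AlgHom.comp_apply, hφt j] at h1
    exact h1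
  -- the basis of `K`
  obtain ⟨s, hs⟩ := exists_isTranscendenceBasis ℂ K
  have hcard : Cardinal.mk s = d := by rw [hs.cardinalMk_eq_trdeg, hξ]
  obtain ⟨es⟩ : Nonempty (Fin d ≃ s) := by
    rw [← Cardinal.eq, hcard, Cardinal.mk_fin]
  let ζ : Fin d → L := fun j => ((es j : s) : K)
  have hζK : ∀ j, ζ j ∈ K := fun j => ((es j : s) : K).2
  have hζK' : AlgebraicIndependent ℂ fun j => ((es j : s) : K) := hs.1.comp es es.injective
  have hζ : AlgebraicIndependent ℂ ζ := hζK'.map' (f := K.val) Subtype.val_injective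
  have hξζ : ∀ i, IsAlgebraic (Algebra.adjoin ℂ (Set.range ζ)) (ξ i) := by
    intro i
    have h1 := hs.isAlgebraic.1 (⟨ξ i, IntermediateField.subset_adjoin _ _ ⟨i, rfl⟩⟩ : K)
    rw [← sl_alg K.val] at h1
    have h2 : K.val '' (Set.range ((↑) : s → K)) = Set.range ζ := by
      have h3 : Set.range ((↑) : s → K) = Set.range fun j => ((es j : s) : K) := by
        exact (es.surjective.range_comp ((↑) : s → K)).symm
      rw [h3, ← Set.range_comp]
      rfl
    rw [h2] at h1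
    exact h1
  -- the independent elements of `Ω`
  have hind : AlgebraicIndependent ℂ (Sum.elim ζ fun j : Fin k => t (Fin.castAdd e j)) :=
    indep_sum ξ ζ hζK hζ _ (ht.comp (Fin.castAdd e) (Fin.castAdd_injective k e))
  set w : Fin d ⊕ Fin k → Ω := Sum.elim (fun j => ι (ζ j)) fun j => ι (t (Fin.castAdd e j)) with hw
  have hwι : w = ι ∘ Sum.elim ζ fun j : Fin k => t (Fin.castAdd e j) := by
    funext i
    rcases i with i | i <;> rfl
  have hwind : AlgebraicIndependent ℂ w := by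
    rw [hwι]
    exact hind.map' (f := ι) hιinj
  have hξζ' : ∀ i, IsAlgebraic (Algebra.adjoin ℂ (Set.range fun j => ι (ζ j))) (ι (ξ i)) := by
    intro i
    have h1 := (sl_alg ι (Set.range ζ) (ξ i)).2 (hξζ i)
    rw [← Set.range_comp] at h1
    exact h1
  have hrange : ∀ y ∈ (ι.comp φ).range, y ∈ Algebra.adjoin ℂ
      (Set.range (fun i => ι (ξ i)) ∪ Set.range fun j : Fin k => ι (t (Fin.castAdd e j))) := by
    rintro _ ⟨⟨x, hx⟩, rfl⟩
    change ι (φ ⟨x, hx⟩) ∈ _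
    induction hx using Algebra.adjoin_induction with
    | mem x hx =>
      rcases hx with ⟨i, rfl⟩ | ⟨j, rfl⟩
      · have h1 := hφξ i
        rw [h1]
        exact Algebra.subset_adjoin (Or.inl ⟨i, rfl⟩)
      · refine Fin.addCases (fun j' => ?_) (fun l => ?_) j
        · have h1 := hφt j'
          rw [h1]
          exact Algebra.subset_adjoin (Or.inr ⟨j', rfl⟩)
        · have h1 := hφc l
          rw [h1, AlgHom.commutes]
          exact Subalgebra.algebraMap_mem _ _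
    | algebraMap r =>
      have h1 : (⟨algebraMap ℂ L r, Subalgebra.algebraMap_mem _ r⟩ : B₀) = algebraMap ℂ B₀ r := rfl
      have h2 : ι (φ (⟨algebraMap ℂ L r, Subalgebra.algebraMap_mem _ r⟩ : B₀)) =
          algebraMap ℂ Ω r := by
        rw [h1, AlgHom.commutes, AlgHom.commutes]
      rw [h2]
      exact Subalgebra.algebraMap_mem _ _
    | add x y hx' hy' hx hy =>
      have h1 : (⟨x + y, add_mem hx' hy'⟩ : B₀) = ⟨x, hx'⟩ + ⟨y, hy'⟩ := rfl
      have h2 : ι (φ (⟨x + y, add_mem hx' hy'⟩ : B₀)) = ι (φ ⟨x, hx'⟩) + ι (φ ⟨y, hy'⟩) := by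
        rw [h1, map_add, map_add]
      rw [h2]
      exact add_mem hx hy
    | mul x y hx' hy' hx hy =>
      have h1 : (⟨x * y, mul_mem hx' hy'⟩ : B₀) = ⟨x, hx'⟩ * ⟨y, hy'⟩ := rfl
      have h2 : ι (φ (⟨x * y, mul_mem hx' hy'⟩ : B₀)) = ι (φ ⟨x, hx'⟩) * ι (φ ⟨y, hy'⟩) := by
        rw [h1, map_mul, map_mul]
      rw [h2]
      exact mul_mem hx hy
  have hυζ : ∀ i, IsAlgebraic (Algebra.adjoin ℂ (Set.range w)) (ψ ⟨υ i, hυA i⟩) := by
    intro i
    refine alg_sum (fun i => ι (ξ i)) (fun j => ι (ζ j)) _ hξζ' _ ?_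
    refine (hψalg ⟨υ i, hυA i⟩).ringHom_of_comp_eq
      (Subalgebra.inclusion (show (ι.comp φ).range ≤ _ from hrange) : _ →+* _) (RingHom.id Ω)
      (Subalgebra.inclusion_injective hrange) ?_
    ext
    rfl
  have hξw : ∀ i, IsAlgebraic (Algebra.adjoin ℂ (Set.range w)) (ι (ξ i)) := by
    intro i
    refine alg_sum (fun i => ι (ξ i)) (fun j => ι (ζ j)) _ hξζ' _ ?_
    exact isAlgebraic_algebraMap (⟨ι (ξ i), Algebra.subset_adjoin (Or.inl ⟨i, rfl⟩)⟩ :
      Algebra.adjoin ℂ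
      (Set.range (fun i => ι (ξ i)) ∪ Set.range fun j : Fin k => ι (t (Fin.castAdd e j))))
  -- the field
  set S : Set Ω := Set.range (fun i => ψ ⟨ξ i, hξA i⟩) ∪ Set.range fun i => ψ ⟨υ i, hυA i⟩ with hS
  let L' := IntermediateField.adjoin ℂ S
  let ξ' : Fin n → L' := fun i => ⟨ψ ⟨ξ i, hξA i⟩,
    IntermediateField.subset_adjoin _ _ (Or.inl ⟨i, rfl⟩)⟩
  let υ' : Fin n → L' := fun i => ⟨ψ ⟨υ i, hυA i⟩,
    IntermediateField.subset_adjoin _ _ (Or.inr ⟨i, rfl⟩)⟩
  have hξ'v : ∀ i, L'.val (ξ' i) = ι (ξ i) := hψξ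
  have hL'inj : Function.Injective L'.val := Subtype.val_injective
  have hKmap : ∀ x ∈ K, ι x ∈ IntermediateField.adjoin ℂ (Set.range fun i => ι (ξ i)) := by
    intro x hx
    have h1 : ι x ∈ K.map ι := ⟨x, hx, rfl⟩
    rw [hK, IntermediateField.adjoin_map, ← Set.range_comp] at h1
    exact h1
  have hSle : IntermediateField.adjoin ℂ (Set.range fun i => ι (ξ i)) ≤
      IntermediateField.adjoin ℂ S := by
    apply IntermediateField.adjoin.mono
    rintro _ ⟨i, rfl⟩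
    exact Or.inl ⟨i, hψξ i⟩
  have hval : ∀ f : MvPolynomial (Fin n ⊕ Fin n) ℂ, L'.val (aeval (Sum.elim ξ' υ') f) =
      ψ (aeval (Sum.elim (fun i => (⟨ξ i, hξA i⟩ : A)) (fun i => ⟨υ i, hυA i⟩)) f) := by
    intro f
    have h1 : L'.val (aeval (Sum.elim ξ' υ') f) =
        aeval (fun i => L'.val (Sum.elim ξ' υ' i)) f := (map_aeval_sl L'.val _ f)
    rw [h1]
    have h2 : (fun i => L'.val (Sum.elim ξ' υ' i)) =
        fun i => ψ (Sum.elim (fun i => (⟨ξ i, hξA i⟩ : A)) (fun i => ⟨υ i, hυA i⟩) i) := by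
      funext i
      rcases i with i | i <;> rfl
    rw [h2, ← map_aeval_sl]
  have hvalA : ∀ f : MvPolynomial (Fin n ⊕ Fin n) ℂ,
      A.val (aeval (Sum.elim (fun i => (⟨ξ i, hξA i⟩ : A)) (fun i => ⟨υ i, hυA i⟩)) f) =
        aeval (Sum.elim ξ υ) f := by
    intro f
    rw [map_aeval_sl]
    have h4 : (fun i => A.val (Sum.elim (fun i => (⟨ξ i, hξA i⟩ : A)) (fun i => ⟨υ i, hυA i⟩) i)) =
        Sum.elim ξ υ := by
      funext i
      rcases i with i | i <;> rfl
    rw [h4]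
  refine ⟨L', inferInstance, inferInstance, ξ', υ', ?_, ?_, ?_, ?_, ?_, ?_, ?_⟩
  · intro f hf
    apply hL'inj
    rw [map_zero, hval]
    have h3 : aeval (Sum.elim (fun i => (⟨ξ i, hξA i⟩ : A)) (fun i => ⟨υ i, hυA i⟩)) f = 0 := by
      apply Subtype.val_injective
      change A.val _ = A.val 0
      rw [map_zero, hvalA]
      exact hf
    rw [h3, map_zero]
  · intro f
    have h1 : L'.val (aeval ξ' f) = ι (aeval ξ f) := by
      rw [map_aeval_sl, map_aeval_sl]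
      congr 1
      congr 1
      funext i
      exact hξ'v i
    rw [← map_eq_zero_iff ι hιinj, ← h1, map_eq_zero_iff L'.val hL'inj]
  · intro i h0
    have h1 : ψ ⟨υ i, hυA i⟩ = 0 := congrArg Subtype.val h0
    have h2 : (⟨υ i, hυA i⟩ : A) * ⟨(υ i)⁻¹, hυA' i⟩ = 1 := by
      apply Subtype.val_injective
      exact mul_inv_cancel₀ (hυ i)
    have h3 := congrArg ψ h2
    rw [map_mul, h1, zero_mul, map_one] at h3
    exact zero_ne_one h3
  · intro z
    rw [← sl_alg L'.val]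
    have h1 : L'.val '' (Set.range (Sum.elim ξ' υ')) = S := by
      rw [← Set.range_comp, hS, ← Set.Sum.elim_range]
      congr 1
      funext i
      rcases i with i | i <;> rfl
    rw [h1]
    refine sl_field _ S (fun s hs => ?_) z.2
    exact isAlgebraic_algebraMap (⟨s, Algebra.subset_adjoin hs⟩ : Algebra.adjoin ℂ S)
  · have h1 : (IntermediateField.adjoin ℂ (Set.range ξ')).map L'.val = K.map ι := by
      rw [IntermediateField.adjoin_map, hK, IntermediateField.adjoin_map]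
      congr 1
      rw [← Set.range_comp, ← Set.range_comp]
      congr 1
      funext i
      exact hξ'v i
    rw [((IntermediateField.adjoin ℂ (Set.range ξ')).equivMap L'.val).trdeg_eq, h1,
      ← (K.equivMap ι).trdeg_eq, hξ]
  · have h1 := sl_trdeg w S hwind (fun i => ?_) (fun s hs => ?_)
    · change Algebra.trdeg ℂ (IntermediateField.adjoin ℂ S) = n
      rw [h1, Cardinal.mk_fintype, Fintype.card_sum, Fintype.card_fin, Fintype.card_fin, hdk]
    · rcases i with j | j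
      · exact hSle (hKmap _ (hζK j))
      · refine IntermediateField.subset_adjoin _ _ (Or.inr ⟨B (Fin.castAdd e j), hψt j⟩)
    · rcases hs with ⟨i, rfl⟩ | ⟨i, rfl⟩
      · have h2 := hξw i
        rw [← hψξ i] at h2
        exact h2
      · exact hυζ i
  · intro h0
    have h1 : ψ (aeval (Sum.elim (fun i => (⟨ξ i, hξA i⟩ : A)) (fun i => ⟨υ i, hυA i⟩)) D) = 0 := by
      rw [← hval, h0, map_zero]
    have h2 : (aeval (Sum.elim (fun i => (⟨ξ i, hξA i⟩ : A)) (fun i => ⟨υ i, hυA i⟩)) D) *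
        ⟨(aeval (Sum.elim ξ υ) D)⁻¹, hDA⟩ = 1 := by
      apply Subtype.val_injective
      change A.val (aeval (Sum.elim (fun i => (⟨ξ i, hξA i⟩ : A)) (fun i => ⟨υ i, hυA i⟩)) D) *
        (aeval (Sum.elim ξ υ) D)⁻¹ = 1
      rw [hvalA]
      exact mul_inv_cancel₀ hD
    have h3 := congrArg ψ h2
    rw [map_mul, h1, zero_mul, map_one] at h3
    exact zero_ne_one h3

end Pool.Agent.Lib.MP_209724_lc.GD
end

section

/-!
# Holomorphic families of points of a variety through given points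
-/

namespace Pool.Agent.Lib.MP_209724_lc.GF

open MvPolynomial Filter Topology Metric Set
open GC (prj cone)
open MV (lead)

/-- multiples of an element which are polynomials in `ζ` -/
private theorem sheet_beta {d : ℕ} {L : Type} [Field L] [Algebra ℂ L] (ζ : Fin d → L)
    (B : Subalgebra ℂ L) (hζB : ∀ j, ζ j ∈ B)
    (halg : ∀ y ∈ B, IsAlgebraic (Algebra.adjoin ℂ (Set.range ζ)) y) (b : B) (hb : b ≠ 0) :
    ∃ β : MvPolynomial (Fin d) ℂ, β ≠ 0 ∧ b ∣ aeval (fun j => (⟨ζ j, hζB j⟩ : B)) β := by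
  set R := Algebra.adjoin ℂ (Set.range ζ) with hR
  have hRB : R ≤ B := by
    apply Algebra.adjoin_le
    rintro _ ⟨j, rfl⟩
    exact hζB j
  let algB : Algebra R B := (Subalgebra.inclusion hRB).toRingHom.toAlgebra
  have hbalg : IsAlgebraic R b := by
    refine (halg b b.2).of_ringHom_of_comp_eq (RingHom.id R) (B.val : B →+* L)
      Function.surjective_id Subtype.val_injective ?_
    ext r
    rfl
  obtain ⟨r, hr, hdvd⟩ := hbalg.exists_nonzero_dvd (mem_nonZeroDivisors_of_ne_zero hb)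
  have h1 : (r : L) ∈ (aeval ζ : MvPolynomial (Fin d) ℂ →ₐ[ℂ] L).range := by
    rw [← Algebra.adjoin_range_eq_range_aeval]
    exact r.2
  obtain ⟨β', hβ'⟩ := h1
  have h2 : aeval (fun j => (⟨ζ j, hζB j⟩ : B)) β' = algebraMap R B r := by
    apply Subtype.val_injective
    have h3 := MvPolynomial.comp_aeval_apply (fun j => (⟨ζ j, hζB j⟩ : B)) B.val β'
    simp only [Subalgebra.coe_val] at h3
    exact h3.trans hβ'
  refine ⟨β', ?_, by rw [h2]; exact hdvd⟩
  intro h0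
  rw [h0, map_zero] at h2
  apply hr
  apply Subalgebra.inclusion_injective hRB
  rw [map_zero]
  exact h2.symm

/-- no zeros near the cone of a point where the leading form does not vanish -/
private theorem sheet_lower {τ : Type} [Fintype τ] (c : MvPolynomial τ ℂ) {D : Set (τ → ℂ)}
    (hD : IsCompact D) (hc : ∀ w ∈ D, eval w (lead c) ≠ 0) :
    ∀ᶠ r : ℝ in atTop, ∀ v ∈ D, eval (fun j => (r : ℂ) * v j) c ≠ 0 := by
  set d := c.totalDegree with hd
  have hcont := MV.continuous_asymResc c d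
  have hopen : IsOpen {p : ℂ × (τ → ℂ) | MV.asymResc c d p.1 p.2 ≠ 0} :=
    isOpen_ne.preimage hcont
  obtain ⟨u, v, hu, hv, h0u, hDv, huv⟩ := generalized_tube_lemma (s := ({0} : Set ℂ))
    isCompact_singleton hD hopen (by
      rintro ⟨z, w⟩ ⟨hz, hw⟩
      rw [Set.mem_singleton_iff] at hz
      simp only at hz hw
      subst hz
      show MV.asymResc c d 0 w ≠ 0
      rw [MV.asymResc_zero]
      exact hc w hw)
  obtain ⟨r, hr, hru⟩ := Metric.nhds_basis_closedBall.mem_iff.1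
    (hu.mem_nhds (h0u (Set.mem_singleton (0 : ℂ))))
  filter_upwards [eventually_ge_atTop 1, eventually_ge_atTop r⁻¹] with N hN1 hN2 w hw
  have hN0' : (0 : ℝ) < N := by linarith
  have hN0 : (N : ℂ) ≠ 0 := by
    rw [Ne, Complex.ofReal_eq_zero]; exact hN0'.ne'
  rw [MV.eval_eq_asymResc c hd.symm hN0]
  have h1 : MV.asymResc c d (N : ℂ)⁻¹ w ≠ 0 := by
    have h2 : ((N : ℂ)⁻¹, w) ∈ u ×ˢ v := by
      refine ⟨hru ?_, hDv hw⟩
      rw [mem_closedBall_zero_iff, norm_inv, Complex.norm_real, Real.norm_eq_abs, abs_of_pos hN0']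
      exact inv_le_of_inv_le₀ hr hN2
    exact huv h2
  exact mul_ne_zero (pow_ne_zero _ hN0) h1

/-- **Families of points through given points.** As `GS.exists_family` (`GS/Sheet.lean`), but for every
given sequence of points `(r ν)⁻¹ • x ν` near `w`, `x ν ∈ W`, `r ν → ∞`, with the sheets through the points
`x ν`, and with a ball that does not depend on the sequence.

Proof. The proof of `GS.exists_family` with the following change (it becomes shorter, `cover_explicit` is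
not needed): `β = b * β'` as there; `ρ' = min ρ ρ₁` as there. Let `0 < ρ'' < r₀` be so small that
`‖y - w‖ ≤ ρ''` implies `prj Z y ∈ ball (prj Z w) ρ'` (`GC.continuous_prj`). For large `ν` let
`z₁ = prj Z ((r ν)⁻¹ • x ν)`, which is in `ball (prj Z w) ρ'`; the homomorphism `φ₀` is the one of the point
`x ν` (`GC.cover_hom_of_point`), and `hsh` is applied with base point `z₁` instead of `prj Z w`, so
`Φ z₁ = φ₀`, i.e. `X ν z₁ = (r ν)⁻¹ • x ν`. At the base point `‖(r ν)⁻¹ • x ν - w‖ ≤ ρ'' ≤ r₀` for large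
`ν`; the connectedness argument (`hstep`, intermediate value) starts there. For
the `ν` which are not large define `X ν` arbitrarily. (`X ν z = fun i => Φ z ⟨ξ i, hξ i⟩ / (r ν : ℂ)`.) -/
theorem exists_family_at {n d : ℕ} (p : Ideal (MvPolynomial (Fin n) ℂ)) {L : Type} [Field L]
    [Algebra ℂ L] (ξ : Fin n → L) (hp : ∀ c, c ∈ p ↔ aeval ξ c = 0)
    (Z : Fin d → Fin n → ℂ) (ζ : Fin d → L)
    (hζ : ∀ j, ζ j = ∑ i, algebraMap ℂ L (Z j i) * ξ i) (hind : AlgebraicIndependent ℂ ζ)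
    (halg : ∀ i, IsAlgebraic (Algebra.adjoin ℂ (Set.range ζ)) (ξ i))
    (g : MvPolynomial (Fin n) ℂ) (hg : g ∉ p) :
    ∃ β : MvPolynomial (Fin d) ℂ, β ≠ 0 ∧ ∀ w : Fin n → ℂ, eval (prj Z w) (lead β) ≠ 0 →
      ∀ (H : (Fin d → ℂ) → Fin n → ℂ) (ρ r₀ : ℝ), 0 < ρ → 0 < r₀ →
      (∀ z ∈ ball (prj Z w) ρ, ‖H z - w‖ < r₀ / 2) →
      (∀ ε : ℝ, 0 < ε → ∀ᶠ r : ℝ in atTop, ∀ x : Fin n → ℂ, (∀ f ∈ p, eval x f = 0) →
        ‖(fun i => x i / (r : ℂ)) - w‖ ≤ r₀ →
        ‖(fun i => x i / (r : ℂ)) - H (prj Z fun i => x i / (r : ℂ))‖ < ε) →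
      ∃ ρ' ρ'' : ℝ, 0 < ρ' ∧ ρ' ≤ ρ ∧ 0 < ρ'' ∧ ∀ (r : ℕ → ℝ) (x : ℕ → Fin n → ℂ),
        Tendsto r atTop atTop → (∀ ν, ∀ f ∈ p, eval (x ν) f = 0) →
        (∀ᶠ ν in atTop, ‖(r ν)⁻¹ • x ν - w‖ ≤ ρ'') →
        ∃ (N : ℕ) (X : ℕ → (Fin d → ℂ) → Fin n → ℂ),
          (∀ ν, N ≤ ν → 0 < r ν ∧ DifferentiableOn ℂ (X ν) (ball (prj Z w) ρ') ∧
            (∀ z ∈ ball (prj Z w) ρ', (∀ f ∈ p, eval (fun i => (r ν : ℂ) * X ν z i) f = 0) ∧
              eval (fun i => (r ν : ℂ) * X ν z i) g ≠ 0 ∧ prj Z (X ν z) = z) ∧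
            prj Z ((r ν)⁻¹ • x ν) ∈ ball (prj Z w) ρ' ∧
            X ν (prj Z ((r ν)⁻¹ • x ν)) = (r ν)⁻¹ • x ν) ∧
          ∀ ε : ℝ, 0 < ε → ∀ᶠ ν in atTop, ∀ z ∈ ball (prj Z w) ρ', ‖X ν z - H z‖ ≤ ε := by
  classical
  have hξ : ∀ i, ξ i ∈ Algebra.adjoin ℂ (Set.range ξ) := fun i =>
    Algebra.subset_adjoin ⟨i, rfl⟩
  have hζA : ∀ j, ζ j ∈ Algebra.adjoin ℂ (Set.range ξ) := by
    intro j
    rw [hζ j]
    exact Subalgebra.sum_mem _ fun i _ => Subalgebra.mul_mem _ (Subalgebra.algebraMap_mem _ _) (hξ i)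
  have hζ' : ∀ j, (⟨ζ j, hζA j⟩ : Algebra.adjoin ℂ (Set.range ξ)) =
      ∑ i, algebraMap ℂ _ (Z j i) * ⟨ξ i, hξ i⟩ := by
    intro j
    apply Subtype.ext
    simp only [hζ j]
    rw [AddSubmonoidClass.coe_finsetSum]
    rfl
  have hFG : (Algebra.adjoin ℂ (Set.range ξ)).FG :=
    ⟨(Set.finite_range ξ).toFinset, by simp⟩
  have halgA : ∀ y ∈ Algebra.adjoin ℂ (Set.range ξ),
      IsAlgebraic (Algebra.adjoin ℂ (Set.range ζ)) y := by
    intro y hy
    induction hy using Algebra.adjoin_induction with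
    | mem y hy => obtain ⟨i, rfl⟩ := hy; exact halg i
    | algebraMap c =>
      have : algebraMap ℂ L c = algebraMap (Algebra.adjoin ℂ (Set.range ζ)) L
          (algebraMap ℂ _ c) := rfl
      rw [this]
      exact isAlgebraic_algebraMap _
    | add a b _ _ ha hb => exact ha.add hb
    | mul a b _ _ ha hb => exact ha.mul hb
  obtain ⟨b, hb0, hsh⟩ := MV.exists_sheets ζ hind _ hFG hζA halgA
  have hgA : aeval ξ g ∈ Algebra.adjoin ℂ (Set.range ξ) := by
    rw [Algebra.adjoin_range_eq_range_aeval]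
    exact ⟨g, rfl⟩
  obtain ⟨β', hβ'0, gc, hgc⟩ := sheet_beta ζ (Algebra.adjoin ℂ (Set.range ξ)) hζA halgA
    ⟨aeval ξ g, hgA⟩ (by
      intro h0
      exact hg ((hp g).2 (congrArg Subtype.val h0)))
  refine ⟨b * β', mul_ne_zero hb0 hβ'0, ?_⟩
  intro w hβw H ρ r₀ hρ hr₀ hHw hclose
  -- the ball
  have hopen : {v : Fin d → ℂ | eval v (lead (b * β')) ≠ 0} ∈ 𝓝 (prj Z w) :=
    (MvPolynomial.continuous_eval _).continuousAt.eventually_ne hβw
  obtain ⟨ρ₁, hρ₁, hρ₁B⟩ := Metric.nhds_basis_closedBall.mem_iff.mp hopen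
  set ρ' : ℝ := min ρ ρ₁ with hρ'
  have hρ'0 : 0 < ρ' := lt_min hρ hρ₁
  have hρ'ρ : ρ' ≤ ρ := min_le_left _ _
  have hlow := sheet_lower (b * β') (isCompact_closedBall (prj Z w) ρ₁) (fun v hv => hρ₁B hv)
  have hclose' : ∀ ε : ℝ, 0 < ε → ∀ᶠ r : ℝ in atTop, ∀ x : Fin n → ℂ,
      (∀ f : MvPolynomial (Fin n) ℂ, aeval ξ f = 0 → eval x f = 0) →
      ‖(fun i => x i / (r : ℂ)) - w‖ ≤ r₀ →
      ‖(fun i => x i / (r : ℂ)) - H (prj Z fun i => x i / (r : ℂ))‖ < ε := by
    intro ε hε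
    filter_upwards [hclose ε hε] with r hr1 x hx1 hx2
    exact hr1 x (fun f hf => hx1 f ((hp f).1 hf)) hx2
  -- the second radius
  obtain ⟨δ, hδ, hδB⟩ : ∃ δ : ℝ, 0 < δ ∧ ∀ y : Fin n → ℂ, ‖y - w‖ < δ →
      prj Z y ∈ ball (prj Z w) ρ' := by
    have h1 : ∀ᶠ y in 𝓝 w, prj Z y ∈ ball (prj Z w) ρ' :=
      (GC.continuous_prj Z).continuousAt.eventually (ball_mem_nhds _ hρ'0)
    obtain ⟨δ, hδ, h2⟩ := Metric.eventually_nhds_iff.mp h1
    exact ⟨δ, hδ, fun y hy => h2 (by rwa [dist_eq_norm])⟩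
  refine ⟨ρ', min (δ / 2) r₀, hρ'0, hρ'ρ, lt_min (by positivity) hr₀, ?_⟩
  intro r x hr hx hxw
  have hsmul : ∀ (R : ℝ) (y : Fin n → ℂ), (fun i => y i / (R : ℂ)) = R⁻¹ • y := by
    intro R y
    funext i
    rw [Pi.smul_apply, Complex.real_smul, Complex.ofReal_inv, div_eq_inv_mul]
  -- coordinates of homs
  have hφζ : ∀ (φ : Algebra.adjoin ℂ (Set.range ξ) →ₐ[ℂ] ℂ) (j : Fin d),
      φ ⟨ζ j, hζA j⟩ = prj Z (fun i => φ ⟨ξ i, hξ i⟩) j := by
    intro φ j
    rw [hζ' j, map_sum]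
    unfold prj
    refine Finset.sum_congr rfl fun i _ => ?_
    rw [map_mul, AlgHom.commutes]
    rfl
  have hprjdiv : ∀ (R : ℝ) (y : Fin n → ℂ) (j : Fin d),
      prj Z (fun i => y i / (R : ℂ)) j = prj Z y j / R := by
    intro R y j
    unfold prj
    rw [Finset.sum_div]
    exact Finset.sum_congr rfl fun i _ => by ring
  have hD : ball (prj Z w) ρ' ⊆ closedBall (prj Z w) ρ₁ :=
    ball_subset_closedBall.trans (closedBall_subset_closedBall (min_le_right _ _))
  have hev : ∀ᶠ N : ℕ in atTop, 0 < r N ∧ (∀ z ∈ ball (prj Z w) ρ',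
      eval (fun j => (r N : ℂ) * z j) (b * β') ≠ 0) ∧
      prj Z ((r N)⁻¹ • x N) ∈ ball (prj Z w) ρ' ∧
      ∃ Φ : (Fin d → ℂ) → (Algebra.adjoin ℂ (Set.range ξ) →ₐ[ℂ] ℂ),
        (∀ z ∈ ball (prj Z w) ρ', ∀ j, Φ z ⟨ζ j, hζA j⟩ = (r N : ℂ) * z j) ∧
        (∀ y : Algebra.adjoin ℂ (Set.range ξ), DifferentiableOn ℂ (fun z => Φ z y)
          (ball (prj Z w) ρ')) ∧
        (∀ z ∈ ball (prj Z w) ρ', ‖(fun i => Φ z ⟨ξ i, hξ i⟩ / (r N : ℂ)) - w‖ ≤ r₀) ∧
        ∀ i, Φ (prj Z ((r N)⁻¹ • x N)) ⟨ξ i, hξ i⟩ = x N i := by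
    filter_upwards [hxw, hr.eventually hlow, hr.eventually_gt_atTop 0,
      hr.eventually (hclose' (r₀ / 4) (by positivity))] with N hN1 hN2 hR hN3
    set R := r N with hRdef
    have hR0 : (R : ℂ) ≠ 0 := by exact_mod_cast hR.ne'
    have hbne : ∀ z ∈ ball (prj Z w) ρ', eval (fun j => (R : ℂ) * z j) b ≠ 0 := by
      intro z hz h0
      apply hN2 z (hD hz)
      rw [map_mul, h0, zero_mul]
    have hc : prj Z (R⁻¹ • x N) ∈ ball (prj Z w) ρ' := by
      refine hδB _ (lt_of_le_of_lt (hN1.trans (min_le_left _ _)) (by linarith))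
    refine ⟨hR, fun z hz => hN2 z (hD hz), hc, ?_⟩
    obtain ⟨φ₀, hφ₀⟩ := GC.cover_hom_of_point ξ (x N)
      (fun f hf => hx N f ((hp f).2 hf)) hξ
    obtain ⟨Φ, hΦ0, hΦ1, hΦ2⟩ := hsh (Fin d → ℂ) (ball (prj Z w) ρ') isOpen_ball
      (convex_ball _ _) (fun z j => (R : ℂ) * z j)
      (fun i => by
        intro p hp
        have h1 : AnalyticAt ℂ (fun p : Fin d → ℂ => p i) p :=
          (ContinuousLinearMap.proj (R := ℂ) (φ := fun _ : Fin d => ℂ) i).analyticAt p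
        exact analyticAt_const.mul h1)
      hbne (prj Z (R⁻¹ • x N)) hc φ₀ (by
        intro j
        rw [hφζ, ← hsmul, hprjdiv, mul_div_cancel₀ _ hR0]
        simp only [hφ₀])
    refine ⟨Φ, hΦ1, hΦ2, ?_, fun i => by rw [hΦ0, hφ₀]⟩
    have hstep : ∀ z ∈ ball (prj Z w) ρ', ‖(fun i => Φ z ⟨ξ i, hξ i⟩ / (R : ℂ)) - w‖ ≤ r₀ →
        ‖(fun i => Φ z ⟨ξ i, hξ i⟩ / (R : ℂ)) - w‖ < 3 * r₀ / 4 := by
      intro z hz hφ
      have h1 := hN3 (fun i => Φ z ⟨ξ i, hξ i⟩) (GC.cover_point_of_hom ξ hξ (Φ z)) hφ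
      have h2 : (prj Z fun i => Φ z ⟨ξ i, hξ i⟩ / (R : ℂ)) = z := by
        funext j
        rw [hprjdiv R (fun i => Φ z ⟨ξ i, hξ i⟩) j, ← hφζ, hΦ1 z hz j, mul_div_cancel_left₀ _ hR0]
      rw [h2] at h1
      have h3 := hHw z (ball_subset_ball hρ'ρ hz)
      have h4 : ‖(fun i => Φ z ⟨ξ i, hξ i⟩ / (R : ℂ)) - w‖ ≤
          ‖(fun i => Φ z ⟨ξ i, hξ i⟩ / (R : ℂ)) - H z‖ + ‖H z - w‖ := by
        have := norm_add_le ((fun i => Φ z ⟨ξ i, hξ i⟩ / (R : ℂ)) - H z) (H z - w)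
        rwa [sub_add_sub_cancel] at this
      linarith
    have hcont : ContinuousOn
        (fun z => ‖(fun i => Φ z ⟨ξ i, hξ i⟩ / (R : ℂ)) - w‖) (ball (prj Z w) ρ') := by
      apply ContinuousOn.norm
      apply ContinuousOn.sub _ continuousOn_const
      rw [continuousOn_pi]
      intro i
      exact (hΦ2 ⟨ξ i, hξ i⟩).continuousOn.div_const _
    intro z₃ h3D
    by_contra hcon
    have hpre : IsPreconnected (ball (prj Z w) ρ') := (convex_ball _ _).isPreconnected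
    have h2lt : ‖(fun i => Φ (prj Z (R⁻¹ • x N)) ⟨ξ i, hξ i⟩ / (R : ℂ)) - w‖ < 3 * r₀ / 4 := by
      apply hstep _ hc
      rw [hΦ0]
      simp only [hφ₀]
      rw [hsmul]
      exact hN1.trans (min_le_right _ _)
    have := hpre.intermediate_value hc h3D hcont
    obtain ⟨y, hy, hyc⟩ := this (show (7 * r₀ / 8) ∈ _ from ⟨by linarith, by linarith⟩)
    have hyc' : ‖(fun i => Φ y ⟨ξ i, hξ i⟩ / (R : ℂ)) - w‖ = 7 * r₀ / 8 := hyc
    have h4 := hstep y hy (by rw [hyc']; linarith)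
    rw [hyc'] at h4
    linarith
  obtain ⟨N₀, hN₀⟩ := Filter.eventually_atTop.1 hev
  have hN₀' : ∀ ν : ℕ, ∃ Φ : (Fin d → ℂ) → (Algebra.adjoin ℂ (Set.range ξ) →ₐ[ℂ] ℂ), N₀ ≤ ν →
        (∀ z ∈ ball (prj Z w) ρ', ∀ j, Φ z ⟨ζ j, hζA j⟩ = (r ν : ℂ) * z j) ∧
        (∀ y : Algebra.adjoin ℂ (Set.range ξ), DifferentiableOn ℂ (fun z => Φ z y)
          (ball (prj Z w) ρ')) ∧
        (∀ z ∈ ball (prj Z w) ρ', ‖(fun i => Φ z ⟨ξ i, hξ i⟩ / (r ν : ℂ)) - w‖ ≤ r₀) ∧
        ∀ i, Φ (prj Z ((r ν)⁻¹ • x ν)) ⟨ξ i, hξ i⟩ = x ν i := by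
    intro ν
    by_cases h : N₀ ≤ ν
    · obtain ⟨-, -, -, Φ, hΦ⟩ := hN₀ ν h
      exact ⟨Φ, fun _ => hΦ⟩
    · obtain ⟨-, -, -, Φ, -⟩ := hN₀ N₀ le_rfl
      exact ⟨Φ, fun h' => absurd h' h⟩
  choose Φ hΦ using hN₀'
  have hR0 : ∀ ν, N₀ ≤ ν → (r ν : ℂ) ≠ 0 := fun ν h => by exact_mod_cast (hN₀ ν h).1.ne'
  have hprj : ∀ ν, N₀ ≤ ν → ∀ z ∈ ball (prj Z w) ρ',
      (prj Z fun i => Φ ν z ⟨ξ i, hξ i⟩ / (r ν : ℂ)) = z := by
    intro ν hν z hz
    funext j
    rw [hprjdiv _ (fun i => Φ ν z ⟨ξ i, hξ i⟩) j, ← hφζ, (hΦ ν hν).1 z hz j,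
      mul_div_cancel_left₀ _ (hR0 ν hν)]
  have hmul : ∀ ν, N₀ ≤ ν → ∀ z, (fun i => (r ν : ℂ) *
      (Φ ν z ⟨ξ i, hξ i⟩ / (r ν : ℂ))) = fun i => Φ ν z ⟨ξ i, hξ i⟩ := by
    intro ν hν z
    funext i
    rw [mul_div_cancel₀ _ (hR0 ν hν)]
  refine ⟨N₀, fun ν z i => Φ ν z ⟨ξ i, hξ i⟩ / (r ν : ℂ), ?_, ?_⟩
  · intro ν hν
    obtain ⟨hrpos, hβne, hbase, -⟩ := hN₀ ν hν
    obtain ⟨hΦ1, hΦ2, hΦ3, hΦ4⟩ := hΦ ν hν
    refine ⟨hrpos, ?_, ?_, hbase, ?_⟩
    · rw [differentiableOn_pi]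
      intro i
      have h1 : DifferentiableOn ℂ (fun z => Φ ν z ⟨ξ i, hξ i⟩ * ((r ν : ℂ))⁻¹)
          (ball (prj Z w) ρ') :=
        DifferentiableOn.mul (hΦ2 ⟨ξ i, hξ i⟩) (differentiableOn_const _)
      simpa only [div_eq_mul_inv] using h1
    · intro z hz
      simp only [hmul ν hν z]
      refine ⟨fun f hf => GC.cover_point_of_hom ξ hξ (Φ ν z) f ((hp f).1 hf), ?_, hprj ν hν z hz⟩
      intro h0
      have h1 : Φ ν z ⟨aeval ξ g, hgA⟩ = 0 := by
        have h2 : (⟨aeval ξ g, hgA⟩ : Algebra.adjoin ℂ (Set.range ξ)) =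
            aeval (fun i => (⟨ξ i, hξ i⟩ : Algebra.adjoin ℂ (Set.range ξ))) g := by
          apply Subtype.ext
          have h3 := MvPolynomial.comp_aeval_apply
            (fun i => (⟨ξ i, hξ i⟩ : Algebra.adjoin ℂ (Set.range ξ)))
            (Algebra.adjoin ℂ (Set.range ξ)).val g
          simp only [Subalgebra.coe_val] at h3
          exact h3.symm
        rw [h2, MvPolynomial.comp_aeval_apply, MvPolynomial.aeval_eq_eval]
        exact h0
      have h2 : eval (fun j => (r ν : ℂ) * z j) β' = 0 := by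
        have h3 := congrArg (Φ ν z) hgc
        rw [map_mul, h1, zero_mul, MvPolynomial.comp_aeval_apply, MvPolynomial.aeval_eq_eval] at h3
        rw [← h3]
        congr 2
        funext j
        exact (hΦ1 z hz j).symm
      apply hβne z hz
      rw [map_mul, h2, mul_zero]
    · simp only [hΦ4]
      exact hsmul (r ν) (x ν)
  · intro ε hε
    filter_upwards [hr.eventually (hclose' ε hε), eventually_ge_atTop N₀] with ν hν hνN z hz
    have h1 := hν (fun i => Φ ν z ⟨ξ i, hξ i⟩) (GC.cover_point_of_hom ξ hξ (Φ ν z))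
      ((hΦ ν hνN).2.2.1 z hz)
    rw [hprj ν hνN z hz] at h1
    exact h1.le

end Pool.Agent.Lib.MP_209724_lc.GF
end

section

namespace Pool.Agent.Lib.MP_209724_lc.GF

open MvPolynomial Filter Topology Metric Set
open GC (prj cone)
open MV (lead)
open GP (OnV OnW)

variable {n d : ℕ}

/-- composition with the linear forms `Z` -/
private noncomputable def pull {n d : ℕ} (Z : Fin d → Fin n → ℂ) (N : MvPolynomial (Fin d) ℂ) :
    MvPolynomial (Fin n) ℂ := aeval (fun j => ∑ i, C (Z j i) * X i) N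

private theorem eval_pull {n d : ℕ} (Z : Fin d → Fin n → ℂ) (N : MvPolynomial (Fin d) ℂ)
    (z : Fin n → ℂ) : eval z (pull Z N) = eval (prj Z z) N := by
  rw [pull, ← MvPolynomial.aeval_eq_eval, ← MvPolynomial.aeval_eq_eval]
  rw [← AlgHom.comp_apply, MvPolynomial.comp_aeval]
  congr 2
  funext j
  simp [prj]

private theorem aeval_pull {n d : ℕ} {L : Type} [Field L] [Algebra ℂ L] (ξ : Fin n → L)
    (Z : Fin d → Fin n → ℂ) (N : MvPolynomial (Fin d) ℂ) :
    aeval ξ (pull Z N) = aeval (fun j => ∑ i, algebraMap ℂ L (Z j i) * ξ i) N := by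
  rw [pull, ← AlgHom.comp_apply, MvPolynomial.comp_aeval]
  congr 2
  funext j
  simp

private theorem pull_ne_zero {n d : ℕ} {L : Type} [Field L] [Algebra ℂ L] (ξ : Fin n → L)
    (Z : Fin d → Fin n → ℂ)
    (hZ : AlgebraicIndependent ℂ fun j => ∑ i, algebraMap ℂ L (Z j i) * ξ i)
    {N : MvPolynomial (Fin d) ℂ} (hN : N ≠ 0) : aeval ξ (pull Z N) ≠ 0 := by
  rw [aeval_pull]
  intro h0
  exact hN ((algebraicIndependent_iff.mp hZ) N h0)

private theorem mk_pull {n d : ℕ} (q : Ideal (MvPolynomial (Fin n) ℂ)) (Z : Fin d → Fin n → ℂ)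
    (N : MvPolynomial (Fin d) ℂ) :
    Ideal.Quotient.mk q (pull Z N) =
      aeval (fun j => Ideal.Quotient.mk q (∑ k, C (Z j k) * X k)) N := by
  rw [pull, ← Ideal.Quotient.mkₐ_eq_mk ℂ q, ← AlgHom.comp_apply, MvPolynomial.comp_aeval]

private theorem prj_smul {n d : ℕ} (Z : Fin d → Fin n → ℂ) (x : Fin n → ℂ) {r : ℝ} (hr : r ≠ 0)
    (j : Fin d) : prj Z x j = (r : ℂ) * prj Z (r⁻¹ • x) j := by
  have h : (r : ℂ) ≠ 0 := by exact_mod_cast hr
  unfold prj
  rw [Finset.mul_sum]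
  refine Finset.sum_congr rfl fun i _ => ?_
  rw [Pi.smul_apply, Complex.real_smul, Complex.ofReal_inv]
  field_simp

/-- **Size of polynomials near generic points of the cone**, without a choice of a projection.

Proof. Let `(L₂, ξ₂)` be the generic point of `q` (`GS.exists_generic_pt`) and `Z` a projection for `ξ` and
`ξ₂` (`GS.exists_proj2`); the `ξ i` are algebraic over `ℂ[Z ξ]` (`GS.isAlgebraic_coord`). Let `N` be from
`GP.coeff_bounds` for `c`, and `G = GP.pull Z (lead N)` (`GP/Core.lean` has `pull`, `eval_pull`,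
`pull_ne_zero`; copy them or import that file), `G ∉ q` as in `GP/Core.lean`. If `z` is a zero of `q` with
`G(z) = lead N (prj Z z) ≠ 0`, let `D` be a closed ball around `prj Z z` on which `lead N` has no zero and
`0 < δ ≤ 1` such that `‖y - z‖ ≤ δ` implies `prj Z y ∈ D` (`GC.continuous_prj`). Apply `coeff_bounds` to
`D` and `R = ‖z‖ + 1`, for `x` with `‖r⁻¹ x - z‖ ≤ δ` and `t = prj Z (r⁻¹ x)`. -/
theorem coef_near {L : Type} [Field L] [Algebra ℂ L] (ξ : Fin n → L)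
    (hξd : Algebra.trdeg ℂ (IntermediateField.adjoin ℂ (Set.range ξ)) = d)
    (q : Ideal (MvPolynomial (Fin n) ℂ)) [q.IsPrime]
    (hq : Algebra.trdeg ℂ (MvPolynomial (Fin n) ℂ ⧸ q) = d) (c : MvPolynomial (Fin n) ℂ)
    (hc : aeval ξ c ≠ 0) :
    ∃ G ∉ q, ∀ z : Fin n → ℂ, (∀ f ∈ q, eval z f = 0) → eval z G ≠ 0 →
      ∃ (δ : ℝ) (C : ℕ), 0 < δ ∧ ∀ᶠ R : ℝ in atTop, ∀ x : Fin n → ℂ, OnW ξ x →
        ‖R⁻¹ • x - z‖ ≤ δ → (R ^ C)⁻¹ ≤ ‖eval x c‖ ∧ ‖eval x c‖ ≤ R ^ C := by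
  obtain ⟨L₂, _, _, ξ₂, hξ₂, htr₂⟩ := GS.exists_generic_pt q hq
  obtain ⟨Z, hZ₁, hZ₂⟩ := GS.exists_proj2 ξ ξ₂ (d := d) (by rw [hξd]) (by rw [htr₂])
  set ζ₁ : Fin d → L := fun j => ∑ i, algebraMap ℂ L (Z j i) * ξ i with hζ₁
  have hmem : ∀ j, ζ₁ j ∈ IntermediateField.adjoin ℂ (Set.range ξ) := by
    intro j
    refine sum_mem fun i _ => mul_mem ?_ (IntermediateField.subset_adjoin _ _ ⟨i, rfl⟩)
    exact IntermediateField.algebraMap_mem _ _
  have halg₁ : ∀ i, IsAlgebraic (Algebra.adjoin ℂ (Set.range ζ₁)) (ξ i) := fun i =>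
    GS.isAlgebraic_coord ξ hξd ζ₁ hmem hZ₁ i
  obtain ⟨N, hN0, hN⟩ := GP.coeff_bounds ξ Z hZ₁ halg₁ c hc
  refine ⟨pull Z (lead N), fun h => pull_ne_zero ξ₂ Z hZ₂ (MV.lead_ne_zero hN0) ((hξ₂ _).1 h),
    ?_⟩
  intro z _ hGz
  rw [eval_pull] at hGz
  have h1 : ∀ᶠ t in 𝓝 (prj Z z), eval t (lead N) ≠ 0 :=
    (MvPolynomial.continuous_eval (lead N)).continuousAt.eventually_ne hGz
  obtain ⟨ρ, hρ, hρN⟩ := Metric.nhds_basis_closedBall.mem_iff.mp h1
  have h2 : ∀ᶠ y in 𝓝 z, prj Z y ∈ closedBall (prj Z z) ρ :=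
    (GC.continuous_prj Z).continuousAt.eventually (closedBall_mem_nhds _ hρ)
  obtain ⟨δ₁, hδ₁, hδN⟩ := Metric.nhds_basis_closedBall.mem_iff.mp h2
  obtain ⟨C, hC⟩ := hN (closedBall (prj Z z) ρ) (isCompact_closedBall _ _) (fun t ht => hρN ht)
    (‖z‖ + 1)
  refine ⟨min δ₁ 1, C, lt_min hδ₁ one_pos, ?_⟩
  filter_upwards [hC, eventually_gt_atTop 0] with R hR hR0 x hx hxz
  refine hR x hx ?_ (prj Z (R⁻¹ • x)) ?_ fun j => prj_smul Z x hR0.ne' j
  · have h3 : ‖R⁻¹ • x‖ ≤ ‖z‖ + 1 := by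
      have h4 : R⁻¹ • x = (R⁻¹ • x - z) + z := by abel
      rw [h4]
      refine (norm_add_le _ _).trans ?_
      have := hxz.trans (min_le_right _ _)
      linarith
    rw [norm_smul, norm_inv, Real.norm_eq_abs, abs_of_pos hR0, inv_mul_le_iff₀ hR0] at h3
    linarith
  · refine hδN ?_
    rw [mem_closedBall, dist_eq_norm]
    exact hxz.trans (min_le_left _ _)

/-- **Linear forms which are independent on the cone are independent on the variety.**

Proof. Suppose `P ≠ 0` is a polynomial in `m` variables with `P(ℓ ξ) = 0`, of total degree `e`, with top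
homogeneous component `P_e ≠ 0`. The polynomial `f = P(ℓ X)` is in the ideal `p` of `ξ`. If
`z ∈ cone p`, `z = lim (r j)⁻¹ • x j`, then `0 = (r j)⁻ᵉ f(x j) = (r j)⁻ᵉ P(r j · ℓ((r j)⁻¹ x j)) → P_e(ℓ z)`
(`MV.asymResc` and `MV.eval_eq_asymResc` may be used, see `GP/Low.lean`), so `P_e(ℓ z) = 0` for all
`z ∈ cone p`, in particular for the zeros of `q`, so `P_e(ℓ X) ∈ q` (`GS.mem_of_forall_zero`) and
`P_e = 0` by `hℓ`, a contradiction. -/
theorem algInd_W {m : ℕ} (p : Ideal (MvPolynomial (Fin n) ℂ)) {L : Type} [Field L] [Algebra ℂ L]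
    (ξ : Fin n → L) (hp : ∀ c, c ∈ p ↔ aeval ξ c = 0) (q : Ideal (MvPolynomial (Fin n) ℂ))
    [q.IsPrime] (hq1 : ∀ z : Fin n → ℂ, (∀ f ∈ q, eval z f = 0) → z ∈ cone p)
    (ℓ : Fin m → Fin n → ℂ)
    (hℓ : AlgebraicIndependent ℂ fun j => Ideal.Quotient.mk q (∑ k, C (ℓ j k) * X k)) :
    AlgebraicIndependent ℂ fun j => ∑ i, algebraMap ℂ L (ℓ j i) * ξ i := by
  rw [algebraicIndependent_iff]
  intro P hP
  by_contra hP0
  rw [← aeval_pull] at hP
  have hfp : pull ℓ P ∈ p := (hp _).2 hP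
  have hcone : ∀ z ∈ cone p, eval (prj ℓ z) (homogeneousComponent P.totalDegree P) = 0 := by
    rintro z ⟨r, x, hr, hx, hlim⟩
    have h1 : ∀ᶠ j in atTop, MV.asymResc P P.totalDegree ((r j : ℂ))⁻¹
        (prj ℓ ((r j)⁻¹ • x j)) = 0 := by
      filter_upwards [hr.eventually_gt_atTop 0] with j hj
      have hj0 : (r j : ℂ) ≠ 0 := by exact_mod_cast hj.ne'
      have h2 := hx j _ hfp
      rw [eval_pull] at h2
      have h3 : prj ℓ (x j) = fun i => (r j : ℂ) * prj ℓ ((r j)⁻¹ • x j) i :=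
        funext fun i => prj_smul ℓ (x j) hj.ne' i
      rw [h3, MV.eval_eq_asymResc P rfl hj0] at h2
      exact (mul_eq_zero.1 h2).resolve_left (pow_ne_zero _ hj0)
    have h2 : Tendsto (fun j => MV.asymResc P P.totalDegree ((r j : ℂ))⁻¹
        (prj ℓ ((r j)⁻¹ • x j))) atTop (𝓝 (MV.asymResc P P.totalDegree 0 (prj ℓ z))) := by
      have h3 : Tendsto (fun j => (((r j : ℂ))⁻¹, prj ℓ ((r j)⁻¹ • x j))) atTop
          (𝓝 ((0 : ℂ), prj ℓ z)) := by
        refine Tendsto.prodMk_nhds ?_ (((GC.continuous_prj ℓ).tendsto z).comp hlim)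
        have h4 : Tendsto (fun j => (((r j)⁻¹ : ℝ) : ℂ)) atTop (𝓝 ((0 : ℝ) : ℂ)) :=
          (Complex.continuous_ofReal.tendsto 0).comp (tendsto_inv_atTop_zero.comp hr)
        simpa using h4
      obtain ⟨F, hF⟩ : ∃ F : ℂ × (Fin m → ℂ) → ℂ,
          F = fun p => MV.asymResc P P.totalDegree p.1 p.2 := ⟨_, rfl⟩
      have hFc : Continuous F := by
        rw [hF]
        exact MV.continuous_asymResc P P.totalDegree
      have h5 := (hFc.tendsto ((0 : ℂ), prj ℓ z)).comp h3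
      rw [hF] at h5
      exact h5
    have h3 := tendsto_nhds_unique (h2.congr' h1) tendsto_const_nhds
    rw [← MV.asymResc_zero]
    exact h3
  have hq : pull ℓ (homogeneousComponent P.totalDegree P) ∈ q := by
    refine GS.mem_of_forall_zero q _ fun z hz => ?_
    rw [eval_pull]
    exact hcone z (hq1 z hz)
  have h4 := (Ideal.Quotient.eq_zero_iff_mem).2 hq
  rw [mk_pull] at h4
  have h5 := (algebraicIndependent_iff.mp hℓ) _ h4
  exact MV.lead_ne_zero hP0 h5

end Pool.Agent.Lib.MP_209724_lc.GF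
end

section

/-!
# Size of the coefficients near generic points of the cone, and ties at the centers
-/

namespace Pool.Agent.Lib.MP_209724_lc.GF

open MvPolynomial Filter Topology Metric Set
open GC (prj cone)
open GP (OnV OnW)

variable {n d k : ℕ}

theorem coef_near_all {L : Type} [Field L] [Algebra ℂ L] (ξ : Fin n → L)
    (hξd : Algebra.trdeg ℂ (IntermediateField.adjoin ℂ (Set.range ξ)) = d)
    (q : Ideal (MvPolynomial (Fin n) ℂ)) [hqp : q.IsPrime]
    (hq : Algebra.trdeg ℂ (MvPolynomial (Fin n) ℂ ⧸ q) = d) {J : Type} [Fintype J]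
    (a : J → MvPolynomial (Fin n) ℂ) (ha : ∀ j, aeval ξ (a j) ≠ 0) :
    ∃ G ∉ q, ∀ z : Fin n → ℂ, (∀ f ∈ q, eval z f = 0) → eval z G ≠ 0 →
      ∃ (δ : ℝ) (C : ℕ), 0 < δ ∧ ∀ᶠ R : ℝ in atTop, ∀ x : Fin n → ℂ, OnW ξ x →
        ‖R⁻¹ • x - z‖ ≤ δ → ∀ j, (R ^ C)⁻¹ ≤ ‖eval x (a j)‖ ∧ ‖eval x (a j)‖ ≤ R ^ C := by
  classical
  choose G hG hb using fun j => coef_near ξ hξd q hq (a j) (ha j)
  refine ⟨∏ j, G j, ?_, ?_⟩
  · rw [Ideal.IsPrime.prod_mem_iff (hp := hqp)]
    rintro ⟨j, _, hj⟩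
    exact hG j hj
  · intro z hz hGz
    rw [map_prod, Finset.prod_ne_zero_iff] at hGz
    choose δ C hδ hC using fun j => hb j z hz (hGz j (Finset.mem_univ j))
    have hev : ∀ᶠ ε : ℝ in 𝓝[>] 0, 0 < ε ∧ ∀ j, ε ≤ δ j := by
      refine Filter.Eventually.and self_mem_nhdsWithin ?_
      rw [Filter.eventually_all]
      intro j
      exact nhdsWithin_le_nhds (Iic_mem_nhds (hδ j))
    obtain ⟨ε, hε, hεδ⟩ := hev.exists
    refine ⟨ε, ∑ j, C j, hε, ?_⟩
    have h1 : ∀ᶠ R : ℝ in atTop, ∀ j, ∀ x : Fin n → ℂ, OnW ξ x → ‖R⁻¹ • x - z‖ ≤ δ j →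
        (R ^ C j)⁻¹ ≤ ‖eval x (a j)‖ ∧ ‖eval x (a j)‖ ≤ R ^ C j := by
      rw [Filter.eventually_all]
      exact hC
    filter_upwards [h1, eventually_ge_atTop 1] with R h2 h3 x hx hxz j
    obtain ⟨h4, h5⟩ := h2 j x hx (hxz.trans (hεδ j))
    have h6 : C j ≤ ∑ j, C j := Finset.single_le_sum (f := C) (fun _ _ => Nat.zero_le _)
      (Finset.mem_univ j)
    have h7 : R ^ C j ≤ R ^ ∑ j, C j := pow_le_pow_right₀ h3 h6
    have h8 : (0 : ℝ) < R ^ C j := by positivity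
    exact ⟨(inv_anti₀ h8 h7).trans h4, h5.trans h7⟩

/-- the relations at the points of the variety -/
theorem rel_point {L : Type} [Field L] [Algebra ℂ L] {ξ υ : Fin n → L} {S : Finset (Fin n → ℕ)}
    {c : (Fin n → ℕ) → MvPolynomial (Fin n) ℂ}
    (h : ∑ α ∈ S, aeval ξ (c α) * ∏ i, υ i ^ α i = 0) {x y : Fin n → ℂ} (hV : OnV ξ υ x y) :
    ∑ α ∈ S, eval x (c α) * ∏ i, y i ^ α i = 0 := by
  have h1 := hV (∑ α ∈ S, rename Sum.inl (c α) * ∏ i, X (Sum.inr i) ^ α i) (by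
    rw [map_sum, ← h]
    refine Finset.sum_congr rfl fun α _ => ?_
    rw [map_mul, aeval_rename, Sum.elim_comp_inl, map_prod]
    congr 1
    refine Finset.prod_congr rfl fun i _ => ?_
    rw [map_pow, aeval_X, Sum.elim_inr])
  rw [map_sum] at h1
  rw [← h1]
  refine Finset.sum_congr rfl fun α _ => ?_
  rw [map_mul, eval_rename, Sum.elim_comp_inl, map_prod]
  congr 1
  refine Finset.prod_congr rfl fun i _ => ?_
  rw [map_pow, eval_X, Sum.elim_inr]

/-- **Ties at the limits.** -/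
theorem lim_ties {L : Type} [Field L] [Algebra ℂ L] {ξ υ : Fin n → L} {z : Fin n → ℂ}
    {η : Fin n → ℝ} (hlim : Lim ξ υ z η) (S : Finset (Fin n → ℕ)) (hS : S.Nonempty)
    (c : (Fin n → ℕ) → MvPolynomial (Fin n) ℂ)
    (hrel : ∑ α ∈ S, aeval ξ (c α) * ∏ i, υ i ^ α i = 0) {δ : ℝ} (hδ : 0 < δ) (C : ℕ)
    (hc : ∀ α ∈ S, ∀ᶠ R : ℝ in atTop, ∀ x : Fin n → ℂ, OnW ξ x → ‖R⁻¹ • x - z‖ ≤ δ →
      (R ^ C)⁻¹ ≤ ‖eval x (c α)‖ ∧ ‖eval x (c α)‖ ≤ R ^ C) :
    ∃ α ∈ fac S η, ∃ β ∈ fac S η, α ≠ β := by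
  obtain ⟨r, x, y, hr0, hr, hV, hy0, hxz, hyη⟩ := hlim
  have h1 : ∀ᶠ ν in atTop, ‖(r ν)⁻¹ • x ν - z‖ ≤ δ :=
    ((tendsto_iff_norm_sub_tendsto_zero.1 hxz).eventually (gt_mem_nhds hδ)).mono fun ν h => h.le
  refine ties S hS (fun ν α => eval (x ν) (c α)) C r hr ?_ y hy0 ?_ η hyη
  · intro α hα
    filter_upwards [h1, hr.eventually (hc α hα)] with ν h2 h3
    exact h3 (x ν) (hV ν).onW h2
  · exact Filter.Eventually.of_forall fun ν => rel_point hrel (hV ν)

/-- Linear forms which are independent modulo `q` are independent at the generic point. -/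
theorem algInd_gen {m : ℕ} (q : Ideal (MvPolynomial (Fin n) ℂ)) {L : Type} [Field L] [Algebra ℂ L]
    (ξ : Fin n → L) (hξ : ∀ c, c ∈ q ↔ aeval ξ c = 0) (ℓ : Fin m → Fin n → ℂ)
    (hℓ : AlgebraicIndependent ℂ fun j => Ideal.Quotient.mk q (∑ k, C (ℓ j k) * X k)) :
    AlgebraicIndependent ℂ fun j => ∑ i, algebraMap ℂ L (ℓ j i) * ξ i := by
  rw [algebraicIndependent_iff] at hℓ ⊢
  intro P hP
  apply hℓ P
  have h1 : aeval (fun j => Ideal.Quotient.mk q (∑ k, C (ℓ j k) * X k)) P =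
      Ideal.Quotient.mk q (aeval (fun j => ∑ k, C (ℓ j k) * X k : Fin m → MvPolynomial (Fin n) ℂ)
        P) := by
    have h2 := MvPolynomial.comp_aeval_apply
      (fun j => ∑ k, C (ℓ j k) * X k : Fin m → MvPolynomial (Fin n) ℂ)
      (Ideal.Quotient.mkₐ ℂ q) P
    simp only [Ideal.Quotient.mkₐ_eq_mk] at h2
    exact h2.symm
  rw [h1, Ideal.Quotient.eq_zero_iff_mem, hξ, ← hP, MvPolynomial.comp_aeval_apply]
  congr 2
  funext j
  simp

end Pool.Agent.Lib.MP_209724_lc.GF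
end
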