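import Mathlib
import Pool.Agent.Lib.MP_209724_lc.GP.Rows
import Pool.Agent.Lib.MP_209724_lc.GS.Max
import Pool.Agent.Lib.MP_209724_lc.GS.CurveB
import Pool.Agent.Lib.MP_209724_lc.GP.Local
import Pool.Agent.Lib.MP_209724_lc.MV.CoreA
import Pool.Agent.Lib.MP_209724_lc.MV.Sheets
import Pool.Agent.Lib.MP_209724_lc.GS.Comp

section

namespace Pool.Agent.Lib.MP_209724_lc.GF

open Filter Topology Metric Set

variable {n d k : ℕ}

/-- A linear map `ℝⁿ → ℝᵏ` which is injective on finitely many subspaces of dimension at most `k`.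

Proof. By induction on `k`. For `k = 0` all the subspaces are `0`. Step `k → k + 1`: the annihilators of the
nonzero `U j` are proper subspaces of `ℝⁿ`, so there is a vector `b₀` outside of them
(`Submodule.iUnion_ne_univ_of_forall_ne_top`, `Subspace.biUnion_ne_univ_of_top_notMem` or similar, see
the proof of `GD.exists_real_notMem` in `GD/Sel2.lean`), i.e. the form `w ↦ b₀ · w` is nonzero on every
nonzero `U j`, and the kernels `U' j` of this form on `U j` have dimension at most `k`. Apply the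
induction hypothesis to the `U' j` and add `b₀` (`Fin.cons`). -/
theorem exists_form {J : Type} [Fintype J] (U : J → Submodule ℝ (Fin n → ℝ))
    (hU : ∀ j, Module.finrank ℝ (U j) ≤ k) :
    ∃ b : Fin k → Fin n → ℝ, ∀ j, ∀ w ∈ U j, (∀ l, ∑ i, b l i * w i = 0) → w = 0 := by
  classical
  induction k generalizing U with
  | zero =>
    refine ⟨fun l => l.elim0, fun j w hw _ => ?_⟩
    have h1 : Module.finrank ℝ (U j) = 0 := Nat.le_zero.1 (hU j)
    rw [Submodule.finrank_eq_zero] at h1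
    rw [h1, Submodule.mem_bot] at hw
    exact hw
  | succ k ih =>
    let Ann : J → Submodule ℝ (Fin n → ℝ) := fun j =>
      { carrier := {b | ∀ w ∈ U j, ∑ i, b i * w i = 0}
        add_mem' := by
          intro a b ha hb w hw
          have h1 : ∑ i, (a + b) i * w i = ∑ i, a i * w i + ∑ i, b i * w i := by
            rw [← Finset.sum_add_distrib]
            exact Finset.sum_congr rfl fun i _ => by rw [Pi.add_apply, add_mul]
          rw [h1, ha w hw, hb w hw, add_zero]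
        zero_mem' := by
          intro w _
          simp
        smul_mem' := by
          intro c a ha w hw
          have h1 : ∑ i, (c • a) i * w i = c * ∑ i, a i * w i := by
            rw [Finset.mul_sum]
            exact Finset.sum_congr rfl fun i _ => by rw [Pi.smul_apply, smul_eq_mul, mul_assoc]
          rw [h1, ha w hw, mul_zero] }
    have hAnn : ∀ j, U j ≠ ⊥ → Ann j ≠ ⊤ := by
      intro j hj htop
      obtain ⟨w, hw, hw0⟩ := Submodule.exists_mem_ne_zero_of_ne_bot hj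
      have h1 : w ∈ Ann j := by
        rw [htop]
        exact Submodule.mem_top
      have h2 : ∑ i, w i * w i = 0 := h1 w hw
      rw [Finset.sum_eq_zero_iff_of_nonneg fun i _ => mul_self_nonneg (w i)] at h2
      apply hw0
      funext i
      exact mul_self_eq_zero.1 (h2 i (Finset.mem_univ i))
    obtain ⟨b₀, hb₀⟩ : ∃ b₀ : Fin n → ℝ, ∀ j, U j ≠ ⊥ → b₀ ∉ Ann j := by
      by_contra hcon
      push Not at hcon
      have hcov : ⋃ j : {j // U j ≠ ⊥}, ((Ann j.1 : Submodule ℝ (Fin n → ℝ)) :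
          Set (Fin n → ℝ)) = Set.univ := by
        rw [Set.eq_univ_iff_forall]
        intro b
        obtain ⟨j, hj, hb⟩ := hcon b
        exact Set.mem_iUnion.mpr ⟨⟨j, hj⟩, hb⟩
      obtain ⟨j, hj⟩ := Subspace.exists_eq_top_of_iUnion_eq_univ hcov
      exact hAnn j.1 j.2 hj
    let f : (Fin n → ℝ) →ₗ[ℝ] ℝ := ∑ i, b₀ i • LinearMap.proj i
    have hf : ∀ w, f w = ∑ i, b₀ i * w i := by
      intro w
      simp [f, LinearMap.sum_apply]
    have hU' : ∀ j, Module.finrank ℝ (U j ⊓ LinearMap.ker f : Submodule ℝ (Fin n → ℝ)) ≤ k := by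
      intro j
      by_cases hj : U j = ⊥
      · rw [hj, bot_inf_eq, finrank_bot]
        exact Nat.zero_le k
      · have h1 : (U j ⊓ LinearMap.ker f : Submodule ℝ (Fin n → ℝ)) < U j := by
          refine lt_of_le_of_ne inf_le_left fun h2 => hb₀ j hj fun w hw => ?_
          rw [← h2] at hw
          have h3 := LinearMap.mem_ker.1 hw.2
          rw [hf] at h3
          exact h3
        have h2 := Submodule.finrank_lt_finrank_of_lt h1
        have h3 := hU j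
        omega
    obtain ⟨b, hb⟩ := ih (fun j => U j ⊓ LinearMap.ker f) hU'
    refine ⟨Fin.cons b₀ b, fun j w hw h => ?_⟩
    have h0 := h 0
    rw [Fin.cons_zero] at h0
    refine hb j w ⟨hw, LinearMap.mem_ker.2 (by rw [hf]; exact h0)⟩ fun l => ?_
    have h1 := h l.succ
    rw [Fin.cons_succ] at h1
    exact h1

private theorem finrank_le_aux (hdk : d + k = n) (m : Fin d → Fin n → ℤ)
    (hm : LinearIndependent ℤ m) (N : Submodule ℝ (Fin n → ℝ))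
    (hN : ∀ v ∈ N, ∀ j, ∑ i, (m j i : ℝ) * v i = 0) : Module.finrank ℝ N ≤ k := by
  have hmR : LinearIndependent ℝ (fun (j : Fin d) (i : Fin n) => (m j i : ℝ)) := by
    have h1 := (linearIndependent_algebraMap_comp_iff (R := ℤ) (S := ℝ) (v := m)).mpr hm
    exact h1
  obtain ⟨M, hM⟩ : ∃ M : Matrix (Fin d) (Fin n) ℝ, M = fun j i => (m j i : ℝ) := ⟨_, rfl⟩
  have hrow : LinearIndependent ℝ M.row := by
    rw [hM]
    exact hmR
  have hrank : M.rank = d := by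
    rw [hrow.rank_matrix, Fintype.card_fin]
  have hker : N ≤ LinearMap.ker M.mulVecLin := by
    intro v hv
    rw [LinearMap.mem_ker]
    funext j
    rw [Matrix.mulVecLin_apply, hM]
    exact hN v hv j
  have h1 := LinearMap.finrank_range_add_finrank_ker M.mulVecLin
  have h2 : Module.finrank ℝ (LinearMap.range M.mulVecLin) = d := hrank
  rw [h2, Module.finrank_fin_fun] at h1
  have h3 := Submodule.finrank_mono hker
  omega

/-- **A projection which is injective on the kernels of all selections.**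

Proof. For a selection `s = (α, β)` let `U s = {w | ∀ I, ∑ i (α I i - β I i) w i = 0}`. The vectors
`a I = α I - β I : Fin n → ℤ` are nonzero with support in `I`, so by `GP.exists_rows` there are `d`
linearly independent ones, and `finrank (U s) ≤ n - d = k`. The selections form a finite type
(`∀ I, {p : S I × S I // p.1 ≠ p.2}`). Take `b` from `exists_form`. For each `s` the linear map
`w ↦ (b l · w)_l` is injective on `U s`, so there is a constant `C_s` with `‖w‖ ≤ C_s ‖b w‖` on `U s`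
(`LinearMap.exists_antilipschitzWith`, finite dimension); `C` is the maximum (or sum) of the `C_s` and
`1`. -/
theorem exists_bmat (hdk : d + k = n)
    (S : {I : Finset (Fin n) // I.card = k + 1} → Finset (Fin n → ℕ))
    (hS : ∀ I, ∀ α ∈ S I, ∀ i, i ∉ I.1 → α i = 0) :
    ∃ (b : Fin k → Fin n → ℝ) (C : ℝ), 0 < C ∧
      ∀ α β : {I : Finset (Fin n) // I.card = k + 1} → Fin n → ℕ,
        (∀ I, α I ∈ S I ∧ β I ∈ S I ∧ α I ≠ β I) → ∀ w : Fin n → ℝ,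
        (∀ I, ∑ i, ((α I i : ℝ) - β I i) * w i = 0) → ‖w‖ ≤ C * ‖fun l => ∑ i, b l i * w i‖ := by
  classical
  set SS := ∀ I : {I : Finset (Fin n) // I.card = k + 1},
    {p : {x // x ∈ S I} × {x // x ∈ S I} // p.1 ≠ p.2} with hSS
  have hfinS : Finite SS := by
    rw [hSS]
    infer_instance
  have : Fintype SS := Fintype.ofFinite SS
  have rows : ∀ s : SS, ∃ r : Fin d → {I : Finset (Fin n) // I.card = k + 1},
      LinearIndependent ℤ (fun j => (fun (I : {I : Finset (Fin n) // I.card = k + 1}) i =>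
        ((s I).1.1.1 i : ℤ) - (s I).1.2.1 i) (r j)) := by
    intro s
    exact GP.exists_rows (by omega) (fun I i => ((s I).1.1.1 i : ℤ) - (s I).1.2.1 i)
      (by
        intro I h
        apply (s I).2
        apply Subtype.ext
        funext i
        have h2 : ((s I).1.1.1 i : ℤ) - (s I).1.2.1 i = 0 := congrFun h i
        omega)
      (by
        intro I i hi
        show ((s I).1.1.1 i : ℤ) - (s I).1.2.1 i = 0
        rw [hS I _ (s I).1.1.2 i hi, hS I _ (s I).1.2.2 i hi]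
        rfl)
  choose r hr using rows
  let N : SS → Submodule ℝ (Fin n → ℝ) := fun s =>
    { carrier := {v | ∀ I, ∑ i, (((s I).1.1.1 i : ℝ) - (s I).1.2.1 i) * v i = 0}
      add_mem' := by
        intro a b ha hb I
        have h1 : ∑ i, (((s I).1.1.1 i : ℝ) - (s I).1.2.1 i) * (a + b) i =
            ∑ i, (((s I).1.1.1 i : ℝ) - (s I).1.2.1 i) * a i +
            ∑ i, (((s I).1.1.1 i : ℝ) - (s I).1.2.1 i) * b i := by
          rw [← Finset.sum_add_distrib]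
          refine Finset.sum_congr rfl fun i _ => ?_
          rw [Pi.add_apply, mul_add]
        rw [h1, ha I, hb I, add_zero]
      zero_mem' := by
        intro I
        simp
      smul_mem' := by
        intro c a ha I
        have h1 : ∑ i, (((s I).1.1.1 i : ℝ) - (s I).1.2.1 i) * (c • a) i =
            c * ∑ i, (((s I).1.1.1 i : ℝ) - (s I).1.2.1 i) * a i := by
          rw [Finset.mul_sum]
          refine Finset.sum_congr rfl fun i _ => ?_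
          rw [Pi.smul_apply, smul_eq_mul]
          ring
        rw [h1, ha I, mul_zero] }
  have hN : ∀ s, Module.finrank ℝ (N s) ≤ k := by
    intro s
    refine finrank_le_aux hdk _ (hr s) (N s) fun v hv j => ?_
    have h1 : ∑ i, (((s (r s j)).1.1.1 i : ℝ) - (s (r s j)).1.2.1 i) * v i = 0 := hv (r s j)
    rw [← h1]
    refine Finset.sum_congr rfl fun i _ => ?_
    push_cast
    rfl
  obtain ⟨b, hb⟩ := exists_form N hN
  let B : (Fin n → ℝ) →ₗ[ℝ] (Fin k → ℝ) := LinearMap.pi fun l => ∑ i, b l i • LinearMap.proj i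
  have hB : ∀ w, B w = fun l => ∑ i, b l i * w i := by
    intro w
    funext l
    simp [B, LinearMap.sum_apply]
  have hK : ∀ s, ∃ K : NNReal, ∀ w ∈ N s, ‖w‖ ≤ K * ‖B w‖ := by
    intro s
    have hker : LinearMap.ker (B.domRestrict (N s)) = ⊥ := by
      rw [LinearMap.ker_eq_bot']
      intro v hv
      apply Subtype.ext
      refine hb s v.1 v.2 fun l => ?_
      rw [LinearMap.domRestrict_apply, hB] at hv
      exact congrFun hv l
    obtain ⟨K, _, hK⟩ := LinearMap.exists_antilipschitzWith (B.domRestrict (N s)) hker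
    exact ⟨K, fun w hw => ZeroHomClass.bound_of_antilipschitz (B.domRestrict (N s)) hK ⟨w, hw⟩⟩
  choose K hK using hK
  refine ⟨b, 1 + ∑ s, (K s : ℝ), ?_, ?_⟩
  · have h1 : 0 ≤ ∑ s, (K s : ℝ) := Finset.sum_nonneg fun s _ => (K s).2
    linarith
  · intro α β hαβ w hw
    obtain ⟨s, hs⟩ : ∃ s : SS, ∀ I, (s I).1.1.1 = α I ∧ (s I).1.2.1 = β I := by
      refine ⟨fun I => ⟨(⟨α I, (hαβ I).1⟩, ⟨β I, (hαβ I).2.1⟩), ?_⟩, fun I => ⟨rfl, rfl⟩⟩
      intro h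
      exact (hαβ I).2.2 (congrArg Subtype.val h)
    have hwN : w ∈ N s := by
      intro I
      rw [(hs I).1, (hs I).2]
      exact hw I
    have h1 := hK s w hwN
    rw [hB] at h1
    refine h1.trans (mul_le_mul_of_nonneg_right ?_ (norm_nonneg _))
    have h2 : (K s : ℝ) ≤ ∑ s, (K s : ℝ) :=
      Finset.single_le_sum (fun s _ => (K s).2) (Finset.mem_univ s)
    linarith

end Pool.Agent.Lib.MP_209724_lc.GF
end

section

namespace Pool.Agent.Lib.MP_209724_lc.GF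

open Filter Topology Metric Set
open GS (Ew)

variable {n : ℕ}

/-- the Euclidean norm of the vector of `m`-th powers -/
private noncomputable def Nr (m : ℕ) (a : Fin n → ℝ) : ℝ := √(∑ i, (a i ^ m) ^ 2)

private lemma le_Nr (m : ℕ) (a : Fin n → ℝ) (ha : ∀ i, 0 ≤ a i) (i : Fin n) : a i ^ m ≤ Nr m a := by
  unfold Nr
  refine Real.le_sqrt_of_sq_le ?_
  exact Finset.single_le_sum (f := fun i => (a i ^ m) ^ 2) (fun j _ => sq_nonneg _)
    (Finset.mem_univ i)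

private lemma Nr_le (m : ℕ) (a : Fin n → ℝ) (ha : ∀ i, 0 ≤ a i) {b : ℝ} (hb : 0 ≤ b)
    (hab : ∀ i, a i ≤ b) : Nr m a ≤ √n * b ^ m := by
  unfold Nr
  have h1 : ∑ i : Fin n, (a i ^ m) ^ 2 ≤ (n : ℝ) * (b ^ m) ^ 2 := by
    calc ∑ i : Fin n, (a i ^ m) ^ 2 ≤ ∑ _i : Fin n, (b ^ m) ^ 2 := by
          refine Finset.sum_le_sum fun i _ => ?_
          exact pow_le_pow_left₀ (pow_nonneg (ha i) m) (pow_le_pow_left₀ (ha i) (hab i) m) 2
      _ = (n : ℝ) * (b ^ m) ^ 2 := by simp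
  calc √(∑ i : Fin n, (a i ^ m) ^ 2) ≤ √((n : ℝ) * (b ^ m) ^ 2) := Real.sqrt_le_sqrt h1
    _ = √n * b ^ m := by
        rw [Real.sqrt_mul (Nat.cast_nonneg n), Real.sqrt_sq (by positivity)]

private lemma Nr_norm (m : ℕ) (w : Fin n → ℂ) :
    ‖(WithLp.toLp 2 (fun i => w i ^ m) : Ew n)‖ = Nr m fun i => ‖w i‖ := by
  rw [EuclideanSpace.norm_eq]
  unfold Nr
  congr 1
  refine Finset.sum_congr rfl fun i _ => ?_
  change ‖w i ^ m‖ ^ 2 = _
  rw [norm_pow]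

private lemma Nr_mono (m : ℕ) (a b : Fin n → ℝ) (ha : ∀ i, 0 ≤ a i) (hab : ∀ i, a i ≤ b i) :
    Nr m a ≤ Nr m b := by
  unfold Nr
  refine Real.sqrt_le_sqrt (Finset.sum_le_sum fun i _ => ?_)
  exact pow_le_pow_left₀ (pow_nonneg (ha i) m) (pow_le_pow_left₀ (ha i) (hab i) m) 2

/-- **Maximum principle with real parts.** `K` is compact, the `f i` are nonnegative functions on `K`, which
in the charts are of the form `|g|` or `|Re g|`: at the center `f i = |g i|`, near it `f i ≤ |g i|`,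
`g i` holomorphic. The points of `K` with `f < c₁` are interior points of `K` and have charts where
`p ≠ 0`. Then from a point where `f ≤ c₁ / 2`, `p ≠ 0` one gets points of `K` with `f ≤ η`, `p ≠ 0`.

Proof. As `GP.max_step` (`GP/MaxStep.lean`). If `n = 0` or all `f i v ≤ η` take `v' = v`. Otherwise let
`K' = {v' ∈ K | ∃ i, η ≤ f i v'}`, compact, `v ∈ K'`. For a positive integer `m` let
`N(v') = √(∑ i, (f i v' ^ m) ^ 2)`, so `max_i (f i v') ^ m ≤ N(v') ≤ √n * max_i (f i v') ^ m`. Let `P ≥ |p|`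
on `K`, `m` so large that `2 ^ m > 2 √n P / |p v|`, `ε > 0` so small that `exp(ε ‖ζ‖²) ≤ 2` on `K`. Let
`w ∈ K'` be a maximum of `Ψ = |p| exp(ε ‖ζ‖²) / N` on `K'`. `Ψ(w) ≥ Ψ(v) > 0`, so `p w ≠ 0`. If all
`f i w ≤ η` we are done. Otherwise some `f i w > η`. Moreover `f i w < c₁` for all `i`: otherwise
`Ψ(w) ≤ 2 P / c₁ ^ m < |p v| / (√n (c₁ / 2) ^ m) ≤ Ψ(v)`. Let `O, τ, g` be the chart at `w`. For `s` near
`ζ w` `τ s ∈ K'` (`f i (τ s) > η` for the `i` above by continuity of `f i ∘ τ`), and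
`Ψ(τ s) ≤ Ψ(w)`; as `N(τ s) ≤ ‖toLp 2 (fun i => g i s ^ m)‖` with equality at `s = ζ w`,
`|p(τ s)| exp(ε ‖s‖²) / ‖toLp 2 (fun i => g i s ^ m)‖` has a local maximum at `ζ w`, in contradiction to
`GS.no_local_max`. -/
theorem mix_step {Y : Type} [TopologicalSpace Y] {K : Set Y} (hK : IsCompact K)
    (hKc : IsClosed K) (f : Fin n → Y → ℝ) (hf0 : ∀ i v, 0 ≤ f i v)
    (hf : ∀ i, ContinuousOn (f i) K) (p : Y → ℂ) (hp : ContinuousOn p K) (ζ : Y → Ew n)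
    (hζ : ContinuousOn ζ K) {v : Y} (hv : v ∈ K) (hpv : p v ≠ 0) {c₁ : ℝ} (hc₁ : 0 < c₁)
    (hfv : ∀ i, f i v ≤ c₁ / 2)
    (hchart : ∀ v' ∈ K, (∀ i, f i v' < c₁) → p v' ≠ 0 →
      ∃ (O : Set (Ew n)) (τ : Ew n → Y) (g : Fin n → Ew n → ℂ), IsOpen O ∧ ζ v' ∈ O ∧
        τ (ζ v') = v' ∧ ContinuousOn τ O ∧ (∀ s ∈ O, τ s ∈ K ∧ ζ (τ s) = s) ∧
        (∀ i, DifferentiableOn ℂ (g i) O) ∧ DifferentiableOn ℂ (fun s => p (τ s)) O ∧
        (∀ i, f i v' = ‖g i (ζ v')‖) ∧ ∀ i, ∀ s ∈ O, f i (τ s) ≤ ‖g i s‖)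
    {η : ℝ} (hη : 0 < η) : ∃ v' ∈ K, (∀ i, f i v' ≤ η) ∧ p v' ≠ 0 := by
  classical
  by_cases hsmall : ∀ i, f i v ≤ η
  · exact ⟨v, hv, hsmall, hpv⟩
  push Not at hsmall
  obtain ⟨i₀, hi₀⟩ := hsmall
  have hn : 0 < n := Fin.pos i₀
  have hsn : 0 < √(n : ℝ) := Real.sqrt_pos.2 (by exact_mod_cast hn)
  obtain ⟨P, hP⟩ := hK.exists_bound_of_continuousOn hp
  obtain ⟨R, hR⟩ := hK.exists_bound_of_continuousOn hζ
  have hpv' : 0 < ‖p v‖ := norm_pos_iff.2 hpv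
  have hP0 : 0 < P := hpv'.trans_le (hP v hv)
  -- the exponent
  obtain ⟨m, hm⟩ : ∃ m : ℕ, 2 * √(n : ℝ) * P / ‖p v‖ < 2 ^ m :=
    pow_unbounded_of_one_lt _ one_lt_two
  rw [div_lt_iff₀ hpv'] at hm
  -- the weight
  have hR0 : 0 < R ^ 2 + 1 := by positivity
  set ε : ℝ := Real.log 2 / (R ^ 2 + 1) with hεdef
  have hε : 0 < ε := div_pos (Real.log_pos one_lt_two) hR0
  have hexp : ∀ v' ∈ K, Real.exp (ε * ‖ζ v'‖ ^ 2) ≤ 2 := by
    intro v' hv'
    have h1 : ‖ζ v'‖ ^ 2 ≤ R ^ 2 + 1 := by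
      have := pow_le_pow_left₀ (norm_nonneg _) (hR v' hv') 2
      linarith
    have h2 : ε * ‖ζ v'‖ ^ 2 ≤ Real.log 2 := by
      calc ε * ‖ζ v'‖ ^ 2 ≤ ε * (R ^ 2 + 1) := mul_le_mul_of_nonneg_left h1 hε.le
        _ = Real.log 2 := by rw [hεdef]; field_simp
    calc Real.exp (ε * ‖ζ v'‖ ^ 2) ≤ Real.exp (Real.log 2) := Real.exp_le_exp.2 h2
      _ = 2 := Real.exp_log two_pos
  -- the compact set
  set K' : Set Y := ⋃ i, K ∩ (f i) ⁻¹' Ici η with hK'def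
  have hK'K : K' ⊆ K := iUnion_subset fun i => inter_subset_left
  have hK'cl : IsClosed K' :=
    isClosed_iUnion_of_finite fun i => (hf i).preimage_isClosed_of_isClosed hKc isClosed_Ici
  have hK'c : IsCompact K' := hK.of_isClosed_subset hK'cl hK'K
  have hvK' : v ∈ K' := mem_iUnion.2 ⟨i₀, hv, hi₀.le⟩
  have hNpos : ∀ v' ∈ K', 0 < Nr m (fun i => f i v') := by
    intro v' hv'
    obtain ⟨i, -, hi⟩ := mem_iUnion.1 hv'
    have h1 : 0 < f i v' := hη.trans_le hi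
    exact (pow_pos h1 m).trans_le (le_Nr m (fun i => f i v') (fun i => hf0 i v') i)
  have hNcont : ContinuousOn (fun v' => Nr m (fun i => f i v')) K' := by
    unfold Nr
    refine Real.continuous_sqrt.comp_continuousOn ?_
    refine continuousOn_finsetSum _ fun i _ => ?_
    exact ((((hf i).mono hK'K).pow m).pow 2)
  have hΨ : ContinuousOn
      (fun v' => ‖p v'‖ * Real.exp (ε * ‖ζ v'‖ ^ 2) / Nr m (fun i => f i v')) K' := by
    refine ((hp.mono hK'K).norm.mul ?_).div hNcont fun x hx => (hNpos x hx).ne'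
    exact Real.continuous_exp.comp_continuousOn
      (continuousOn_const.mul ((hζ.mono hK'K).norm.pow 2))
  obtain ⟨w, hw, hmax⟩ := hK'c.exists_isMaxOn ⟨v, hvK'⟩ hΨ
  have hmul : ∀ y ∈ K', ‖p y‖ * Real.exp (ε * ‖ζ y‖ ^ 2) * Nr m (fun i => f i w) ≤
      ‖p w‖ * Real.exp (ε * ‖ζ w‖ ^ 2) * Nr m (fun i => f i y) := by
    intro y hy
    have h1 := hmax hy
    simp only [Set.mem_ofPred_eq] at h1
    rwa [div_le_div_iff₀ (hNpos y hy) (hNpos w hw)] at h1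
  have hpw : p w ≠ 0 := by
    intro h0
    have h1 := hmul v hvK'
    rw [h0, norm_zero, zero_mul, zero_mul] at h1
    have h2 : 0 < ‖p v‖ * Real.exp (ε * ‖ζ v‖ ^ 2) * Nr m (fun i => f i w) := by
      have := hNpos w hw
      positivity
    linarith
  by_cases hwη : ∀ i, f i w ≤ η
  · exact ⟨w, hK'K hw, hwη, hpw⟩
  push Not at hwη
  obtain ⟨i₁, hi₁⟩ := hwη
  exfalso
  have hw2 : ∀ i, f i w < c₁ := by
    by_contra hcon
    push Not at hcon
    obtain ⟨i, hi⟩ := hcon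
    have h3 := hmul v hvK'
    have h4 : c₁ ^ m ≤ Nr m (fun i => f i w) :=
      (pow_le_pow_left₀ hc₁.le hi m).trans (le_Nr m (fun i => f i w) (fun i => hf0 i w) i)
    have h5 : Nr m (fun i => f i v) ≤ √n * (c₁ / 2) ^ m :=
      Nr_le m (fun i => f i v) (fun i => hf0 i v) (by positivity) hfv
    have h6 : ‖p v‖ * c₁ ^ m ≤
        ‖p v‖ * Real.exp (ε * ‖ζ v‖ ^ 2) * Nr m (fun i => f i w) := by
      have h7 : 1 ≤ Real.exp (ε * ‖ζ v‖ ^ 2) := Real.one_le_exp (by positivity)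
      have h8 : ‖p v‖ ≤ ‖p v‖ * Real.exp (ε * ‖ζ v‖ ^ 2) := le_mul_of_one_le_right hpv'.le h7
      exact mul_le_mul h8 h4 (by positivity) (by positivity)
    have h9 : ‖p w‖ * Real.exp (ε * ‖ζ w‖ ^ 2) * Nr m (fun i => f i v) ≤
        P * 2 * (√n * (c₁ / 2) ^ m) := by
      have h10 : ‖p w‖ * Real.exp (ε * ‖ζ w‖ ^ 2) ≤ P * 2 :=
        mul_le_mul (hP w (hK'K hw)) (hexp w (hK'K hw)) (Real.exp_pos _).le hP0.le
      exact mul_le_mul h10 h5 (hNpos v hvK').le (by positivity)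
    have h11 : ‖p v‖ * c₁ ^ m ≤ P * 2 * (√n * (c₁ / 2) ^ m) := h6.trans (h3.trans h9)
    have h12 : c₁ ^ m = 2 ^ m * (c₁ / 2) ^ m := by
      rw [← mul_pow]
      congr 1
      ring
    rw [h12] at h11
    have h13 : 0 < (c₁ / 2) ^ m := by positivity
    have h14 : (‖p v‖ * 2 ^ m) * (c₁ / 2) ^ m ≤ (2 * √(n : ℝ) * P) * (c₁ / 2) ^ m := by
      calc (‖p v‖ * 2 ^ m) * (c₁ / 2) ^ m = ‖p v‖ * (2 ^ m * (c₁ / 2) ^ m) := by ring
        _ ≤ _ := h11
        _ = _ := by ring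
    have h15 := le_of_mul_le_mul_right h14 h13
    linarith [mul_comm ‖p v‖ ((2 : ℝ) ^ m)]
  obtain ⟨O, τ, g, hO, hwO, hτw, hτc, hτK, hg, hpτ, hgw, hgs⟩ := hchart w (hK'K hw) hw2 hpw
  have hG : DifferentiableOn ℂ (fun s => (WithLp.toLp 2 (fun i => g i s ^ m) : Ew n)) O := by
    rw [differentiableOn_euclidean]
    intro i
    exact (hg i).pow m
  have hGw : ‖(WithLp.toLp 2 (fun i => g i (ζ w) ^ m) : Ew n)‖ = Nr m (fun i => f i w) := by
    rw [Nr_norm m fun i => g i (ζ w)]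
    congr 1
    funext i
    exact (hgw i).symm
  refine GS.no_local_max hO hG hpτ hwO ?_ ?_ hε ?_
  · refine norm_pos_iff.1 ?_
    rw [hGw]
    exact hNpos w hw
  · rw [hτw]
    exact hpw
  · have e1 : ∀ᶠ s in 𝓝 (ζ w), η < f i₁ (τ s) := by
      have h0 : ContinuousOn (fun s => f i₁ (τ s)) O :=
        (hf i₁).comp hτc fun s hs => (hτK s hs).1
      have h1 : ContinuousAt (fun s => f i₁ (τ s)) (ζ w) := h0.continuousAt (hO.mem_nhds hwO)
      refine h1.eventually (lt_mem_nhds ?_)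
      beta_reduce
      rw [hτw]
      exact hi₁
    filter_upwards [e1, hO.mem_nhds hwO] with s s1 s2
    have hsK : τ s ∈ K' := mem_iUnion.2 ⟨i₁, (hτK s s2).1, s1.le⟩
    have h1 := hmul (τ s) hsK
    rw [(hτK s s2).2] at h1
    rw [hτw, hGw]
    refine h1.trans (mul_le_mul_of_nonneg_left ?_ (by positivity))
    rw [Nr_norm m fun i => g i s]
    exact Nr_mono m _ _ (fun i => hf0 i (τ s)) fun i => hgs i s s2

end Pool.Agent.Lib.MP_209724_lc.GF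
end

section

namespace Pool.Agent.Lib.MP_209724_lc.GF

open MvPolynomial Filter Topology Metric Set
open GC (prj)
open GS (Ew)
open GP (OnV OnW)

variable {n d k : ℕ}

private theorem diff_eval {ι : Type} [Fintype ι] (β : MvPolynomial ι ℂ) :
    Differentiable ℂ fun x : ι → ℂ => eval x β := by
  have h : (fun x : ι → ℂ => eval x β) =
      fun x => ∑ m ∈ β.support, coeff m β * ∏ i, x i ^ m i := by
    funext x
    exact MvPolynomial.eval_eq' x β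
  rw [h]
  fun_prop

private theorem abs_log_iff {R : ℝ} (hR : 0 < R) {r c ε : ℝ} (hr : 0 < r) :
    |R⁻¹ * Real.log r - c| ≤ ε ↔ Real.exp (R * (c - ε)) ≤ r ∧ r ≤ Real.exp (R * (c + ε)) := by
  rw [← Real.le_log_iff_exp_le hr, ← Real.log_le_iff_le_exp hr, abs_le]
  have e : R * (R⁻¹ * Real.log r) = Real.log r := by
    rw [← mul_assoc, mul_inv_cancel₀ hR.ne', one_mul]
  constructor
  · rintro ⟨h1, h2⟩
    have h3 := mul_le_mul_of_nonneg_left h1 hR.le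
    have h4 := mul_le_mul_of_nonneg_left h2 hR.le
    constructor <;> nlinarith
  · rintro ⟨h1, h2⟩
    constructor
    · refine le_of_mul_le_mul_left ?_ hR
      nlinarith
    · refine le_of_mul_le_mul_left ?_ hR
      nlinarith

private theorem abs_log_lt {R : ℝ} (hR : 0 < R) {r c ε : ℝ} (hr : 0 < r) :
    |R⁻¹ * Real.log r - c| < ε ↔ Real.exp (R * (c - ε)) < r ∧ r < Real.exp (R * (c + ε)) := by
  rw [← Real.lt_log_iff_exp_lt hr, ← Real.log_lt_iff_lt_exp hr, abs_lt]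
  have e : R * (R⁻¹ * Real.log r) = Real.log r := by
    rw [← mul_assoc, mul_inv_cancel₀ hR.ne', one_mul]
  constructor
  · rintro ⟨h1, h2⟩
    have h3 := mul_lt_mul_of_pos_left h1 hR
    have h4 := mul_lt_mul_of_pos_left h2 hR
    constructor <;> nlinarith
  · rintro ⟨h1, h2⟩
    constructor
    · refine lt_of_mul_lt_mul_left ?_ hR.le
      nlinarith
    · refine lt_of_mul_lt_mul_left ?_ hR.le
      nlinarith

private theorem closed_onV {L : Type} [Field L] [Algebra ℂ L] (ξ υ : Fin n → L) :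
    IsClosed {v : (Fin n → ℂ) × (Fin n → ℂ) | OnV ξ υ v.1 v.2} := by
  have h : {v : (Fin n → ℂ) × (Fin n → ℂ) | OnV ξ υ v.1 v.2} =
      ⋂ (f : MvPolynomial (Fin n ⊕ Fin n) ℂ) (_ : aeval (Sum.elim ξ υ) f = 0),
        {v | eval (Sum.elim v.1 v.2) f = 0} := by
    ext v
    simp only [mem_ofPred_eq, mem_iInter]
    rfl
  rw [h]
  refine isClosed_iInter fun f => isClosed_iInter fun _ => isClosed_eq ?_ continuous_const
  refine (MvPolynomial.continuous_eval f).comp ?_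
  refine continuous_pi fun i => ?_
  rcases i with i | i
  · exact (continuous_apply i).comp continuous_fst
  · exact (continuous_apply i).comp continuous_snd

private theorem cont_prj (Z : Fin d → Fin n → ℂ) (j : Fin d) :
    Continuous fun x : Fin n → ℂ => prj Z x j := by
  unfold prj
  fun_prop

private theorem prj_real (Z : Fin d → Fin n → ℂ) (r : ℝ) (x : Fin n → ℂ) (j : Fin d) :
    prj Z (r • x) j = (r : ℂ) * prj Z x j := by
  unfold prj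
  rw [Finset.mul_sum]
  refine Finset.sum_congr rfl fun i _ => ?_
  rw [Pi.smul_apply, Complex.real_smul]
  ring

/-- **The maximum principle on the variety at the scale `R`.**

Proof. Apply `mix_step` to `Y = (Fin n → ℂ) × (Fin n → ℂ)`, `K` the set of the `(x, y)` with `OnV ξ υ x y`,
`y i ≠ 0`, `‖R⁻¹ • x - z₀‖ ≤ ε₁`, `|R⁻¹ log ‖y i‖ - η₀ i| ≤ ε₁`. It is compact: closed (`OnV` is closed, the
conditions on `y` are equivalent to `exp(R (η₀ i - ε₁)) ≤ ‖y i‖ ≤ exp(R (η₀ i + ε₁))`) and bounded.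
Number the functions by `e : Fin d ⊕ Fin k ≃ Fin n`: `f (e (inl j)) = ‖prj Z (R⁻¹ • x) j - t₁ j‖`,
`f (e (inr l)) = |∑ i, b l i * (R⁻¹ * log ‖y i‖) - β₁ l|`; `p (x, y) = β(prj Z x, y_B)`,
`ζ (x, y) = toLp 2 fun i => Sum.elim (prj Z x) (fun j => y (B j)) (e.symm i)`. The chart at a point
`v' = (x', y')` with `f < c₁`, `p ≠ 0` comes from `hV x' y'`: on a small ball `O` around `ζ v'` in `Ew n`
let `σ(s) = fun a => s (e a)` (a function on `Fin d ⊕ Fin k`), `τ s = (Φ (σ s), Ψ (σ s))`,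
`g (e (inl j)) s = R⁻¹ * s (e (inl j)) - t₁ j` (equal to the value of `prj Z (R⁻¹ • Φ) j - t₁ j`) and
`g (e (inr l)) s = ∑ i, b l i * (R⁻¹ * (Complex.log (Ψ (σ s) i / y' i) + Real.log ‖y' i‖)) - β₁ l`, which is
holomorphic where `Ψ (σ s) i / y' i` is close to `1` (in the slit plane), is real at `ζ v'` with absolute
value `f`, and has real part `∑ i, b l i * (R⁻¹ * log ‖Ψ (σ s) i‖) - β₁ l`, whose absolute value is
`f (τ s)`; use `Complex.abs_re_le_norm`. By `hint` the point `v'` satisfies the inequalities defining `K`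
strictly, so by continuity `τ s ∈ K` for `s` close to `ζ v'`; choose `O` accordingly. -/
theorem fin_step {L : Type} [Field L] [Algebra ℂ L] (ξ υ : Fin n → L)
    (Z : Fin d → Fin n → ℂ) (B : Fin k → Fin n) (e : Fin d ⊕ Fin k ≃ Fin n)
    (β : MvPolynomial (Fin d ⊕ Fin k) ℂ)
    (hV : ∀ x₀ y₀ : Fin n → ℂ, OnV ξ υ x₀ y₀ →
      eval (Sum.elim (prj Z x₀) fun j => y₀ (B j)) β ≠ 0 →
      ∃ (δ : ℝ) (Φ Ψ : (Fin d ⊕ Fin k → ℂ) → Fin n → ℂ), 0 < δ ∧
        Φ (Sum.elim (prj Z x₀) fun j => y₀ (B j)) = x₀ ∧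
        Ψ (Sum.elim (prj Z x₀) fun j => y₀ (B j)) = y₀ ∧
        DifferentiableOn ℂ Φ (ball (Sum.elim (prj Z x₀) fun j => y₀ (B j)) δ) ∧
        DifferentiableOn ℂ Ψ (ball (Sum.elim (prj Z x₀) fun j => y₀ (B j)) δ) ∧
        ∀ s ∈ ball (Sum.elim (prj Z x₀) fun j => y₀ (B j)) δ, OnV ξ υ (Φ s) (Ψ s) ∧
          (∀ j, prj Z (Φ s) j = s (Sum.inl j)) ∧ ∀ j, Ψ s (B j) = s (Sum.inr j))
    {R : ℝ} (hR : 0 < R) (z₀ : Fin n → ℂ) (η₀ : Fin n → ℝ) {ε₁ : ℝ} (t₁ : Fin d → ℂ)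
    (b : Fin k → Fin n → ℝ) (β₁ : Fin k → ℝ) {c₁ : ℝ} (hc₁ : 0 < c₁)
    (hint : ∀ x y : Fin n → ℂ, OnV ξ υ x y → (∀ i, y i ≠ 0) → ‖R⁻¹ • x - z₀‖ ≤ ε₁ →
      (∀ i, |R⁻¹ * Real.log ‖y i‖ - η₀ i| ≤ ε₁) → (∀ j, ‖prj Z (R⁻¹ • x) j - t₁ j‖ < c₁) →
      (∀ l, |∑ i, b l i * (R⁻¹ * Real.log ‖y i‖) - β₁ l| < c₁) →
      ‖R⁻¹ • x - z₀‖ < ε₁ ∧ ∀ i, |R⁻¹ * Real.log ‖y i‖ - η₀ i| < ε₁)
    (x₀ y₀ : Fin n → ℂ) (h0 : OnV ξ υ x₀ y₀) (hy0 : ∀ i, y₀ i ≠ 0)
    (hβ0 : eval (Sum.elim (prj Z x₀) fun j => y₀ (B j)) β ≠ 0) (hx0 : ‖R⁻¹ • x₀ - z₀‖ ≤ ε₁)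
    (hη0 : ∀ i, |R⁻¹ * Real.log ‖y₀ i‖ - η₀ i| ≤ ε₁)
    (ht0 : ∀ j, ‖prj Z (R⁻¹ • x₀) j - t₁ j‖ ≤ c₁ / 2)
    (hb0 : ∀ l, |∑ i, b l i * (R⁻¹ * Real.log ‖y₀ i‖) - β₁ l| ≤ c₁ / 2) {η : ℝ} (hη : 0 < η) :
    ∃ x y : Fin n → ℂ, OnV ξ υ x y ∧ (∀ i, y i ≠ 0) ∧ ‖R⁻¹ • x - z₀‖ ≤ ε₁ ∧
      (∀ i, |R⁻¹ * Real.log ‖y i‖ - η₀ i| ≤ ε₁) ∧ (∀ j, ‖prj Z (R⁻¹ • x) j - t₁ j‖ ≤ η) ∧
      ∀ l, |∑ i, b l i * (R⁻¹ * Real.log ‖y i‖) - β₁ l| ≤ η := by
  classical
  set lo : Fin n → ℝ := fun i => Real.exp (R * (η₀ i - ε₁)) with hlo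
  set hi : Fin n → ℝ := fun i => Real.exp (R * (η₀ i + ε₁)) with hhi
  have hlo0 : ∀ i, 0 < lo i := fun i => Real.exp_pos _
  set K : Set ((Fin n → ℂ) × (Fin n → ℂ)) :=
    {v | OnV ξ υ v.1 v.2} ∩ {v | ‖R⁻¹ • v.1 - z₀‖ ≤ ε₁} ∩
      ⋂ i, {v | lo i ≤ ‖v.2 i‖} ∩ {v | ‖v.2 i‖ ≤ hi i} with hKdef
  have hKcl : IsClosed K := by
    refine ((closed_onV ξ υ).inter (isClosed_le (by fun_prop) continuous_const)).inter
      (isClosed_iInter fun i => ?_)
    exact (isClosed_le continuous_const (by fun_prop)).inter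
      (isClosed_le (by fun_prop) continuous_const)
  have hKmem : ∀ v : (Fin n → ℂ) × (Fin n → ℂ), v ∈ K ↔ OnV ξ υ v.1 v.2 ∧
      ‖R⁻¹ • v.1 - z₀‖ ≤ ε₁ ∧ ∀ i, lo i ≤ ‖v.2 i‖ ∧ ‖v.2 i‖ ≤ hi i := by
    intro v
    simp only [hKdef, mem_inter_iff, mem_iInter, mem_ofPred_eq, and_assoc]
  have hKb : Bornology.IsBounded K := by
    rw [isBounded_iff_forall_norm_le]
    refine ⟨max (R * (ε₁ + ‖z₀‖)) (∑ i, hi i), fun v hv => ?_⟩
    obtain ⟨-, h2, h3⟩ := (hKmem v).1 hv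
    rw [Prod.norm_def]
    refine max_le_max ?_ ?_
    · have h4 : ‖R⁻¹ • v.1‖ ≤ ε₁ + ‖z₀‖ := by
        calc ‖R⁻¹ • v.1‖ = ‖(R⁻¹ • v.1 - z₀) + z₀‖ := by rw [sub_add_cancel]
          _ ≤ ‖R⁻¹ • v.1 - z₀‖ + ‖z₀‖ := norm_add_le _ _
          _ ≤ ε₁ + ‖z₀‖ := by linarith
      rw [norm_smul, norm_inv, Real.norm_of_nonneg hR.le] at h4
      calc ‖v.1‖ = R * (R⁻¹ * ‖v.1‖) := by
            rw [← mul_assoc, mul_inv_cancel₀ hR.ne', one_mul]
        _ ≤ R * (ε₁ + ‖z₀‖) := mul_le_mul_of_nonneg_left h4 hR.le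
    · refine (pi_norm_le_iff_of_nonneg (Finset.sum_nonneg fun i _ => (Real.exp_pos _).le)).2
        fun i => ?_
      exact (h3 i).2.trans (Finset.single_le_sum (f := hi) (fun j _ => (Real.exp_pos _).le)
        (Finset.mem_univ i))
  have hKc : IsCompact K := Metric.isCompact_of_isClosed_isBounded hKcl hKb
  have hKne : ∀ v ∈ K, ∀ i, v.2 i ≠ 0 := by
    intro v hv i h
    have h3 := ((hKmem v).1 hv).2.2 i
    rw [h, norm_zero] at h3
    exact absurd (hlo0 i) (not_lt.2 h3.1)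
  have hKabs : ∀ v ∈ K, ∀ i, |R⁻¹ * Real.log ‖v.2 i‖ - η₀ i| ≤ ε₁ := by
    intro v hv i
    exact (abs_log_iff hR (norm_pos_iff.2 (hKne v hv i))).2 (((hKmem v).1 hv).2.2 i)
  -- the functions
  set f : Fin n → (Fin n → ℂ) × (Fin n → ℂ) → ℝ := fun a v =>
    Sum.elim (fun j => ‖prj Z (R⁻¹ • v.1) j - t₁ j‖)
      (fun l => |∑ i, b l i * (R⁻¹ * Real.log ‖v.2 i‖) - β₁ l|) (e.symm a) with hf
  set bs : (Fin n → ℂ) × (Fin n → ℂ) → Fin d ⊕ Fin k → ℂ := fun v =>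
    Sum.elim (prj Z v.1) fun j => v.2 (B j) with hbs
  have hbsc : Continuous bs := by
    refine continuous_pi fun a => ?_
    rcases a with j | j
    · exact (cont_prj Z j).comp continuous_fst
    · exact (continuous_apply (B j)).comp continuous_snd
  have hf0 : ∀ a v, 0 ≤ f a v := by
    intro a v
    simp only [hf]
    rcases e.symm a with j | l
    · exact norm_nonneg _
    · exact abs_nonneg _
  have hfc : ∀ a, ContinuousOn (f a) K := by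
    intro a
    simp only [hf]
    rcases e.symm a with j | l
    · have : Continuous fun v : (Fin n → ℂ) × (Fin n → ℂ) => ‖prj Z (R⁻¹ • v.1) j - t₁ j‖ :=
        (((cont_prj Z j).comp (continuous_fst.const_smul R⁻¹)).sub continuous_const).norm
      exact this.continuousOn
    · simp only [Sum.elim_inr]
      refine ContinuousOn.abs (ContinuousOn.sub (continuousOn_finsetSum _ fun i _ => ?_)
        continuousOn_const)
      refine continuousOn_const.mul (continuousOn_const.mul (ContinuousOn.log ?_ ?_))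
      · fun_prop
      · intro v hv
        exact norm_ne_zero_iff.2 (hKne v hv i)
  have hpc : ContinuousOn (fun v => eval (bs v) β) K :=
    ((MvPolynomial.continuous_eval β).comp hbsc).continuousOn
  have hζc : ContinuousOn (fun v => (WithLp.toLp 2 fun a => bs v (e.symm a) : Ew n)) K := by
    refine Continuous.continuousOn ?_
    exact (PiLp.continuous_toLp 2 _).comp (continuous_pi fun a =>
      (continuous_apply (e.symm a)).comp hbsc)
  have hv0 : (x₀, y₀) ∈ K := by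
    refine (hKmem _).2 ⟨h0, hx0, fun i => ?_⟩
    exact (abs_log_iff hR (norm_pos_iff.2 (hy0 i))).1 (hη0 i)
  have hfv : ∀ a, f a (x₀, y₀) ≤ c₁ / 2 := by
    intro a
    simp only [hf]
    rcases e.symm a with j | l
    · exact ht0 j
    · exact hb0 l
  obtain ⟨v', hv', h1, -⟩ := mix_step hKc hKcl f hf0 hfc (fun v => eval (bs v) β) hpc
    (fun v => (WithLp.toLp 2 fun a => bs v (e.symm a) : Ew n)) hζc hv0 hβ0 hc₁ hfv (by
      rintro ⟨x', y'⟩ hv' hfc₁ hpv'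
      obtain ⟨hon, hx', hy'⟩ := (hKmem _).1 hv'
      have hne' := hKne _ hv'
      simp only at hon hx' hy' hne'
      have hsm1 : ∀ j, ‖prj Z (R⁻¹ • x') j - t₁ j‖ < c₁ := by
        intro j
        have := hfc₁ (e (Sum.inl j))
        simpa [hf] using this
      have hsm2 : ∀ l, |∑ i, b l i * (R⁻¹ * Real.log ‖y' i‖) - β₁ l| < c₁ := by
        intro l
        have := hfc₁ (e (Sum.inr l))
        simpa [hf] using this
      obtain ⟨hin1, hin2⟩ := hint x' y' hon hne' hx' (hKabs _ hv') hsm1 hsm2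
      obtain ⟨δ, Φ, Ψ, hδ, hΦ, hΨ, hdΦ, hdΨ, hsec⟩ := hV x' y' hon hpv'
      set c : Fin d ⊕ Fin k → ℂ := Sum.elim (prj Z x') fun j => y' (B j) with hc
      set σ : Ew n → Fin d ⊕ Fin k → ℂ := fun s a => s (e a) with hσ
      have hσd : Differentiable ℂ σ := by
        rw [differentiable_pi]
        intro a
        simp only [hσ]
        fun_prop
      have hσc : Continuous σ := hσd.continuous
      have hO0 : IsOpen (σ ⁻¹' ball c δ) := isOpen_ball.preimage hσc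
      have hσζ : σ (WithLp.toLp 2 fun a => bs (x', y') (e.symm a) : Ew n) = c := by
        funext a
        simp [hσ, hbs, hc]
      have hΦd : DifferentiableOn ℂ (fun s => Φ (σ s)) (σ ⁻¹' ball c δ) :=
        hdΦ.comp hσd.differentiableOn fun s hs => hs
      have hΨd : DifferentiableOn ℂ (fun s => Ψ (σ s)) (σ ⁻¹' ball c δ) :=
        hdΨ.comp hσd.differentiableOn fun s hs => hs
      set τ : Ew n → (Fin n → ℂ) × (Fin n → ℂ) := fun s => (Φ (σ s), Ψ (σ s)) with hτ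
      have hτc : ContinuousOn τ (σ ⁻¹' ball c δ) := hΦd.continuousOn.prodMk hΨd.continuousOn
      set U : Set ((Fin n → ℂ) × (Fin n → ℂ)) := {v | ‖R⁻¹ • v.1 - z₀‖ < ε₁} ∩
        ⋂ i, ({v | lo i < ‖v.2 i‖} ∩ {v | ‖v.2 i‖ < hi i}) ∩
          {v | v.2 i / y' i ∈ Complex.slitPlane} with hU
      have hUo : IsOpen U := by
        refine (isOpen_lt (by fun_prop) continuous_const).inter (isOpen_iInter_of_finite fun i => ?_)
        refine ((isOpen_lt continuous_const (by fun_prop)).inter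
          (isOpen_lt (by fun_prop) continuous_const)).inter ?_
        exact Complex.isOpen_slitPlane.preimage
          (((continuous_apply i).comp continuous_snd).div_const _)
      have hUmem : ∀ v : (Fin n → ℂ) × (Fin n → ℂ), v ∈ U ↔ ‖R⁻¹ • v.1 - z₀‖ < ε₁ ∧
          ∀ i, (lo i < ‖v.2 i‖ ∧ ‖v.2 i‖ < hi i) ∧ v.2 i / y' i ∈ Complex.slitPlane := by
        intro v
        simp only [hU, mem_inter_iff, mem_iInter, mem_ofPred_eq]
      have hO : IsOpen (σ ⁻¹' ball c δ ∩ τ ⁻¹' U) := hτc.isOpen_inter_preimage hO0 hUo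
      have hτζ : τ (WithLp.toLp 2 fun a => bs (x', y') (e.symm a) : Ew n) = (x', y') := by
        simp only [hτ]
        rw [hσζ, hΦ, hΨ]
      have hbτ : ∀ s ∈ σ ⁻¹' ball c δ, bs (τ s) = σ s := by
        intro s hs
        obtain ⟨-, h2, h3⟩ := hsec (σ s) hs
        funext a
        rcases a with j | j
        · exact h2 j
        · exact h3 j
      refine ⟨σ ⁻¹' ball c δ ∩ τ ⁻¹' U, τ, fun a s =>
        Sum.elim (fun j => (R⁻¹ : ℝ) * s (e (Sum.inl j)) - t₁ j)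
          (fun l => ∑ i, (b l i : ℂ) * ((R⁻¹ : ℝ) * (Complex.log (Ψ (σ s) i / y' i) +
            (Real.log ‖y' i‖ : ℝ))) - (β₁ l : ℝ)) (e.symm a), hO, ⟨?_, ?_⟩, hτζ,
        hτc.mono inter_subset_left, ?_, ?_, ?_, ?_, ?_⟩
      · rw [mem_preimage, hσζ]
        exact mem_ball_self hδ
      · rw [mem_preimage, hτζ, hUmem]
        refine ⟨hin1, fun i => ⟨?_, ?_⟩⟩
        · exact (abs_log_lt hR (norm_pos_iff.2 (hne' i))).1 (hin2 i)
        · simp only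
          rw [div_self (hne' i)]
          exact Complex.one_mem_slitPlane
      · rintro s ⟨hs1, hs2⟩
        have hs3 := (hUmem _).1 hs2
        refine ⟨(hKmem _).2 ⟨(hsec (σ s) hs1).1, hs3.1.le, fun i => ⟨(hs3.2 i).1.1.le,
          (hs3.2 i).1.2.le⟩⟩, ?_⟩
        rw [hbτ s hs1]
        ext a
        simp [hσ]
      · intro a
        beta_reduce
        generalize e.symm a = q
        rcases q with j | l
        · simp only [Sum.elim_inl]
          fun_prop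
        · simp only [Sum.elim_inr]
          refine DifferentiableOn.sub (DifferentiableOn.fun_sum fun i _ => ?_)
            (differentiableOn_const _)
          refine DifferentiableOn.const_mul (DifferentiableOn.const_mul
            (DifferentiableOn.add (DifferentiableOn.clog ?_ ?_) (differentiableOn_const _)) _) _
          · have h5 : DifferentiableOn ℂ (fun s => Ψ (σ s) i) (σ ⁻¹' ball c δ ∩ τ ⁻¹' U) :=
              (differentiableOn_pi.1 hΨd i).mono inter_subset_left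
            simpa only [div_eq_mul_inv] using h5.mul_const (y' i)⁻¹
          · rintro s ⟨-, hs2⟩
            exact (((hUmem _).1 hs2).2 i).2
      · refine (((diff_eval β).comp hσd).differentiableOn (s := σ ⁻¹' ball c δ ∩ τ ⁻¹' U)).congr ?_
        rintro s ⟨hs1, -⟩
        simp only [Function.comp]
        rw [hbτ s hs1]
      · intro a
        simp only [hf]
        rcases h : e.symm a with j | l
        · simp only [Sum.elim_inl]
          rw [prj_real]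
          simp [hbs]
        · simp only [Sum.elim_inr]
          rw [hσζ, hΨ]
          have e1 : ∑ i, (b l i : ℂ) * ((R⁻¹ : ℝ) * (Complex.log (y' i / y' i) +
              (Real.log ‖y' i‖ : ℝ))) - (β₁ l : ℝ) =
              ((∑ i, b l i * (R⁻¹ * Real.log ‖y' i‖) - β₁ l : ℝ) : ℂ) := by
            rw [Complex.ofReal_sub, Complex.ofReal_sum]
            congr 1
            refine Finset.sum_congr rfl fun i _ => ?_
            rw [div_self (hne' i), Complex.log_one, zero_add]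
            push_cast
            ring
          rw [e1, Complex.norm_real, Real.norm_eq_abs]
      · rintro a s ⟨hs1, hs2⟩
        have hs3 := (hUmem _).1 hs2
        obtain ⟨-, h2, h3⟩ := hsec (σ s) hs1
        simp only [hf]
        rcases h : e.symm a with j | l
        · simp only [Sum.elim_inl]
          rw [prj_real]
          have : prj Z (τ s).1 j = s (e (Sum.inl j)) := h2 j
          rw [this]
        · simp only [Sum.elim_inr]
          refine le_trans (le_of_eq ?_) (Complex.abs_re_le_norm _)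
          congr 1
          rw [Complex.sub_re, Complex.re_sum, Complex.ofReal_re]
          congr 1
          refine Finset.sum_congr rfl fun i _ => ?_
          have hΨi : Ψ (σ s) i ≠ 0 := by
            intro h0
            have h4 := (hs3.2 i).1.1
            have h5 : (τ s).2 i = 0 := h0
            rw [h5, norm_zero] at h4
            exact absurd (hlo0 i) (not_lt.2 h4.le)
          rw [Complex.re_ofReal_mul, Complex.re_ofReal_mul, Complex.add_re, Complex.log_re,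
            Complex.ofReal_re, norm_div, Real.log_div (norm_ne_zero_iff.2 hΨi)
              (norm_ne_zero_iff.2 (hne' i))]
          have : (τ s).2 i = Ψ (σ s) i := rfl
          rw [this]
          ring) hη
  obtain ⟨h2, h3, h4⟩ := (hKmem v').1 hv'
  refine ⟨v'.1, v'.2, h2, hKne v' hv', h3, hKabs v' hv', fun j => ?_, fun l => ?_⟩
  · have := h1 (e (Sum.inl j))
    simpa [hf] using this
  · have := h1 (e (Sum.inr l))
    simpa [hf] using this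

end Pool.Agent.Lib.MP_209724_lc.GF
end

section

namespace Pool.Agent.Lib.MP_209724_lc.GF

open MvPolynomial Filter Topology Metric Set
open GC (prj)
open GP (OnV OnW)

variable {n d k : ℕ}

/-- The relations hold at the points of the variety. -/
private theorem rel_at {L : Type} [Field L] [Algebra ℂ L] {ξ υ : Fin n → L}
    {S : Finset (Fin n → ℕ)} {c : (Fin n → ℕ) → MvPolynomial (Fin n) ℂ}
    (h : ∑ α ∈ S, aeval ξ (c α) * ∏ i, υ i ^ α i = 0) {x y : Fin n → ℂ} (hV : OnV ξ υ x y) :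
    ∑ α ∈ S, eval x (c α) * ∏ i, y i ^ α i = 0 := by
  have h1 := hV (∑ α ∈ S, rename Sum.inl (c α) * ∏ i, X (Sum.inr i) ^ α i) (by
    rw [map_sum, ← h]
    refine Finset.sum_congr rfl fun α _ => ?_
    rw [map_mul, aeval_rename, Sum.elim_comp_inl, map_prod]
    congr 1
    refine Finset.prod_congr rfl fun i _ => ?_
    rw [map_pow, aeval_X, Sum.elim_inr])
  rw [map_sum] at h1
  rw [← h1]
  refine Finset.sum_congr rfl fun α _ => ?_
  rw [map_mul, eval_rename, Sum.elim_comp_inl, map_prod]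
  congr 1
  refine Finset.prod_congr rfl fun i _ => ?_
  rw [map_pow, eval_X, Sum.elim_inr]

/-- The estimate for limit points. -/
private theorem key {L : Type} [Field L] [Algebra ℂ L] (ξ υ : Fin n → L) (z₀ : Fin n → ℂ)
    (S : {I : Finset (Fin n) // I.card = k + 1} → Finset (Fin n → ℕ))
    (hS : ∀ I, (S I).Nonempty)
    (c : {I : Finset (Fin n) // I.card = k + 1} → (Fin n → ℕ) → MvPolynomial (Fin n) ℂ)
    (hrel : ∀ I, ∑ α ∈ S I, aeval ξ (c I α) * ∏ i, υ i ^ α i = 0) {ε₁ : ℝ} (C : ℕ)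
    (hc : ∀ I, ∀ α ∈ S I, ∀ᶠ R : ℝ in atTop, ∀ x : Fin n → ℂ, OnW ξ x → ‖R⁻¹ • x - z₀‖ ≤ ε₁ →
      (R ^ C)⁻¹ ≤ ‖eval x (c I α)‖ ∧ ‖eval x (c I α)‖ ≤ R ^ C) (η₀ : Fin n → ℝ)
    (hfac : ∀ η : Fin n → ℝ, ‖η - η₀‖ ≤ ε₁ → ∀ I, fac (S I) η ⊆ fac (S I) η₀)
    (b : Fin k → Fin n → ℝ) (Cb : ℝ)
    (hb : ∀ α β : {I : Finset (Fin n) // I.card = k + 1} → Fin n → ℕ,
        (∀ I, α I ∈ S I ∧ β I ∈ S I ∧ α I ≠ β I) → ∀ w : Fin n → ℝ,
        (∀ I, ∑ i, ((α I i : ℝ) - β I i) * w i = 0) → ‖w‖ ≤ Cb * ‖fun l => ∑ i, b l i * w i‖)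
    (η₁ : Fin n → ℝ)
    (hη₁ : ∀ I, ∀ α ∈ fac (S I) η₀, ∀ β ∈ fac (S I) η₀, ∑ i, ((α i : ℝ) - β i) * η₁ i = 0)
    (r : ℕ → ℝ) (hr : Tendsto r atTop atTop) (x y : ℕ → Fin n → ℂ)
    (hV : ∀ ν, OnV ξ υ (x ν) (y ν)) (hy : ∀ ν i, y ν i ≠ 0)
    (hx0 : ∀ ν, ‖(r ν)⁻¹ • x ν - z₀‖ ≤ ε₁) (η' : Fin n → ℝ)
    (hη' : ∀ i, Tendsto (fun ν => (r ν)⁻¹ * Real.log ‖y ν i‖) atTop (𝓝 (η' i)))
    (hη'0 : ‖η' - η₀‖ ≤ ε₁) :
    ‖η' - η₁‖ ≤ Cb * ‖fun l => ∑ i, b l i * (η' - η₁) i‖ := by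
  have hties : ∀ I, ∃ α ∈ fac (S I) η', ∃ β ∈ fac (S I) η', α ≠ β := by
    intro I
    refine ties (S I) (hS I) (fun ν α => eval (x ν) (c I α)) C r hr ?_ y hy ?_ η' hη'
    · intro α hα
      exact (hr.eventually (hc I α hα)).mono fun ν hν => hν (x ν) (hV ν).onW (hx0 ν)
    · exact Eventually.of_forall fun ν => rel_at (hrel I) (hV ν)
  choose α hα β hβ hne using hties
  refine hb α β (fun I => ⟨(mem_fac.1 (hα I)).1, (mem_fac.1 (hβ I)).1, hne I⟩) (η' - η₁)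
    fun I => ?_
  have h1 := fac_value (hα I) (hβ I)
  have h2 := hη₁ I (α I) (hfac η' hη'0 I (hα I)) (β I) (hfac η' hη'0 I (hβ I))
  have h3 : ∑ i, ((α I i : ℝ) - β I i) * (η' - η₁) i =
      ∑ i, ((α I i : ℝ) - β I i) * η' i - ∑ i, ((α I i : ℝ) - β I i) * η₁ i := by
    rw [← Finset.sum_sub_distrib]
    refine Finset.sum_congr rfl fun i _ => ?_
    rw [Pi.sub_apply]
    ring
  rw [h3, h1, h2, sub_zero]

/-- **Limits are determined by the coordinates.** Points `(x ν, y ν)` of the variety near `(z₀, η₀)` at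
scale `r ν` for which `prj Z x / r → t₁` and `b · log |y| / r → b · η₁`, `η₁` in the kernel of the
differences of the faces of `η₀`, have `log |y| / r → η₁`.

Proof. The sequence `h ν = ((r ν)⁻¹ log ‖y ν i‖)_i` is in the compact set `‖h - η₀‖ ≤ ε₁`. It suffices that
every limit point `η'` of it is equal to `η₁` (if it does not converge, some subsequence stays away from
`η₁` and has a convergent subsubsequence). Along a subsequence with `h → η'` apply `ties` to every `I`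
(with `c ν α = eval (x ν) (c I α)`; the relation holds by `GP.OnV.rel`-like evaluation of `hrel`, see
`GP/Rels.lean`: apply `OnV` to the polynomial `∑ α ∈ S I, rename Sum.inl (c I α) * ∏ X (inr i) ^ α i`): there
are `α I ≠ β I` in `fac (S I) η' ⊆ fac (S I) η₀` (`hfac`, `‖η' - η₀‖ ≤ ε₁`), so `(α I - β I) · η' = 0`
(`fac_value`) and `(α I - β I) · η₁ = 0` (`hη₁`). So `w = η' - η₁` satisfies the hypothesis of `hb`, and
`b w = 0`, so `w = 0`. -/
theorem lim_of_coords {L : Type} [Field L] [Algebra ℂ L] (ξ υ : Fin n → L) (z₀ : Fin n → ℂ)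
    (S : {I : Finset (Fin n) // I.card = k + 1} → Finset (Fin n → ℕ))
    (hS : ∀ I, (S I).Nonempty)
    (c : {I : Finset (Fin n) // I.card = k + 1} → (Fin n → ℕ) → MvPolynomial (Fin n) ℂ)
    (hrel : ∀ I, ∑ α ∈ S I, aeval ξ (c I α) * ∏ i, υ i ^ α i = 0) {ε₁ : ℝ} (C : ℕ)
    (hc : ∀ I, ∀ α ∈ S I, ∀ᶠ R : ℝ in atTop, ∀ x : Fin n → ℂ, OnW ξ x → ‖R⁻¹ • x - z₀‖ ≤ ε₁ →
      (R ^ C)⁻¹ ≤ ‖eval x (c I α)‖ ∧ ‖eval x (c I α)‖ ≤ R ^ C) (η₀ : Fin n → ℝ)
    (hfac : ∀ η : Fin n → ℝ, ‖η - η₀‖ ≤ ε₁ → ∀ I, fac (S I) η ⊆ fac (S I) η₀)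
    (b : Fin k → Fin n → ℝ) (Cb : ℝ)
    (hb : ∀ α β : {I : Finset (Fin n) // I.card = k + 1} → Fin n → ℕ,
        (∀ I, α I ∈ S I ∧ β I ∈ S I ∧ α I ≠ β I) → ∀ w : Fin n → ℝ,
        (∀ I, ∑ i, ((α I i : ℝ) - β I i) * w i = 0) → ‖w‖ ≤ Cb * ‖fun l => ∑ i, b l i * w i‖)
    (η₁ : Fin n → ℝ)
    (hη₁ : ∀ I, ∀ α ∈ fac (S I) η₀, ∀ β ∈ fac (S I) η₀, ∑ i, ((α i : ℝ) - β i) * η₁ i = 0)
    (r : ℕ → ℝ) (hr : Tendsto r atTop atTop) (x y : ℕ → Fin n → ℂ)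
    (hV : ∀ ν, OnV ξ υ (x ν) (y ν)) (hy : ∀ ν i, y ν i ≠ 0)
    (hx0 : ∀ ν, ‖(r ν)⁻¹ • x ν - z₀‖ ≤ ε₁)
    (hη0 : ∀ ν i, |(r ν)⁻¹ * Real.log ‖y ν i‖ - η₀ i| ≤ ε₁)
    (hlim : ∀ l, Tendsto (fun ν => ∑ i, b l i * ((r ν)⁻¹ * Real.log ‖y ν i‖)) atTop
      (𝓝 (∑ i, b l i * η₁ i))) :
    ∀ i, Tendsto (fun ν => (r ν)⁻¹ * Real.log ‖y ν i‖) atTop (𝓝 (η₁ i)) := by
  have hε₁ : 0 ≤ ε₁ := (norm_nonneg _).trans (hx0 0)
  set h : ℕ → Fin n → ℝ := fun ν i => (r ν)⁻¹ * Real.log ‖y ν i‖ with hh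
  have hball : ∀ ν, h ν ∈ closedBall η₀ ε₁ := by
    intro ν
    rw [mem_closedBall, dist_eq_norm, pi_norm_le_iff_of_nonneg hε₁]
    intro i
    rw [Pi.sub_apply, Real.norm_eq_abs]
    exact hη0 ν i
  have hmain : Tendsto h atTop (𝓝 η₁) := by
    refine tendsto_of_subseq_tendsto fun ns hns => ?_
    obtain ⟨η', hη'K, φ, hφ, hlimφ⟩ := (isCompact_closedBall η₀ ε₁).tendsto_subseq
      fun ν => hball (ns ν)
    refine ⟨φ, ?_⟩
    have hsub : Tendsto (fun ν => ns (φ ν)) atTop atTop := hns.comp hφ.tendsto_atTop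
    have hlimi : ∀ i, Tendsto (fun ν => (r (ns (φ ν)))⁻¹ * Real.log ‖y (ns (φ ν)) i‖) atTop
        (𝓝 (η' i)) := fun i => (tendsto_pi_nhds.1 hlimφ) i
    have hη'0 : ‖η' - η₀‖ ≤ ε₁ := by
      rw [mem_closedBall, dist_eq_norm] at hη'K
      exact hη'K
    have hk := key ξ υ z₀ S hS c hrel C hc η₀ hfac b Cb hb η₁ hη₁ (fun ν => r (ns (φ ν)))
      (hr.comp hsub) (fun ν => x (ns (φ ν))) (fun ν => y (ns (φ ν))) (fun ν => hV _)
      (fun ν => hy _) (fun ν => hx0 _) η' hlimi hη'0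
    have hbz : (fun l => ∑ i, b l i * (η' - η₁) i) = 0 := by
      funext l
      have h1 : Tendsto (fun ν => ∑ i, b l i * ((r (ns (φ ν)))⁻¹ *
          Real.log ‖y (ns (φ ν)) i‖)) atTop (𝓝 (∑ i, b l i * η' i)) :=
        tendsto_finsetSum _ fun i _ => (hlimi i).const_mul (b l i)
      have h2 := (hlim l).comp hsub
      have h3 := tendsto_nhds_unique h1 h2
      have h4 : ∑ i, b l i * (η' - η₁) i = ∑ i, b l i * η' i - ∑ i, b l i * η₁ i := by
        rw [← Finset.sum_sub_distrib]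
        refine Finset.sum_congr rfl fun i _ => ?_
        rw [Pi.sub_apply]
        ring
      rw [h4, h3, sub_self, Pi.zero_apply]
    rw [hbz, norm_zero, mul_zero] at hk
    have h5 : η' - η₁ = 0 := norm_le_zero_iff.1 hk
    have h6 : η' = η₁ := sub_eq_zero.1 h5
    rw [← h6]
    exact hlimφ
  exact tendsto_pi_nhds.1 hmain

/-- **Points with small coordinates are interior points.**

Proof. Choose `c₁ > 0` such that `‖H t - z₀‖ < ε₁ / 2` for `‖t - prj Z z₀‖ ≤ 2 c₁` (`hH`, `hH0`) and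
`(Cb + 1) c₁ ≤ ε₁ / 2`. Let `t₁`, `η₁` be as in the claim and suppose that the claim is false: for
arbitrarily large `R` there are `x, y` with all the hypotheses and `‖R⁻¹ x - z₀‖ = ε₁` or
`|R⁻¹ log ‖y i‖ - η₀ i| = ε₁` for some `i`. Choose a sequence `r ν → ∞` of such `R` with `x ν, y ν`. Passing
to a subsequence (the values `h ν = (R⁻¹ log ‖y i‖)_i` are bounded) we may assume `h ν → η'`. First,
by `hclose` `‖R⁻¹ x - H (prj Z (R⁻¹ x))‖ → 0` and `‖prj Z (R⁻¹ x) - prj Z z₀‖ ≤ 2 c₁`, so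
`‖R⁻¹ x - z₀‖ < ε₁` for large `ν`. So `|h ν i - η₀ i| = ε₁` for some `i` (depending on `ν`) for large `ν`,
and in the limit `‖η' - η₀‖ = ε₁`. By `ties` (as in the proof of `lim_of_coords`) there are
`α I ≠ β I` in `fac (S I) η' ⊆ fac (S I) η₀` with `(α I - β I) · η' = 0`, and `(α I - β I) · η₁ = 0`, so
`‖η' - η₁‖ ≤ Cb ‖b (η' - η₁)‖ ≤ Cb c₁` by `hb` (sup norms), and `‖η' - η₀‖ ≤ Cb c₁ + c₁ ≤ ε₁ / 2`, a
contradiction. -/
theorem int_claim {L : Type} [Field L] [Algebra ℂ L] (ξ υ : Fin n → L) (z₀ : Fin n → ℂ)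
    (S : {I : Finset (Fin n) // I.card = k + 1} → Finset (Fin n → ℕ))
    (hS : ∀ I, (S I).Nonempty)
    (c : {I : Finset (Fin n) // I.card = k + 1} → (Fin n → ℕ) → MvPolynomial (Fin n) ℂ)
    (hrel : ∀ I, ∑ α ∈ S I, aeval ξ (c I α) * ∏ i, υ i ^ α i = 0) {ε₁ : ℝ} (hε₁ : 0 < ε₁) (C : ℕ)
    (hc : ∀ I, ∀ α ∈ S I, ∀ᶠ R : ℝ in atTop, ∀ x : Fin n → ℂ, OnW ξ x → ‖R⁻¹ • x - z₀‖ ≤ ε₁ →
      (R ^ C)⁻¹ ≤ ‖eval x (c I α)‖ ∧ ‖eval x (c I α)‖ ≤ R ^ C) (η₀ : Fin n → ℝ)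
    (hfac : ∀ η : Fin n → ℝ, ‖η - η₀‖ ≤ ε₁ → ∀ I, fac (S I) η ⊆ fac (S I) η₀)
    (b : Fin k → Fin n → ℝ) {Cb : ℝ} (hCb : 0 < Cb)
    (hb : ∀ α β : {I : Finset (Fin n) // I.card = k + 1} → Fin n → ℕ,
        (∀ I, α I ∈ S I ∧ β I ∈ S I ∧ α I ≠ β I) → ∀ w : Fin n → ℝ,
        (∀ I, ∑ i, ((α I i : ℝ) - β I i) * w i = 0) → ‖w‖ ≤ Cb * ‖fun l => ∑ i, b l i * w i‖)
    (Z : Fin d → Fin n → ℂ) (H : (Fin d → ℂ) → Fin n → ℂ) (hH : ContinuousAt H (prj Z z₀))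
    (hH0 : H (prj Z z₀) = z₀)
    (hclose : ∀ ε : ℝ, 0 < ε → ∀ᶠ R : ℝ in atTop, ∀ x : Fin n → ℂ, OnW ξ x →
      ‖R⁻¹ • x - z₀‖ ≤ ε₁ → ‖R⁻¹ • x - H (prj Z (R⁻¹ • x))‖ < ε) :
    ∃ c₁ : ℝ, 0 < c₁ ∧ ∀ (t₁ : Fin d → ℂ) (η₁ : Fin n → ℝ), ‖t₁ - prj Z z₀‖ ≤ c₁ →
      ‖η₁ - η₀‖ ≤ c₁ →
      (∀ I, ∀ α ∈ fac (S I) η₀, ∀ β ∈ fac (S I) η₀, ∑ i, ((α i : ℝ) - β i) * η₁ i = 0) →
      ∀ᶠ R : ℝ in atTop, ∀ x y : Fin n → ℂ, OnV ξ υ x y → (∀ i, y i ≠ 0) →
        ‖R⁻¹ • x - z₀‖ ≤ ε₁ → (∀ i, |R⁻¹ * Real.log ‖y i‖ - η₀ i| ≤ ε₁) →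
        (∀ j, ‖prj Z (R⁻¹ • x) j - t₁ j‖ < c₁) →
        (∀ l, |∑ i, b l i * (R⁻¹ * Real.log ‖y i‖) - ∑ i, b l i * η₁ i| < c₁) →
        ‖R⁻¹ • x - z₀‖ < ε₁ ∧ ∀ i, |R⁻¹ * Real.log ‖y i‖ - η₀ i| < ε₁ := by
  obtain ⟨c₀, hc₀, hHc⟩ := Metric.continuousAt_iff.1 hH (ε₁ / 2) (half_pos hε₁)
  rw [hH0] at hHc
  have hCb2 : 0 < 2 * (Cb + 1) := by linarith
  set c₁ : ℝ := min (c₀ / 4) (ε₁ / (2 * (Cb + 1))) with hc₁def
  have hc₁ : 0 < c₁ := lt_min (by linarith) (div_pos hε₁ hCb2)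
  have hc₁a : 2 * c₁ < c₀ := by
    have := min_le_left (c₀ / 4) (ε₁ / (2 * (Cb + 1)))
    rw [← hc₁def] at this
    linarith
  have hc₁b : (Cb + 1) * c₁ ≤ ε₁ / 2 := by
    have h1 := min_le_right (c₀ / 4) (ε₁ / (2 * (Cb + 1)))
    rw [← hc₁def, le_div_iff₀ hCb2] at h1
    linarith
  refine ⟨c₁, hc₁, fun t₁ η₁ ht₁ hη₁0 hη₁ => ?_⟩
  by_contra hcon
  obtain ⟨r, hr, hP⟩ := exists_seq_forall_of_frequently (not_eventually.1 hcon)
  have hP' : ∀ ν, ∃ x y : Fin n → ℂ, OnV ξ υ x y ∧ (∀ i, y i ≠ 0) ∧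
      ‖(r ν)⁻¹ • x - z₀‖ ≤ ε₁ ∧ (∀ i, |(r ν)⁻¹ * Real.log ‖y i‖ - η₀ i| ≤ ε₁) ∧
      (∀ j, ‖prj Z ((r ν)⁻¹ • x) j - t₁ j‖ < c₁) ∧
      (∀ l, |∑ i, b l i * ((r ν)⁻¹ * Real.log ‖y i‖) - ∑ i, b l i * η₁ i| < c₁) ∧
      ¬ (‖(r ν)⁻¹ • x - z₀‖ < ε₁ ∧ ∀ i, |(r ν)⁻¹ * Real.log ‖y i‖ - η₀ i| < ε₁) := by
    intro ν
    by_contra hcon2
    refine hP ν fun x y h1 h2 h3 h4 h5 h6 => ?_
    by_contra h7
    exact hcon2 ⟨x, y, h1, h2, h3, h4, h5, h6, h7⟩
  choose x y hV hy hx0 hη0 hprj hbl hbad using hP'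
  set h : ℕ → Fin n → ℝ := fun ν i => (r ν)⁻¹ * Real.log ‖y ν i‖ with hh
  have hball : ∀ ν, h ν ∈ closedBall η₀ ε₁ := by
    intro ν
    rw [mem_closedBall, dist_eq_norm, pi_norm_le_iff_of_nonneg hε₁.le]
    intro i
    rw [Pi.sub_apply, Real.norm_eq_abs]
    exact hη0 ν i
  obtain ⟨η', hη'K, φ, hφ, hlimφ⟩ := (isCompact_closedBall η₀ ε₁).tendsto_subseq hball
  have hη'0 : ‖η' - η₀‖ ≤ ε₁ := by
    rw [mem_closedBall, dist_eq_norm] at hη'K
    exact hη'K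
  have hlimi : ∀ i, Tendsto (fun ν => (r (φ ν))⁻¹ * Real.log ‖y (φ ν) i‖) atTop (𝓝 (η' i)) :=
    fun i => (tendsto_pi_nhds.1 hlimφ) i
  have hk := key ξ υ z₀ S hS c hrel C hc η₀ hfac b Cb hb η₁ hη₁ (fun ν => r (φ ν))
    (hr.comp hφ.tendsto_atTop) (fun ν => x (φ ν)) (fun ν => y (φ ν)) (fun ν => hV _)
    (fun ν => hy _) (fun ν => hx0 _) η' hlimi hη'0
  -- the points `x` are close to `z₀`
  have hxlt : ∀ᶠ ν in atTop, ‖(r ν)⁻¹ • x ν - z₀‖ < ε₁ := by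
    filter_upwards [hr.eventually (hclose (ε₁ / 2) (half_pos hε₁))] with ν hν
    have h1 := hν (x ν) (hV ν).onW (hx0 ν)
    have h2 : ‖prj Z ((r ν)⁻¹ • x ν) - t₁‖ ≤ c₁ := by
      rw [pi_norm_le_iff_of_nonneg hc₁.le]
      exact fun j => (hprj ν j).le
    have h3 : dist (prj Z ((r ν)⁻¹ • x ν)) (prj Z z₀) < c₀ := by
      rw [dist_eq_norm]
      have h4 : prj Z ((r ν)⁻¹ • x ν) - prj Z z₀ =
          (prj Z ((r ν)⁻¹ • x ν) - t₁) + (t₁ - prj Z z₀) := by abel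
      rw [h4]
      exact (norm_add_le _ _).trans_lt (by linarith)
    have h5 := hHc h3
    rw [dist_eq_norm] at h5
    have h6 : (r ν)⁻¹ • x ν - z₀ = ((r ν)⁻¹ • x ν - H (prj Z ((r ν)⁻¹ • x ν))) +
        (H (prj Z ((r ν)⁻¹ • x ν)) - z₀) := by abel
    rw [h6]
    exact (norm_add_le _ _).trans_lt (by linarith)
  have hge : ∀ᶠ ν in atTop, ε₁ ≤ ‖h (φ ν) - η₀‖ := by
    filter_upwards [hφ.tendsto_atTop.eventually hxlt] with ν hν
    have h1 := hbad (φ ν)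
    rw [not_and] at h1
    have h2 := h1 hν
    push Not at h2
    obtain ⟨i, hi⟩ := h2
    have h3 := norm_le_pi_norm (h (φ ν) - η₀) i
    rw [Pi.sub_apply, Real.norm_eq_abs] at h3
    exact hi.trans h3
  have hge' : ε₁ ≤ ‖η' - η₀‖ := by
    have h1 : Tendsto (fun ν => ‖h (φ ν) - η₀‖) atTop (𝓝 ‖η' - η₀‖) :=
      (hlimφ.sub_const η₀).norm
    exact ge_of_tendsto h1 hge
  have hbn : ‖fun l => ∑ i, b l i * (η' - η₁) i‖ ≤ c₁ := by
    rw [pi_norm_le_iff_of_nonneg hc₁.le]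
    intro l
    have h1 : Tendsto (fun ν => |∑ i, b l i * ((r (φ ν))⁻¹ * Real.log ‖y (φ ν) i‖) -
        ∑ i, b l i * η₁ i|) atTop (𝓝 |∑ i, b l i * η' i - ∑ i, b l i * η₁ i|) :=
      ((tendsto_finsetSum _ fun i _ => (hlimi i).const_mul (b l i)).sub_const _).abs
    have h2 := le_of_tendsto h1 (Eventually.of_forall fun ν => (hbl (φ ν) l).le)
    have h4 : ∑ i, b l i * (η' - η₁) i = ∑ i, b l i * η' i - ∑ i, b l i * η₁ i := by
      rw [← Finset.sum_sub_distrib]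
      refine Finset.sum_congr rfl fun i _ => ?_
      rw [Pi.sub_apply]
      ring
    rw [h4, Real.norm_eq_abs]
    exact h2
  have h7 : ‖η' - η₀‖ ≤ ‖η' - η₁‖ + ‖η₁ - η₀‖ := by
    have h8 : η' - η₀ = (η' - η₁) + (η₁ - η₀) := by abel
    rw [h8]
    exact norm_add_le _ _
  have h9 : Cb * ‖fun l => ∑ i, b l i * (η' - η₁) i‖ ≤ Cb * c₁ :=
    mul_le_mul_of_nonneg_left hbn hCb.le
  nlinarith

end Pool.Agent.Lib.MP_209724_lc.GF
end

section

namespace Pool.Agent.Lib.MP_209724_lc.GF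

open MvPolynomial Filter Topology Metric Set
open GP (OnV OnW)

variable {n : ℕ}

/-- Homomorphisms of the coordinate algebra from points (any finite index type). -/
private theorem pt_hom_of_point {σ L : Type} [Field L] [Algebra ℂ L] (ξ : σ → L)
    (x : σ → ℂ) (hx : ∀ f : MvPolynomial σ ℂ, aeval ξ f = 0 → eval x f = 0)
    (hξ : ∀ i, ξ i ∈ Algebra.adjoin ℂ (Set.range ξ)) :
    ∃ φ : Algebra.adjoin ℂ (Set.range ξ) →ₐ[ℂ] ℂ, ∀ i, φ ⟨ξ i, hξ i⟩ = x i := by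
  obtain ⟨Φ, hΦ⟩ := MV.sheets_lift (Algebra.adjoin ℂ (Set.range ξ))
    (aeval ξ : MvPolynomial σ ℂ →ₐ[ℂ] L) (aeval x : MvPolynomial σ ℂ →ₐ[ℂ] ℂ)
    (fun s hs => by rw [aeval_eq_eval]; exact hx s hs) 1 (by simp) (by
      intro y hy
      rw [Algebra.adjoin_range_eq_range_aeval] at hy
      obtain ⟨s, hs⟩ := hy
      exact ⟨0, s, by rw [pow_zero, one_mul]; exact hs.symm⟩)
  refine ⟨Φ, fun i => ?_⟩
  rw [hΦ ⟨ξ i, hξ i⟩ 0 (X i) (by simp)]
  simp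

/-- Values of polynomials at the point of a homomorphism of the coordinate algebra. -/
private theorem pt_eval_of_hom {σ L : Type} [Field L] [Algebra ℂ L] (ξ : σ → L)
    (hξ : ∀ i, ξ i ∈ Algebra.adjoin ℂ (Set.range ξ))
    (φ : Algebra.adjoin ℂ (Set.range ξ) →ₐ[ℂ] ℂ) (f : MvPolynomial σ ℂ) :
    eval (fun i => φ ⟨ξ i, hξ i⟩) f =
      φ (aeval (fun i => (⟨ξ i, hξ i⟩ : Algebra.adjoin ℂ (Set.range ξ))) f) := by
  rw [← MvPolynomial.aeval_eq_eval, ← MvPolynomial.comp_aeval_apply]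

private theorem pt_val {σ L : Type} [Field L] [Algebra ℂ L] (ξ : σ → L)
    (hξ : ∀ i, ξ i ∈ Algebra.adjoin ℂ (Set.range ξ)) (f : MvPolynomial σ ℂ) :
    ((aeval (fun i => (⟨ξ i, hξ i⟩ : Algebra.adjoin ℂ (Set.range ξ))) f :
      Algebra.adjoin ℂ (Set.range ξ)) : L) = aeval ξ f := by
  have h1 := MvPolynomial.comp_aeval_apply
    (fun i => (⟨ξ i, hξ i⟩ : Algebra.adjoin ℂ (Set.range ξ)))
    (Algebra.adjoin ℂ (Set.range ξ)).val f
  simp only [Subalgebra.coe_val] at h1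
  exact h1

/-- **Points of the variety are limits of points outside of `P = 0`.**

Proof. `A = Algebra.adjoin ℂ (range (Sum.elim ξ υ))`; `(x, y)` defines a homomorphism `φ : A → ℂ` (as
`vc_hom_of_point` in `GP/VChart.lean`, private; copy it). By `GC.exists_near` for the element
`aeval (Sum.elim ξ υ) P ≠ 0` of `A` and the finite set of the generators there is a homomorphism `φ'` with
`φ'(P(ξ, υ)) ≠ 0` and values at the generators close to those of `φ`; the values of `φ'` at the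
generators form the point `(x', y')` (as `vc_point_of_hom`), with `P(x', y') = φ'(P(ξ, υ))`. -/
theorem near_point {L : Type} [Field L] [Algebra ℂ L] (ξ υ : Fin n → L)
    (P : MvPolynomial (Fin n ⊕ Fin n) ℂ) (hP : aeval (Sum.elim ξ υ) P ≠ 0) (x y : Fin n → ℂ)
    (h : OnV ξ υ x y) {ε : ℝ} (hε : 0 < ε) :
    ∃ x' y' : Fin n → ℂ, OnV ξ υ x' y' ∧ ‖x' - x‖ ≤ ε ∧ ‖y' - y‖ ≤ ε ∧
      eval (Sum.elim x' y') P ≠ 0 := by
  classical
  set ω : Fin n ⊕ Fin n → L := Sum.elim ξ υ with hω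
  have hωA : ∀ i, ω i ∈ Algebra.adjoin ℂ (Set.range ω) := fun i =>
    Algebra.subset_adjoin ⟨i, rfl⟩
  have hFG : (Algebra.adjoin ℂ (Set.range ω)).FG :=
    ⟨(Set.finite_range ω).toFinset, by simp⟩
  obtain ⟨φ, hφ⟩ := pt_hom_of_point ω (Sum.elim x y) h hωA
  set c : Algebra.adjoin ℂ (Set.range ω) := aeval (fun i => (⟨ω i, hωA i⟩ :
    Algebra.adjoin ℂ (Set.range ω))) P with hc
  have hc0 : c ≠ 0 := by
    intro h0
    apply hP
    have h1 := pt_val ω hωA P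
    rw [← hc, h0] at h1
    exact h1.symm
  obtain ⟨φ', hφ'c, hφ'⟩ := GC.exists_near _ hFG φ c hc0
    (Finset.univ.image fun i => (⟨ω i, hωA i⟩ : Algebra.adjoin ℂ (Set.range ω))) hε
  have hel : (Sum.elim (fun i => φ' ⟨ω (Sum.inl i), hωA (Sum.inl i)⟩)
      (fun i => φ' ⟨ω (Sum.inr i), hωA (Sum.inr i)⟩) : Fin n ⊕ Fin n → ℂ) =
      fun i => φ' ⟨ω i, hωA i⟩ := by
    funext i
    rcases i with i | i <;> rfl
  have hcl : ∀ i, ‖φ' ⟨ω i, hωA i⟩ - Sum.elim x y i‖ ≤ ε := by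
    intro i
    have h1 := hφ' ⟨ω i, hωA i⟩ (Finset.mem_image_of_mem _ (Finset.mem_univ i))
    rw [hφ i] at h1
    exact h1.le
  refine ⟨fun i => φ' ⟨ω (Sum.inl i), hωA (Sum.inl i)⟩,
    fun i => φ' ⟨ω (Sum.inr i), hωA (Sum.inr i)⟩, ?_, ?_, ?_, ?_⟩
  · intro f hf
    rw [hel, pt_eval_of_hom ω hωA φ' f]
    have h1 : (aeval (fun i => (⟨ω i, hωA i⟩ : Algebra.adjoin ℂ (Set.range ω))) f :
        Algebra.adjoin ℂ (Set.range ω)) = 0 := Subtype.ext ((pt_val ω hωA f).trans hf)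
    rw [h1, map_zero]
  · rw [pi_norm_le_iff_of_nonneg hε.le]
    intro i
    exact hcl (Sum.inl i)
  · rw [pi_norm_le_iff_of_nonneg hε.le]
    intro i
    exact hcl (Sum.inr i)
  · rw [hel, pt_eval_of_hom ω hωA φ' P]
    exact hφ'c

/-- **Limits outside of `P = 0`.**

Proof. For each `ν` apply `near_point` with `ε ≤ 1` so small (depending on `ν`) that `‖y' - y ν‖ ≤ ε` implies
`‖y' i - y ν i‖ ≤ ‖y ν i‖ / 2`, so `y' i ≠ 0` and `|log ‖y' i‖ - log ‖y ν i‖| ≤ log 2`. Then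
`(r ν)⁻¹ • x' - (r ν)⁻¹ • x ν → 0` and `(r ν)⁻¹ (log ‖y' i‖ - log ‖y ν i‖) → 0`. -/
theorem lim_perturb {L : Type} [Field L] [Algebra ℂ L] (ξ υ : Fin n → L)
    (P : MvPolynomial (Fin n ⊕ Fin n) ℂ) (hP : aeval (Sum.elim ξ υ) P ≠ 0) {z : Fin n → ℂ}
    {η : Fin n → ℝ} (h : Lim ξ υ z η) :
    ∃ (r : ℕ → ℝ) (x y : ℕ → Fin n → ℂ), (∀ ν, 0 < r ν) ∧ Tendsto r atTop atTop ∧
      (∀ ν, OnV ξ υ (x ν) (y ν)) ∧ (∀ ν i, y ν i ≠ 0) ∧
      (∀ ν, eval (Sum.elim (x ν) (y ν)) P ≠ 0) ∧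
      Tendsto (fun ν => (r ν)⁻¹ • x ν) atTop (𝓝 z) ∧
      ∀ i, Tendsto (fun ν => (r ν)⁻¹ * Real.log ‖y ν i‖) atTop (𝓝 (η i)) := by
  obtain ⟨r, x, y, hr, hrt, hV, hy0, hx, hη⟩ := h
  have hex : ∀ ν, ∃ x' y' : Fin n → ℂ, OnV ξ υ x' y' ∧ ‖x' - x ν‖ ≤ 1 ∧
      (∀ i, ‖y' i - y ν i‖ ≤ ‖y ν i‖ / 2) ∧ eval (Sum.elim x' y') P ≠ 0 := by
    intro ν
    obtain ⟨δ, hδ0, hδ1, hδ⟩ : ∃ δ : ℝ, 0 < δ ∧ δ ≤ 1 ∧ ∀ i, δ ≤ ‖y ν i‖ / 2 := by
      have h1 : ∀ᶠ δ : ℝ in 𝓝[>] 0, ∀ i, δ ≤ ‖y ν i‖ / 2 := by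
        rw [Filter.eventually_all]
        intro i
        have h2 : (0 : ℝ) < ‖y ν i‖ / 2 := half_pos (norm_pos_iff.2 (hy0 ν i))
        exact mem_nhdsWithin_of_mem_nhds ((eventually_lt_nhds h2).mono fun _ h => h.le)
      have h3 : ∀ᶠ δ : ℝ in 𝓝[>] 0, δ ≤ 1 :=
        mem_nhdsWithin_of_mem_nhds ((eventually_lt_nhds one_pos).mono fun _ h => h.le)
      obtain ⟨δ, ⟨h4, h5⟩, h6⟩ := ((h1.and h3).and self_mem_nhdsWithin).exists
      exact ⟨δ, h6, h5, h4⟩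
    obtain ⟨x', y', h1, h2, h3, h4⟩ := near_point ξ υ P hP (x ν) (y ν) (hV ν) hδ0
    exact ⟨x', y', h1, h2.trans hδ1, fun i =>
      ((norm_le_pi_norm (y' - y ν) i).trans h3).trans (hδ i), h4⟩
  choose x' y' hV' hx' hy' hP' using hex
  have hb : ∀ ν i, ‖y ν i‖ / 2 ≤ ‖y' ν i‖ ∧ ‖y' ν i‖ ≤ 2 * ‖y ν i‖ := by
    intro ν i
    have h1 := norm_sub_norm_le (y' ν i) (y ν i)
    have h2 := norm_sub_norm_le (y ν i) (y' ν i)
    rw [norm_sub_rev] at h2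
    have h3 := hy' ν i
    have h4 := norm_nonneg (y ν i)
    constructor <;> linarith
  have hne : ∀ ν i, y' ν i ≠ 0 := by
    intro ν i
    have h1 := (hb ν i).1
    have h2 : 0 < ‖y ν i‖ := norm_pos_iff.2 (hy0 ν i)
    exact norm_pos_iff.1 (by linarith)
  have hlog : ∀ ν i, |Real.log ‖y' ν i‖ - Real.log ‖y ν i‖| ≤ Real.log 2 := by
    intro ν i
    have h2 : 0 < ‖y ν i‖ := norm_pos_iff.2 (hy0 ν i)
    have h3 : 0 < ‖y' ν i‖ := norm_pos_iff.2 (hne ν i)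
    have h4 := Real.log_le_log h3 (hb ν i).2
    rw [Real.log_mul (by norm_num) h2.ne'] at h4
    have h5 := Real.log_le_log (by positivity) (hb ν i).1
    rw [Real.log_div h2.ne' (by norm_num)] at h5
    rw [abs_le]
    constructor <;> linarith
  have hrinv : Tendsto (fun ν => (r ν)⁻¹) atTop (𝓝 0) := tendsto_inv_atTop_zero.comp hrt
  refine ⟨r, x', y', hr, hrt, hV', hne, hP', ?_, fun i => ?_⟩
  · have h1 : Tendsto (fun ν => (r ν)⁻¹ • (x' ν - x ν)) atTop (𝓝 0) := by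
      rw [tendsto_zero_iff_norm_tendsto_zero]
      refine squeeze_zero (fun ν => norm_nonneg _) (fun ν => ?_) hrinv
      rw [norm_smul, Real.norm_of_nonneg (inv_nonneg.2 (hr ν).le)]
      exact mul_le_of_le_one_right (inv_nonneg.2 (hr ν).le) (hx' ν)
    have h2 := hx.add h1
    rw [add_zero] at h2
    refine h2.congr fun ν => ?_
    rw [← smul_add, add_sub_cancel]
  · have h1 : Tendsto (fun ν => (r ν)⁻¹ * (Real.log ‖y' ν i‖ - Real.log ‖y ν i‖)) atTop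
        (𝓝 0) := by
      rw [tendsto_zero_iff_norm_tendsto_zero]
      have h3 : Tendsto (fun ν => (r ν)⁻¹ * Real.log 2) atTop (𝓝 0) := by
        simpa using hrinv.mul_const (Real.log 2)
      refine squeeze_zero (fun ν => norm_nonneg _) (fun ν => ?_) h3
      rw [norm_mul, Real.norm_of_nonneg (inv_nonneg.2 (hr ν).le), Real.norm_eq_abs]
      exact mul_le_mul_of_nonneg_left (hlog ν i) (inv_nonneg.2 (hr ν).le)
    have h2 := (hη i).add h1
    rw [add_zero] at h2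
    refine h2.congr fun ν => ?_
    ring

end Pool.Agent.Lib.MP_209724_lc.GF
end

section

/-!
# The centers are open in the set of the points with imaginary image
-/

namespace Pool.Agent.Lib.MP_209724_lc.GF

open MvPolynomial Filter Topology Metric Set
open GC (prj)
open GS (Ew)
open GP (OnV OnW)

variable {n d k : ℕ}

/-- **Openness of the limits.** If `(z₀, η₀)` is a limit of `(x / r, log |y| / r)`, so are the `(z, η)` near it
with `z` in the cone and `η` in the common kernel of the differences of the faces of `η₀`. -/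
theorem open_lim (hdk : d + k = n) {L : Type} [Field L] [Algebra ℂ L] (ξ υ : Fin n → L)
    (Z : Fin d → Fin n → ℂ) (B : Fin k → Fin n) (e : Fin d ⊕ Fin k ≃ Fin n)
    (β : MvPolynomial (Fin d ⊕ Fin k) ℂ)
    (hV : ∀ x₀ y₀ : Fin n → ℂ, OnV ξ υ x₀ y₀ →
      eval (Sum.elim (prj Z x₀) fun j => y₀ (B j)) β ≠ 0 →
      ∃ (δ : ℝ) (Φ Ψ : (Fin d ⊕ Fin k → ℂ) → Fin n → ℂ), 0 < δ ∧
        Φ (Sum.elim (prj Z x₀) fun j => y₀ (B j)) = x₀ ∧
        Ψ (Sum.elim (prj Z x₀) fun j => y₀ (B j)) = y₀ ∧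
        DifferentiableOn ℂ Φ (ball (Sum.elim (prj Z x₀) fun j => y₀ (B j)) δ) ∧
        DifferentiableOn ℂ Ψ (ball (Sum.elim (prj Z x₀) fun j => y₀ (B j)) δ) ∧
        ∀ s ∈ ball (Sum.elim (prj Z x₀) fun j => y₀ (B j)) δ, OnV ξ υ (Φ s) (Ψ s) ∧
          (∀ j, prj Z (Φ s) j = s (Sum.inl j)) ∧ ∀ j, Ψ s (B j) = s (Sum.inr j))
    (P : MvPolynomial (Fin n ⊕ Fin n) ℂ) (hP : aeval (Sum.elim ξ υ) P ≠ 0)
    (hPe : ∀ x y : Fin n → ℂ, eval (Sum.elim x y) P =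
      eval (Sum.elim (prj Z x) fun j => y (B j)) β)
    (z₀ : Fin n → ℂ) (η₀ : Fin n → ℝ)
    (S : {I : Finset (Fin n) // I.card = k + 1} → Finset (Fin n → ℕ))
    (hS : ∀ I, (S I).Nonempty) (hSI : ∀ I, ∀ α ∈ S I, ∀ i, i ∉ I.1 → α i = 0)
    (c : {I : Finset (Fin n) // I.card = k + 1} → (Fin n → ℕ) → MvPolynomial (Fin n) ℂ)
    (hrel : ∀ I, ∑ α ∈ S I, aeval ξ (c I α) * ∏ i, υ i ^ α i = 0) {r₀ : ℝ} (hr₀ : 0 < r₀)
    (C : ℕ)
    (hc : ∀ I, ∀ α ∈ S I, ∀ᶠ R : ℝ in atTop, ∀ x : Fin n → ℂ, OnW ξ x → ‖R⁻¹ • x - z₀‖ ≤ r₀ →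
      (R ^ C)⁻¹ ≤ ‖eval x (c I α)‖ ∧ ‖eval x (c I α)‖ ≤ R ^ C)
    (H : (Fin d → ℂ) → Fin n → ℂ) {ρ : ℝ} (hρ : 0 < ρ)
    (hH : ContinuousOn H (ball (prj Z z₀) ρ)) (hH0 : H (prj Z z₀) = z₀)
    (hclose : ∀ ε : ℝ, 0 < ε → ∀ᶠ R : ℝ in atTop, ∀ x : Fin n → ℂ, OnW ξ x →
      ‖R⁻¹ • x - z₀‖ ≤ r₀ → ‖R⁻¹ • x - H (prj Z (R⁻¹ • x))‖ < ε)
    (hlim : Lim ξ υ z₀ η₀) :
    ∃ ε : ℝ, 0 < ε ∧ ∀ (t₁ : Fin d → ℂ) (η₁ : Fin n → ℝ), ‖t₁ - prj Z z₀‖ < ε →
      ‖η₁ - η₀‖ < ε →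
      (∀ I, ∀ α ∈ fac (S I) η₀, ∀ β ∈ fac (S I) η₀, ∑ i, ((α i : ℝ) - β i) * η₁ i = 0) →
      Lim ξ υ (H t₁) η₁ := by
  classical
  -- the radius
  have hev : ∀ᶠ ε₁ : ℝ in 𝓝[>] 0, (0 < ε₁ ∧ ε₁ ≤ r₀) ∧
      ∀ I : {I : Finset (Fin n) // I.card = k + 1}, ∀ η : Fin n → ℝ, ‖η - η₀‖ ≤ ε₁ →
        fac (S I) η ⊆ fac (S I) η₀ := by
    refine Filter.Eventually.and (Filter.Eventually.and self_mem_nhdsWithin
      (nhdsWithin_le_nhds (Iic_mem_nhds hr₀))) ?_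
    rw [Filter.eventually_all]
    intro I
    obtain ⟨ε, hε, h⟩ := fac_near (S I) η₀
    filter_upwards [nhdsWithin_le_nhds (Iic_mem_nhds hε)] with ε₁ h1 η hη
    exact h η (hη.trans h1)
  obtain ⟨ε₁, ⟨hε₁, hε₁r⟩, hfac⟩ := hev.exists
  have hc' : ∀ I, ∀ α ∈ S I, ∀ᶠ R : ℝ in atTop, ∀ x : Fin n → ℂ, OnW ξ x →
      ‖R⁻¹ • x - z₀‖ ≤ ε₁ → (R ^ C)⁻¹ ≤ ‖eval x (c I α)‖ ∧ ‖eval x (c I α)‖ ≤ R ^ C :=
    fun I α hα => (hc I α hα).mono fun R h x hx hxr => h x hx (hxr.trans hε₁r)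
  have hclose' : ∀ ε : ℝ, 0 < ε → ∀ᶠ R : ℝ in atTop, ∀ x : Fin n → ℂ, OnW ξ x →
      ‖R⁻¹ • x - z₀‖ ≤ ε₁ → ‖R⁻¹ • x - H (prj Z (R⁻¹ • x))‖ < ε :=
    fun ε hε => (hclose ε hε).mono fun R h x hx hxr => h x hx (hxr.trans hε₁r)
  have hfac' : ∀ η : Fin n → ℝ, ‖η - η₀‖ ≤ ε₁ → ∀ I, fac (S I) η ⊆ fac (S I) η₀ :=
    fun η hη I => hfac I η hη
  obtain ⟨b, Cb, hCb, hb⟩ := exists_bmat hdk S hSI
  obtain ⟨c₁, hc₁, hint⟩ := int_claim ξ υ z₀ S hS c hrel hε₁ C hc' η₀ hfac' b hCb hb Z H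
    (hH.continuousAt (isOpen_ball.mem_nhds (mem_ball_self hρ))) hH0 hclose'
  -- the size of `b`
  obtain ⟨Bs, hBs⟩ : ∃ Bs : ℝ, Bs = ∑ l, ∑ i, |b l i| := ⟨_, rfl⟩
  have hBs0 : 0 ≤ Bs := by
    rw [hBs]
    exact Finset.sum_nonneg fun l _ => Finset.sum_nonneg fun i _ => abs_nonneg _
  have hbl : ∀ (l : Fin k) (w : Fin n → ℝ), |∑ i, b l i * w i| ≤ Bs * ‖w‖ := by
    intro l w
    refine (Finset.abs_sum_le_sum_abs _ _).trans ?_
    have h1 : ∀ i, |b l i * w i| ≤ |b l i| * ‖w‖ := fun i => by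
      rw [abs_mul]
      exact mul_le_mul_of_nonneg_left (norm_le_pi_norm w i) (abs_nonneg _)
    refine (Finset.sum_le_sum fun i _ => h1 i).trans ?_
    rw [← Finset.sum_mul]
    refine mul_le_mul_of_nonneg_right ?_ (norm_nonneg _)
    rw [hBs]
    exact Finset.single_le_sum (f := fun l => ∑ i, |b l i|)
      (fun l _ => Finset.sum_nonneg fun i _ => abs_nonneg _) (Finset.mem_univ l)
  refine ⟨min (min (c₁ / 4) (c₁ / (4 * (Bs + 1)))) ρ, by positivity, ?_⟩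
  intro t₁ η₁ ht₁ hη₁ hker
  have ht₁c : ‖t₁ - prj Z z₀‖ < c₁ / 4 :=
    ht₁.trans_le ((min_le_left _ _).trans (min_le_left _ _))
  have hη₁c : ‖η₁ - η₀‖ < c₁ / 4 := hη₁.trans_le ((min_le_left _ _).trans (min_le_left _ _))
  have hη₁b : ‖η₁ - η₀‖ < c₁ / (4 * (Bs + 1)) :=
    hη₁.trans_le ((min_le_left _ _).trans (min_le_right _ _))
  have ht₁ρ : t₁ ∈ ball (prj Z z₀) ρ := by
    rw [mem_ball, dist_eq_norm]
    exact ht₁.trans_le (min_le_right _ _)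
  have hbη : ∀ l, |∑ i, b l i * η₀ i - ∑ i, b l i * η₁ i| < c₁ / 4 := by
    intro l
    have h1 : ∑ i, b l i * η₀ i - ∑ i, b l i * η₁ i = ∑ i, b l i * (η₀ - η₁) i := by
      rw [← Finset.sum_sub_distrib]
      refine Finset.sum_congr rfl fun i _ => ?_
      rw [Pi.sub_apply]
      ring
    rw [h1]
    refine (hbl l _).trans_lt ?_
    rw [norm_sub_rev]
    rw [lt_div_iff₀ (by positivity)] at hη₁b
    nlinarith [norm_nonneg (η₁ - η₀)]
  have hint₁ := hint t₁ η₁ (ht₁c.le.trans (by linarith)) (hη₁c.le.trans (by linarith)) hker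
  -- the start
  obtain ⟨r, x, y, hr0, hr, hxV, hy0, hxP, hxz, hyη⟩ := lim_perturb ξ υ P hP hlim
  have hprjz : Tendsto (fun ν => prj Z ((r ν)⁻¹ • x ν)) atTop (𝓝 (prj Z z₀)) :=
    ((GC.continuous_prj Z).tendsto z₀).comp hxz
  have hbz : ∀ l, Tendsto (fun ν => ∑ i, b l i * ((r ν)⁻¹ * Real.log ‖y ν i‖)) atTop
      (𝓝 (∑ i, b l i * η₀ i)) := fun l =>
    tendsto_finsetSum _ fun i _ => (hyη i).const_mul _
  have e1 : ∀ᶠ ν in atTop, ‖(r ν)⁻¹ • x ν - z₀‖ ≤ ε₁ := by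
    have h1 := (tendsto_iff_norm_sub_tendsto_zero.1 hxz)
    exact (h1.eventually (gt_mem_nhds hε₁)).mono fun ν h => h.le
  have e2 : ∀ᶠ ν in atTop, ∀ i, |(r ν)⁻¹ * Real.log ‖y ν i‖ - η₀ i| ≤ ε₁ := by
    rw [Filter.eventually_all]
    intro i
    have h1 := (tendsto_iff_norm_sub_tendsto_zero.1 (hyη i))
    exact (h1.eventually (gt_mem_nhds hε₁)).mono fun ν h => h.le
  have e3 : ∀ᶠ ν in atTop, ∀ j, ‖prj Z ((r ν)⁻¹ • x ν) j - t₁ j‖ ≤ c₁ / 2 := by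
    have h1 := (tendsto_iff_norm_sub_tendsto_zero.1 hprjz)
    filter_upwards [h1.eventually (gt_mem_nhds (show 0 < c₁ / 4 by positivity))] with ν h j
    have h2 : ‖(prj Z ((r ν)⁻¹ • x ν) - prj Z z₀) j‖ ≤ c₁ / 4 :=
      (norm_le_pi_norm _ j).trans h.le
    have h3 : ‖(t₁ - prj Z z₀) j‖ ≤ c₁ / 4 := (norm_le_pi_norm _ j).trans ht₁c.le
    have h4 := norm_sub_le ((prj Z ((r ν)⁻¹ • x ν) - prj Z z₀) j) ((t₁ - prj Z z₀) j)
    have h5 : (prj Z ((r ν)⁻¹ • x ν) - prj Z z₀) j - (t₁ - prj Z z₀) j =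
        prj Z ((r ν)⁻¹ • x ν) j - t₁ j := by
      rw [Pi.sub_apply, Pi.sub_apply]
      ring
    rw [h5] at h4
    linarith
  have e4 : ∀ᶠ ν in atTop, ∀ l, |∑ i, b l i * ((r ν)⁻¹ * Real.log ‖y ν i‖) -
      ∑ i, b l i * η₁ i| ≤ c₁ / 2 := by
    rw [Filter.eventually_all]
    intro l
    have h1 := (tendsto_iff_norm_sub_tendsto_zero.1 (hbz l))
    filter_upwards [h1.eventually (gt_mem_nhds (show 0 < c₁ / 4 by positivity))] with ν h
    rw [Real.norm_eq_abs] at h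
    have h2 := abs_add_le (∑ i, b l i * ((r ν)⁻¹ * Real.log ‖y ν i‖) - ∑ i, b l i * η₀ i)
      (∑ i, b l i * η₀ i - ∑ i, b l i * η₁ i)
    rw [sub_add_sub_cancel] at h2
    have h3 := hbη l
    linarith
  obtain ⟨N, hN⟩ := Filter.eventually_atTop.1 ((((e1.and e2).and e3).and e4).and
    (hr.eventually hint₁))
  have hstep : ∀ ν : ℕ, ∃ x' y' : Fin n → ℂ, OnV ξ υ x' y' ∧ (∀ i, y' i ≠ 0) ∧
      ‖(r (N + ν))⁻¹ • x' - z₀‖ ≤ ε₁ ∧
      (∀ i, |(r (N + ν))⁻¹ * Real.log ‖y' i‖ - η₀ i| ≤ ε₁) ∧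
      (∀ j, ‖prj Z ((r (N + ν))⁻¹ • x') j - t₁ j‖ ≤ 1 / ((ν : ℝ) + 1)) ∧
      ∀ l, |∑ i, b l i * ((r (N + ν))⁻¹ * Real.log ‖y' i‖) - ∑ i, b l i * η₁ i| ≤
        1 / ((ν : ℝ) + 1) := by
    intro ν
    obtain ⟨⟨⟨⟨h1, h2⟩, h3⟩, h4⟩, h5⟩ := hN (N + ν) (Nat.le_add_right _ _)
    exact fin_step ξ υ Z B e β hV (hr0 (N + ν)) z₀ η₀ t₁ b (fun l => ∑ i, b l i * η₁ i) hc₁ h5
      (x (N + ν)) (y (N + ν)) (hxV _) (hy0 _) (by rw [← hPe]; exact hxP _) h1 h2 h3 h4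
      (by positivity)
  choose x' y' hV' hy' h1 h2 h3 h4 using hstep
  have hshift : Tendsto (fun ν => N + ν) atTop atTop := by
    simpa only [add_comm] using tendsto_add_atTop_nat N
  have hr' : Tendsto (fun ν => r (N + ν)) atTop atTop := hr.comp hshift
  have hone : Tendsto (fun ν : ℕ => 1 / ((ν : ℝ) + 1)) atTop (𝓝 0) :=
    tendsto_one_div_add_atTop_nhds_zero_nat
  have hlimy := lim_of_coords ξ υ z₀ S hS c hrel C hc' η₀ hfac' b Cb hb η₁ hker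
    (fun ν => r (N + ν)) hr' x' y' hV' hy' h1 h2 (by
      intro l
      rw [tendsto_iff_norm_sub_tendsto_zero]
      exact squeeze_zero (fun ν => norm_nonneg _) (fun ν => h4 ν l) hone)
  refine ⟨fun ν => r (N + ν), x', y', fun ν => hr0 _, hr', hV', hy', ?_, hlimy⟩
  -- convergence of the `x`
  have hprj : Tendsto (fun ν => prj Z ((r (N + ν))⁻¹ • x' ν)) atTop (𝓝 t₁) := by
    rw [tendsto_pi_nhds]
    intro j
    rw [tendsto_iff_norm_sub_tendsto_zero]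
    exact squeeze_zero (fun ν => norm_nonneg _) (fun ν => h3 ν j) hone
  have hHt : Tendsto (fun ν => H (prj Z ((r (N + ν))⁻¹ • x' ν))) atTop (𝓝 (H t₁)) :=
    (hH.continuousAt (isOpen_ball.mem_nhds ht₁ρ)).tendsto.comp hprj
  have hdiff : Tendsto (fun ν => (r (N + ν))⁻¹ • x' ν - H (prj Z ((r (N + ν))⁻¹ • x' ν))) atTop
      (𝓝 0) := by
    rw [tendsto_zero_iff_norm_tendsto_zero, Metric.tendsto_nhds]
    intro ε hε
    filter_upwards [hr'.eventually (hclose' ε hε)] with ν hν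
    rw [Real.dist_eq, sub_zero, abs_of_nonneg (norm_nonneg _)]
    exact hν (x' ν) (hV' ν).onW (h1 ν)
  have := hdiff.add hHt
  simpa using this

end Pool.Agent.Lib.MP_209724_lc.GF
end
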