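import Mathlib
import Pool.Agent.Lib.MP_209724_lc.GP.Low
import Pool.Agent.Lib.MP_209724_lc.GS.Max
import Pool.Agent.Lib.MP_209724_lc.GP.Core
import Pool.Agent.Lib.MP_209724_lc.GS.Final
import Pool.Agent.Lib.MP_209724_lc.GS.Chart2

section

namespace Pool.Agent.Lib.MP_209724_lc.GE

open Filter Topology Metric Set
open scoped InnerProductSpace
open GS (Ew)

variable {n : ℕ}

/-- **No local maximum, local form.** `F : D → ℂ^n` and `h : D → ℂ` holomorphic on the open set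
`D ⊆ ℂ^n`, `Re F(s₀) ≠ 0`: the function `- K |Re F| + Re h + ε |s|²` (Euclidean norms) has no local
maximum at `s₀`.

Proof. (As `GS.no_local_max` in `GS/Max.lean`, of which most can be copied; the new point is the real
part.) Let `c = Re F(s₀) ∈ ℝ^n`, `c ≠ 0`, also regarded as an element of `Ew n`, and let `a ≠ 0`, `μ` with
`(fderiv ℂ F s₀) a = μ • c` (`GS.exists_dir`). Put `ℓ(z) = s₀ + z • a`, `F₁(z) = ∑ i, c i * F(ℓ z) i`
(a holomorphic function, `c` real), `N = ∑ i, (c i)^2 > 0`, `G(z) = F(ℓ z) - (F₁(z) / N) • c`. Then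
`Re F₁(0) = N`, `∑ i, c i * G(z) i = 0` for all `z`, `G'(0) = μ • c - (μ N / N) • c = 0` and
`Re G(0) = c - c = 0` (componentwise), so `|Re G(z)| ≤ C |z|²` for small `z` (`GS.second_order` for
`G - G(0)`). As `∑ i, c i * Re G(z) i = 0` (real part, `c` is real),
`|Re F(ℓ z)|² = (Re F₁(z))² / N + |Re G(z)|²`, and `Re F₁(z) ≥ N / 2` for small `z`, so
`|Re F(ℓ z)| ≤ Re F₁(z) / √N + C' |z|⁴` (`√(a² + b²) ≤ a + b² / (2 a)`), with equality at `z = 0`, `C' = 0`.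
Moreover `‖ℓ z‖² = ‖s₀‖² + 2 Re(⟪s₀, a⟫ z) + |z|² ‖a‖²`. If `s₀` were a local maximum, the holomorphic
function `g(z) = - K F₁(z) / √N + h(ℓ z) + 2 ε ⟪s₀, a⟫ z` would satisfy
`Re g(z) ≤ Re g(0) + K C' |z|⁴ - ε ‖a‖² |z|² < Re g(0)` for small `z ≠ 0`: a strict local maximum of
`|exp g|`, in contradiction to the maximum principle (`Complex.norm_eventually_eq_of_isLocalMax`, as at
the end of `GS.no_local_max`). -/
theorem no_max {D : Set (Ew n)} (hD : IsOpen D) {F : Ew n → Ew n} {h : Ew n → ℂ}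
    (hF : DifferentiableOn ℂ F D) (hh : DifferentiableOn ℂ h D) {s₀ : Ew n} (hs : s₀ ∈ D)
    (hu : (fun i => (F s₀ i).re) ≠ 0) {K ε : ℝ} (hK : 0 ≤ K) (hε : 0 < ε) :
    ¬ ∀ᶠ s in 𝓝 s₀, -(K * nrm fun i => (F s i).re) + (h s).re + ε * ‖s‖ ^ 2 ≤
      -(K * nrm fun i => (F s₀ i).re) + (h s₀).re + ε * ‖s₀‖ ^ 2 := by
  intro hmax
  set c : Ew n := WithLp.toLp 2 (fun i => (((F s₀ i).re : ℝ) : ℂ)) with hcdef
  have hci : ∀ i, c i = (((F s₀ i).re : ℝ) : ℂ) := fun i => rfl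
  have hc : c ≠ 0 := by
    intro h0
    apply hu
    funext i
    have h1 : c i = 0 := by rw [h0]; rfl
    rw [hci] at h1
    exact Complex.ofReal_eq_zero.1 h1
  obtain ⟨a, ha, μ, hμ⟩ := GS.exists_dir (fderiv ℂ F s₀) hc
  set N : ℝ := ‖c‖ ^ 2 with hN
  have hN0 : 0 < N := by
    rw [hN]
    have := norm_pos_iff.2 hc
    positivity
  have hNsum : N = ∑ i, ((F s₀ i).re) ^ 2 := by
    rw [hN, EuclideanSpace.norm_sq_eq]
    refine Finset.sum_congr rfl fun i _ => ?_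
    rw [hci, Complex.norm_real, Real.norm_eq_abs, sq_abs]
  have hsN : 0 < Real.sqrt N := Real.sqrt_pos.2 hN0
  have hsN2 : Real.sqrt N * Real.sqrt N = N := Real.mul_self_sqrt hN0.le
  -- the line
  set ℓ : ℂ → Ew n := fun z => s₀ + z • a with hℓ
  have hℓc : Continuous ℓ := by fun_prop
  have hℓd : Differentiable ℂ ℓ := by fun_prop
  have hℓ0 : ℓ 0 = s₀ := by simp [hℓ]
  have hℓD : ℓ ⁻¹' D ∈ 𝓝 (0 : ℂ) := hℓc.continuousAt.preimage_mem_nhds (by
    rw [hℓ0]; exact hD.mem_nhds hs)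
  have hG : AnalyticAt ℂ (fun z => F (ℓ z)) 0 :=
    (hF.comp hℓd.differentiableOn fun z hz => hz).analyticAt hℓD
  have hP : AnalyticAt ℂ (fun z => h (ℓ z)) 0 :=
    (hh.comp hℓd.differentiableOn fun z hz => hz).analyticAt hℓD
  have hG' : HasDerivAt (fun z => F (ℓ z)) (μ • c) 0 := by
    have h1 : HasFDerivAt F (fderiv ℂ F s₀) (ℓ 0) := by
      rw [hℓ0]; exact (hF.differentiableAt (hD.mem_nhds hs)).hasFDerivAt
    have h2 : HasDerivAt ℓ a 0 := by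
      have := ((hasDerivAt_id (0 : ℂ)).smul_const a).const_add s₀
      simpa [hℓ] using this
    have h3 := h1.comp_hasDerivAt (0 : ℂ) h2
    rw [hμ] at h3
    exact h3
  -- component along `c`
  set F1 : ℂ → ℂ := fun z => innerSL ℂ c (F (ℓ z)) with hF1
  have hF1sum : ∀ z, F1 z = ∑ i, (((F s₀ i).re : ℝ) : ℂ) * F (ℓ z) i := by
    intro z
    simp only [hF1, innerSL_apply_apply, PiLp.inner_apply, RCLike.inner_apply]
    refine Finset.sum_congr rfl fun i _ => ?_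
    rw [hci, Complex.conj_ofReal, mul_comm]
  have hF1a : AnalyticAt ℂ F1 0 := (innerSL ℂ c).analyticAt _ |>.comp hG
  have hF1re : ∀ z, (F1 z).re = ∑ i, (F s₀ i).re * (F (ℓ z) i).re := by
    intro z
    rw [hF1sum, Complex.re_sum]
    refine Finset.sum_congr rfl fun i _ => ?_
    rw [Complex.re_ofReal_mul]
  have hF10 : (F1 0).re = N := by
    rw [hF1re, hℓ0, hNsum]
    refine Finset.sum_congr rfl fun i _ => ?_
    ring
  have hNC : ((N : ℝ) : ℂ) ≠ 0 := by exact_mod_cast hN0.ne'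
  have hcc : (innerSL ℂ c) c = ((N : ℝ) : ℂ) := by
    rw [innerSL_apply_apply, inner_self_eq_norm_sq_to_K]
    simp [hN]
  have hF1' : HasDerivAt F1 (μ * ((N : ℝ) : ℂ)) 0 := by
    have h1 := (innerSL ℂ c).hasFDerivAt.comp_hasDerivAt (0 : ℂ) hG'
    have h2 : (innerSL ℂ c) (μ • c) = μ * ((N : ℝ) : ℂ) := by
      rw [map_smul, hcc, smul_eq_mul]
    rw [h2] at h1
    exact h1
  set Gp : ℂ → Ew n := fun z => F (ℓ z) - (F1 z / ((N : ℝ) : ℂ)) • c with hGp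
  have hGpa : AnalyticAt ℂ Gp 0 := hG.sub ((hF1a.div_const).smul analyticAt_const)
  have hGp' : HasDerivAt Gp 0 0 := by
    have h1 := hG'.sub ((hF1'.div_const ((N : ℝ) : ℂ)).smul_const c)
    have h2 : μ • c - (μ * ((N : ℝ) : ℂ) / ((N : ℝ) : ℂ)) • c = 0 := by
      rw [mul_div_cancel_right₀ _ hNC, sub_self]
    rw [h2] at h1
    exact h1
  obtain ⟨C, hC, hGpC⟩ := GS.second_order (f := fun z => Gp z - Gp 0) (hGpa.sub analyticAt_const)
    (by simp) (by rw [(hGp'.sub_const (Gp 0)).deriv])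
  -- the real parts
  have hGpi : ∀ z i, (Gp z i).re = (F (ℓ z) i).re - (F1 z).re / N * (F s₀ i).re := by
    intro z i
    have h1 : Gp z i = F (ℓ z) i - (F1 z / ((N : ℝ) : ℂ)) * (((F s₀ i).re : ℝ) : ℂ) := by
      simp [hGp, hci]
    rw [h1, Complex.sub_re, Complex.re_mul_ofReal, Complex.div_ofReal_re]
  have hGp0 : ∀ i, (Gp 0 i).re = 0 := by
    intro i
    rw [hGpi, hℓ0, hF10, div_self hN0.ne', one_mul, sub_self]
  have horth : ∀ z, ∑ i, (F s₀ i).re * (Gp z i).re = 0 := by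
    intro z
    simp only [hGpi, mul_sub, Finset.sum_sub_distrib]
    rw [← hF1re]
    have : ∑ i, (F s₀ i).re * ((F1 z).re / N * (F s₀ i).re) =
        (F1 z).re / N * ∑ i, ((F s₀ i).re) ^ 2 := by
      rw [Finset.mul_sum]
      refine Finset.sum_congr rfl fun i _ => ?_
      ring
    rw [this, ← hNsum, div_mul_cancel₀ _ hN0.ne', sub_self]
  have hsq : ∀ z, ∑ i, ((F (ℓ z) i).re) ^ 2 = (F1 z).re ^ 2 / N + ∑ i, ((Gp z i).re) ^ 2 := by
    intro z
    have h1 : ∀ i, ((F (ℓ z) i).re) ^ 2 = ((F1 z).re / N) ^ 2 * ((F s₀ i).re) ^ 2 +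
        2 * ((F1 z).re / N) * ((F s₀ i).re * (Gp z i).re) + ((Gp z i).re) ^ 2 := by
      intro i
      have h2 : (F (ℓ z) i).re = (F1 z).re / N * (F s₀ i).re + (Gp z i).re := by
        rw [hGpi]; ring
      rw [h2]; ring
    simp only [h1, Finset.sum_add_distrib, ← Finset.mul_sum]
    rw [horth z, ← hNsum]
    field_simp
    ring
  have hGpb : ∀ z, ∑ i, ((Gp z i).re) ^ 2 ≤ ‖Gp z - Gp 0‖ ^ 2 := by
    intro z
    rw [EuclideanSpace.norm_sq_eq]
    refine Finset.sum_le_sum fun i _ => ?_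
    have h1 : (Gp z i).re = ((Gp z - Gp 0) i).re := by
      simp [hGp0]
    rw [h1, ← sq_abs]
    exact pow_le_pow_left₀ (abs_nonneg _) (Complex.abs_re_le_norm _) 2
  have hnear1 : ∀ᶠ z in 𝓝 (0 : ℂ), N / 2 ≤ (F1 z).re := by
    have h1 : Tendsto (fun z => (F1 z).re) (𝓝 0) (𝓝 N) := by
      have := (Complex.continuous_re.continuousAt (x := F1 0)).comp hF1a.continuousAt
      rw [ContinuousAt, Function.comp_apply, hF10] at this
      exact this
    exact h1.eventually (le_mem_nhds (by linarith))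
  have hnear2 : ∀ᶠ z in 𝓝 (0 : ℂ), -(K * nrm fun i => (F (ℓ z) i).re) + (h (ℓ z)).re +
      ε * ‖ℓ z‖ ^ 2 ≤ -(K * nrm fun i => (F s₀ i).re) + (h s₀).re + ε * ‖s₀‖ ^ 2 := by
    have h1 : Tendsto ℓ (𝓝 0) (𝓝 s₀) := by
      have := hℓc.continuousAt (x := (0 : ℂ))
      rw [ContinuousAt, hℓ0] at this
      exact this
    exact h1.eventually hmax
  have hnorm : ∀ z, ‖ℓ z‖ ^ 2 = ‖s₀‖ ^ 2 + 2 * (⟪s₀, a⟫_ℂ * z).re + ‖z‖ ^ 2 * ‖a‖ ^ 2 := by
    intro z
    have h1 := norm_add_sq (𝕜 := ℂ) s₀ (z • a)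
    rw [inner_smul_right, norm_smul, mul_pow] at h1
    simp only [hℓ]
    rw [h1]
    have : RCLike.re (z * ⟪s₀, a⟫_ℂ) = (⟪s₀, a⟫_ℂ * z).re := by rw [mul_comm]; rfl
    rw [this]
  have hnrm0 : (nrm fun i => (F s₀ i).re) = Real.sqrt N := by
    unfold nrm
    rw [← hNsum]
  -- the auxiliary holomorphic function
  set g : ℂ → ℂ := fun z => -((K / Real.sqrt N : ℝ) : ℂ) * F1 z + h (ℓ z) +
    ((2 * ε : ℝ) : ℂ) * (⟪s₀, a⟫_ℂ * z) with hg
  have hga : AnalyticAt ℂ g 0 := by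
    refine ((analyticAt_const.mul hF1a).add hP).add ?_
    exact analyticAt_const.mul (analyticAt_const.mul analyticAt_id)
  have hgre : ∀ z, (g z).re = -(K / Real.sqrt N) * (F1 z).re + (h (ℓ z)).re +
      2 * ε * (⟪s₀, a⟫_ℂ * z).re := by
    intro z
    simp only [hg]
    rw [Complex.add_re, Complex.add_re, ← Complex.ofReal_neg, Complex.re_ofReal_mul,
      Complex.re_ofReal_mul]
  have hg0 : (g 0).re = -(K * Real.sqrt N) + (h s₀).re := by
    rw [hgre, hF10, hℓ0, mul_zero, Complex.zero_re, mul_zero, add_zero]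
    have : K / Real.sqrt N * N = K * Real.sqrt N := by
      rw [div_mul_eq_mul_div, div_eq_iff hsN.ne', mul_assoc, hsN2]
    rw [neg_mul, this]
  set C' : ℝ := K * (C ^ 2 / Real.sqrt N) with hC'
  have hkey : ∀ᶠ z in 𝓝 (0 : ℂ), (g z).re ≤ (g 0).re + C' * (‖z‖ ^ 2) ^ 2 -
      ε * ‖a‖ ^ 2 * ‖z‖ ^ 2 := by
    filter_upwards [hnear1, hnear2, hGpC] with z h1 h2 h3
    rw [hnrm0, hnorm z] at h2
    have hA : 0 < (F1 z).re / Real.sqrt N := div_pos (by linarith) hsN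
    have h4 : (nrm fun i => (F (ℓ z) i).re) ≤
        (F1 z).re / Real.sqrt N + C ^ 2 / Real.sqrt N * (‖z‖ ^ 2) ^ 2 := by
      unfold nrm
      rw [hsq z]
      have h5 : ∑ i, ((Gp z i).re) ^ 2 ≤ C ^ 2 * (‖z‖ ^ 2) ^ 2 := by
        refine (hGpb z).trans ?_
        calc ‖Gp z - Gp 0‖ ^ 2 ≤ (C * ‖z‖ ^ 2) ^ 2 := pow_le_pow_left₀ (norm_nonneg _) h3 2
          _ = _ := by ring
      apply Real.sqrt_le_iff.2
      constructor
      · positivity
      · have h6 : (F1 z).re ^ 2 / N = ((F1 z).re / Real.sqrt N) ^ 2 := by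
          rw [div_pow, Real.sq_sqrt hN0.le]
        rw [h6]
        have h7 : Real.sqrt N / 2 ≤ (F1 z).re / Real.sqrt N := by
          rw [div_le_div_iff₀ (by norm_num) hsN, hsN2]
          linarith
        have h8 : C ^ 2 * (‖z‖ ^ 2) ^ 2 ≤
            2 * ((F1 z).re / Real.sqrt N) * (C ^ 2 / Real.sqrt N * (‖z‖ ^ 2) ^ 2) := by
          have h9 : C ^ 2 * (‖z‖ ^ 2) ^ 2 =
              2 * (Real.sqrt N / 2) * (C ^ 2 / Real.sqrt N * (‖z‖ ^ 2) ^ 2) := by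
            field_simp
          rw [h9]
          have h10 : 0 ≤ C ^ 2 / Real.sqrt N * (‖z‖ ^ 2) ^ 2 := by positivity
          refine mul_le_mul_of_nonneg_right ?_ h10
          linarith
        nlinarith [sq_nonneg (C ^ 2 / Real.sqrt N * (‖z‖ ^ 2) ^ 2)]
    have h5 := mul_le_mul_of_nonneg_left h4 hK
    rw [hgre, hg0, hC']
    have h6 : K / Real.sqrt N * (F1 z).re = K * ((F1 z).re / Real.sqrt N) := by ring
    have h7 : -(K / Real.sqrt N) * (F1 z).re = -(K * ((F1 z).re / Real.sqrt N)) := by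
      rw [neg_mul, h6]
    rw [h7]
    nlinarith [h2, h5]
  -- strict inequality near 0
  have hκ0 : 0 < ε * ‖a‖ ^ 2 := by
    have := norm_pos_iff.2 ha
    positivity
  have hstrict : ∀ᶠ z in 𝓝[≠] (0 : ℂ), ‖Complex.exp (g z)‖ < ‖Complex.exp (g 0)‖ := by
    have h1 : ∀ᶠ z in 𝓝 (0 : ℂ), C' * ‖z‖ ^ 2 < ε * ‖a‖ ^ 2 := by
      have : Tendsto (fun z : ℂ => C' * ‖z‖ ^ 2) (𝓝 0) (𝓝 (C' * ‖(0 : ℂ)‖ ^ 2)) := by
        apply Continuous.tendsto; fun_prop
      rw [norm_zero] at this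
      refine this.eventually (gt_mem_nhds ?_)
      simpa using hκ0
    filter_upwards [nhdsWithin_le_nhds hkey, nhdsWithin_le_nhds h1, self_mem_nhdsWithin]
      with z h2 h3 h4
    have hz : 0 < ‖z‖ := norm_pos_iff.2 h4
    rw [Complex.norm_exp, Complex.norm_exp, Real.exp_lt_exp]
    have h5 : C' * (‖z‖ ^ 2) ^ 2 - ε * ‖a‖ ^ 2 * ‖z‖ ^ 2 < 0 := by
      have : C' * (‖z‖ ^ 2) ^ 2 - ε * ‖a‖ ^ 2 * ‖z‖ ^ 2 =
        (C' * ‖z‖ ^ 2 - ε * ‖a‖ ^ 2) * ‖z‖ ^ 2 := by ring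
      rw [this]
      exact mul_neg_of_neg_of_pos (by linarith) (by positivity)
    linarith
  have hlm : IsLocalMax (fun z => ‖Complex.exp (g z)‖) 0 := by
    have h1 : ∀ᶠ z in 𝓝 (0 : ℂ), z ≠ 0 → ‖Complex.exp (g z)‖ < ‖Complex.exp (g 0)‖ := by
      rwa [eventually_nhdsWithin_iff] at hstrict
    filter_upwards [h1] with z hz
    by_cases h : z = 0
    · rw [h]
    · exact (hz h).le
  have hev := Complex.norm_eventually_eq_of_isLocalMax
    (hga.cexp.eventually_analyticAt.mono fun z hz => hz.differentiableAt) hlm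
  have h2 : ∀ᶠ z in 𝓝[≠] (0 : ℂ), False := by
    filter_upwards [hstrict, nhdsWithin_le_nhds hev] with z h3 h4
    change ‖Complex.exp (g z)‖ = ‖Complex.exp (g 0)‖ at h4
    rw [h4] at h3
    exact lt_irrefl _ h3
  exact (inferInstance : (𝓝[≠] (0 : ℂ)).NeBot).ne (by simpa using h2)

end Pool.Agent.Lib.MP_209724_lc.GE
end

section

namespace Pool.Agent.Lib.MP_209724_lc.GE

open MvPolynomial Filter Topology Metric Set

variable {n : ℕ}

/-- **Growth of a polynomial in `x` and `y`** on `‖x‖ ≤ M R`, `|log |y_i|| ≤ T R`.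

Proof. `‖eval (x, y) P‖ ≤ (∑ |coeff|) * (1 + ‖x‖ + ‖y‖) ^ D`, `D` the total degree (induction on `P`, or
termwise); `‖y‖ ≤ exp (T R)`, `1 + M R ≤ exp (M R)` (so `1 + ‖x‖ + ‖y‖ ≤ 2 exp ((M + T) R)`); so
`log ‖P‖ ≤ log A + D (log 2 + (M + T) R) ≤ N (T + 1) R` with `N` depending on `P`, `M` only, for `R ≥ 1`,
`T ≥ 0`, `A ≥ 1` (if the value of `P` is `0`, `Real.log 0 = 0` is fine). -/
theorem log_P_le (P : MvPolynomial (Fin n ⊕ Fin n) ℂ) {M : ℝ} (hM : 0 ≤ M) :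
    ∃ N : ℝ, 0 < N ∧ ∀ R : ℝ, 1 ≤ R → ∀ T : ℝ, 0 ≤ T → ∀ x y : Fin n → ℂ, ‖x‖ ≤ M * R →
      (∀ i, y i ≠ 0) → (∀ i, |Real.log ‖y i‖| ≤ T * R) →
      Real.log ‖eval (Sum.elim x y) P‖ ≤ N * (T + 1) * R := by
  classical
  set A : ℝ := 1 + ∑ m ∈ P.support, ‖coeff m P‖ with hA
  have hS0 : 0 ≤ ∑ m ∈ P.support, ‖coeff m P‖ := Finset.sum_nonneg fun _ _ => norm_nonneg _
  have hA1 : 1 ≤ A := by rw [hA]; linarith
  have hlA : 0 ≤ Real.log A := Real.log_nonneg hA1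
  set D : ℕ := P.totalDegree with hD
  refine ⟨Real.log A + D * (M + 1) + 1, by positivity, ?_⟩
  intro R hR T hT x y hx hy0 hy
  set E : ℝ := Real.exp ((M + T) * R) with hE
  have hR0 : 0 ≤ R := by linarith
  have hMR : 0 ≤ M * R := by positivity
  have hTR : 0 ≤ T * R := by positivity
  have hE1 : 1 ≤ E := by
    rw [hE]; apply Real.one_le_exp; positivity
  have hvar : ∀ i, ‖Sum.elim x y i‖ ≤ E := by
    rintro (i | i)
    · simp only [Sum.elim_inl]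
      have h1 : ‖x i‖ ≤ ‖x‖ := norm_le_pi_norm x i
      have h2 : M * R + 1 ≤ Real.exp (M * R) := Real.add_one_le_exp _
      have h3 : Real.exp (M * R) ≤ E := by
        rw [hE]; apply Real.exp_le_exp.mpr; nlinarith
      linarith
    · simp only [Sum.elim_inr]
      have h1 : 0 < ‖y i‖ := norm_pos_iff.mpr (hy0 i)
      have h2 : Real.log ‖y i‖ ≤ T * R := le_trans (le_abs_self _) (hy i)
      rw [← Real.exp_log h1, hE]
      apply Real.exp_le_exp.mpr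
      nlinarith
  have hbound : ‖eval (Sum.elim x y) P‖ ≤ A * E ^ D := by
    rw [eval_eq]
    calc ‖∑ d ∈ P.support, coeff d P * ∏ i ∈ d.support, Sum.elim x y i ^ d i‖
        ≤ ∑ d ∈ P.support, ‖coeff d P * ∏ i ∈ d.support, Sum.elim x y i ^ d i‖ := norm_sum_le _ _
      _ ≤ ∑ d ∈ P.support, ‖coeff d P‖ * E ^ D := by
          apply Finset.sum_le_sum
          intro d hd
          rw [norm_mul, norm_prod]
          apply mul_le_mul_of_nonneg_left _ (norm_nonneg _)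
          calc ∏ i ∈ d.support, ‖Sum.elim x y i ^ d i‖
              ≤ ∏ i ∈ d.support, E ^ d i := by
                apply Finset.prod_le_prod (fun _ _ => norm_nonneg _)
                intro i _
                rw [norm_pow]
                exact pow_le_pow_left₀ (norm_nonneg _) (hvar i) _
            _ = E ^ (∑ i ∈ d.support, d i) := Finset.prod_pow_eq_pow_sum _ _ _
            _ ≤ E ^ D := by
                apply pow_le_pow_right₀ hE1
                exact le_totalDegree hd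
      _ = (∑ m ∈ P.support, ‖coeff m P‖) * E ^ D := by rw [Finset.sum_mul]
      _ ≤ A * E ^ D := by
          apply mul_le_mul_of_nonneg_right _ (by positivity)
          rw [hA]; linarith
  rcases eq_or_ne (‖eval (Sum.elim x y) P‖) 0 with h0 | h0
  · rw [h0, Real.log_zero]; positivity
  have hpos : 0 < ‖eval (Sum.elim x y) P‖ := lt_of_le_of_ne (norm_nonneg _) (Ne.symm h0)
  have h1 : Real.log ‖eval (Sum.elim x y) P‖ ≤ Real.log (A * E ^ D) := Real.log_le_log hpos hbound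
  have h2 : Real.log (A * E ^ D) = Real.log A + D * ((M + T) * R) := by
    rw [Real.log_mul (by positivity) (by positivity), Real.log_pow, hE, Real.log_exp]
  rw [h2] at h1
  refine h1.trans ?_
  have hD0 : (0 : ℝ) ≤ D := Nat.cast_nonneg _
  have hT1 : 1 ≤ (T + 1) * R := by nlinarith
  have h3 : Real.log A ≤ Real.log A * ((T + 1) * R) := le_mul_of_one_le_right hlA hT1
  have h4 : (D : ℝ) * ((M + T) * R) ≤ D * (M + 1) * ((T + 1) * R) := by
    rw [mul_assoc]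
    apply mul_le_mul_of_nonneg_left _ hD0
    have : (M + T) ≤ (M + 1) * (T + 1) := by nlinarith
    calc (M + T) * R ≤ ((M + 1) * (T + 1)) * R := mul_le_mul_of_nonneg_right this hR0
      _ = (M + 1) * ((T + 1) * R) := by ring
  nlinarith

end Pool.Agent.Lib.MP_209724_lc.GE
end

section

namespace Pool.Agent.Lib.MP_209724_lc.GE

open MvPolynomial Filter Topology Metric Set
open GC (prj)
open GP (OnV OnW)
open GS (Ew)

variable {n d k : ℕ}

private theorem eval_diff' {E : Type} [NormedAddCommGroup E] [NormedSpace ℂ E] {ι : Type}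
    (y : E → ι → ℂ) {s : E} (hy : ∀ i, DifferentiableAt ℂ (fun t => y t i) s)
    (F : MvPolynomial ι ℂ) : DifferentiableAt ℂ (fun t => eval (y t) F) s := by
  induction F using MvPolynomial.induction_on with
  | C a => simp
  | add p q hp hq => simpa using hp.fun_add hq
  | mul_X p i hp => simpa using hp.fun_mul (hy i)

private theorem div_const' {E : Type} [NormedAddCommGroup E] [NormedSpace ℂ E] {f : E → ℂ}
    {s : E} (hf : DifferentiableAt ℂ f s) (c : ℂ) : DifferentiableAt ℂ (fun t => f t / c) s := by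
  simpa only [div_eq_mul_inv] using hf.mul_const c⁻¹

private theorem log_ratio_re {a b : ℂ} (hb : b ≠ 0) (h : a / b ∈ Complex.slitPlane) :
    (Complex.log (a / b) + (Real.log ‖b‖ : ℂ)).re = Real.log ‖a‖ := by
  have h1 : a / b ≠ 0 := Complex.slitPlane_ne_zero h
  have ha : a ≠ 0 := by
    rintro rfl
    simp at h1
  rw [Complex.add_re, Complex.log_re, Complex.ofReal_re, norm_div,
    Real.log_div (norm_ne_zero_iff.2 ha) (norm_ne_zero_iff.2 hb)]
  ring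

/-- **No local maximum on `V`.** `v₀ = (x₀, y₀)` a point of `V` with `y₀ ≠ 0`, `P(v₀) ≠ 0`, `G(x₀) ≠ 0` and
`u(v₀) ≠ 0`: the function `Psi + ε₃ |(Z x, y_B)|²` has no local maximum on `V` at `v₀`.

Proof. Let `e : Fin d ⊕ Fin k ≃ Fin n` (`finSumFinEquiv.trans (finCongr hdk)`), `S₀ = (Z x₀, y₀ ∘ B)` and
`δ, Φ, Ψ` the chart of `hC` at `v₀`. For `s : Ew n` let `σ s : Fin d ⊕ Fin k → ℂ`, `σ s j = s (e j)`, and
`s₀` the point with `σ s₀ = S₀`; `‖s‖² = ∑ |s_i|² = sq Z B (Φ (σ s), Ψ (σ s))` for `σ s ∈ ball S₀ δ` (the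
sum over `Fin n` is the sum over `Fin d ⊕ Fin k`, `Z Φ = s_inl`, `Ψ_B = s_inr`). On a small ball `D`
around `s₀` the numbers `Ψ_i(σ s) / y₀ i`, `G(Φ(σ s)) / G(x₀)`, `P(Φ, Ψ)(σ s) / P(v₀)` are in the ball of
radius `1 / 2` around `1` (continuity), where `Complex.log` is holomorphic
(`Complex.slitPlane`); put
`F_i(s) = Φ_i(σ s) - log(Ψ_i(σ s) / y₀ i) - (log ‖y₀ i‖ : ℝ)`,
`h(s) = Q(Φ(σ s)) + ε₁ (log(G(Φ(σ s)) / G(x₀)) + (log ‖G x₀‖ : ℝ)) + ε₂ (log(P(..) / P(v₀)) + (log ‖P(v₀)‖ : ℝ))`.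
They are holomorphic on `D`, `Re F_i(s) = uu (Φ(σ s), Ψ(σ s)) i` (`Complex.log_re`) and
`Re h(s) = Re Q + ε₁ log ‖G‖ + ε₂ log ‖P‖` at `(Φ(σ s), Ψ(σ s))`. If the claim were false, then, as
`s ↦ (Φ(σ s), Ψ(σ s))` is continuous at `s₀`, with value `v₀` at `s₀` and values in `V`,
`s₀` would be a local maximum of `- K |Re F| + Re h + ε₃ ‖s‖²`, in contradiction to `no_max`. -/
theorem no_max_V (hdk : d + k = n) {L : Type} [Field L] [Algebra ℂ L] (ξ υ : Fin n → L)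
    (Z : Fin d → Fin n → ℂ) (B : Fin k → Fin n) {P : MvPolynomial (Fin n ⊕ Fin n) ℂ}
    (hC : Charts ξ υ Z B P) {v₀ : (Fin n → ℂ) × (Fin n → ℂ)} (hv : v₀ ∈ Adm ξ υ P)
    (hu : uu v₀ ≠ 0) {Q G : (Fin n → ℂ) → ℂ} (hQ : Differentiable ℂ Q) (hG : Differentiable ℂ G)
    (hG0 : G v₀.1 ≠ 0) {K ε₁ ε₂ ε₃ : ℝ} (hK : 0 ≤ K) (hε₃ : 0 < ε₃) :
    ¬ ∀ᶠ v in 𝓝 v₀, OnV ξ υ v.1 v.2 →
      Psi K ε₁ ε₂ Q G P v + ε₃ * sq Z B v ≤ Psi K ε₁ ε₂ Q G P v₀ + ε₃ * sq Z B v₀ := by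
  intro hmax
  obtain ⟨x₀, y₀⟩ := v₀
  obtain ⟨hV, hy, hP⟩ := hv
  simp only at hV hy hP hG0
  obtain ⟨δ, Φ, Ψ, hδ, hΦ0, hΨ0, hΦ, hΨ, hch⟩ := hC x₀ y₀ hV hP
  set S₀ : Fin d ⊕ Fin k → ℂ := Sum.elim (prj Z x₀) fun j => y₀ (B j) with hS₀
  set e : Fin d ⊕ Fin k ≃ Fin n := finSumFinEquiv.trans (finCongr hdk) with he
  set σ : Ew n → (Fin d ⊕ Fin k → ℂ) := fun s j => s (e j) with hσ
  set s₀ : Ew n := WithLp.toLp 2 (fun i => S₀ (e.symm i)) with hs₀
  have hσ0 : σ s₀ = S₀ := by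
    funext j
    simp [hσ, hs₀]
  have hσd : Differentiable ℂ σ := by
    rw [differentiable_pi]
    intro j
    exact (EuclideanSpace.proj (e j) : Ew n →L[ℂ] ℂ).differentiable
  have hσc : Tendsto σ (𝓝 s₀) (𝓝 S₀) := by
    have h1 := hσd.continuous.tendsto s₀
    rwa [hσ0] at h1
  have hball : ∀ᶠ s in 𝓝 s₀, σ s ∈ ball S₀ δ := hσc.eventually (ball_mem_nhds S₀ hδ)
  -- differentiability of the chart
  have hΦd : ∀ s, σ s ∈ ball S₀ δ → DifferentiableAt ℂ (fun s => Φ (σ s)) s := by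
    intro s hs
    exact DifferentiableAt.comp s (hΦ.differentiableAt (isOpen_ball.mem_nhds hs)) (hσd s)
  have hΨd : ∀ s, σ s ∈ ball S₀ δ → DifferentiableAt ℂ (fun s => Ψ (σ s)) s := by
    intro s hs
    exact DifferentiableAt.comp s (hΨ.differentiableAt (isOpen_ball.mem_nhds hs)) (hσd s)
  have hΨi : ∀ s, σ s ∈ ball S₀ δ → ∀ i, DifferentiableAt ℂ (fun s => Ψ (σ s) i) s :=
    fun s hs i => differentiableAt_pi.1 (hΨd s hs) i
  have hΦi : ∀ s, σ s ∈ ball S₀ δ → ∀ i, DifferentiableAt ℂ (fun s => Φ (σ s) i) s :=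
    fun s hs i => differentiableAt_pi.1 (hΦd s hs) i
  have hGd : ∀ s, σ s ∈ ball S₀ δ → DifferentiableAt ℂ (fun s => G (Φ (σ s))) s := by
    intro s hs
    exact DifferentiableAt.comp s (hG (Φ (σ s))) (hΦd s hs)
  have hQd : ∀ s, σ s ∈ ball S₀ δ → DifferentiableAt ℂ (fun s => Q (Φ (σ s))) s := by
    intro s hs
    exact DifferentiableAt.comp s (hQ (Φ (σ s))) (hΦd s hs)
  have hPd : ∀ s, σ s ∈ ball S₀ δ →
      DifferentiableAt ℂ (fun s => eval (Sum.elim (Φ (σ s)) (Ψ (σ s))) P) s := by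
    intro s hs
    refine eval_diff' (fun s => Sum.elim (Φ (σ s)) (Ψ (σ s))) ?_ P
    rintro (i | i)
    · exact hΦi s hs i
    · exact hΨi s hs i
  have hs0b : σ s₀ ∈ ball S₀ δ := by
    rw [hσ0]
    exact mem_ball_self hδ
  have hone : Complex.slitPlane ∈ 𝓝 (1 : ℂ) :=
    Complex.isOpen_slitPlane.mem_nhds Complex.one_mem_slitPlane
  have hev1 : ∀ᶠ s in 𝓝 s₀, ∀ i, Ψ (σ s) i / y₀ i ∈ Complex.slitPlane := by
    rw [eventually_all]
    intro i
    have h1 : Tendsto (fun s => Ψ (σ s) i / y₀ i) (𝓝 s₀) (𝓝 1) := by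
      have h2 := ((hΨi s₀ hs0b i).continuousAt.tendsto).div_const (y₀ i)
      rwa [hσ0, hΨ0, div_self (hy i)] at h2
    exact h1.eventually hone
  have hev2 : ∀ᶠ s in 𝓝 s₀, G (Φ (σ s)) / G x₀ ∈ Complex.slitPlane := by
    have h1 : Tendsto (fun s => G (Φ (σ s)) / G x₀) (𝓝 s₀) (𝓝 1) := by
      have h2 := ((hGd s₀ hs0b).continuousAt.tendsto).div_const (G x₀)
      rwa [hσ0, hΦ0, div_self hG0] at h2
    exact h1.eventually hone
  have hev3 : ∀ᶠ s in 𝓝 s₀, eval (Sum.elim (Φ (σ s)) (Ψ (σ s))) P / eval (Sum.elim x₀ y₀) P ∈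
      Complex.slitPlane := by
    have h1 : Tendsto (fun s => eval (Sum.elim (Φ (σ s)) (Ψ (σ s))) P / eval (Sum.elim x₀ y₀) P)
        (𝓝 s₀) (𝓝 1) := by
      have h2 := ((hPd s₀ hs0b).continuousAt.tendsto).div_const (eval (Sum.elim x₀ y₀) P)
      rwa [hσ0, hΦ0, hΨ0, div_self hP] at h2
    exact h1.eventually hone
  obtain ⟨D, hDsub, hDo, hs₀D⟩ := _root_.mem_nhds_iff.1
    (hball.and (hev1.and (hev2.and hev3)))
  have hD1 : ∀ s ∈ D, σ s ∈ ball S₀ δ := fun s hs => (hDsub hs).1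
  have hD2 : ∀ s ∈ D, ∀ i, Ψ (σ s) i / y₀ i ∈ Complex.slitPlane := fun s hs => (hDsub hs).2.1
  have hD3 : ∀ s ∈ D, G (Φ (σ s)) / G x₀ ∈ Complex.slitPlane := fun s hs => (hDsub hs).2.2.1
  have hD4 : ∀ s ∈ D, eval (Sum.elim (Φ (σ s)) (Ψ (σ s))) P / eval (Sum.elim x₀ y₀) P ∈
      Complex.slitPlane := fun s hs => (hDsub hs).2.2.2
  set F : Ew n → Ew n := fun s => WithLp.toLp 2 (fun i => Φ (σ s) i -
    (Complex.log (Ψ (σ s) i / y₀ i) + (Real.log ‖y₀ i‖ : ℂ))) with hF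
  set h : Ew n → ℂ := fun s => Q (Φ (σ s)) +
    (ε₁ : ℂ) * (Complex.log (G (Φ (σ s)) / G x₀) + (Real.log ‖G x₀‖ : ℂ)) +
    (ε₂ : ℂ) * (Complex.log (eval (Sum.elim (Φ (σ s)) (Ψ (σ s))) P / eval (Sum.elim x₀ y₀) P) +
      (Real.log ‖eval (Sum.elim x₀ y₀) P‖ : ℂ)) with hh
  have hFd : DifferentiableOn ℂ F D := by
    rw [differentiableOn_euclidean]
    intro i s hs
    have h1 : DifferentiableAt ℂ (fun s => Ψ (σ s) i / y₀ i) s :=
      div_const' (hΨi s (hD1 s hs) i) (y₀ i)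
    have h2 := h1.clog (hD2 s hs i)
    exact ((hΦi s (hD1 s hs) i).fun_sub (h2.add_const _)).differentiableWithinAt
  have hhd : DifferentiableOn ℂ h D := by
    intro s hs
    have h1 := (div_const' (hGd s (hD1 s hs)) (G x₀)).clog (hD3 s hs)
    have h2 := (div_const' (hPd s (hD1 s hs)) (eval (Sum.elim x₀ y₀) P)).clog (hD4 s hs)
    exact (((hQd s (hD1 s hs)).fun_add ((h1.add_const _).const_mul (ε₁ : ℂ))).fun_add
      ((h2.add_const _).const_mul (ε₂ : ℂ))).differentiableWithinAt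
  have hFre : ∀ s ∈ D, (fun i => (F s i).re) = uu (Φ (σ s), Ψ (σ s)) := by
    intro s hs
    funext i
    change (Φ (σ s) i - (Complex.log (Ψ (σ s) i / y₀ i) + (Real.log ‖y₀ i‖ : ℂ))).re =
      (Φ (σ s) i).re - Real.log ‖Ψ (σ s) i‖
    rw [Complex.sub_re, log_ratio_re (hy i) (hD2 s hs i)]
  have hhre : ∀ s ∈ D, (h s).re = (Q (Φ (σ s))).re + ε₁ * Real.log ‖G (Φ (σ s))‖ +
      ε₂ * Real.log ‖eval (Sum.elim (Φ (σ s)) (Ψ (σ s))) P‖ := by
    intro s hs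
    change (Q (Φ (σ s)) +
      (ε₁ : ℂ) * (Complex.log (G (Φ (σ s)) / G x₀) + (Real.log ‖G x₀‖ : ℂ)) +
      (ε₂ : ℂ) * (Complex.log (eval (Sum.elim (Φ (σ s)) (Ψ (σ s))) P / eval (Sum.elim x₀ y₀) P) +
      (Real.log ‖eval (Sum.elim x₀ y₀) P‖ : ℂ))).re = _
    rw [Complex.add_re, Complex.add_re, Complex.re_ofReal_mul, Complex.re_ofReal_mul,
      log_ratio_re hG0 (hD3 s hs), log_ratio_re hP (hD4 s hs)]
  have hnorm : ∀ s ∈ D, ‖s‖ ^ 2 = sq Z B (Φ (σ s), Ψ (σ s)) := by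
    intro s hs
    obtain ⟨-, h2, h3⟩ := hch (σ s) (hD1 s hs)
    unfold sq
    rw [EuclideanSpace.norm_sq_eq, ← e.sum_comp, Fintype.sum_sum_type]
    simp only
    congr 1
    · refine Finset.sum_congr rfl fun j _ => ?_
      rw [h2 j]
    · refine Finset.sum_congr rfl fun j _ => ?_
      rw [h3 j]
  have hkey : ∀ s ∈ D, -(K * nrm fun i => (F s i).re) + (h s).re + ε₃ * ‖s‖ ^ 2 =
      Psi K ε₁ ε₂ Q G P (Φ (σ s), Ψ (σ s)) + ε₃ * sq Z B (Φ (σ s), Ψ (σ s)) := by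
    intro s hs
    rw [hFre s hs, hhre s hs, hnorm s hs]
    unfold Psi
    simp only
    ring
  have hval : (Φ (σ s₀), Ψ (σ s₀)) = (x₀, y₀) := by
    rw [hσ0, hΦ0, hΨ0]
  have hu' : (fun i => (F s₀ i).re) ≠ 0 := by
    rw [hFre s₀ hs₀D, hval]
    exact hu
  have htend : Tendsto (fun s => (Φ (σ s), Ψ (σ s))) (𝓝 s₀) (𝓝 (x₀, y₀)) := by
    rw [← hval]
    exact ((hΦd s₀ hs0b).continuousAt.tendsto).prodMk_nhds (hΨd s₀ hs0b).continuousAt.tendsto
  refine no_max hDo hFd hhd hs₀D hu' hK hε₃ ?_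
  filter_upwards [hDo.mem_nhds hs₀D, htend.eventually hmax] with s hsD hs
  rw [hkey s hsD, hkey s₀ hs₀D, hval]
  exact hs (hch (σ s) (hD1 s hsD)).1

end Pool.Agent.Lib.MP_209724_lc.GE
end

section

namespace Pool.Agent.Lib.MP_209724_lc.GE

open MvPolynomial Filter Topology Metric Set
open GC (prj)
open GP (OnV OnW)
open GS (Ew)

variable {n d k : ℕ}

/-- Evaluation at a pair of points is continuous. -/
private theorem cont_eval (f : MvPolynomial (Fin n ⊕ Fin n) ℂ) :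
    Continuous fun v : (Fin n → ℂ) × (Fin n → ℂ) => eval (Sum.elim v.1 v.2) f := by
  refine (MvPolynomial.continuous_eval f).comp ?_
  refine continuous_pi fun i => ?_
  rcases i with i | i
  · exact (continuous_apply i).comp continuous_fst
  · exact (continuous_apply i).comp continuous_snd

private theorem closed_onV {L : Type} [Field L] [Algebra ℂ L] (ξ υ : Fin n → L) :
    IsClosed {v : (Fin n → ℂ) × (Fin n → ℂ) | OnV ξ υ v.1 v.2} := by
  have h1 : {v : (Fin n → ℂ) × (Fin n → ℂ) | OnV ξ υ v.1 v.2} =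
      ⋂ f : MvPolynomial (Fin n ⊕ Fin n) ℂ, ⋂ _ : aeval (Sum.elim ξ υ) f = 0,
        {v | eval (Sum.elim v.1 v.2) f = 0} := by
    ext v
    simp only [mem_ofPred_eq, mem_iInter]
    rfl
  rw [h1]
  exact isClosed_iInter fun f => isClosed_iInter fun _ =>
    isClosed_eq (cont_eval f) continuous_const

private theorem cont_sq (Z : Fin d → Fin n → ℂ) (B : Fin k → Fin n) :
    Continuous (sq Z B) := by
  unfold sq
  refine Continuous.add ?_ ?_
  · refine continuous_finsetSum _ fun j _ => ?_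
    unfold prj
    fun_prop
  · refine continuous_finsetSum _ fun j _ => ?_
    fun_prop

private theorem cont_nrm : Continuous (nrm : (Fin n → ℝ) → ℝ) := by
  unfold nrm
  fun_prop

private theorem contAt_uu {v : (Fin n → ℂ) × (Fin n → ℂ)} (h : ∀ i, v.2 i ≠ 0) :
    ContinuousAt (uu : (Fin n → ℂ) × (Fin n → ℂ) → Fin n → ℝ) v := by
  refine continuousAt_pi.2 fun i => ?_
  unfold uu
  refine ContinuousAt.sub (by fun_prop) ?_
  refine ContinuousAt.log (by fun_prop) ?_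
  exact norm_ne_zero_iff.2 (h i)

/-- **The maximum over a compact part of `V`.** The part of `V` with `‖x - c‖ ≤ ρ`,
`|log |y_i|| ≤ T`; `hT`: on `|log |y_i|| = T` the function is smaller than at `v₂`. Then there is a point
`v` with `Psi v ≥ Psi v₂ - η` and `‖x - c‖ = ρ` or `u(v) = 0`.

Proof. Let `D` be the set of `v = (x, y)` with `OnV ξ υ x y`, `‖x - c‖ ≤ ρ`, `exp(-T) ≤ ‖y i‖ ≤ exp T` for all
`i` (equivalently `y i ≠ 0` and `|log ‖y i‖| ≤ T`). It is compact (closed: `OnV` is an intersection of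
zero sets of polynomials; bounded), `v₂ ∈ D`. Let `M ≥ 1` be a bound of `sq Z B` on `D` and
`ε₃ = η / (2 M)`. The function
`E v = exp(- K nrm (uu v) + (Q v.1).re + ε₃ sq Z B v) * ‖G v.1‖ ^ ε₁ * ‖eval v P‖ ^ ε₂` (real powers with positive
exponents: continuous, `0 ^ ε = 0`) is continuous on `D` (`uu` is continuous where `y ≠ 0`); let `v` be a
point of `D` where it is maximal. `E v ≥ E v₂ > 0`, so `G v.1 ≠ 0`, `P(v) ≠ 0`, `v ∈ Adm`. For points with
`G, P ≠ 0`, `log E = Psi + ε₃ sq`. So `Psi v ≥ Psi v₂ + ε₃ sq v₂ - ε₃ sq v ≥ Psi v₂ - η`. By `hT`,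
`|log ‖v.2 i‖| < T` for all `i`. Suppose `‖v.1 - c‖ < ρ` and `uu v ≠ 0`. All points `v'` of `V` close to `v` are in
`D`, with `G, P ≠ 0`, so `Psi v' + ε₃ sq v' = log E v' ≤ log E v = Psi v + ε₃ sq v`: a contradiction to
`no_max_V`. -/
theorem max_V (hdk : d + k = n) {L : Type} [Field L] [Algebra ℂ L] (ξ υ : Fin n → L)
    (Z : Fin d → Fin n → ℂ) (B : Fin k → Fin n) {P : MvPolynomial (Fin n ⊕ Fin n) ℂ}
    (hC : Charts ξ υ Z B P) {c : Fin n → ℂ} {ρ T : ℝ} {Q G : (Fin n → ℂ) → ℂ}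
    (hQ : Differentiable ℂ Q) (hG : Differentiable ℂ G) {K ε₁ ε₂ : ℝ} (hK : 0 < K) (hε₁ : 0 < ε₁)
    (hε₂ : 0 < ε₂) {v₂ : (Fin n → ℂ) × (Fin n → ℂ)} (hv₂ : v₂ ∈ Adm ξ υ P)
    (h2 : ‖v₂.1 - c‖ ≤ ρ) (hG2 : G v₂.1 ≠ 0) (hT2 : ∀ i, |Real.log ‖v₂.2 i‖| ≤ T) {η : ℝ}
    (hη : 0 < η)
    (hT : ∀ v ∈ Adm ξ υ P, ‖v.1 - c‖ ≤ ρ → G v.1 ≠ 0 → (∀ i, |Real.log ‖v.2 i‖| ≤ T) →
      (∃ i, |Real.log ‖v.2 i‖| = T) → Psi K ε₁ ε₂ Q G P v < Psi K ε₁ ε₂ Q G P v₂ - η) :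
    ∃ v ∈ Adm ξ υ P, ‖v.1 - c‖ ≤ ρ ∧ (∀ i, |Real.log ‖v.2 i‖| ≤ T) ∧ G v.1 ≠ 0 ∧
      (‖v.1 - c‖ = ρ ∨ uu v = 0) ∧ Psi K ε₁ ε₂ Q G P v₂ - η ≤ Psi K ε₁ ε₂ Q G P v := by
  classical
  -- the compact set
  set D : Set ((Fin n → ℂ) × (Fin n → ℂ)) := {v | OnV ξ υ v.1 v.2 ∧ ‖v.1 - c‖ ≤ ρ ∧
    ∀ i, Real.exp (-T) ≤ ‖v.2 i‖ ∧ ‖v.2 i‖ ≤ Real.exp T} with hD
  have hlog : ∀ z : ℂ, z ≠ 0 → |Real.log ‖z‖| ≤ T → Real.exp (-T) ≤ ‖z‖ ∧ ‖z‖ ≤ Real.exp T := by
    intro z hz h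
    have hz' : 0 < ‖z‖ := norm_pos_iff.2 hz
    rw [abs_le] at h
    exact ⟨(Real.le_log_iff_exp_le hz').1 h.1, (Real.log_le_iff_le_exp hz').1 h.2⟩
  have hlog' : ∀ z : ℂ, Real.exp (-T) ≤ ‖z‖ → ‖z‖ ≤ Real.exp T → z ≠ 0 ∧ |Real.log ‖z‖| ≤ T := by
    intro z h h'
    have hz' : 0 < ‖z‖ := (Real.exp_pos _).trans_le h
    exact ⟨norm_pos_iff.1 hz', abs_le.2 ⟨(Real.le_log_iff_exp_le hz').2 h,
      (Real.log_le_iff_le_exp hz').2 h'⟩⟩
  have hDcl : IsClosed D := by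
    have h1 : D = {v | OnV ξ υ v.1 v.2} ∩ ({v | ‖v.1 - c‖ ≤ ρ} ∩
        ⋂ i, {v : (Fin n → ℂ) × (Fin n → ℂ) | Real.exp (-T) ≤ ‖v.2 i‖ ∧ ‖v.2 i‖ ≤ Real.exp T}) := by
      ext v
      simp only [hD, mem_inter_iff, mem_ofPred_eq, mem_iInter]
    rw [h1]
    refine (closed_onV ξ υ).inter (IsClosed.inter ?_ (isClosed_iInter fun i => ?_))
    · exact isClosed_le (by fun_prop) continuous_const
    · have h3 : Continuous fun v : (Fin n → ℂ) × (Fin n → ℂ) => ‖v.2 i‖ := by fun_prop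
      exact (isClosed_le continuous_const h3).inter (isClosed_le h3 continuous_const)
  have hDcp : IsCompact D := by
    refine IsCompact.of_isClosed_subset
      ((isCompact_closedBall c ρ).prod (isCompact_closedBall (0 : Fin n → ℂ) (Real.exp T))) hDcl ?_
    rintro v ⟨-, h1, h2⟩
    refine ⟨?_, ?_⟩
    · rw [mem_closedBall, dist_eq_norm]
      exact h1
    · rw [mem_closedBall, dist_zero_right]
      exact (pi_norm_le_iff_of_nonneg (Real.exp_pos T).le).2 fun i => (h2 i).2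
  have hv2D : v₂ ∈ D := ⟨hv₂.1, h2, fun i => hlog _ (hv₂.2.1 i) (hT2 i)⟩
  -- the constant
  obtain ⟨M, hM⟩ := hDcp.exists_bound_of_continuousOn (cont_sq Z B).continuousOn
  have hsq0 : ∀ v, 0 ≤ sq Z B v := by
    intro v
    unfold sq
    positivity
  set M' : ℝ := max M 1 with hM'
  have hM1 : 1 ≤ M' := le_max_right _ _
  have hMs : ∀ v ∈ D, sq Z B v ≤ M' := by
    intro v hv
    have h1 := hM v hv
    rw [Real.norm_eq_abs] at h1
    exact (le_abs_self _).trans (h1.trans (le_max_left _ _))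
  set ε₃ : ℝ := η / (2 * M') with hε₃
  have hε₃0 : 0 < ε₃ := by positivity
  have hεs : ∀ v ∈ D, ε₃ * sq Z B v ≤ η := by
    intro v hv
    have h1 : ε₃ * sq Z B v ≤ ε₃ * M' := mul_le_mul_of_nonneg_left (hMs v hv) hε₃0.le
    have h3 : ε₃ * M' = η / 2 := by
      rw [hε₃]
      field_simp
    linarith
  -- the function
  set E : (Fin n → ℂ) × (Fin n → ℂ) → ℝ := fun v =>
    Real.exp (-(K * nrm (uu v)) + (Q v.1).re + ε₃ * sq Z B v) * ‖G v.1‖ ^ ε₁ *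
      ‖eval (Sum.elim v.1 v.2) P‖ ^ ε₂ with hE
  have hEc : ContinuousOn E D := by
    intro v hv
    refine ContinuousAt.continuousWithinAt ?_
    have h1 : ∀ i, v.2 i ≠ 0 := fun i => (hlog' _ (hv.2.2 i).1 (hv.2.2 i).2).1
    have h3 : ContinuousAt (fun v : (Fin n → ℂ) × (Fin n → ℂ) => nrm (uu v)) v :=
      cont_nrm.continuousAt.comp (contAt_uu h1)
    have h4 : Continuous fun v : (Fin n → ℂ) × (Fin n → ℂ) => (Q v.1).re :=
      Complex.continuous_re.comp (hQ.continuous.comp continuous_fst)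
    have h5 : Continuous fun v : (Fin n → ℂ) × (Fin n → ℂ) => ‖G v.1‖ ^ ε₁ :=
      (hG.continuous.comp continuous_fst).norm.rpow_const fun _ => Or.inr hε₁.le
    have h6 : Continuous fun v : (Fin n → ℂ) × (Fin n → ℂ) =>
        ‖eval (Sum.elim v.1 v.2) P‖ ^ ε₂ := (cont_eval P).norm.rpow_const fun _ => Or.inr hε₂.le
    refine ContinuousAt.mul (ContinuousAt.mul ?_ h5.continuousAt) h6.continuousAt
    refine ContinuousAt.rexp ?_
    refine ContinuousAt.add (ContinuousAt.add (ContinuousAt.neg ?_) h4.continuousAt) ?_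
    · exact continuousAt_const.mul h3
    · exact continuousAt_const.mul (cont_sq Z B).continuousAt
  have hlogE : ∀ v : (Fin n → ℂ) × (Fin n → ℂ), G v.1 ≠ 0 → eval (Sum.elim v.1 v.2) P ≠ 0 →
      0 < E v ∧ Real.log (E v) = Psi K ε₁ ε₂ Q G P v + ε₃ * sq Z B v := by
    intro v h1 h3
    have h4 : 0 < ‖G v.1‖ := norm_pos_iff.2 h1
    have h5 : 0 < ‖eval (Sum.elim v.1 v.2) P‖ := norm_pos_iff.2 h3
    have h6 : 0 < ‖G v.1‖ ^ ε₁ := Real.rpow_pos_of_pos h4 _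
    have h7 : 0 < ‖eval (Sum.elim v.1 v.2) P‖ ^ ε₂ := Real.rpow_pos_of_pos h5 _
    refine ⟨by positivity, ?_⟩
    rw [hE]
    simp only
    rw [Real.log_mul (by positivity) h7.ne', Real.log_mul (Real.exp_pos _).ne' h6.ne',
      Real.log_exp, Real.log_rpow h4, Real.log_rpow h5]
    unfold Psi
    ring
  -- the maximum
  obtain ⟨v, hvD, hmax⟩ := hDcp.exists_isMaxOn ⟨v₂, hv2D⟩ hEc
  have hle : ∀ w ∈ D, E w ≤ E v := fun w hw => hmax hw
  have hE2 := hlogE v₂ hG2 hv₂.2.2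
  have hEv : 0 < E v := hE2.1.trans_le (hle v₂ hv2D)
  have hGv : G v.1 ≠ 0 := by
    intro h
    rw [hE] at hEv
    simp only [h, norm_zero, Real.zero_rpow hε₁.ne', mul_zero, zero_mul, lt_irrefl] at hEv
  have hPv : eval (Sum.elim v.1 v.2) P ≠ 0 := by
    intro h
    rw [hE] at hEv
    simp only [h, norm_zero, Real.zero_rpow hε₂.ne', mul_zero, lt_irrefl] at hEv
  have hy : ∀ i, v.2 i ≠ 0 ∧ |Real.log ‖v.2 i‖| ≤ T := fun i =>
    hlog' _ (hvD.2.2 i).1 (hvD.2.2 i).2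
  have hvA : v ∈ Adm ξ υ P := ⟨hvD.1, fun i => (hy i).1, hPv⟩
  have hEv' := hlogE v hGv hPv
  have hPsi : Psi K ε₁ ε₂ Q G P v₂ - η ≤ Psi K ε₁ ε₂ Q G P v := by
    have h1 := Real.log_le_log hE2.1 (hle v₂ hv2D)
    rw [hE2.2, hEv'.2] at h1
    have h3 := hεs v hvD
    have h4 : 0 ≤ ε₃ * sq Z B v₂ := mul_nonneg hε₃0.le (hsq0 _)
    linarith
  refine ⟨v, hvA, hvD.2.1, fun i => (hy i).2, hGv, ?_, hPsi⟩
  by_contra hcon
  push Not at hcon
  obtain ⟨hρ, hu⟩ := hcon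
  have hρ' : ‖v.1 - c‖ < ρ := lt_of_le_of_ne hvD.2.1 hρ
  have hlt : ∀ i, |Real.log ‖v.2 i‖| < T := by
    intro i
    refine lt_of_le_of_ne (hy i).2 fun h => ?_
    have h1 := hT v hvA hvD.2.1 hGv (fun i => (hy i).2) ⟨i, h⟩
    linarith
  refine no_max_V hdk ξ υ Z B hC hvA hu hQ hG hGv hK.le hε₃0 (ε₁ := ε₁) (ε₂ := ε₂) ?_
  have e1 : ∀ᶠ w : (Fin n → ℂ) × (Fin n → ℂ) in 𝓝 v, ‖w.1 - c‖ < ρ :=
    (Continuous.continuousAt (f := fun w : (Fin n → ℂ) × (Fin n → ℂ) => ‖w.1 - c‖)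
      (by fun_prop)).eventually_lt continuousAt_const hρ'
  have e2 : ∀ᶠ w : (Fin n → ℂ) × (Fin n → ℂ) in 𝓝 v, ∀ i, w.2 i ≠ 0 ∧ |Real.log ‖w.2 i‖| < T := by
    rw [eventually_all]
    intro i
    refine Filter.Eventually.and ?_ ?_
    · exact (Continuous.continuousAt (f := fun w : (Fin n → ℂ) × (Fin n → ℂ) => w.2 i)
        (by fun_prop)).eventually_ne (hy i).1
    · refine ContinuousAt.eventually_lt (ContinuousAt.abs (ContinuousAt.log ?_ ?_))
        continuousAt_const (hlt i)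
      · fun_prop
      · exact norm_ne_zero_iff.2 (hy i).1
  have e3 : ∀ᶠ w : (Fin n → ℂ) × (Fin n → ℂ) in 𝓝 v, G w.1 ≠ 0 :=
    (hG.continuous.comp continuous_fst).continuousAt.eventually_ne hGv
  have e4 : ∀ᶠ w : (Fin n → ℂ) × (Fin n → ℂ) in 𝓝 v, eval (Sum.elim w.1 w.2) P ≠ 0 :=
    (cont_eval P).continuousAt.eventually_ne hPv
  filter_upwards [e1, e2, e3, e4] with w h1 h3 h4 h5 h6
  have hwD : w ∈ D := ⟨h6, h1.le, fun i => hlog _ (h3 i).1 (h3 i).2.le⟩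
  have h7 := hlogE w h4 h5
  have h8 := Real.log_le_log h7.1 (hle w hwD)
  rwa [h7.2, hEv'.2] at h8

end Pool.Agent.Lib.MP_209724_lc.GE
end

section

namespace Pool.Agent.Lib.MP_209724_lc.GE

open MvPolynomial Filter Topology Metric Set
open GC (prj)
open GP (OnV OnW)
open GS (Ew)

variable {n d k : ℕ}

private theorem mmp_eval (c : MvPolynomial (Fin n) ℂ) :
    Differentiable ℂ fun z : Fin n → ℂ => eval z c := by
  induction c using MvPolynomial.induction_on with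
  | C a => simp
  | add p q hp hq =>
    simp only [map_add]
    exact hp.add hq
  | mul_X p i hp =>
    simp only [map_mul, eval_X]
    exact hp.mul (by fun_prop)

private theorem mmp_nrm_nonneg (b : Fin n → ℝ) : 0 ≤ nrm b := Real.sqrt_nonneg _

private theorem mmp_nrm_smul {a : ℝ} (ha : 0 ≤ a) (b : Fin n → ℝ) : nrm (a • b) = a * nrm b := by
  unfold nrm
  have h1 : ∑ i, (a • b) i ^ 2 = a ^ 2 * ∑ i, b i ^ 2 := by
    rw [Finset.mul_sum]
    refine Finset.sum_congr rfl fun i _ => ?_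
    rw [Pi.smul_apply, smul_eq_mul, mul_pow]
  rw [h1, Real.sqrt_mul (sq_nonneg a), Real.sqrt_sq ha]

private theorem mmp_abs_le_nrm (b : Fin n → ℝ) (i : Fin n) : |b i| ≤ nrm b := by
  rw [nrm, ← Real.sqrt_sq_eq_abs]
  exact Real.sqrt_le_sqrt (Finset.single_le_sum (f := fun i => b i ^ 2)
    (fun _ _ => sq_nonneg _) (Finset.mem_univ i))

private theorem mmp_continuous_nrm : Continuous (nrm : (Fin n → ℝ) → ℝ) := by
  unfold nrm
  exact Real.continuous_sqrt.comp (by fun_prop)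

private theorem mmp_scale {R : ℝ} (hR : 0 < R) (x z : Fin n → ℂ) :
    ‖R⁻¹ • x - z‖ = R⁻¹ * ‖x - R • z‖ := by
  have h1 : R⁻¹ • x - z = R⁻¹ • (x - R • z) := by
    rw [smul_sub, inv_smul_smul₀ hR.ne']
  rw [h1, norm_smul, Real.norm_eq_abs, abs_of_pos (inv_pos.2 hR)]

private theorem mmp_psi {R : ℝ} (hR : 0 < R) (K ε δ : ℝ) (Q G : MvPolynomial (Fin n) ℂ)
    (P : MvPolynomial (Fin n ⊕ Fin n) ℂ) (v : (Fin n → ℂ) × (Fin n → ℂ)) :
    Psi (K / R) ε (δ / R) (fun x => eval (R⁻¹ • x) Q) (fun x => eval (R⁻¹ • x) G) P v =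
      -(K * nrm (R⁻¹ • uu v)) + (eval (R⁻¹ • v.1) Q).re + ε * Real.log ‖eval (R⁻¹ • v.1) G‖ +
        δ / R * Real.log ‖eval (Sum.elim v.1 v.2) P‖ := by
  unfold Psi
  rw [mmp_nrm_smul (inv_pos.2 hR).le]
  have h1 : K / R * nrm (uu v) = K * (R⁻¹ * nrm (uu v)) := by
    rw [div_eq_mul_inv]; ring
  rw [h1]

private theorem mmp_re_le {R M : ℝ} {x : Fin n → ℂ} (h : ‖x‖ ≤ M * R) (i : Fin n) :
    |(x i).re| ≤ M * R :=
  ((Complex.abs_re_le_norm _).trans (norm_le_pi_norm x i)).trans h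

/-- One scale. -/
private theorem mmp_one (hdk : d + k = n) {L : Type} [Field L] [Algebra ℂ L] (ξ υ : Fin n → L)
    (Z : Fin d → Fin n → ℂ) (B : Fin k → Fin n) {P : MvPolynomial (Fin n ⊕ Fin n) ℂ}
    (hC : Charts ξ υ Z B P) {G : MvPolynomial (Fin n) ℂ} {K ε : ℝ}
    (hK : 0 < K) (hε : 0 < ε) (Q : MvPolynomial (Fin n) ℂ) (z₁ : Fin n → ℂ) {ρ M : ℝ}
    (hM : M = ‖z₁‖ + ρ) (hρ : 0 < ρ) {q g N T δ η S : ℝ} (hη : 0 < η) (hT1 : 1 ≤ T)
    (hq : ∀ z, ‖z - z₁‖ ≤ ρ → |(eval z Q).re| ≤ q)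
    (hg : ∀ z, ‖z - z₁‖ ≤ ρ → ε * Real.log ‖eval z G‖ ≤ g)
    (hNp : 0 < N) (hN : ∀ R : ℝ, 1 ≤ R → ∀ T : ℝ, 0 ≤ T → ∀ x y : Fin n → ℂ, ‖x‖ ≤ M * R →
      (∀ i, y i ≠ 0) → (∀ i, |Real.log ‖y i‖| ≤ T * R) →
      Real.log ‖eval (Sum.elim x y) P‖ ≤ N * (T + 1) * R)
    (hδ : 0 < δ) (hδ1 : δ * N ≤ K / 2) (hδ2 : δ * N * (T + 1) ≤ η / 8)
    (hT2 : -(K / 2 * T) + K * (M + 1) + q + g < S - η - 1) {R : ℝ} (hR : 1 ≤ R)
    {v₂ : (Fin n → ℂ) × (Fin n → ℂ)} (hv₂ : v₂ ∈ Adm ξ υ P) (h2 : ‖R⁻¹ • v₂.1 - z₁‖ ≤ ρ)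
    (hG₂ : eval (R⁻¹ • v₂.1) G ≠ 0) (hy₂ : ∀ i, |Real.log ‖v₂.2 i‖| ≤ T * R)
    (hlow : S - η / 4 ≤ -(K * nrm (R⁻¹ • uu v₂)) + (eval (R⁻¹ • v₂.1) Q).re +
      ε * Real.log ‖eval (R⁻¹ • v₂.1) G‖ + δ / R * Real.log ‖eval (Sum.elim v₂.1 v₂.2) P‖) :
    ∃ v ∈ Adm ξ υ P, ‖R⁻¹ • v.1 - z₁‖ ≤ ρ ∧ ‖R⁻¹ • uu v‖ ≤ T + M ∧
      (‖R⁻¹ • v.1 - z₁‖ = ρ ∨ uu v = 0) ∧
      Real.exp ((S - q - η / 2) / ε) ≤ ‖eval (R⁻¹ • v.1) G‖ ∧
      -((-S + η / 2 + q + g) / δ * R) ≤ Real.log ‖eval (Sum.elim v.1 v.2) P‖ ∧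
      S - η / 2 ≤ -(K * nrm (R⁻¹ • uu v)) + (eval (R⁻¹ • v.1) Q).re +
        ε * Real.log ‖eval (R⁻¹ • v.1) G‖ := by
  have hR0 : 0 < R := lt_of_lt_of_le one_pos hR
  have hRi : 0 < R⁻¹ := inv_pos.2 hR0
  have hM0 : 0 ≤ M := by rw [hM]; positivity
  have hball : ∀ x : Fin n → ℂ, ‖x - R • z₁‖ ≤ R * ρ ↔ ‖R⁻¹ • x - z₁‖ ≤ ρ := by
    intro x
    rw [mmp_scale hR0, inv_mul_le_iff₀ hR0]
  have hxM : ∀ x : Fin n → ℂ, ‖x - R • z₁‖ ≤ R * ρ → ‖x‖ ≤ M * R := by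
    intro x hx
    have h1 : ‖x‖ ≤ ‖x - R • z₁‖ + ‖R • z₁‖ := by
      have := norm_add_le (x - R • z₁) (R • z₁)
      rwa [sub_add_cancel] at this
    have h3 : ‖R • z₁‖ = R * ‖z₁‖ := by rw [norm_smul, Real.norm_eq_abs, abs_of_pos hR0]
    rw [h3] at h1
    rw [hM]
    nlinarith
  have hdR : ∀ F : MvPolynomial (Fin n) ℂ,
      Differentiable ℂ fun x : Fin n → ℂ => eval (R⁻¹ • x) F := by
    intro F
    have h1 : Differentiable ℂ fun x : Fin n → ℂ => R⁻¹ • x := by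
      have h2 : (fun x : Fin n → ℂ => R⁻¹ • x) = fun x => ((R⁻¹ : ℝ) : ℂ) • x := by
        funext x
        ext i
        simp
      rw [h2]
      exact (differentiable_id (𝕜 := ℂ) (E := Fin n → ℂ)).const_smul ((R⁻¹ : ℝ) : ℂ)
    exact (mmp_eval F).comp h1
  have hlogP : ∀ v ∈ Adm ξ υ P, ‖v.1 - R • z₁‖ ≤ R * ρ → (∀ i, |Real.log ‖v.2 i‖| ≤ T * R) →
      δ / R * Real.log ‖eval (Sum.elim v.1 v.2) P‖ ≤ δ * N * (T + 1) := by
    intro v hv hvx hvy
    have h1 := hN R hR T (by linarith) v.1 v.2 (hxM _ hvx) hv.2.1 hvy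
    have h3 : δ / R * Real.log ‖eval (Sum.elim v.1 v.2) P‖ ≤ δ / R * (N * (T + 1) * R) :=
      mul_le_mul_of_nonneg_left h1 (by positivity)
    have h4 : δ / R * (N * (T + 1) * R) = δ * N * (T + 1) := by
      field_simp
    rwa [h4] at h3
  have huu : ∀ v : (Fin n → ℂ) × (Fin n → ℂ), ‖v.1 - R • z₁‖ ≤ R * ρ →
      (∀ i, |Real.log ‖v.2 i‖| ≤ T * R) → ‖R⁻¹ • uu v‖ ≤ T + M := by
    intro v hvx hvy
    rw [pi_norm_le_iff_of_nonneg (by linarith)]
    intro i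
    rw [Pi.smul_apply, smul_eq_mul, Real.norm_eq_abs, abs_mul, abs_of_pos hRi,
      inv_mul_le_iff₀ hR0]
    have h1 := mmp_re_le (hxM _ hvx) i
    have h3 : |uu v i| ≤ |(v.1 i).re| + |Real.log ‖v.2 i‖| := abs_sub _ _
    have h4 := hvy i
    nlinarith
  obtain ⟨v, hv, hvx, hvy, hvG, hor, hPsi⟩ := max_V (c := R • z₁) (ρ := R * ρ) (T := T * R) hdk ξ υ
    Z B hC (hdR Q) (hdR G) (div_pos hK hR0) hε (div_pos hδ hR0) hv₂ ((hball _).2 h2) hG₂ hy₂
    (η := η / 8) (by linarith) (by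
      intro v hv hvx hvG hvy hvT
      obtain ⟨i, hi⟩ := hvT
      rw [mmp_psi hR0, mmp_psi hR0]
      have h1 := hq _ ((hball _).1 hvx)
      have h3 := hg _ ((hball _).1 hvx)
      have h4 := hlogP v hv hvx hvy
      have h5 : T - M ≤ nrm (R⁻¹ • uu v) := by
        refine le_trans ?_ (mmp_abs_le_nrm _ i)
        rw [Pi.smul_apply, smul_eq_mul, abs_mul, abs_of_pos hRi, le_inv_mul_iff₀ hR0]
        have h6 := mmp_re_le (hxM _ hvx) i
        have h7 : |Real.log ‖v.2 i‖| ≤ |(v.1 i).re| + |uu v i| := by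
          have h8 : Real.log ‖v.2 i‖ = (v.1 i).re - uu v i := by
            unfold uu
            ring
          rw [h8]
          exact abs_sub _ _
        rw [hi] at h7
        nlinarith
      have h6 := (abs_le.1 h1).2
      have h7 : K * (T - M) ≤ K * nrm (R⁻¹ • uu v) := mul_le_mul_of_nonneg_left h5 hK.le
      have h8 : δ * N * (T + 1) ≤ K / 2 * (T + 1) :=
        mul_le_mul_of_nonneg_right hδ1 (by linarith)
      nlinarith)
  rw [mmp_psi hR0, mmp_psi hR0] at hPsi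
  have hvx' := (hball _).1 hvx
  have h1 := abs_le.1 (hq _ hvx')
  have h3 := hg _ hvx'
  have h4 := hlogP v hv hvx hvy
  have h5 : 0 ≤ K * nrm (R⁻¹ • uu v) := mul_nonneg hK.le (mmp_nrm_nonneg _)
  have hGpos : 0 < ‖eval (R⁻¹ • v.1) G‖ := norm_pos_iff.2 hvG
  refine ⟨v, hv, hvx', huu v hvx hvy, ?_, ?_, ?_, ?_⟩
  · rcases hor with h | h
    · left
      rw [mmp_scale hR0, h, inv_mul_cancel_left₀ hR0.ne']
    · exact Or.inr h
  · rw [← Real.le_log_iff_exp_le hGpos, div_le_iff₀ hε]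
    nlinarith
  · have h6 : (S - η / 2 - q - g) ≤ δ / R * Real.log ‖eval (Sum.elim v.1 v.2) P‖ := by
      nlinarith
    have h7 : R / δ * (S - η / 2 - q - g) ≤
        R / δ * (δ / R * Real.log ‖eval (Sum.elim v.1 v.2) P‖) :=
      mul_le_mul_of_nonneg_left h6 (by positivity)
    have h8 : R / δ * (δ / R * Real.log ‖eval (Sum.elim v.1 v.2) P‖) =
        Real.log ‖eval (Sum.elim v.1 v.2) P‖ := by
      field_simp
    have h9 : R / δ * (S - η / 2 - q - g) = -((-S + η / 2 + q + g) / δ * R) := by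
      ring
    rw [h8, h9] at h7
    exact h7
  · nlinarith

/-- **The maximum principle at infinity.** Suppose that there are no centres over the points with
`G ≠ 0`. Then `- K |b| + Re Q(z) + ε log |G(z)|` satisfies the maximum principle on `Lim ∩ {G ≠ 0}`.

Proof. Let `S₂ = - K nrm w₂.2 + Re Q(w₂.1) + ε log ‖G(w₂.1)‖` and `(r, v, C)` the data of `w₂ ∈ Lim`; we may
assume `C ≥ 0`, `r ν ≥ 1`. Let `M = ‖z₁‖ + ρ`, `q̄ ≥ |Q|`, `ḡ ≥ 0`, `ḡ ≥ ε log ‖G‖` on the ball `‖z - z₁‖ ≤ ρ`, and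
`N` from `log_P_le P (M)`. Choose `T ≥ 1` with
(i) `|log ‖(v ν).2 i‖| ≤ T r ν` for all large `ν` (`(v ν).1 / r ν` and `uu (v ν) / r ν` converge);
(ii) `- (K / 2) T + K (M + 1) + q̄ + ḡ < S₂ - η - 1`,
and then `δ > 0` with `δ N ≤ K / 2`, `δ C ≤ η / 8`, `δ N (T + 1) ≤ η / 8`. For large `ν` put `R = r ν`,
`Q_R x = eval (R⁻¹ • x) Q`, `G_R x = eval (R⁻¹ • x) G` (differentiable functions), and apply `max_V` with
`c = R z₁`, `R ρ`, `T R`, `K / R`, `ε`, `δ / R`, `η / 8` in the place of `c, ρ, T, K, ε₁, ε₂, η`, and `v₂ = v ν`: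
`Psi (v ν) = - K nrm (uu (v ν) / R) + Re Q(x / R) + ε log ‖G(x / R)‖ + (δ / R) log ‖P(v ν)‖
≥ S₂ - η / 8 - δ C ≥ S₂ - η / 4` for large `ν` (`nrm` is continuous and homogeneous; `G(w₂.1) ≠ 0`). `hT` of
`max_V`: if `|log ‖y i‖| = T R` for some `i`, then `nrm (uu v) ≥ |uu v i| ≥ T R - M R`, so
`Psi v ≤ - K (T - M) + q̄ + ḡ + δ N (T + 1) ≤ - (K / 2) T + K (M + 1) + q̄ + ḡ < S₂ - η - 1 ≤ Psi (v ν) - η / 8`.
We get `v' ν ∈ Adm` with `‖x' - R z₁‖ ≤ R ρ`, `|log ‖y' i‖| ≤ T R`, `G(x' / R) ≠ 0`,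
`Psi (v' ν) ≥ S₂ - 3 η / 8`, and (`‖x' - R z₁‖ = R ρ` or `uu (v' ν) = 0`). The pairs
`(x' / R, uu (v' ν) / R)` are bounded. From `Psi (v' ν) ≥ S₂ - 3 η / 8` and the upper bounds of the other
terms: `ε log ‖G(x' / R)‖ ≥ S₂ - 3 η / 8 - q̄ - η / 8`, so `‖G(x' / R)‖ ≥ γ` with `γ > 0` independent of `ν`,
and `log ‖P(v' ν)‖ ≥ - C' R` with `C' = (- S₂ + 3 η / 8 + q̄ + ḡ) / δ` (or its maximum with `0`).
If `uu (v' ν) = 0` for infinitely many `ν`, a subsequence of these has `x' / R → z`, `‖G(z)‖ ≥ γ > 0` and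
`uu / R = 0 → 0`: a contradiction to `NoCen`. So `‖x' - R z₁‖ = R ρ` for all large `ν`; let
`w` be the limit of a subsequence of `(x' / R, uu (v' ν) / R)`. Then `w ∈ Lim`, `‖w.1 - z₁‖ = ρ`,
`G(w.1) ≠ 0`, and the limit of the inequality
`S₂ - 3 η / 8 ≤ - K nrm (uu / R) + Re Q(x' / R) + ε log ‖G(x' / R)‖ + δ N (T + 1)` is the claim. -/
theorem mmp (hdk : d + k = n) {L : Type} [Field L] [Algebra ℂ L] (ξ υ : Fin n → L)
    (Z : Fin d → Fin n → ℂ) (B : Fin k → Fin n) {P : MvPolynomial (Fin n ⊕ Fin n) ℂ}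
    (hC : Charts ξ υ Z B P) {G : MvPolynomial (Fin n) ℂ} (hN : NoCen ξ υ P G) {K ε : ℝ}
    (hK : 0 < K) (hε : 0 < ε) (Q : MvPolynomial (Fin n) ℂ) (z₁ : Fin n → ℂ) {ρ : ℝ}
    {w₂ : (Fin n → ℂ) × (Fin n → ℝ)} (hw₂ : w₂ ∈ Lim ξ υ P) (hG₂ : eval w₂.1 G ≠ 0)
    (h2 : ‖w₂.1 - z₁‖ < ρ) {η : ℝ} (hη : 0 < η) :
    ∃ w ∈ Lim ξ υ P, eval w.1 G ≠ 0 ∧ ‖w.1 - z₁‖ = ρ ∧
      -(K * nrm w₂.2) + (eval w₂.1 Q).re + ε * Real.log ‖eval w₂.1 G‖ - η ≤
        -(K * nrm w.2) + (eval w.1 Q).re + ε * Real.log ‖eval w.1 G‖ := by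
  obtain ⟨r, v, hr0, hrt, hv, hvx, hvu, C, hvC⟩ := hw₂
  have hρ : 0 < ρ := lt_of_le_of_lt (norm_nonneg _) h2
  set S := -(K * nrm w₂.2) + (eval w₂.1 Q).re + ε * Real.log ‖eval w₂.1 G‖ with hS
  set M := ‖z₁‖ + ρ with hM
  have hM0 : 0 ≤ M := by positivity
  -- bounds on the ball
  obtain ⟨q, hq⟩ := (isCompact_closedBall z₁ ρ).exists_bound_of_continuousOn
    (MvPolynomial.continuous_eval Q).continuousOn
  obtain ⟨g₀, hg₀⟩ := (isCompact_closedBall z₁ ρ).exists_bound_of_continuousOn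
    (MvPolynomial.continuous_eval G).continuousOn
  have hq' : ∀ z, ‖z - z₁‖ ≤ ρ → |(eval z Q).re| ≤ q := fun z hz =>
    (Complex.abs_re_le_norm _).trans (hq z (by rwa [mem_closedBall, dist_eq_norm]))
  set g := ε * Real.log (max g₀ 1) with hg
  have hg' : ∀ z, ‖z - z₁‖ ≤ ρ → ε * Real.log ‖eval z G‖ ≤ g := by
    intro z hz
    refine mul_le_mul_of_nonneg_left ?_ hε.le
    have h1 : ‖eval z G‖ ≤ max g₀ 1 :=
      (hg₀ z (by rwa [mem_closedBall, dist_eq_norm])).trans (le_max_left _ _)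
    by_cases h0 : ‖eval z G‖ = 0
    · rw [h0, Real.log_zero]
      exact Real.log_nonneg (le_max_right _ _)
    · exact Real.log_le_log (lt_of_le_of_ne (norm_nonneg _) (Ne.symm h0)) h1
  obtain ⟨N, hN0, hNb⟩ := log_P_le P hM0
  -- the constants
  obtain ⟨T, hT1, hT2, hT3⟩ : ∃ T : ℝ, 1 ≤ T ∧ ‖w₂.1‖ + ‖w₂.2‖ + 1 ≤ T ∧
      -(K / 2 * T) + K * (M + 1) + q + g < S - η - 1 := by
    refine ⟨max (max 1 (‖w₂.1‖ + ‖w₂.2‖ + 1)) (2 / K * (K * (M + 1) + q + g - S + η + 2)),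
      (le_max_left _ _).trans (le_max_left _ _), (le_max_right _ _).trans (le_max_left _ _), ?_⟩
    have h1 : K / 2 * (2 / K * (K * (M + 1) + q + g - S + η + 2)) ≤
        K / 2 * max (max 1 (‖w₂.1‖ + ‖w₂.2‖ + 1)) (2 / K * (K * (M + 1) + q + g - S + η + 2)) :=
      mul_le_mul_of_nonneg_left (le_max_right _ _) (by positivity)
    have h3 : K / 2 * (2 / K * (K * (M + 1) + q + g - S + η + 2)) =
        K * (M + 1) + q + g - S + η + 2 := by
      field_simp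
    linarith
  obtain ⟨δ, hδ0, hδ1, hδ2, hδ3⟩ : ∃ δ : ℝ, 0 < δ ∧ δ * N ≤ K / 2 ∧ δ * N * (T + 1) ≤ η / 8 ∧
      δ * C ≤ η / 8 := by
    refine ⟨min (K / (2 * N)) (min (η / (8 * (N * (T + 1)))) (η / (8 * (|C| + 1)))), ?_, ?_, ?_,
      ?_⟩
    · refine lt_min (by positivity) (lt_min (div_pos hη ?_) (by positivity))
      have : 0 < T + 1 := by linarith
      positivity
    · have h1 : min (K / (2 * N)) (min (η / (8 * (N * (T + 1)))) (η / (8 * (|C| + 1)))) * N ≤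
          K / (2 * N) * N := mul_le_mul_of_nonneg_right (min_le_left _ _) hN0.le
      refine h1.trans (le_of_eq ?_)
      field_simp
    · have hT0 : 0 < T + 1 := by linarith
      have h1 : min (K / (2 * N)) (min (η / (8 * (N * (T + 1)))) (η / (8 * (|C| + 1)))) *
          (N * (T + 1)) ≤ η / (8 * (N * (T + 1))) * (N * (T + 1)) :=
        mul_le_mul_of_nonneg_right ((min_le_right _ _).trans (min_le_left _ _)) (by positivity)
      rw [mul_assoc]
      refine h1.trans (le_of_eq ?_)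
      field_simp
    · have hT0 : 0 < T + 1 := by linarith
      have hm0 : 0 ≤ min (K / (2 * N)) (min (η / (8 * (N * (T + 1)))) (η / (8 * (|C| + 1)))) :=
        le_min (by positivity) (le_min (by positivity) (by positivity))
      have h1 : min (K / (2 * N)) (min (η / (8 * (N * (T + 1)))) (η / (8 * (|C| + 1)))) * C ≤
          min (K / (2 * N)) (min (η / (8 * (N * (T + 1)))) (η / (8 * (|C| + 1)))) * (|C| + 1) :=
        mul_le_mul_of_nonneg_left (by linarith [le_abs_self C]) hm0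
      have h3 : min (K / (2 * N)) (min (η / (8 * (N * (T + 1)))) (η / (8 * (|C| + 1)))) *
          (|C| + 1) ≤ η / (8 * (|C| + 1)) * (|C| + 1) :=
        mul_le_mul_of_nonneg_right ((min_le_right _ _).trans (min_le_right _ _)) (by positivity)
      refine (h1.trans h3).trans (le_of_eq ?_)
      field_simp
  -- eventually the step applies
  have hstep : ∀ᶠ ν in atTop, ∃ v' ∈ Adm ξ υ P, ‖(r ν)⁻¹ • v'.1 - z₁‖ ≤ ρ ∧
      ‖(r ν)⁻¹ • uu v'‖ ≤ T + M ∧ (‖(r ν)⁻¹ • v'.1 - z₁‖ = ρ ∨ uu v' = 0) ∧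
      Real.exp ((S - q - η / 2) / ε) ≤ ‖eval ((r ν)⁻¹ • v'.1) G‖ ∧
      -((-S + η / 2 + q + g) / δ * r ν) ≤ Real.log ‖eval (Sum.elim v'.1 v'.2) P‖ ∧
      S - η / 2 ≤ -(K * nrm ((r ν)⁻¹ • uu v')) + (eval ((r ν)⁻¹ • v'.1) Q).re +
        ε * Real.log ‖eval ((r ν)⁻¹ • v'.1) G‖ := by
    have e1 : ∀ᶠ ν in atTop, 1 ≤ r ν := hrt.eventually_ge_atTop 1
    have e2 : ∀ᶠ ν in atTop, ‖(r ν)⁻¹ • (v ν).1 - z₁‖ < ρ :=
      ((hvx.sub_const z₁).norm).eventually_lt_const h2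
    have e3 : ∀ᶠ ν in atTop, eval ((r ν)⁻¹ • (v ν).1) G ≠ 0 :=
      (((MvPolynomial.continuous_eval G).tendsto w₂.1).comp hvx).eventually_ne hG₂
    have e4 : ∀ᶠ ν in atTop, ‖(r ν)⁻¹ • (v ν).1‖ + ‖(r ν)⁻¹ • uu (v ν)‖ < T := by
      have h1 : ‖w₂.1‖ + ‖w₂.2‖ < T := by linarith
      exact (hvx.norm.add hvu.norm).eventually_lt_const h1
    have e5 : ∀ᶠ ν in atTop, S - η / 8 < -(K * nrm ((r ν)⁻¹ • uu (v ν))) +
        (eval ((r ν)⁻¹ • (v ν).1) Q).re + ε * Real.log ‖eval ((r ν)⁻¹ • (v ν).1) G‖ := by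
      have t1 : Tendsto (fun ν => -(K * nrm ((r ν)⁻¹ • uu (v ν))) +
          (eval ((r ν)⁻¹ • (v ν).1) Q).re + ε * Real.log ‖eval ((r ν)⁻¹ • (v ν).1) G‖) atTop
          (𝓝 S) := by
        refine Tendsto.add (Tendsto.add (Tendsto.neg ((Tendsto.const_mul K
          ((mmp_continuous_nrm.tendsto w₂.2).comp hvu)))) ?_) ?_
        · exact (Complex.continuous_re.tendsto _).comp
            (((MvPolynomial.continuous_eval Q).tendsto w₂.1).comp hvx)
        · exact Tendsto.const_mul ε ((((MvPolynomial.continuous_eval G).tendsto w₂.1).comp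
            hvx).norm.log (norm_ne_zero_iff.2 hG₂))
      exact t1.eventually_const_lt (by linarith)
    filter_upwards [e1, e2, e3, e4, e5] with ν h1 h3 h4 h5 h6
    have hR0 : 0 < r ν := hr0 ν
    refine mmp_one hdk ξ υ Z B hC hK hε Q z₁ hM hρ hη hT1 hq' hg' hN0 hNb hδ0 hδ1 hδ2 hT3 h1 (hv ν)
      h3.le h4 ?_ ?_
    · intro i
      have h7 : Real.log ‖(v ν).2 i‖ = ((v ν).1 i).re - uu (v ν) i := by
        unfold uu
        ring
      have h8 : |((v ν).1 i).re| ≤ ‖(v ν).1‖ :=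
        (Complex.abs_re_le_norm _).trans (norm_le_pi_norm _ i)
      have h9 : |uu (v ν) i| ≤ ‖uu (v ν)‖ := norm_le_pi_norm (uu (v ν)) i
      have h10 : ‖(r ν)⁻¹ • (v ν).1‖ + ‖(r ν)⁻¹ • uu (v ν)‖ =
          (r ν)⁻¹ * (‖(v ν).1‖ + ‖uu (v ν)‖) := by
        rw [norm_smul, norm_smul, Real.norm_eq_abs, abs_of_pos (inv_pos.2 hR0)]
        ring
      rw [h10, inv_mul_lt_iff₀ hR0] at h5
      rw [h7]
      have h11 := abs_sub ((v ν).1 i).re (uu (v ν) i)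
      linarith [mul_comm T (r ν)]
    · have h7 : -(δ * C) ≤ δ / r ν * Real.log ‖eval (Sum.elim (v ν).1 (v ν).2) P‖ := by
        have h8 := mul_le_mul_of_nonneg_left (hvC ν) (div_pos hδ0 hR0).le
        have h9 : δ / r ν * -(C * r ν) = -(δ * C) := by
          field_simp
        rwa [h9] at h8
      linarith
  obtain ⟨ν₀, hν₀⟩ := eventually_atTop.1 hstep
  choose! V hV using fun ν (hν : ν₀ ≤ ν) => hν₀ ν hν
  have hV' : ∀ ν, _ := fun ν => hV (ν + ν₀) (Nat.le_add_left _ _)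
  -- a convergent subsequence
  have hcomp : IsCompact (closedBall z₁ ρ ×ˢ closedBall (0 : Fin n → ℝ) (T + M)) :=
    (isCompact_closedBall _ _).prod (isCompact_closedBall _ _)
  obtain ⟨w, hwK, φ, hφ, hφt⟩ := hcomp.tendsto_subseq
    (x := fun ν => ((r (ν + ν₀))⁻¹ • (V (ν + ν₀)).1, (r (ν + ν₀))⁻¹ • uu (V (ν + ν₀))))
    (fun ν => ⟨by rw [mem_closedBall, dist_eq_norm]; exact (hV' ν).2.1,
      by rw [mem_closedBall, dist_zero_right]; exact (hV' ν).2.2.1⟩)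
  have hw1 : Tendsto (fun ν => (r (φ ν + ν₀))⁻¹ • (V (φ ν + ν₀)).1) atTop (𝓝 w.1) :=
    (continuous_fst.tendsto w).comp hφt
  have hw2 : Tendsto (fun ν => (r (φ ν + ν₀))⁻¹ • uu (V (φ ν + ν₀))) atTop (𝓝 w.2) :=
    (continuous_snd.tendsto w).comp hφt
  have hrt' : Tendsto (fun ν => r (φ ν + ν₀)) atTop atTop :=
    hrt.comp ((tendsto_add_atTop_nat ν₀).comp hφ.tendsto_atTop)
  have hGt : Tendsto (fun ν => eval ((r (φ ν + ν₀))⁻¹ • (V (φ ν + ν₀)).1) G) atTop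
      (𝓝 (eval w.1 G)) := ((MvPolynomial.continuous_eval G).tendsto w.1).comp hw1
  have hGw : eval w.1 G ≠ 0 := by
    have h1 : Real.exp ((S - q - η / 2) / ε) ≤ ‖eval w.1 G‖ :=
      ge_of_tendsto' hGt.norm fun ν => (hV' (φ ν)).2.2.2.2.1
    exact norm_pos_iff.1 (lt_of_lt_of_le (Real.exp_pos _) h1)
  have hw20 : w.2 ≠ 0 := by
    intro h0
    rw [h0] at hw2
    exact hN w.1 hGw _ _ (fun ν => hr0 _) hrt' (fun ν => (hV' (φ ν)).1) hw1 hw2
  have hbd : ∀ᶠ ν in atTop, ‖(r (φ ν + ν₀))⁻¹ • (V (φ ν + ν₀)).1 - z₁‖ = ρ := by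
    filter_upwards [hw2.eventually_ne hw20] with ν hν
    rcases (hV' (φ ν)).2.2.2.1 with h | h
    · exact h
    · exfalso
      apply hν
      rw [h, smul_zero]
  refine ⟨w, ⟨fun ν => r (φ ν + ν₀), fun ν => V (φ ν + ν₀), fun ν => hr0 _, hrt',
    fun ν => (hV' (φ ν)).1, hw1, hw2, (-S + η / 2 + q + g) / δ,
    fun ν => (hV' (φ ν)).2.2.2.2.2.1⟩, hGw, ?_, ?_⟩
  · have h1 : Tendsto (fun ν => ‖(r (φ ν + ν₀))⁻¹ • (V (φ ν + ν₀)).1 - z₁‖) atTop
        (𝓝 ‖w.1 - z₁‖) := (hw1.sub_const z₁).norm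
    exact tendsto_nhds_unique h1 (tendsto_const_nhds.congr' (hbd.mono fun ν hν => hν.symm))
  · have t1 : Tendsto (fun ν => -(K * nrm ((r (φ ν + ν₀))⁻¹ • uu (V (φ ν + ν₀)))) +
        (eval ((r (φ ν + ν₀))⁻¹ • (V (φ ν + ν₀)).1) Q).re +
        ε * Real.log ‖eval ((r (φ ν + ν₀))⁻¹ • (V (φ ν + ν₀)).1) G‖) atTop
        (𝓝 (-(K * nrm w.2) + (eval w.1 Q).re + ε * Real.log ‖eval w.1 G‖)) := by
      refine Tendsto.add (Tendsto.add (Tendsto.neg ((Tendsto.const_mul K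
        ((mmp_continuous_nrm.tendsto w.2).comp hw2)))) ?_) ?_
      · exact (Complex.continuous_re.tendsto _).comp
          (((MvPolynomial.continuous_eval Q).tendsto w.1).comp hw1)
      · exact Tendsto.const_mul ε (hGt.norm.log (norm_ne_zero_iff.2 hGw))
    have h1 : S - η / 2 ≤ -(K * nrm w.2) + (eval w.1 Q).re + ε * Real.log ‖eval w.1 G‖ :=
      ge_of_tendsto' t1 fun ν => (hV' (φ ν)).2.2.2.2.2.2
    linarith

end Pool.Agent.Lib.MP_209724_lc.GE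
end

section

namespace Pool.Agent.Lib.MP_209724_lc.GF

open MvPolynomial Filter Topology Metric Set

variable {n : ℕ}

private lemma conjP_eval_map (z : Fin n → ℂ) (f : MvPolynomial (Fin n) ℂ) :
    eval z (map (starRingEnd ℂ) f) =
      (starRingEnd ℂ) (eval (fun i => (starRingEnd ℂ) (z i)) f) := by
  induction f using MvPolynomial.induction_on with
  | C a => simp
  | add f g hf hg => rw [map_add, map_add, hf, hg, map_add, map_add]
  | mul_X f i hf =>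
    rw [map_mul, map_mul, hf, map_X, eval_X, map_mul, eval_X, map_mul, Complex.conj_conj]

private lemma conjP_neg_eval (z : Fin n → ℂ) (f : MvPolynomial (Fin n) ℂ) :
    eval z (aeval (fun i => -X i : Fin n → MvPolynomial (Fin n) ℂ) f) =
      eval (fun i => -z i) f := by
  induction f using MvPolynomial.induction_on with
  | C a => rw [aeval_C, algebraMap_eq, eval_C, eval_C]
  | add f g hf hg => rw [map_add, map_add, hf, hg, map_add]
  | mul_X f i hf =>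
    rw [map_mul, aeval_X, map_mul, hf, map_mul, map_neg, eval_X, eval_X]

private lemma conjP_pderiv_neg (k : Fin n) (f : MvPolynomial (Fin n) ℂ) :
    pderiv k (aeval (fun i => -X i : Fin n → MvPolynomial (Fin n) ℂ) f) =
      -(aeval (fun i => -X i : Fin n → MvPolynomial (Fin n) ℂ) (pderiv k f)) := by
  induction f using MvPolynomial.induction_on with
  | C a => rw [aeval_C, algebraMap_eq, pderiv_C, map_zero, neg_zero]
  | add f g hf hg => rw [map_add, map_add, hf, hg, map_add, map_add]; ring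
  | mul_X f i hf =>
    rw [map_mul, aeval_X, pderiv_mul, pderiv_mul, hf, map_neg, map_add, map_mul, map_mul, aeval_X]
    by_cases h : i = k
    · subst h
      rw [pderiv_X_self, map_one]
      ring
    · rw [pderiv_X_of_ne h, map_zero]
      ring

private lemma conjP_mem (q : Ideal (MvPolynomial (Fin n) ℂ))
    (himag : ∀ f ∉ q, ∃ η : Fin n → ℝ,
      (∀ h ∈ q, eval (fun i => Complex.I * (η i : ℂ)) h = 0) ∧
      eval (fun i => Complex.I * (η i : ℂ)) f ≠ 0) (f : MvPolynomial (Fin n) ℂ) (hf : f ∈ q) :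
    aeval (fun i => -X i : Fin n → MvPolynomial (Fin n) ℂ) (map (starRingEnd ℂ) f) ∈ q := by
  by_contra hcon
  obtain ⟨η, h1, h2⟩ := himag _ hcon
  apply h2
  rw [conjP_neg_eval, conjP_eval_map]
  have h3 : (fun i => (starRingEnd ℂ) (-(Complex.I * (η i : ℂ)))) =
      fun i => Complex.I * (η i : ℂ) := by
    funext i
    apply Complex.ext <;> simp
  rw [h3, h1 f hf, map_zero]

/-- **The ideal of a variety with Zariski dense imaginary points is stable under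
`f(x) ↦ conj f(- conj x)`.** Compare `GD.conj_zero` (`GD/Conj.lean`).

Proof. Let `f ∈ q` and `h(x) = conj f(- conj x)`, i.e. `h = aeval (fun i => - X i) (map (starRingEnd ℂ) f)`. If
`h ∉ q`, then by `himag` there is a real `η` with `w = i η` a zero of `q` and `h(w) ≠ 0`. But
`- conj w = w`, so `h(w) = conj f(w) = 0`. So `h ∈ q` and for a zero `z` of `q`
`0 = h(z) = conj f(- conj z)`. -/
theorem conj_zeroP (q : Ideal (MvPolynomial (Fin n) ℂ))
    (himag : ∀ f ∉ q, ∃ η : Fin n → ℝ,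
      (∀ h ∈ q, eval (fun i => Complex.I * (η i : ℂ)) h = 0) ∧
      eval (fun i => Complex.I * (η i : ℂ)) f ≠ 0) (z : Fin n → ℂ) (hz : ∀ f ∈ q, eval z f = 0) :
    ∀ f ∈ q, eval (fun i => -(starRingEnd ℂ) (z i)) f = 0 := by
  intro f hf
  have h1 := hz _ (conjP_mem q himag f hf)
  rw [conjP_neg_eval, conjP_eval_map] at h1
  have h2 := (map_eq_zero (starRingEnd ℂ)).mp h1
  have h3 : (fun i => (starRingEnd ℂ) (-z i)) = fun i => -(starRingEnd ℂ) (z i) := by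
    funext i; rw [map_neg]
  rwa [h3] at h2

/-- **Tangent spaces at purely imaginary points are stable under conjugation.** Compare
`GD.conj_tangent` (`GD/Conj.lean`).

Proof. For `f ∈ q` let `h` be as in the proof of `conj_zeroP`; there it is proved that `h ∈ q`. So
`∑ v_k ∂_k h(z) = 0`, and `∂_k h(z) = - conj (∂_k f(- conj z)) = - conj (∂_k f(z))`. Conjugate. -/
theorem conj_tangentP (q : Ideal (MvPolynomial (Fin n) ℂ))
    (himag : ∀ f ∉ q, ∃ η : Fin n → ℝ,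
      (∀ h ∈ q, eval (fun i => Complex.I * (η i : ℂ)) h = 0) ∧
      eval (fun i => Complex.I * (η i : ℂ)) f ≠ 0) (z : Fin n → ℂ) (hzre : ∀ i, (z i).re = 0)
    (v : Fin n → ℂ) (hv : ∀ f ∈ q, ∑ k, v k * eval z (pderiv k f) = 0) :
    ∀ f ∈ q, ∑ k, (starRingEnd ℂ) (v k) * eval z (pderiv k f) = 0 := by
  intro f hf
  have h1 := hv _ (conjP_mem q himag f hf)
  have hz' : (fun i => (starRingEnd ℂ) (-z i)) = z := by
    funext i
    apply Complex.ext
    · simp [hzre i]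
    · simp
  have h2 : ∀ k, eval z (pderiv k (aeval (fun i => -X i : Fin n → MvPolynomial (Fin n) ℂ)
      (map (starRingEnd ℂ) f))) = -(starRingEnd ℂ) (eval z (pderiv k f)) := by
    intro k
    rw [conjP_pderiv_neg, map_neg, conjP_neg_eval, pderiv_map, conjP_eval_map, hz']
  simp only [h2] at h1
  have h4 := congrArg (starRingEnd ℂ) h1
  rw [map_sum, map_zero] at h4
  have h5 : ∑ k, (starRingEnd ℂ) (v k) * eval z (pderiv k f) =
      -∑ k, (starRingEnd ℂ) (v k * -(starRingEnd ℂ) (eval z (pderiv k f))) := by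
    rw [← Finset.sum_neg_distrib]
    refine Finset.sum_congr rfl fun k _ => ?_
    rw [map_mul, map_neg, Complex.conj_conj]
    ring
  rw [h5, h4, neg_zero]

end Pool.Agent.Lib.MP_209724_lc.GF
end

section

/-!
# The image of the cone under integral linear forms
-/

namespace Pool.Agent.Lib.MP_209724_lc.GF

open MvPolynomial Filter Topology Metric Set
open GC (prj)

variable {n d N : ℕ}

/-- the values of the integral linear forms `m` at `z` -/
def mz (m : Fin N → Fin n → ℤ) (z : Fin n → ℂ) : Fin N → ℂ := fun l => ∑ i, (m l i : ℂ) * z i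

/-- composition of polynomials with the integral linear forms `m` -/
noncomputable def pullm (m : Fin N → Fin n → ℤ) :
    MvPolynomial (Fin N) ℂ →ₐ[ℂ] MvPolynomial (Fin n) ℂ :=
  aeval fun l => ∑ i, C (m l i : ℂ) * X i

/-- Proof. Both sides are algebra homomorphisms in `f` which agree on the `X l`. -/
theorem eval_pullm (m : Fin N → Fin n → ℤ) (f : MvPolynomial (Fin N) ℂ) (z : Fin n → ℂ) :
    eval z (pullm m f) = eval (mz m z) f := by
  rw [pullm, ← MvPolynomial.aeval_eq_eval, ← MvPolynomial.aeval_eq_eval]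
  rw [← AlgHom.comp_apply, MvPolynomial.comp_aeval]
  congr 2
  funext l
  simp [mz]

/-- Proof. `(ξ' (s j))_j` are `d` algebraically independent elements of `ℂ(range ξ')`:
`AlgebraicIndependent.cardinalMk_le_trdeg` (or `lift`), after restricting to the subfield. -/
theorem le_trdeg_of_algInd {L : Type} [Field L] [Algebra ℂ L] (ξ' : Fin N → L) (s : Fin d → Fin N)
    (h : AlgebraicIndependent ℂ fun j => ξ' (s j)) :
    (d : Cardinal) ≤ Algebra.trdeg ℂ (IntermediateField.adjoin ℂ (Set.range ξ')) := by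
  set K := IntermediateField.adjoin ℂ (Set.range ξ') with hK
  let ζ' : Fin d → K := fun j => ⟨ξ' (s j), IntermediateField.subset_adjoin _ _ ⟨s j, rfl⟩⟩
  have h3 : AlgebraicIndependent ℂ ζ' := by
    rw [← AlgHom.algebraicIndependent_iff K.val K.val.injective]
    exact h
  have h4 := h3.cardinalMk_le_trdeg
  rwa [Cardinal.mk_fintype, Fintype.card_fin] at h4

private theorem aeval_pullm {L : Type} [Field L] [Algebra ℂ L] (ξ : Fin n → L)
    (m : Fin N → Fin n → ℤ) (f : MvPolynomial (Fin N) ℂ) :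
    aeval ξ (pullm m f) = aeval (fun l => ∑ i, algebraMap ℂ L (m l i : ℂ) * ξ i) f := by
  rw [pullm, ← AlgHom.comp_apply, MvPolynomial.comp_aeval]
  congr 2
  funext l
  simp only [map_sum, map_mul, aeval_C, aeval_X]

private theorem prj_mz (m : Fin N → Fin n → ℤ) (A : Fin d → Fin N → ℂ) (Z : Fin d → Fin n → ℂ)
    (hZ : ∀ j i, Z j i = ∑ l, A j l * (m l i : ℂ)) (z : Fin n → ℂ) :
    prj A (mz m z) = prj Z z := by
  funext j
  simp only [prj, mz, hZ, Finset.mul_sum, Finset.sum_mul]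
  rw [Finset.sum_comm]
  refine Finset.sum_congr rfl fun i _ => Finset.sum_congr rfl fun l _ => ?_
  ring

/-- **Near generic points with imaginary image, the points with imaginary coordinates have imaginary image,
and there the image of the tangent space is stable under conjugation.** `Z` is the zero set of `q`, `m` are
integral linear forms, `A` a real matrix, and `t = A m z` are coordinates on `Z` and on its image. The
points with purely imaginary image are Zariski dense in the image of `Z` (`himag`).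

Proof. Let `q' = q.comap (pullm m)`, a prime ideal of `ℂ[w_1, …, w_N]`; `f ∈ q' ↔ aeval ξ' f = 0` for
`ξ' l = ∑ i, m l i * ξ i` (`hξ`). Let `ζ j = ∑ l, A j l * ξ' l = ∑ i, Z j i * ξ i`. Every `ξ' l` is algebraic over
`ℂ[ζ]` (`halg`). By `GS.exists_rel` there are `F l ∈ q'`, `D l ∉ q'` with `∑ k, b k * ∂_k F l = b l * D l` for
`prj A b = 0`. Let `G = ∏ l, pullm m (D l)`. Let `z₀` be as in the claim, `w₀ = mz m z₀`, so `w₀` is a zero of
`q'` and `D l (w₀) ≠ 0`. `A` has linearly independent rows (`GS.linearIndependent_rows`), so `d ≤ N`; choose `σ`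
by `GS.exists_sigma`. Apply `GS.exists_chart2` to `S = {w | ∀ f ∈ q', eval w f = 0}`, `w₀`, `F (σ l)`, `A`
(compare the use in `GP/Core.lean`): `H', ρ₁', r₀'`, with `w = H' (prj A w)` for `w ∈ S`, `‖w - w₀‖ ≤ r₀'`. For
`t` near `t₀` `mz m (H t) ∈ S` is near `w₀` by continuity of `H`, and `prj A (mz m (H t)) = t`, so
`mz m (H t) = H' t`. By `himag` (with `η l = Im (mz m z l)`) `q'` satisfies the hypothesis of `conj_zeroP` and
`conj_tangentP`. If `t` is purely imaginary, `GD.chart_imag` (`q'`, `A`, `S`, `H'`, `w₀`, with `hconj` from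
`conj_zeroP`; `H' t = mz m (H t)` is a zero of `q'` near `w₀`) shows that `H' t` is purely imaginary. For such `t`
and `b` let `h = mz m ∘ H`, holomorphic, and `v = fderiv ℂ h t b = mz m (fderiv ℂ H t b)`, a tangent vector of
`q'` at `h t` (`GS.chart_tangent`). By `conj_tangentP` `conj v` is a tangent vector, so by `GD.tangent_eq`
(`q'`, `A`, `h`, `F`, `D`; `D l (h t) ≠ 0` for `t` near `t₀`) `fderiv ℂ h t (prj A (conj v)) = conj v`. Take
`b' = prj A (conj v)`. -/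
theorem image_real (q : Ideal (MvPolynomial (Fin n) ℂ)) [q.IsPrime] {L : Type} [Field L]
    [Algebra ℂ L] (ξ : Fin n → L) (hξ : ∀ c, c ∈ q ↔ aeval ξ c = 0) (m : Fin N → Fin n → ℤ)
    (A : Fin d → Fin N → ℂ) (hA : ∀ j l, (A j l).im = 0) (Z : Fin d → Fin n → ℂ)
    (hZ : ∀ j i, Z j i = ∑ l, A j l * (m l i : ℂ))
    (hind : AlgebraicIndependent ℂ fun j => ∑ i, algebraMap ℂ L (Z j i) * ξ i)
    (halg : ∀ i, IsAlgebraic (Algebra.adjoin ℂ (Set.range fun j =>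
      ∑ i, algebraMap ℂ L (Z j i) * ξ i)) (ξ i))
    (himag : ∀ f : MvPolynomial (Fin N) ℂ, pullm m f ∉ q → ∃ z : Fin n → ℂ,
      (∀ g ∈ q, eval z g = 0) ∧ (∀ l, (mz m z l).re = 0) ∧ eval (mz m z) f ≠ 0) :
    ∃ G ∉ q, ∀ z₀ : Fin n → ℂ, (∀ f ∈ q, eval z₀ f = 0) → eval z₀ G ≠ 0 →
      (∀ l, (mz m z₀ l).re = 0) → ∀ (H : (Fin d → ℂ) → Fin n → ℂ) (ρ : ℝ), 0 < ρ →
      DifferentiableOn ℂ H (ball (prj Z z₀) ρ) → H (prj Z z₀) = z₀ →
      (∀ t ∈ ball (prj Z z₀) ρ, ∀ f ∈ q, eval (H t) f = 0) →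
      (∀ t ∈ ball (prj Z z₀) ρ, prj Z (H t) = t) →
      ∃ ρ' : ℝ, 0 < ρ' ∧ ρ' ≤ ρ ∧ ∀ t ∈ ball (prj Z z₀) ρ', (∀ j, (t j).re = 0) →
        (∀ l, (mz m (H t) l).re = 0) ∧ ∀ b : Fin d → ℂ, ∃ b' : Fin d → ℂ, ∀ l,
          mz m (fderiv ℂ H t b') l = (starRingEnd ℂ) (mz m (fderiv ℂ H t b) l) := by
  classical
  obtain ⟨ξ', hξ'⟩ : ∃ ξ' : Fin N → L, ξ' = fun l => ∑ i, algebraMap ℂ L (m l i : ℂ) * ξ i :=
    ⟨_, rfl⟩
  obtain ⟨q', hq'⟩ : ∃ q' : Ideal (MvPolynomial (Fin N) ℂ), q' = q.comap (pullm m) := ⟨_, rfl⟩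
  have hmem : ∀ f, f ∈ q' ↔ pullm m f ∈ q := by
    intro f
    rw [hq', Ideal.mem_comap]
  have hmem' : ∀ f, f ∈ q' ↔ aeval ξ' f = 0 := by
    intro f
    rw [hmem, hξ, aeval_pullm, hξ']
  obtain ⟨ζ, hζ⟩ : ∃ ζ : Fin d → L, ζ = fun j => ∑ i, algebraMap ℂ L (Z j i) * ξ i := ⟨_, rfl⟩
  have hζA : ∀ j, ζ j = ∑ l, algebraMap ℂ L (A j l) * ξ' l := by
    intro j
    rw [hζ, hξ']
    simp only [hZ, map_sum, map_mul, Finset.sum_mul, Finset.mul_sum]
    rw [Finset.sum_comm]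
    refine Finset.sum_congr rfl fun l _ => Finset.sum_congr rfl fun i _ => ?_
    ring
  rw [← hζ] at hind halg
  have halg' : ∀ l, IsAlgebraic (Algebra.adjoin ℂ (Set.range ζ)) (ξ' l) := by
    intro l
    set F := IntermediateField.adjoin ℂ (Set.range ζ) with hF
    have h1 : ∀ i, ξ i ∈ algebraicClosure F L := by
      intro i
      refine mem_algebraicClosure_iff.mpr ?_
      exact IntermediateField.isAlgebraic_adjoin_iff.mpr (halg i)
    have h2 : ξ' l ∈ algebraicClosure F L := by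
      rw [hξ']
      refine sum_mem fun i _ => mul_mem ?_ (h1 i)
      rw [IsScalarTower.algebraMap_apply ℂ F L]
      exact (algebraicClosure F L).algebraMap_mem _
    exact IntermediateField.isAlgebraic_adjoin_iff.mp (mem_algebraicClosure_iff.mp h2)
  choose F D hF hD hFD using fun l => GS.exists_rel ξ' A ζ hζA hind l (halg' l)
  have hFq : ∀ l, F l ∈ q' := fun l => (hmem' _).2 (hF l)
  have hindA : AlgebraicIndependent ℂ fun j => ∑ l, algebraMap ℂ L (A j l) * ξ' l := by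
    have h1 : (fun j => ∑ l, algebraMap ℂ L (A j l) * ξ' l) = ζ := by
      funext j
      exact (hζA j).symm
    rw [h1]
    exact hind
  have hlin : LinearIndependent ℂ A := GS.linearIndependent_rows ξ' A hindA
  have hdN : d ≤ N := by
    have h1 := hlin.fintype_card_le_finrank
    simpa using h1
  obtain ⟨k, hk⟩ : ∃ k, d + k = N := ⟨N - d, by omega⟩
  obtain ⟨σ, hσ⟩ := GS.exists_sigma hk A hlin
  -- the imaginary points of `q'`
  have himag' : ∀ f ∉ q', ∃ η : Fin N → ℝ,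
      (∀ h ∈ q', eval (fun i => Complex.I * (η i : ℂ)) h = 0) ∧
      eval (fun i => Complex.I * (η i : ℂ)) f ≠ 0 := by
    intro f hf
    obtain ⟨z, hz1, hz2, hz3⟩ := himag f (fun h => hf ((hmem f).2 h))
    have h1 : (fun l => Complex.I * (((mz m z l).im : ℝ) : ℂ)) = mz m z := by
      funext l
      apply Complex.ext
      · simp [hz2 l]
      · simp
    refine ⟨fun l => (mz m z l).im, ?_, ?_⟩
    · intro g hg
      rw [h1, ← eval_pullm]
      exact hz1 _ ((hmem g).1 hg)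
    · rw [h1]
      exact hz3
  refine ⟨∏ l, pullm m (D l), ?_, ?_⟩
  · intro hcon
    rw [Ideal.IsPrime.prod_mem_iff] at hcon
    obtain ⟨l, -, hl⟩ := hcon
    exact hD l ((hmem' _).1 ((hmem _).2 hl))
  intro z₀ hz₀ hG hz₀re H ρ hρ hH hHz hHq hZH
  obtain ⟨w₀, hw₀⟩ : ∃ w₀ : Fin N → ℂ, w₀ = mz m z₀ := ⟨_, rfl⟩
  have hDw : ∀ l, eval w₀ (D l) ≠ 0 := by
    intro l
    rw [map_prod, Finset.prod_ne_zero_iff] at hG
    have h1 := hG l (Finset.mem_univ l)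
    rw [eval_pullm] at h1
    rw [hw₀]
    exact h1
  have hw₀re : ∀ l, (w₀ l).re = 0 := by
    rw [hw₀]
    exact hz₀re
  have hzero : ∀ z : Fin n → ℂ, (∀ f ∈ q, eval z f = 0) → ∀ f ∈ q', eval (mz m z) f = 0 := by
    intro z hz f hf
    rw [← eval_pullm]
    exact hz _ ((hmem f).1 hf)
  obtain ⟨H', ρ₁, r₀, ρ₂, hρ₂, hρ₂₁, hr₀, hH'd, hH'w, hZH', hr₀Z, huniq, -⟩ :=
    GS.exists_chart2 hk {w | ∀ f ∈ q', eval w f = 0} w₀ (by
      rw [hw₀]
      exact hzero z₀ hz₀) (fun l => F (σ l)) (fun l w' hw' => hw' _ (hFq _)) A (by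
      intro b hb hbA
      refine hσ b hbA fun l => ?_
      have h1 := hb l
      rw [hFD _ _ _ hbA] at h1
      rcases mul_eq_zero.1 h1 with h2 | h2
      · exact h2
      · exact absurd h2 (hDw _))
  -- the image of the chart
  obtain ⟨M, hM⟩ : ∃ M : Fin N → Fin n → ℂ, M = fun l i => (m l i : ℂ) := ⟨_, rfl⟩
  have hmzM : ∀ z, mz m z = GC.chartPrjL M z := by
    intro z
    rw [GC.chartPrjL_apply, hM]
    rfl
  obtain ⟨h, hh⟩ : ∃ h : (Fin d → ℂ) → Fin N → ℂ, h = fun t => mz m (H t) := ⟨_, rfl⟩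
  have hhM : h = fun t => GC.chartPrjL M (H t) := by
    rw [hh]
    funext t
    exact hmzM _
  have hhd : DifferentiableOn ℂ h (ball (prj Z z₀) ρ) := by
    rw [hhM]
    exact (GC.chartPrjL M).differentiable.comp_differentiableOn hH
  have hht₀ : h (prj Z z₀) = w₀ := by
    rw [hh, hw₀]
    simp only [hHz]
  have hhc : ContinuousAt h (prj Z z₀) :=
    hhd.continuousOn.continuousAt (isOpen_ball.mem_nhds (mem_ball_self hρ))
  have hhc' : Tendsto h (𝓝 (prj Z z₀)) (𝓝 w₀) := by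
    have h1 := hhc.tendsto
    rwa [hht₀] at h1
  have hev : ∀ᶠ t in 𝓝 (prj Z z₀), ‖h t - w₀‖ < r₀ ∧ ∀ l, eval (h t) (D l) ≠ 0 := by
    refine Filter.Eventually.and ?_ ?_
    · have h1 : ∀ᶠ y in 𝓝 w₀, ‖y - w₀‖ < r₀ := by
        filter_upwards [ball_mem_nhds w₀ hr₀] with y hy
        rwa [mem_ball, dist_eq_norm] at hy
      exact hhc'.eventually h1
    · rw [Filter.eventually_all]
      intro l
      exact (((MvPolynomial.continuous_eval (D l)).tendsto w₀).comp hhc').eventually_ne (hDw l)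
  obtain ⟨ρa, hρa, hρaB⟩ := Metric.mem_nhds_iff.mp hev
  refine ⟨min ρ ρa, lt_min hρ hρa, min_le_left _ _, ?_⟩
  intro t ht htre
  have htρ : t ∈ ball (prj Z z₀) ρ := ball_subset_ball (min_le_left _ _) ht
  have hta := hρaB (ball_subset_ball (min_le_right _ _) ht)
  have hhq : ∀ t ∈ ball (prj Z z₀) ρ, ∀ f ∈ q', eval (h t) f = 0 := by
    intro t ht
    rw [hh]
    exact hzero (H t) (hHq t ht)
  have hAh : ∀ t ∈ ball (prj Z z₀) ρ, prj A (h t) = t := by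
    intro t ht
    rw [hh]
    exact (prj_mz m A Z hZ (H t)).trans (hZH t ht)
  have hhH' : H' t = h t := by
    have h1 := huniq (h t) (hhq t htρ) hta.1.le
    rw [hAh t htρ] at h1
    exact h1.symm
  have hre : ∀ l, (h t l).re = 0 := by
    have h1 := GD.chart_imag q' A hA {w | ∀ f ∈ q', eval w f = 0} (fun z hz => hz)
      (conj_zeroP q' himag') H' w₀ hw₀re huniq (t := t) htre (by
        rw [hhH']
        exact hhq t htρ) (by
        rw [hhH']
        exact hAh t htρ) (by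
        rw [hhH']
        exact hta.1.le)
    rw [hhH'] at h1
    exact h1
  have hfd : ∀ b, mz m (fderiv ℂ H t b) = fderiv ℂ h t b := by
    intro b
    have h0 : HasFDerivAt H (fderiv ℂ H t) t :=
      (hH.differentiableAt (isOpen_ball.mem_nhds htρ)).hasFDerivAt
    have h1 : HasFDerivAt h ((GC.chartPrjL M).comp (fderiv ℂ H t)) t := by
      rw [hhM]
      exact (GC.chartPrjL M).hasFDerivAt.comp t h0
    rw [h1.fderiv, hmzM]
    rfl
  refine ⟨fun l => by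
    have h1 := hre l
    rw [hh] at h1
    exact h1, fun b => ?_⟩
  obtain ⟨v, hv⟩ : ∃ v : Fin N → ℂ, v = fderiv ℂ h t b := ⟨_, rfl⟩
  have hvt : ∀ f ∈ q', ∑ k, v k * eval (h t) (pderiv k f) = 0 := by
    intro f hf
    rw [hv]
    exact GS.chart_tangent q' h hhd hhq htρ b hf
  have hcv := conj_tangentP q' himag' (h t) hre v hvt
  have h1 := GD.tangent_eq q' A h hhd hhq hAh F D hFq hFD htρ hta.2
    (fun k => (starRingEnd ℂ) (v k)) hcv
  refine ⟨prj A fun k => (starRingEnd ℂ) (v k), fun l => ?_⟩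
  rw [hfd, hfd, h1, hv]

end Pool.Agent.Lib.MP_209724_lc.GF
end
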