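import Mathlib
import Pool.Agent.Lib.MP_209724_lc.GF.Coef2
import Pool.Agent.Lib.MP_209724_lc.GE.PolyB
import Pool.Agent.Lib.MP_209724_lc.GF.Push
import Pool.Agent.Lib.MP_209724_lc.GP.Core
import Pool.Agent.Lib.MP_209724_lc.GD.Local
import Pool.Agent.Lib.MP_209724_lc.GC.Final
import Pool.Agent.Lib.MP_209724_lc.GF.LocalK
import Pool.Agent.Lib.MP_209724_lc.GF.OpenLim

section

/-!
# Centres over a variety one of whose cones at infinity meets rational spaces of complementary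
dimension only in zero
-/

namespace Pool.Agent.Lib.MP_209724_lc.GE

open MvPolynomial Filter Topology Metric Set
open GC (prj cone)
open GP (OnV OnW pull eval_pull pull_ne_zero)
open GS (Ew)
open MV (lead)

variable {n d k : ℕ}

theorem lead_homog {σ : Type*} (c : MvPolynomial σ ℂ) : (lead c).IsHomogeneous c.totalDegree :=
  homogeneousComponent_isHomogeneous _ _

theorem pull_homog (Z : Fin d → Fin n → ℂ) {N : MvPolynomial (Fin d) ℂ} {e : ℕ}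
    (hN : N.IsHomogeneous e) : (pull Z N).IsHomogeneous e := by
  have h1 : ∀ j, (∑ i, C (Z j i) * X i : MvPolynomial (Fin n) ℂ).IsHomogeneous 1 := by
    intro j
    refine IsHomogeneous.sum _ _ _ fun i _ => ?_
    have := (isHomogeneous_C (Fin n) (Z j i)).mul (isHomogeneous_X ℂ i)
    rwa [zero_add] at this
  have := hN.aeval _ h1
  rwa [one_mul] at this

/-- **Centres.** -/
theorem centers (hd : 0 < d) (hdk : d + k = n) {L : Type} [Field L] [Algebra ℂ L]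
    (ξ υ : Fin n → L) (hυ : ∀ i, υ i ≠ 0)
    (hgen : ∀ z : L, IsAlgebraic (Algebra.adjoin ℂ (Set.range (Sum.elim ξ υ))) z)
    (hξd : Algebra.trdeg ℂ (IntermediateField.adjoin ℂ (Set.range ξ)) = d)
    (hL : Algebra.trdeg ℂ L = n) (p : Ideal (MvPolynomial (Fin n) ℂ))
    (hp : ∀ c, c ∈ p ↔ aeval ξ c = 0) (q : Ideal (MvPolynomial (Fin n) ℂ)) [hqp : q.IsPrime]
    (hq : Algebra.trdeg ℂ (MvPolynomial (Fin n) ℂ ⧸ q) = d)
    (hq1 : ∀ z : Fin n → ℂ, (∀ f ∈ q, eval z f = 0) → z ∈ cone p)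
    (hq2 : ∃ G ∉ q, ∀ z ∈ cone p, eval z G ≠ 0 → ∀ f ∈ q, eval z f = 0)
    (hpp : ∀ m : Fin d → Fin n → ℤ, LinearIndependent ℤ m → ∀ z : Fin n → ℂ,
      (∀ f ∈ q, eval z f = 0) → (∀ j, ∑ i, (m j i : ℂ) * z i = 0) → z = 0)
    (G : MvPolynomial (Fin n) ℂ) (hG : G ∉ q)
    (P : MvPolynomial (Fin n ⊕ Fin n) ℂ) (hP : aeval (Sum.elim ξ υ) P ≠ 0) :
    ∃ (z : Fin n → ℂ) (r : ℕ → ℝ) (x y : ℕ → Fin n → ℂ), (∀ f ∈ q, eval z f = 0) ∧
      eval z G ≠ 0 ∧ (∀ ν, 0 < r ν) ∧ Tendsto r atTop atTop ∧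
      (∀ ν, OnV ξ υ (x ν) (y ν) ∧ (∀ i, y ν i ≠ 0) ∧ eval (Sum.elim (x ν) (y ν)) P ≠ 0) ∧
      Tendsto (fun ν => (r ν)⁻¹ • x ν) atTop (𝓝 z) ∧
      ∀ i, Tendsto (fun ν => (r ν)⁻¹ * ((x ν i).re - Real.log ‖y ν i‖)) atTop (𝓝 0) := by
  classical
  have hn : 0 < n := by omega
  -- homogeneous polynomials
  have hcon : ∀ z : Fin n → ℂ, (∀ f ∈ q, eval z f = 0) → ∀ s : ℂ, ∀ f ∈ q, eval (s • z) f = 0 :=
    fun z hz s => smul_mem p q hq1 hq2 hz s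
  obtain ⟨e₁, G₁, hG₁h, hG₁, hq3⟩ := exists_homog p q hq1 hq2
  obtain ⟨e', G', hG'h, hG', hG'G⟩ := exists_comp hG
  -- coordinates
  obtain ⟨L₂, _, _, ξ₂, hξ₂, htr₂⟩ := GS.exists_generic_pt q hq
  obtain ⟨Z, hZ₁, hZ₂⟩ := GS.exists_proj2 ξ ξ₂ (d := d) (by rw [hξd]) (by rw [htr₂])
  set ζ₁ : Fin d → L := fun j => ∑ i, algebraMap ℂ L (Z j i) * ξ i with hζ₁
  have hmem : ∀ {L : Type} [Field L] [Algebra ℂ L] (ξ : Fin n → L) (j : Fin d),
      ∑ i, algebraMap ℂ L (Z j i) * ξ i ∈ IntermediateField.adjoin ℂ (Set.range ξ) := by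
    intro L _ _ ξ j
    refine sum_mem fun i _ => mul_mem ?_ (IntermediateField.subset_adjoin _ _ ⟨i, rfl⟩)
    exact IntermediateField.algebraMap_mem _ _
  have halg₁ : ∀ i, IsAlgebraic (Algebra.adjoin ℂ (Set.range ζ₁)) (ξ i) := fun i =>
    GS.isAlgebraic_coord ξ hξd ζ₁ (hmem ξ) hZ₁ i
  obtain ⟨B, -, hB, hBalg⟩ := GP.exists_B ξ υ hgen (GP.trdeg_over ξ hξd hL hdk)
  have hind := GP.indep_sum ξ ζ₁ (hmem ξ) hZ₁ (fun j => υ (B j)) hB
  have halgV : ∀ z : L, IsAlgebraic (Algebra.adjoin ℂ (Set.range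
      (Sum.elim ζ₁ (fun j => υ (B j))))) z := fun z => GP.alg_sum ξ ζ₁ _ halg₁ z (hBalg z)
  obtain ⟨β, hβ0, hV⟩ := GP.exists_vchart ξ υ Z B hind fun i => halgV _
  set Dβ : MvPolynomial (Fin n ⊕ Fin n) ℂ := aeval (Sum.elim
    (fun j => ∑ i, C (Z j i) * X (Sum.inl i)) (fun j => X (Sum.inr (B j)))) β with hDβ
  have hDβe : ∀ x y : Fin n → ℂ, eval (Sum.elim x y) Dβ =
      eval (Sum.elim (prj Z x) fun j => y (B j)) β := by
    intro x y
    rw [hDβ, ← MvPolynomial.aeval_eq_eval, ← MvPolynomial.aeval_eq_eval, ← AlgHom.comp_apply,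
      MvPolynomial.comp_aeval]
    congr 2
    funext j
    rcases j with j | j
    · simp [prj]
    · simp
  have hDβ0 : aeval (Sum.elim ξ υ) Dβ ≠ 0 := by
    have h1 : aeval (Sum.elim ξ υ) Dβ = aeval (Sum.elim ζ₁ fun j => υ (B j)) β := by
      rw [hDβ, ← AlgHom.comp_apply, MvPolynomial.comp_aeval]
      congr 2
      funext j
      rcases j with j | j
      · simp [hζ₁]
      · simp
    rw [h1]
    intro h0
    exact hβ0 ((algebraicIndependent_iff.mp hind) β h0)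
  obtain ⟨P', hP'⟩ : ∃ P' : MvPolynomial (Fin n ⊕ Fin n) ℂ, P' = P * Dβ := ⟨_, rfl⟩
  have hP'0 : aeval (Sum.elim ξ υ) P' ≠ 0 := by
    rw [hP', map_mul]
    exact mul_ne_zero hP hDβ0
  have hP'e : ∀ x y : Fin n → ℂ, eval (Sum.elim x y) P' ≠ 0 → eval (Sum.elim x y) P ≠ 0 ∧
      eval (Sum.elim (prj Z x) fun j => y (B j)) β ≠ 0 := by
    intro x y h
    rw [hP', map_mul, hDβe] at h
    exact ⟨left_ne_zero_of_mul h, right_ne_zero_of_mul h⟩
  have hCh : Charts ξ υ Z B P' := fun x₀ y₀ h1 h2 => hV x₀ y₀ h1 (hP'e x₀ y₀ h2).2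
  obtain ⟨gc, Cc, Nc, hgc, hcen⟩ := exists_center' ξ υ hυ B hB (fun i => hBalg (υ i)) P' hP'0
  -- the relations
  choose S c hSne hc0 hSsupp hrel using fun I : {I : Finset (Fin n) // I.card = k + 1} =>
    GP.exists_rels ξ υ (k := k) (le_of_eq (GP.trdeg_over ξ hξd hL hdk)) I.1 I.2
  -- bounds for the coefficients
  choose Nα hNα hbα using fun (I : {I : Finset (Fin n) // I.card = k + 1}) (α : S I) =>
    exists_polyBd ξ Z hZ₁ halg₁ (c I α.1) (hc0 I α.1 α.2)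
  obtain ⟨Ng, hNg, hbg⟩ := exists_polyBd ξ Z hZ₁ halg₁ gc hgc
  have hpull : ∀ {N : MvPolynomial (Fin d) ℂ}, N ≠ 0 → pull Z (lead N) ∉ q := fun hN h =>
    pull_ne_zero ξ₂ Z hZ₂ (MV.lead_ne_zero hN) ((hξ₂ _).1 h)
  have hmul : ∀ {a b : MvPolynomial (Fin n) ℂ}, a ∉ q → b ∉ q → a * b ∉ q :=
    fun ha hb h => (hqp.mem_or_mem h).elim ha hb
  obtain ⟨Gs, hGs⟩ : ∃ Gs : MvPolynomial (Fin n) ℂ, Gs = G₁ * G' *
    (∏ I, ∏ α : S I, pull Z (lead (Nα I α))) * pull Z (lead Ng) := ⟨_, rfl⟩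
  have hGsq : Gs ∉ q := by
    rw [hGs]
    refine hmul (hmul (hmul hG₁ hG') ?_) (hpull hNg)
    rw [Ideal.IsPrime.prod_mem_iff (hp := hqp)]
    rintro ⟨I, _, hI⟩
    rw [Ideal.IsPrime.prod_mem_iff (hp := hqp)] at hI
    obtain ⟨α, _, hα⟩ := hI
    exact hpull (hNα I α) hα
  obtain ⟨e, hGsh⟩ : ∃ e, Gs.IsHomogeneous e := by
    have h1 : (∏ I, ∏ α : S I, pull Z (lead (Nα I α))).IsHomogeneous
        (∑ I, ∑ α : S I, (Nα I α).totalDegree) :=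
      IsHomogeneous.prod _ _ _ fun I _ => IsHomogeneous.prod _ _ _ fun α _ =>
        pull_homog Z (lead_homog _)
    rw [hGs]
    exact ⟨_, ((hG₁h.mul hG'h).mul h1).mul (pull_homog Z (lead_homog Ng))⟩
  have hGse : ∀ z : Fin n → ℂ, eval z Gs ≠ 0 → eval z G₁ ≠ 0 ∧ eval z G' ≠ 0 ∧
      (∀ I, ∀ α : S I, eval (prj Z z) (lead (Nα I α)) ≠ 0) ∧ eval (prj Z z) (lead Ng) ≠ 0 := by
    intro z hz
    rw [hGs] at hz
    simp only [map_mul, map_prod, mul_ne_zero_iff, Finset.prod_ne_zero_iff, Finset.mem_univ,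
      true_imp_iff, eval_pull] at hz
    exact ⟨hz.1.1.1, hz.1.1.2, hz.1.2, hz.2⟩
  have hconeq : ∀ z : Fin n → ℂ, z ∈ cone p → eval z Gs ≠ 0 → ∀ f ∈ q, eval z f = 0 :=
    fun z hz h => hq3 z hz (hGse z h).1
  have hLimcone : ∀ w ∈ Lim ξ υ P', w.1 ∈ cone p := by
    rintro w ⟨r, v, -, hr, hv, hx, -, -⟩
    exact ⟨r, fun ν => (v ν).1, hr, fun ν f hf => (hv ν).1.onW f ((hp f).1 hf), hx⟩
  by_contra hno
  -- no centres
  have hNo : NoCen ξ υ P' Gs := by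
    intro z hz r v hr0 hr hv hx hu
    apply hno
    have hzc : z ∈ cone p :=
      ⟨r, fun ν => (v ν).1, hr, fun ν f hf => (hv ν).1.onW f ((hp f).1 hf), hx⟩
    have hzq := hconeq z hzc hz
    obtain ⟨s, hs, hsG⟩ := hG'G z (hGse z hz).2.1
    refine ⟨s • z, fun ν => r ν / s, fun ν => (v ν).1, fun ν => (v ν).2, ?_, hsG,
      fun ν => div_pos (hr0 ν) hs, hr.atTop_div_const hs, fun ν => ⟨(hv ν).1, (hv ν).2.1,
        (hP'e _ _ (hv ν).2.2).1⟩, ?_, fun i => ?_⟩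
    · have := hcon z hzq (s : ℂ)
      exact this
    · have h1 : (fun ν => (r ν / s)⁻¹ • (v ν).1) = fun ν => s • ((r ν)⁻¹ • (v ν).1) := by
        funext ν
        rw [smul_smul, inv_div, div_eq_mul_inv]
      rw [h1]
      exact hx.const_smul s
    · have h1 : (fun ν => (r ν / s)⁻¹ * (((v ν).1 i).re - Real.log ‖(v ν).2 i‖)) =
          fun ν => s * (((r ν)⁻¹ • uu (v ν)) i) := by
        funext ν
        simp only [Pi.smul_apply, smul_eq_mul, uu, inv_div]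
        rw [div_eq_mul_inv]
        ring
      rw [h1]
      have h2 := (tendsto_pi_nhds.1 hu i).const_mul s
      simpa using h2
  -- the set of limits
  obtain ⟨A, hA⟩ : ∃ A : Set ((Fin n → ℂ) × (Fin n → ℝ)),
    A = {w | w ∈ Lim ξ υ P' ∧ eval w.1 Gs ≠ 0} := ⟨_, rfl⟩
  have hne : A.Nonempty := by
    obtain ⟨z, hz1, hz2⟩ : ∃ z : Fin n → ℂ, (∀ f ∈ q, eval z f = 0) ∧ eval z Gs ≠ 0 := by
      by_contra hcon'
      push Not at hcon'
      exact hGsq (GS.mem_of_forall_zero q Gs hcon')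
    refine ⟨(z, fun i => (z i).re), ?_⟩
    rw [hA]
    exact ⟨mem_Lim hp hn hcen (hq1 z hz1) (hbg z (hGse z hz2).2.2.2), hz2⟩
  have hsc : ∀ w ∈ A, ∀ s : ℝ, 0 < s → (s • w.1, s • w.2) ∈ A := by
    rw [hA]
    rintro w ⟨⟨r, v, hr0, hr, hv, hx, hu, C, hC⟩, hwG⟩ s hs
    refine ⟨⟨fun ν => r ν / s, v, fun ν => div_pos (hr0 ν) hs, hr.atTop_div_const hs, hv, ?_, ?_,
      C * s, fun ν => ?_⟩, ?_⟩
    · have h1 : (fun ν => (r ν / s)⁻¹ • (v ν).1) = fun ν => s • ((r ν)⁻¹ • (v ν).1) := by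
        funext ν
        rw [smul_smul, inv_div, div_eq_mul_inv]
      rw [h1]
      exact hx.const_smul s
    · have h1 : (fun ν => (r ν / s)⁻¹ • uu (v ν)) = fun ν => s • ((r ν)⁻¹ • uu (v ν)) := by
        funext ν
        rw [smul_smul, inv_div, div_eq_mul_inv]
      rw [h1]
      exact hu.const_smul s
    · have h1 : C * s * (r ν / s) = C * r ν := by field_simp
      rw [h1]
      exact hC ν
    · have h1 : (s • w.1 : Fin n → ℂ) = fun i => (s : ℂ) * w.1 i := by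
        funext i
        simp
      show eval (s • w.1) Gs ≠ 0
      rw [h1, homog_eval hGsh]
      refine mul_ne_zero (pow_ne_zero _ ?_) hwG
      exact_mod_cast hs.ne'
  have hAq : ∀ w ∈ A, ∀ f ∈ q, eval w.1 f = 0 := by
    rw [hA]
    rintro w ⟨hw, hwG⟩
    exact hconeq _ (hLimcone w hw) hwG
  have hg : ∀ R : ℝ, ∃ C : ℝ, ∀ z : Fin n → ℂ, ‖z‖ ≤ R → Real.log ‖eval z Gs‖ ≤ C := by
    intro R
    obtain ⟨C, hC⟩ := (isCompact_closedBall (0 : Fin n → ℂ) R).exists_bound_of_continuousOn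
      (f := fun z => eval z Gs) (MvPolynomial.continuous_eval Gs).continuousOn
    refine ⟨Real.log (max C 1), fun z hz => ?_⟩
    have h1 : ‖eval z Gs‖ ≤ C := hC z (by simpa using hz)
    by_cases h0 : eval z Gs = 0
    · rw [h0, norm_zero, Real.log_zero]
      exact Real.log_nonneg (le_max_right _ _)
    · exact Real.log_le_log (norm_pos_iff.2 h0) (h1.trans (le_max_left _ _))
  refine absurd_of_mmp (ι := ∀ I : {I : Finset (Fin n) // I.card = k + 1},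
    {t : S I × S I // t.1 ≠ t.2}) (κ := {I : Finset (Fin n) // I.card = k + 1}) A hne hsc q hAq
    (fun z => Real.log ‖eval z Gs‖) hg ?_
    (fun s I l => ((s I).1.1.1 l : ℤ) - ((s I).1.2.1 l : ℤ)) ?_ ?_
  · intro K ε hK hε Q z₁ ρ w₂ hw₂ hlt η hη
    rw [hA] at hw₂
    obtain ⟨w, hw, hwG, hwρ, hle⟩ := mmp hdk ξ υ Z B hCh hNo hK hε Q z₁ hw₂.1 hw₂.2 hlt hη
    refine ⟨w, ?_, hwρ, hle⟩
    rw [hA]
    exact ⟨hw, hwG⟩
  · intro w hw
    rw [hA] at hw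
    obtain ⟨hw, hwG⟩ := hw
    have h1 := hGse _ hwG
    choose α hα β' hβ' hαβ hsum using fun I => ties hw (hSne I) (hrel I)
      fun α hα => hbα I ⟨α, hα⟩ w.1 (h1.2.2.1 I ⟨α, hα⟩)
    refine ⟨fun I => ⟨(⟨α I, hα I⟩, ⟨β' I, hβ' I⟩), fun h => hαβ I (congrArg Subtype.val h)⟩,
      fun I => ?_⟩
    rw [← hsum I]
    refine Finset.sum_congr rfl fun l _ => ?_
    push_cast
    ring
  · intro s z₁ hz₁ ρ hρ
    obtain ⟨t, ht⟩ := GP.exists_rows hdk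
      (fun I l => ((s I).1.1.1 l : ℤ) - ((s I).1.2.1 l : ℤ)) (by
        intro I h0
        apply (s I).2
        apply Subtype.ext
        funext l
        have := congrFun h0 l
        simp only [Pi.zero_apply] at this
        omega) (by
        intro I i hi
        have h1 := hSsupp I _ (s I).1.1.2 i hi
        have h2 := hSsupp I _ (s I).1.2.2 i hi
        rw [h1, h2]
        simp)
    obtain ⟨ρ', h1, h2, h3⟩ := exists_sphere q hcon _ (hpp _ ht) z₁ hρ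
    refine ⟨ρ', h1, h2, fun z hz hzρ => ?_⟩
    obtain ⟨j, hj⟩ := h3 z hz hzρ
    exact ⟨t j, hj⟩

end Pool.Agent.Lib.MP_209724_lc.GE
end

section

/-!
# Density of the exponential points in varieties of dimension `n`
-/

namespace Pool.Agent.Lib.MP_209724_lc.GD

open MvPolynomial Filter Topology Metric Set
open GC (prj cone)
open GS (Ew)
open MV (lead)
open GP

variable {n d k : ℕ}

/-- **Exponential points outside of `D = 0`.** -/
theorem core_dense (hd : 0 < d) (hdk : d + (k + 1) = n) {L : Type} [Field L] [Algebra ℂ L] (ξ υ : Fin n → L)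
    (hυ : ∀ i, υ i ≠ 0)
    (hgen : ∀ z : L, IsAlgebraic (Algebra.adjoin ℂ (Set.range (Sum.elim ξ υ))) z)
    (hξd : Algebra.trdeg ℂ (IntermediateField.adjoin ℂ (Set.range ξ)) = d)
    (hL : Algebra.trdeg ℂ L = n) (p : Ideal (MvPolynomial (Fin n) ℂ))
    (hp : ∀ c, c ∈ p ↔ aeval ξ c = 0) (q : Ideal (MvPolynomial (Fin n) ℂ)) [hqp : q.IsPrime]
    (hq : Algebra.trdeg ℂ (MvPolynomial (Fin n) ℂ ⧸ q) = d)
    (hq1 : ∀ z : Fin n → ℂ, (∀ f ∈ q, eval z f = 0) → z ∈ cone p)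
    (hq2 : ∃ G ∉ q, ∀ z ∈ cone p, eval z G ≠ 0 → ∀ f ∈ q, eval z f = 0)
    (hreal : ∀ f ∉ q, ∃ η : Fin n → ℝ, (∀ h ∈ q, eval (fun i => (η i : ℂ)) h = 0) ∧
      eval (fun i => (η i : ℂ)) f ≠ 0)
    (hgp : ∀ m : Fin d → Fin n → ℤ, LinearIndependent ℤ m →
      AlgebraicIndependent ℂ fun j => Ideal.Quotient.mk q (∑ k, C (m j k : ℂ) * X k))
    (Dp : MvPolynomial (Fin n ⊕ Fin n) ℂ) (hDp : aeval (Sum.elim ξ υ) Dp ≠ 0) (M : ℝ) :
    ∃ x : Fin n → ℂ, M < ‖x‖ ∧ OnV ξ υ x (fun i => Complex.exp (x i)) ∧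
      eval (Sum.elim x fun i => Complex.exp (x i)) Dp ≠ 0 := by
  classical
  have hcone2 := hq2
  obtain ⟨G₁, hG₁, hq2⟩ := hq2
  obtain ⟨L₂, _, _, ξ₂, hξ₂, htr₂⟩ := GS.exists_generic_pt q hq
  obtain ⟨Z, hZre, hZ₁, hZ₂⟩ := exists_proj2_real ξ ξ₂ (d := d) (by rw [hξd]) (by rw [htr₂])
  set ζ₁ : Fin d → L := fun j => ∑ i, algebraMap ℂ L (Z j i) * ξ i with hζ₁
  set ζ₂ : Fin d → L₂ := fun j => ∑ i, algebraMap ℂ L₂ (Z j i) * ξ₂ i with hζ₂
  have hmem : ∀ {L : Type} [Field L] [Algebra ℂ L] (ξ : Fin n → L) (j : Fin d),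
      ∑ i, algebraMap ℂ L (Z j i) * ξ i ∈ IntermediateField.adjoin ℂ (Set.range ξ) := by
    intro L _ _ ξ j
    refine sum_mem fun i _ => mul_mem ?_ (IntermediateField.subset_adjoin _ _ ⟨i, rfl⟩)
    exact IntermediateField.algebraMap_mem _ _
  have halg₁ : ∀ i, IsAlgebraic (Algebra.adjoin ℂ (Set.range ζ₁)) (ξ i) := fun i =>
    GS.isAlgebraic_coord ξ hξd ζ₁ (hmem ξ) hZ₁ i
  have halg₂ : ∀ i, IsAlgebraic (Algebra.adjoin ℂ (Set.range ζ₂)) (ξ₂ i) := fun i =>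
    GS.isAlgebraic_coord ξ₂ htr₂ ζ₂ (hmem ξ₂) hZ₂ i
  choose F₂ D₂ hF₂ hD₂ hFD₂ using fun i => GS.exists_rel ξ₂ Z ζ₂ (fun j => rfl) hZ₂ i (halg₂ i)
  choose F₁ D₁ hF₁ hD₁ hFD₁ using fun i => GS.exists_rel ξ Z ζ₁ (fun j => rfl) hZ₁ i (halg₁ i)
  -- coordinates on `V`
  obtain ⟨B, -, hB, hBalg⟩ := exists_B ξ υ hgen (trdeg_over ξ hξd hL hdk)
  have hind := indep_sum ξ ζ₁ (hmem ξ) hZ₁ (fun j => υ (B j)) hB
  have halgV : ∀ z : L, IsAlgebraic (Algebra.adjoin ℂ (Set.range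
      (Sum.elim ζ₁ (fun j => υ (B j))))) z := fun z => alg_sum ξ ζ₁ _ halg₁ z (hBalg z)
  obtain ⟨β, hβ0, hV⟩ := exists_vchart ξ υ Z B hind fun i => halgV _
  set Dβ : MvPolynomial (Fin n ⊕ Fin n) ℂ := aeval (Sum.elim
    (fun j => ∑ i, C (Z j i) * X (Sum.inl i)) (fun j => X (Sum.inr (B j)))) β with hDβ
  have hDβe : ∀ x y : Fin n → ℂ, eval (Sum.elim x y) Dβ =
      eval (Sum.elim (prj Z x) fun j => y (B j)) β := by
    intro x y
    rw [hDβ, ← MvPolynomial.aeval_eq_eval, ← MvPolynomial.aeval_eq_eval, ← AlgHom.comp_apply,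
      MvPolynomial.comp_aeval]
    congr 2
    funext j
    rcases j with j | j
    · simp [prj]
    · simp
  have hDβ0 : aeval (Sum.elim ξ υ) Dβ ≠ 0 := by
    have h1 : aeval (Sum.elim ξ υ) Dβ = aeval (Sum.elim ζ₁ fun j => υ (B j)) β := by
      rw [hDβ, ← AlgHom.comp_apply, MvPolynomial.comp_aeval]
      congr 2
      funext j
      rcases j with j | j
      · simp [hζ₁]
      · simp
    rw [h1]
    intro h0
    exact hβ0 ((algebraicIndependent_iff.mp hind) β h0)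
  obtain ⟨gc, Cc, Nc, hgc, hcen⟩ := exists_center ξ υ hυ B hB (fun i => hBalg (υ i)) Dβ hDβ0
  -- the relations
  choose S c hSne hc0 hSsupp hrel using fun I : {I : Finset (Fin n) // I.card = k + 1 + 1} =>
    exists_rels ξ υ (k := k + 1) (le_of_eq (trdeg_over ξ hξd hL hdk)) I.1 I.2
  obtain ⟨G₂, hG₂, hsel⟩ := exists_sel_poly hdk q hq hgp S hSsupp
  choose S' c' hSne' hc0' hSsupp' hrel' using fun I : {I : Finset (Fin n) // I.card = k + 1} =>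
    exists_rels_D ξ υ (k := k + 1) (trdeg_over ξ hξd hL hdk) Dp hDp I.1 I.2
  obtain ⟨G₃, hG₃, hsel'⟩ := exists_sel_poly2 hdk q hq hgp S' hSsupp'
  -- the polynomial which does not vanish on the sheets
  set gt : MvPolynomial (Fin n) ℂ := gc * (∏ i, D₁ i) * (∏ I, ∏ α ∈ S I, c I α) *
    ∏ I, ∏ α ∈ S' I, c' I α with hgt
  have hgt0 : aeval ξ gt ≠ 0 := by
    rw [hgt]
    simp only [map_mul, map_prod]
    refine mul_ne_zero (mul_ne_zero (mul_ne_zero hgc ?_) ?_) ?_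
    · exact Finset.prod_ne_zero_iff.2 fun i _ => hD₁ i
    · exact Finset.prod_ne_zero_iff.2 fun I _ => Finset.prod_ne_zero_iff.2 fun α hα => hc0 I α hα
    · exact Finset.prod_ne_zero_iff.2 fun I _ => Finset.prod_ne_zero_iff.2 fun α hα => hc0' I α hα
  obtain ⟨βf, hβf, hfam⟩ := GS.exists_family p ξ hp Z ζ₁ (fun j => rfl) hZ₁ halg₁ gt
    (fun h => hgt0 ((hp _).1 h))
  -- bounds for the coefficients
  choose Nα hNα hbα using fun (I : {I : Finset (Fin n) // I.card = k + 1 + 1}) (α : S I) =>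
    coeff_bounds ξ Z hZ₁ halg₁ (c I α.1) (hc0 I α.1 α.2)
  choose Nβ hNβ hbβ using fun (I : {I : Finset (Fin n) // I.card = k + 1}) (α : S' I) =>
    coeff_bounds ξ Z hZ₁ halg₁ (c' I α.1) (hc0' I α.1 α.2)
  obtain ⟨Ng, hNg, hbg⟩ := coeff_bounds ξ Z hZ₁ halg₁ gc hgc
  -- a coordinate which is not in `q`
  obtain ⟨k₀, hk₀⟩ : ∃ k₀ : Fin n, (X k₀ : MvPolynomial (Fin n) ℂ) ∉ q := by
    by_contra hcon
    push Not at hcon
    have h1 : ∀ i, ξ₂ i = 0 := by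
      intro i
      have := (hξ₂ (X i)).1 (hcon i)
      rwa [aeval_X] at this
    have h2 : ζ₂ ⟨0, hd⟩ = 0 := by
      rw [hζ₂]
      simp [h1]
    exact hZ₂.ne_zero _ h2
  -- the point
  have hpull : ∀ {N : MvPolynomial (Fin d) ℂ}, N ≠ 0 → pull Z (lead N) ∉ q := fun hN h =>
    pull_ne_zero ξ₂ Z hZ₂ (MV.lead_ne_zero hN) ((hξ₂ _).1 h)
  have hmul : ∀ {a b : MvPolynomial (Fin n) ℂ}, a ∉ q → b ∉ q → a * b ∉ q :=
    fun ha hb h => (hqp.mem_or_mem h).elim ha hb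
  set pt : MvPolynomial (Fin n) ℂ := G₁ * G₂ * (∏ i, D₂ i) * pull Z (lead βf) *
    (∏ I, ∏ α : S I, pull Z (lead (Nα I α))) * pull Z (lead Ng) * X k₀ *
    (G₃ * ∏ I, ∏ α : S' I, pull Z (lead (Nβ I α))) with hpt
  have hptq : pt ∉ q := by
    refine hmul (hmul (hmul (hmul (hmul (hmul (hmul hG₁ hG₂) ?_) (hpull hβf)) ?_) (hpull hNg)) hk₀)
      (hmul hG₃ ?_)
    · rw [Ideal.IsPrime.prod_mem_iff (hp := hqp)]
      rintro ⟨i, _, hi⟩
      exact hD₂ i ((hξ₂ _).1 hi)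
    · rw [Ideal.IsPrime.prod_mem_iff (hp := hqp)]
      rintro ⟨I, _, hI⟩
      rw [Ideal.IsPrime.prod_mem_iff (hp := hqp)] at hI
      obtain ⟨α, _, hα⟩ := hI
      exact hpull (hNα I α) hα
    · rw [Ideal.IsPrime.prod_mem_iff (hp := hqp)]
      rintro ⟨I, _, hI⟩
      rw [Ideal.IsPrime.prod_mem_iff (hp := hqp)] at hI
      obtain ⟨α, _, hα⟩ := hI
      exact hpull (hNβ I α) hα
  obtain ⟨z₀, hz₀re, hz₀q, hz₀p⟩ := exists_imag p q hq1 hcone2 hreal pt hptq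
  have hz₀c : z₀ ∈ cone p := hq1 z₀ hz₀q
  rw [hpt] at hz₀p
  simp only [map_mul, map_prod, mul_ne_zero_iff, Finset.prod_ne_zero_iff, Finset.mem_univ,
    true_imp_iff, eval_X, eval_pull] at hz₀p
  obtain ⟨⟨⟨⟨⟨⟨⟨hG₁z, hG₂z⟩, hDz⟩, hβz⟩, hNz⟩, hNgz⟩, hkz⟩, hG₃z, hNz'⟩ := hz₀p
  have hz₀0 : z₀ ≠ 0 := fun h => hkz (congrFun h k₀)
  -- the chart
  have hlin : LinearIndependent ℂ Z := GS.linearIndependent_rows ξ₂ Z hZ₂
  obtain ⟨σ, hσ⟩ := GS.exists_sigma hdk Z hlin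
  have hFq : ∀ i, F₂ i ∈ q := fun i => (hξ₂ _).2 (hF₂ i)
  obtain ⟨H, ρ₁, r₀, ρ, hρ, hρρ₁, hr₀, hHd, hHw, hZH, hr₀Z, huniq, hHshell⟩ :=
    GS.exists_chart2 hdk (cone p) z₀ hz₀c (fun l => G₁ * F₂ (σ l)) (by
      intro l w' hw'
      rw [map_mul]
      by_cases h : eval w' G₁ = 0
      · rw [h, zero_mul]
      · rw [hq2 w' hw' h _ (hFq _), mul_zero]) Z (by
      intro b hb hbZ
      refine hσ b hbZ fun l => ?_
      have h1 := hb l
      have h2 : ∑ i, b i * eval z₀ (pderiv i (G₁ * F₂ (σ l))) =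
          eval z₀ G₁ * ∑ i, b i * eval z₀ (pderiv i (F₂ (σ l))) := by
        rw [Finset.mul_sum]
        refine Finset.sum_congr rfl fun i _ => ?_
        rw [pderiv_mul, map_add, map_mul, map_mul, hz₀q _ (hFq _)]
        ring
      rw [h2, hFD₂ _ _ _ hbZ] at h1
      rcases mul_eq_zero.1 h1 with h3 | h3
      · exact absurd h3 hG₁z
      · rcases mul_eq_zero.1 h3 with h4 | h4
        · exact h4
        · exact absurd h4 (hDz _))
  have hclose := GC.closeness p z₀ Z H hHd.continuousOn hr₀Z huniq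
  obtain ⟨ρ', r, X', hρ', hρ'ρ, hr0, hr, hXd, hXp, hXH⟩ :=
    hfam z₀ hz₀c hβz H ρ r₀ hρ hr₀ hHshell hclose
  -- a smaller ball
  have hHdρ : DifferentiableOn ℂ H (ball (prj Z z₀) ρ₁) := hHd.differentiableOn (by simp)
  have hHc : ContinuousAt H (prj Z z₀) :=
    hHd.continuousOn.continuousAt (isOpen_ball.mem_nhds (mem_ball_self (hρ.trans_le hρρ₁)))
  have hHc' : Tendsto H (𝓝 (prj Z z₀)) (𝓝 z₀) := by
    have := hHc.tendsto
    rwa [hHw] at this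
  have hev : ∀ᶠ z in 𝓝 (prj Z z₀), ((eval (H z) G₁ ≠ 0 ∧ eval (H z) G₂ ≠ 0 ∧
      ‖z₀‖ / 2 < ‖H z‖) ∧ (eval z (lead Ng) ≠ 0 ∧ ∀ I, ∀ α : S I, eval z (lead (Nα I α)) ≠ 0)) ∧
      (eval (H z) G₃ ≠ 0 ∧ ∀ i, eval (H z) (D₂ i) ≠ 0) ∧
      ∀ I, ∀ α : S' I, eval z (lead (Nβ I α)) ≠ 0 := by
    refine Filter.Eventually.and (Filter.Eventually.and ?_ ?_) (Filter.Eventually.and
      (Filter.Eventually.and ?_ ?_) ?_)
    · refine ((((MvPolynomial.continuous_eval G₁).tendsto z₀).comp hHc').eventually_ne hG₁z).and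
        (((((MvPolynomial.continuous_eval G₂).tendsto z₀).comp hHc').eventually_ne hG₂z).and ?_)
      exact hHc'.norm.eventually_const_lt (half_lt_self (norm_pos_iff.2 hz₀0))
    · refine Filter.Eventually.and ?_ ?_
      · exact (MvPolynomial.continuous_eval (lead Ng)).continuousAt.eventually_ne hNgz
      · rw [Filter.eventually_all]
        intro I
        rw [Filter.eventually_all]
        intro α
        exact (MvPolynomial.continuous_eval (lead (Nα I α))).continuousAt.eventually_ne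
          (hNz I α)
    · exact (((MvPolynomial.continuous_eval G₃).tendsto z₀).comp hHc').eventually_ne hG₃z
    · rw [Filter.eventually_all]
      intro i
      exact (((MvPolynomial.continuous_eval (D₂ i)).tendsto z₀).comp hHc').eventually_ne (hDz i)
    · rw [Filter.eventually_all]
      intro I
      rw [Filter.eventually_all]
      intro α
      exact (MvPolynomial.continuous_eval (lead (Nβ I α))).continuousAt.eventually_ne
        (hNz' I α)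
  obtain ⟨ρa, hρa, hρaB⟩ := Metric.nhds_basis_closedBall.mem_iff.mp hev
  set ρ₂ : ℝ := min ρ' ρa with hρ₂
  have hρ₂0 : 0 < ρ₂ := lt_min hρ' hρa
  have hb1 : ball (prj Z z₀) ρ₂ ⊆ ball (prj Z z₀) ρ' := ball_subset_ball (min_le_left _ _)
  have hb2 : ball (prj Z z₀) ρ₂ ⊆ closedBall (prj Z z₀) ρa :=
    (ball_subset_ball (min_le_right _ _)).trans ball_subset_closedBall
  have hb3 : ball (prj Z z₀) ρ₂ ⊆ ball (prj Z z₀) ρ := hb1.trans (ball_subset_ball hρ'ρ)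
  have hb4 : ball (prj Z z₀) ρ₂ ⊆ ball (prj Z z₀) ρ₁ := hb3.trans (ball_subset_ball hρρ₁)
  have hHq : ∀ z ∈ ball (prj Z z₀) ρ₂, ∀ f ∈ q, eval (H z) f = 0 := by
    intro z hz
    refine hq2 (H z) ?_ (hρaB (hb2 hz)).1.1.1
    refine ⟨r, fun ν i => (r ν : ℂ) * X' ν z i, hr, fun ν => (hXp ν z (hb1 hz)).1, ?_⟩
    have h1 : (fun ν => (r ν)⁻¹ • fun i => (r ν : ℂ) * X' ν z i) = fun ν => X' ν z := by
      funext ν i
      have : (r ν : ℂ) ≠ 0 := by exact_mod_cast (hr0 ν).ne'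
      simp only [Pi.smul_apply, Complex.real_smul, Complex.ofReal_inv]
      field_simp
    rw [h1, tendsto_iff_norm_sub_tendsto_zero, Metric.tendsto_atTop]
    intro ε hε
    obtain ⟨N, hN⟩ := eventually_atTop.1 (hXH (ε / 2) (half_pos hε))
    refine ⟨N, fun ν hν => ?_⟩
    rw [Real.dist_eq, sub_zero, abs_of_nonneg (norm_nonneg _)]
    exact (hN ν hν z (hb1 hz)).trans_lt (half_lt_self hε)
  -- a generic purely imaginary point
  have hdn : d ≤ n := by omega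
  have hb5 : ball (prj Z z₀) (ρ₂ / 2) ⊆ ball (prj Z z₀) ρ₂ := ball_subset_ball (by linarith)
  have hx₀re : ∀ j, (prj Z z₀ j).re = 0 := by
    intro j
    simp only [prj, Complex.re_sum, Complex.mul_re, hz₀re, hZre, mul_zero, zero_mul, sub_zero,
      Finset.sum_const_zero]
  obtain ⟨t₁, ht₁, ht₁re, ht₁m⟩ := exists_generic_imag H hx₀re (half_pos hρ₂0)
    (hHd.mono (hb5.trans hb4)) (fun m hm => exists_move hd hdn q hq hgp ξ₂ hξ₂ Z hZ₂ halg₂ H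
      (half_pos hρ₂0) (hHdρ.mono (hb5.trans hb4)) (fun z hz => hHq z (hb5 hz))
      (fun z hz => hZH z (hb4 (hb5 hz))) m hm)
  have ht₁b : t₁ ∈ ball (prj Z z₀) ρ₂ := hb5 ht₁
  have hH₁re : ∀ i, (H t₁ i).re = 0 := by
    refine chart_imag q Z hZre (cone p) hq1 (conj_zero p q hq1 hcone2 hreal) H z₀ hz₀re (r₀ := r₀)
      huniq ht₁re (hHq t₁ ht₁b) (hZH t₁ (hb4 ht₁b)) ?_
    have h1 := hHshell t₁ (hb3 ht₁b)
    linarith
  -- the Euclidean ball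
  set t₀ : Ew d := WithLp.toLp 2 t₁ with ht₀
  obtain ⟨ρ₃, hρ₃⟩ : ∃ ρ₃ : ℝ, ρ₃ = ρ₂ / 2 := ⟨_, rfl⟩
  have hρ₃0 : 0 < ρ₃ := by rw [hρ₃]; exact half_pos hρ₂0
  have hball : ∀ t : Ew d, t ∈ ball t₀ ρ₃ → WithLp.ofLp t ∈ ball (prj Z z₀) ρ₂ := by
    intro t ht
    have h1 : ‖WithLp.ofLp t - t₁‖ ≤ ‖t - t₀‖ := by
      rw [pi_norm_le_iff_of_nonneg (norm_nonneg _)]
      intro i
      exact PiLp.norm_apply_le (t - t₀) i
    have h2 : dist (WithLp.ofLp t) (prj Z z₀) ≤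
        dist (WithLp.ofLp t) t₁ + dist t₁ (prj Z z₀) := dist_triangle _ _ _
    rw [mem_ball] at ht₁
    rw [mem_ball, dist_eq_norm, hρ₃] at ht
    rw [mem_ball]
    rw [dist_eq_norm (WithLp.ofLp t) t₁] at h2
    linarith
  have hofLp : Differentiable ℂ (fun t : Ew d => (WithLp.ofLp t : Fin d → ℂ)) :=
    (PiLp.continuousLinearEquiv 2 ℂ (fun _ : Fin d => ℂ)).differentiable
  set X : ℕ → Ew d → Fin n → ℂ := fun ν t => X' ν (WithLp.ofLp t) with hX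
  set He : Ew d → Fin n → ℂ := fun t => H (WithLp.ofLp t) with hHe
  have hXde : ∀ ν, DifferentiableOn ℂ (X ν) (ball t₀ ρ₃) := fun ν =>
    ((hXd ν).mono hb1).comp hofLp.differentiableOn fun t ht => hball t ht
  have hHde : DifferentiableOn ℂ He (ball t₀ ρ₃) :=
    (hHdρ.mono hb4).comp hofLp.differentiableOn fun t ht => hball t ht
  have hXHe : ∀ ε : ℝ, 0 < ε → ∀ᶠ ν in atTop, ∀ t ∈ ball t₀ ρ₃, ‖X ν t - He t‖ ≤ ε :=
    fun ε hε => (hXH ε hε).mono fun ν h t ht => h _ (hb1 (hball t ht))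
  have hsmulX : ∀ ν t, (r ν : ℂ) • X ν t = fun i => (r ν : ℂ) * X' ν (WithLp.ofLp t) i :=
    fun ν t => rfl
  have hXW : ∀ ν, ∀ t ∈ ball t₀ ρ₃, OnW ξ ((r ν : ℂ) • X ν t) := by
    intro ν t ht f hf
    rw [hsmulX]
    exact (hXp ν _ (hb1 (hball t ht))).1 f ((hp f).2 hf)
  have hXZ : ∀ ν, ∀ t ∈ ball t₀ ρ₃, ∀ j, prj Z (X ν t) j = t j := by
    intro ν t ht j
    exact congrFun (hXp ν _ (hb1 (hball t ht))).2.2 j
  have hXgt : ∀ ν, ∀ t ∈ ball t₀ ρ₃,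
      eval ((r ν : ℂ) • X ν t) gc ≠ 0 ∧ (∀ i, eval ((r ν : ℂ) • X ν t) (D₁ i) ≠ 0) ∧
      (∀ I, ∀ α ∈ S I, eval ((r ν : ℂ) • X ν t) (c I α) ≠ 0) ∧
      ∀ I, ∀ α ∈ S' I, eval ((r ν : ℂ) • X ν t) (c' I α) ≠ 0 := by
    intro ν t ht
    have h1 := (hXp ν _ (hb1 (hball t ht))).2.1
    rw [← hsmulX, hgt] at h1
    simp only [map_mul, map_prod, mul_ne_zero_iff, Finset.prod_ne_zero_iff, Finset.mem_univ,
      true_imp_iff] at h1
    exact ⟨h1.1.1.1, h1.1.1.2, h1.1.2, h1.2⟩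
  -- the size of the points
  obtain ⟨R, hR⟩ : ∃ R : ℝ, R = ‖z₀‖ + r₀ / 2 + 1 := ⟨_, rfl⟩
  have hR0 : 0 ≤ R := by
    rw [hR]
    positivity
  have hXR : ∀ᶠ ν in atTop, ∀ t ∈ ball t₀ ρ₃, ‖(r ν : ℂ) • X ν t‖ ≤ R * r ν := by
    filter_upwards [hXHe 1 one_pos] with ν h1 t ht
    have h2 := h1 t ht
    have h3 := hHshell _ (hb3 (hball t ht))
    have h4 : ‖X ν t‖ ≤ R := by
      have h5 : X ν t = (X ν t - He t) + ((He t - z₀) + z₀) := by abel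
      rw [h5]
      refine (norm_add_le _ _).trans ?_
      have h6 := norm_add_le (He t - z₀) z₀
      have h7 : ‖He t - z₀‖ < r₀ / 2 := h3
      rw [hR]
      linarith
    rw [norm_smul, Complex.norm_real, Real.norm_eq_abs, abs_of_pos (hr0 ν), mul_comm]
    exact mul_le_mul_of_nonneg_right h4 (hr0 ν).le
  have hDc : IsCompact (closedBall (prj Z z₀) ρa) := isCompact_closedBall _ _
  choose Cα hCα using fun (I : {I : Finset (Fin n) // I.card = k + 1 + 1}) (α : S I) =>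
    hbα I α (closedBall (prj Z z₀) ρa) hDc (fun t ht => (hρaB ht).1.2.2 I α) R
  choose Cβ hCβ using fun (I : {I : Finset (Fin n) // I.card = k + 1}) (α : S' I) =>
    hbβ I α (closedBall (prj Z z₀) ρa) hDc (fun t ht => (hρaB ht).2.2 I α) R
  obtain ⟨Cg, hCg⟩ := hbg (closedBall (prj Z z₀) ρa) hDc (fun t ht => (hρaB ht).1.2.1) R
  obtain ⟨Ct, hCt⟩ : ∃ Ct : ℕ, Ct = ∑ I, ∑ α : S I, Cα I α := ⟨_, rfl⟩
  have hprjX : ∀ ν, ∀ t ∈ ball t₀ ρ₃, ∀ j, prj Z ((r ν : ℂ) • X ν t) j =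
      (r ν : ℂ) * WithLp.ofLp t j := by
    intro ν t ht j
    rw [← hXZ ν t ht j]
    simp only [prj, Finset.mul_sum, Pi.smul_apply, smul_eq_mul]
    refine Finset.sum_congr rfl fun i _ => ?_
    ring
  have hcb : ∀ I, ∀ α ∈ S I, ∀ᶠ ν in atTop, ∀ t ∈ ball t₀ ρ₃,
      (r ν ^ Ct)⁻¹ ≤ ‖eval ((r ν : ℂ) • X ν t) (c I α)‖ ∧
        ‖eval ((r ν : ℂ) • X ν t) (c I α)‖ ≤ r ν ^ Ct := by
    intro I α hα
    filter_upwards [hr.eventually (hCα I ⟨α, hα⟩), hXR, hr.eventually_ge_atTop 1]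
      with ν h1 h2 h3 t ht
    have h4 := h1 _ (hXW ν t ht) (h2 t ht) (WithLp.ofLp t) (hb2 (hball t ht)) (hprjX ν t ht)
    have h5 : Cα I ⟨α, hα⟩ ≤ Ct := by
      rw [hCt]
      refine le_trans ?_ (Finset.single_le_sum (f := fun I => ∑ α : S I, Cα I α)
        (fun _ _ => Nat.zero_le _) (Finset.mem_univ I))
      exact Finset.single_le_sum (f := fun α : S I => Cα I α) (fun _ _ => Nat.zero_le _)
        (Finset.mem_univ _)
    have h6 : r ν ^ Cα I ⟨α, hα⟩ ≤ r ν ^ Ct := pow_le_pow_right₀ h3 h5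
    refine ⟨le_trans ?_ h4.1, h4.2.trans h6⟩
    exact inv_anti₀ (pow_pos (hr0 ν) _) h6
  obtain ⟨Cs, hCs⟩ : ∃ Cs : ℕ, Cs = ∑ I, ∑ α : S' I, Cβ I α := ⟨_, rfl⟩
  have hcb' : ∀ I, ∀ α ∈ S' I, ∀ᶠ ν in atTop, ∀ t ∈ ball t₀ ρ₃,
      (r ν ^ Cs)⁻¹ ≤ ‖eval ((r ν : ℂ) • X ν t) (c' I α)‖ ∧
        ‖eval ((r ν : ℂ) • X ν t) (c' I α)‖ ≤ r ν ^ Cs := by
    intro I α hα
    filter_upwards [hr.eventually (hCβ I ⟨α, hα⟩), hXR, hr.eventually_ge_atTop 1]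
      with ν h1 h2 h3 t ht
    have h4 := h1 _ (hXW ν t ht) (h2 t ht) (WithLp.ofLp t) (hb2 (hball t ht)) (hprjX ν t ht)
    have h5 : Cβ I ⟨α, hα⟩ ≤ Cs := by
      rw [hCs]
      refine le_trans ?_ (Finset.single_le_sum (f := fun I => ∑ α : S' I, Cβ I α)
        (fun _ _ => Nat.zero_le _) (Finset.mem_univ I))
      exact Finset.single_le_sum (f := fun α : S' I => Cβ I α) (fun _ _ => Nat.zero_le _)
        (Finset.mem_univ _)
    have h6 : r ν ^ Cβ I ⟨α, hα⟩ ≤ r ν ^ Cs := pow_le_pow_right₀ h3 h5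
    refine ⟨le_trans ?_ h4.1, h4.2.trans h6⟩
    exact inv_anti₀ (pow_pos (hr0 ν) _) h6
  -- the centers
  have ht₀b : t₀ ∈ ball t₀ ρ₃ := mem_ball_self hρ₃0
  obtain ⟨A, hAd⟩ : ∃ A : ℕ → ℝ, A = fun ν =>
      Cc * (1 + ‖(r ν : ℂ) • X ν t₀‖) ^ Nc / ‖eval ((r ν : ℂ) • X ν t₀) gc‖ := ⟨_, rfl⟩
  have hcenν : ∀ ν, ∃ y : Fin n → ℂ, OnV ξ υ ((r ν : ℂ) • X ν t₀) y ∧
      eval (Sum.elim (prj Z ((r ν : ℂ) • X ν t₀)) fun j => y (B j)) β ≠ 0 ∧ (∀ i, y i ≠ 0) ∧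
      ∀ i, ‖y i‖ ≤ A ν ∧ ‖(y i)⁻¹‖ ≤ A ν := by
    intro ν
    obtain ⟨y, h1, h2, h3, h4⟩ := hcen _ (hXW ν t₀ ht₀b) (hXgt ν t₀ ht₀b).1
    refine ⟨y, h1, ?_, h3, fun i => ?_⟩
    · rw [← hDβe]
      exact h2
    · rw [hAd]
      exact h4 i
  have hn : 0 < n := by omega
  have hA : ∀ ε : ℝ, 0 < ε → ∀ᶠ ν in atTop, Real.log (A ν) ≤ ε * r ν := by
    intro ε hε
    filter_upwards [log_growth Cc Nc Cg R r hr ε hε, hXR, hr.eventually hCg] with ν h1 h2 h3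
    refine le_trans ?_ h1
    obtain ⟨y, -, -, hy0, hyA⟩ := hcenν ν
    have hApos : 0 < A ν := lt_of_lt_of_le (norm_pos_iff.2 (hy0 ⟨0, hn⟩)) (hyA ⟨0, hn⟩).1
    refine Real.log_le_log hApos ?_
    have h4 := (h3 _ (hXW ν t₀ ht₀b) (h2 t₀ ht₀b) (WithLp.ofLp t₀) (hb2 (hball t₀ ht₀b))
      (hprjX ν t₀ ht₀b)).1
    have h5 := h2 t₀ ht₀b
    rw [hAd]
    have hinv : 0 < (r ν ^ Cg)⁻¹ := inv_pos.2 (pow_pos (hr0 ν) _)
    have hrν := hr0 ν
    have hRabs : |R| = R := abs_of_nonneg hR0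
    have h6 : (1 + ‖(r ν : ℂ) • X ν t₀‖) ^ Nc ≤ (1 + |R| * r ν) ^ Nc := by
      refine pow_le_pow_left₀ (by positivity) ?_ _
      rw [hRabs]
      linarith
    have h7 : Cc * (1 + ‖(r ν : ℂ) • X ν t₀‖) ^ Nc ≤ max Cc 1 * (1 + |R| * r ν) ^ Nc :=
      mul_le_mul (le_max_left _ _) h6 (by positivity) (le_trans zero_le_one (le_max_right _ _))
    exact div_le_div₀ (by positivity) h7 hinv h4
  -- the derivative
  have hfde : ∀ t ∈ ball t₀ ρ₃, ∀ b : Ew d,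
      fderiv ℂ He t b = fderiv ℂ H (WithLp.ofLp t) (WithLp.ofLp b) := by
    intro t ht b
    have hdiff : DifferentiableAt ℂ H (WithLp.ofLp t) :=
      hHdρ.differentiableAt (isOpen_ball.mem_nhds (hb4 (hball t ht)))
    have h1 : HasFDerivAt He ((fderiv ℂ H (WithLp.ofLp t)).comp
        (PiLp.continuousLinearEquiv 2 ℂ (fun _ : Fin d => ℂ) : Ew d →L[ℂ] (Fin d → ℂ))) t :=
      HasFDerivAt.comp t (g := H) hdiff.hasFDerivAt
        (PiLp.continuousLinearEquiv 2 ℂ (fun _ : Fin d => ℂ)).hasFDerivAt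
    rw [h1.fderiv]
    rfl
  have htan : ∀ b : Fin d → ℂ, ∀ f ∈ q,
      ∑ i, fderiv ℂ H t₁ b i * eval (H t₁) (pderiv i f) = 0 := fun b f hf =>
    GS.chart_tangent q H (hHdρ.mono hb4) hHq ht₁b b hf
  have htan2 : ∀ v : Fin n → ℂ, (∀ f ∈ q, ∑ i, v i * eval (H t₁) (pderiv i f) = 0) →
      fderiv ℂ H t₁ (prj Z v) = v := fun v hv =>
    tangent_eq q Z H (hHdρ.mono hb4) hHq (fun z hz => hZH z (hb4 hz)) F₂ D₂ hFq hFD₂ ht₁b
      (hρaB (hb2 ht₁b)).2.1.2 v hv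
  have ht₀₁ : WithLp.ofLp t₀ = t₁ := rfl
  obtain ⟨bv, hbv⟩ := hsel' (H t₁) (hHq t₁ ht₁b) (hρaB (hb2 ht₁b)).2.1.1
  -- the selections
  have hselt : ∀ t, ‖t - t₀‖ ≤ ρ₃ / 2 → ∀ b : Ew d,
      ∀ α β : {I : Finset (Fin n) // I.card = k + 1 + 1} → Fin n → ℕ,
      (∀ j, α j ∈ S j ∧ β j ∈ S j ∧ α j ≠ β j) →
      (∀ j, ∑ i, ((α j i : ℂ) - β j i) * fderiv ℂ He t b i = 0) → b = 0 := by
    intro t ht b α β' hαβ hb
    have htb : t ∈ ball t₀ ρ₃ := by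
      rw [mem_ball, dist_eq_norm]
      linarith
    have htb' := hball t htb
    have h1 : fderiv ℂ H (WithLp.ofLp t) (WithLp.ofLp b) = 0 := by
      refine hsel (H (WithLp.ofLp t)) (hHq _ htb') (hρaB (hb2 htb')).1.1.2.1 _ ?_ α β' hαβ ?_
      · intro f hf
        exact GS.chart_tangent q H (hHdρ.mono hb4) hHq htb' (WithLp.ofLp b) hf
      · intro I
        have h2 := hb I
        rw [hfde t htb b] at h2
        exact h2
    have h3 := GS.chart_injective Z H (hHdρ.mono hb4) (fun z hz => hZH z (hb4 hz)) htb'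
      (WithLp.ofLp b) h1
    have h4 : b = WithLp.toLp 2 (WithLp.ofLp b) := rfl
    rw [h4, h3]
    rfl
  have hloc := local_dense ξ υ Z B (finSumFinEquiv.trans (finCongr hdk)) β hV t₀
    (δ := ρ₃ / 2) (half_pos hρ₃0) (half_lt_self hρ₃0) r hr0 hr X hXde He hHde hXHe hXW hXZ F₁ D₁ hF₁
    hFD₁ (fun ν t ht => (hXgt ν t ht).2.1) S hSne c hrel Ct hcb
    (fun ν I α hα t ht => (hXgt ν t ht).2.2.1 I α hα) hselt A hA hcenν (by
      intro i
      exact hH₁re i) Dp S' hSne' c' hrel' Cs hcb'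
    (fun ν I α hα t ht => (hXgt ν t ht).2.2.2 I α hα) bv (by
      intro ζ s α β' hαβ hb
      obtain ⟨h1, h2⟩ := hbv (fderiv ℂ H t₁ (WithLp.ofLp ζ)) s (htan _) α β' hαβ (by
        intro I
        have h3 := hb I
        rw [hfde t₀ ht₀b ζ, ht₀₁] at h3
        exact h3)
      refine ⟨?_, h2⟩
      have h3 := GS.chart_injective Z H (hHdρ.mono hb4) (fun z hz => hZH z (hb4 hz)) ht₁b
        (WithLp.ofLp ζ) h1
      have h4 : ζ = WithLp.toLp 2 (WithLp.ofLp ζ) := rfl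
      rw [h4, h3]
      rfl) (by
      intro ζ
      have h1 := conj_tangent p q hq1 hcone2 hreal (H t₁) hH₁re
        (fderiv ℂ H t₁ (WithLp.ofLp ζ)) (htan _)
      refine ⟨WithLp.toLp 2 (prj Z fun i => (starRingEnd ℂ) (fderiv ℂ H t₁ (WithLp.ofLp ζ) i)),
        fun i => ?_⟩
      rw [hfde t₀ ht₀b, hfde t₀ ht₀b, ht₀₁]
      exact congrFun (htan2 _ h1) i) (by
      intro m hm
      obtain ⟨b, hb⟩ := ht₁m m hm
      refine ⟨WithLp.toLp 2 b, ?_⟩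
      rw [hfde t₀ ht₀b, ht₀₁]
      exact hb)
  -- large points
  have hlarge : ∀ᶠ ν in atTop, ∀ t ∈ ball t₀ ρ₃, M < ‖(r ν : ℂ) • X ν t‖ := by
    have hz₀n : 0 < ‖z₀‖ := norm_pos_iff.2 hz₀0
    filter_upwards [hXHe (‖z₀‖ / 4) (by positivity), hr.eventually_gt_atTop (4 * M / ‖z₀‖)]
      with ν h1 h2 t ht
    have h3 := h1 t ht
    have h4 : ‖z₀‖ / 2 < ‖He t‖ := (hρaB (hb2 (hball t ht))).1.1.2.2
    have h5 : ‖z₀‖ / 4 < ‖X ν t‖ := by
      have h6 : ‖He t‖ ≤ ‖X ν t - He t‖ + ‖X ν t‖ := by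
        have h7 : He t = -(X ν t - He t) + X ν t := by abel
        calc ‖He t‖ = ‖-(X ν t - He t) + X ν t‖ := by rw [← h7]
          _ ≤ _ := by
            refine (norm_add_le _ _).trans ?_
            rw [norm_neg]
      linarith
    rw [norm_smul, Complex.norm_real, Real.norm_eq_abs, abs_of_pos (hr0 ν)]
    rw [div_lt_iff₀ hz₀n] at h2
    have h7 := hr0 ν
    nlinarith
  obtain ⟨ν, ⟨t, ht, hx, hxD⟩, hM⟩ := (hloc.and_eventually hlarge).exists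
  have htb : t ∈ ball t₀ ρ₃ := by
    rw [mem_ball, dist_eq_norm]
    linarith
  exact ⟨(r ν : ℂ) • X ν t, hM t htb, hx, hxD⟩

end Pool.Agent.Lib.MP_209724_lc.GD
end

section

/-!
# Zariski density of the exponential points in all varieties over a variety in general position at
infinity
-/

namespace Pool.Agent.Lib.MP_209724_lc.GD

open MvPolynomial Filter Topology Metric Set
open GC (prj cone)
open GP (OnV OnW)

variable {n d : ℕ}

/-- Exponential points outside of `D = 0`, for all values of `k = n - d`. -/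
theorem core_all {k : ℕ} (hd : 0 < d) (hdk : d + k = n) {L : Type} [Field L] [Algebra ℂ L]
    (ξ υ : Fin n → L) (hυ : ∀ i, υ i ≠ 0)
    (hgen : ∀ z : L, IsAlgebraic (Algebra.adjoin ℂ (Set.range (Sum.elim ξ υ))) z)
    (hξd : Algebra.trdeg ℂ (IntermediateField.adjoin ℂ (Set.range ξ)) = d)
    (hL : Algebra.trdeg ℂ L = n) (p : Ideal (MvPolynomial (Fin n) ℂ))
    (hp : ∀ c, c ∈ p ↔ aeval ξ c = 0) (q : Ideal (MvPolynomial (Fin n) ℂ)) [hqp : q.IsPrime]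
    (hq : Algebra.trdeg ℂ (MvPolynomial (Fin n) ℂ ⧸ q) = d)
    (hq1 : ∀ z : Fin n → ℂ, (∀ f ∈ q, eval z f = 0) → z ∈ cone p)
    (hq2 : ∃ G ∉ q, ∀ z ∈ cone p, eval z G ≠ 0 → ∀ f ∈ q, eval z f = 0)
    (hreal : ∀ f ∉ q, ∃ η : Fin n → ℝ, (∀ h ∈ q, eval (fun i => (η i : ℂ)) h = 0) ∧
      eval (fun i => (η i : ℂ)) f ≠ 0)
    (hgp : ∀ m : Fin d → Fin n → ℤ, LinearIndependent ℤ m →
      AlgebraicIndependent ℂ fun j => Ideal.Quotient.mk q (∑ k, C (m j k : ℂ) * X k))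
    (Dp : MvPolynomial (Fin n ⊕ Fin n) ℂ) (hDp : aeval (Sum.elim ξ υ) Dp ≠ 0) (M : ℝ) :
    ∃ x : Fin n → ℂ, M < ‖x‖ ∧ OnV ξ υ x (fun i => Complex.exp (x i)) ∧
      eval (Sum.elim x fun i => Complex.exp (x i)) Dp ≠ 0 := by
  rcases k with _ | k
  · obtain ⟨S, c, ⟨α, hα⟩, hc0, hS, hrel⟩ := exists_rels_D ξ υ (k := 0)
      (GP.trdeg_over ξ hξd hL hdk) Dp hDp ∅ rfl
    have hSα : ∀ γ ∈ S, γ = α := by
      intro γ hγ
      funext i
      rw [hS γ hγ i (Finset.notMem_empty i), hS α hα i (Finset.notMem_empty i)]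
    obtain ⟨x, hx1, hx2, hx3⟩ := GP.core hd hdk ξ υ hυ hgen hξd hL p hp q hq hq1 hq2 hreal hgp
      (c α) (hc0 α hα) M
    refine ⟨x, hx1, hx2, fun h0 => hx3 ?_⟩
    have h1 := hrel x _ hx2 h0
    rw [Finset.sum_eq_single_of_mem α hα (fun γ hγ hne => absurd (hSα γ hγ) hne)] at h1
    have h2 : ∏ i, Complex.exp (x i) ^ α i = 1 := by
      refine Finset.prod_eq_one fun i _ => ?_
      rw [hS α hα i (Finset.notMem_empty i), pow_zero]
    rwa [h2, mul_one] at h1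
  · exact core_dense hd hdk ξ υ hυ hgen hξd hL p hp q hq hq1 hq2 hreal hgp Dp hDp M

theorem final (hd : 0 < d) (Q : Ideal (MvPolynomial (Fin n ⊕ Fin n) ℂ)) [Q.IsPrime]
    (hy : ∀ i, (X (Sum.inr i) : MvPolynomial (Fin n ⊕ Fin n) ℂ) ∉ Q)
    (hdim : (n : Cardinal) ≤ Algebra.trdeg ℂ (MvPolynomial (Fin n ⊕ Fin n) ℂ ⧸ Q))
    (p : Ideal (MvPolynomial (Fin n) ℂ)) (hpQ : ∀ c, c ∈ p ↔ rename Sum.inl c ∈ Q)
    (hpd : Algebra.trdeg ℂ (MvPolynomial (Fin n) ℂ ⧸ p) = d)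
    (q : Ideal (MvPolynomial (Fin n) ℂ)) [q.IsPrime]
    (hq : Algebra.trdeg ℂ (MvPolynomial (Fin n) ℂ ⧸ q) = d)
    (hq1 : ∀ z : Fin n → ℂ, (∀ f ∈ q, eval z f = 0) → z ∈ cone p)
    (hq2 : ∃ G ∉ q, ∀ z ∈ cone p, eval z G ≠ 0 → ∀ f ∈ q, eval z f = 0)
    (hreal : ∀ f ∉ q, ∃ η : Fin n → ℝ, (∀ h ∈ q, eval (fun i => (η i : ℂ)) h = 0) ∧
      eval (fun i => (η i : ℂ)) f ≠ 0)
    (hgp : ∀ m : Fin d → Fin n → ℤ, LinearIndependent ℤ m →
      AlgebraicIndependent ℂ fun j => Ideal.Quotient.mk q (∑ k, C (m j k : ℂ) * X k))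
    (D : MvPolynomial (Fin n ⊕ Fin n) ℂ) (hD : D ∉ Q) (M : ℝ) :
    ∃ x : Fin n → ℂ, M < ‖x‖ ∧
      (∀ f ∈ Q, eval (Sum.elim x fun i => Complex.exp (x i)) f = 0) ∧
      eval (Sum.elim x fun i => Complex.exp (x i)) D ≠ 0 := by
  classical
  set L := FractionRing (MvPolynomial (Fin n ⊕ Fin n) ℂ ⧸ Q) with hLdef
  have hinj : Function.Injective (algebraMap (MvPolynomial (Fin n ⊕ Fin n) ℂ ⧸ Q) L) :=
    IsFractionRing.injective _ _
  set w : Fin n ⊕ Fin n → L := fun i =>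
    algebraMap (MvPolynomial (Fin n ⊕ Fin n) ℂ ⧸ Q) L (Ideal.Quotient.mk Q (X i)) with hw
  have haev : ∀ f : MvPolynomial (Fin n ⊕ Fin n) ℂ, aeval w f =
      algebraMap (MvPolynomial (Fin n ⊕ Fin n) ℂ ⧸ Q) L (Ideal.Quotient.mk Q f) := by
    intro f
    induction f using MvPolynomial.induction_on with
    | C a =>
      rw [aeval_C]
      rfl
    | add p q hp hq => rw [map_add, hp, hq, map_add, map_add]
    | mul_X p i hp => rw [map_mul, hp, aeval_X, map_mul, map_mul]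
  have haev0 : ∀ f, aeval w f = 0 ↔ f ∈ Q := fun f => by
    rw [haev, map_eq_zero_iff _ hinj, Ideal.Quotient.eq_zero_iff_mem]
  set ξ : Fin n → L := fun i => w (Sum.inl i) with hξ
  set υ : Fin n → L := fun i => w (Sum.inr i) with hυ
  have hwe : Sum.elim ξ υ = w := by
    funext i
    rcases i with i | i <;> rfl
  have hp : ∀ c, c ∈ p ↔ aeval ξ c = 0 := by
    intro c
    rw [hpQ, ← haev0, aeval_rename]
    rfl
  have hυ0 : ∀ i, υ i ≠ 0 := by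
    intro i h0
    apply hy i
    rw [← haev0, aeval_X]
    exact h0
  have hgen : ∀ z : L, IsAlgebraic (Algebra.adjoin ℂ (Set.range (Sum.elim ξ υ))) z := by
    intro z
    rw [hwe]
    obtain ⟨u, v, hv, rfl⟩ := IsFractionRing.div_surjective
      (A := MvPolynomial (Fin n ⊕ Fin n) ℂ ⧸ Q) z
    obtain ⟨f, rfl⟩ := Ideal.Quotient.mk_surjective u
    obtain ⟨g, rfl⟩ := Ideal.Quotient.mk_surjective v
    have key : ∀ f : MvPolynomial (Fin n ⊕ Fin n) ℂ, IsAlgebraic (Algebra.adjoin ℂ (Set.range w))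
        (algebraMap (MvPolynomial (Fin n ⊕ Fin n) ℂ ⧸ Q) L (Ideal.Quotient.mk Q f)) := by
      intro f
      have h1 : algebraMap (MvPolynomial (Fin n ⊕ Fin n) ℂ ⧸ Q) L (Ideal.Quotient.mk Q f) ∈
          Algebra.adjoin ℂ (Set.range w) := by
        rw [← haev, Algebra.adjoin_range_eq_range_aeval]
        exact ⟨f, rfl⟩
      exact isAlgebraic_algebraMap (⟨_, h1⟩ : Algebra.adjoin ℂ (Set.range w))
    exact (key f).mul (key g).inv
  have hξd : Algebra.trdeg ℂ (IntermediateField.adjoin ℂ (Set.range ξ)) = d := by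
    rw [GC.trdeg_adjoin ξ p hp, hpd]
  have hLQ : Algebra.trdeg ℂ L = Algebra.trdeg ℂ (MvPolynomial (Fin n ⊕ Fin n) ℂ ⧸ Q) :=
    Elim.trdeg_fractionRing (A := MvPolynomial (Fin n ⊕ Fin n) ℂ ⧸ Q)
  have hfin : Algebra.trdeg ℂ (MvPolynomial (Fin n ⊕ Fin n) ℂ ⧸ Q) < Cardinal.aleph0 :=
    trdeg_lt_aleph0_of_finiteType
  obtain ⟨m, hm⟩ := Cardinal.lt_aleph0.1 hfin
  have hnm : n ≤ m := by
    rw [hm] at hdim
    exact_mod_cast hdim
  obtain ⟨e, rfl⟩ := Nat.exists_eq_add_of_le hnm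
  have hdn : d ≤ n := by
    have h1 : Algebra.trdeg ℂ (MvPolynomial (Fin n) ℂ ⧸ p) ≤
        Algebra.trdeg ℂ (MvPolynomial (Fin n) ℂ) :=
      trdeg_le_of_surjective (Ideal.Quotient.mkₐ ℂ p) (Ideal.Quotient.mkₐ_surjective ℂ p)
    rw [hpd, MvPolynomial.trdeg_of_isDomain] at h1
    simpa using h1
  have hdk : d + (n - d) = n := Nat.add_sub_cancel' hdn
  obtain ⟨L', _, _, ξ', υ', h1, h2, h3, h4, h5, h6, h7⟩ := exists_slice_D ξ υ hυ0 hgen hdk hξd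
    (e := e) (by rw [hLQ, hm]) D (fun h => hD ((haev0 D).1 (by rw [← hwe]; exact h)))
  obtain ⟨x, hx1, hx2, hx3⟩ := core_all hd hdk ξ' υ' h3 h4 h5 h6 p (fun c => by rw [hp, h2]) q hq hq1
    hq2 hreal hgp D h7 M
  refine ⟨x, hx1, fun f hf => hx2 f (h1 f ?_), hx3⟩
  rw [hwe]
  exact (haev0 f).2 hf

end Pool.Agent.Lib.MP_209724_lc.GD
end

section

/-!
# Density of the exponential points in varieties of dimension `n`, if the centers are dense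
-/

namespace Pool.Agent.Lib.MP_209724_lc.GF

open MvPolynomial Filter Topology Metric Set
open GC (prj cone)
open GS (Ew)
open MV (lead)
open GP GD

variable {n d k : ℕ}

/-- **Exponential points outside of `D = 0`**, if the centers are Zariski dense in the cone. -/
theorem core_denseK (hd : 0 < d) (hdk : d + (k + 1) = n) {L : Type} [Field L] [Algebra ℂ L]
    (ξ υ : Fin n → L) (hυ : ∀ i, υ i ≠ 0)
    (hgen : ∀ z : L, IsAlgebraic (Algebra.adjoin ℂ (Set.range (Sum.elim ξ υ))) z)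
    (hξd : Algebra.trdeg ℂ (IntermediateField.adjoin ℂ (Set.range ξ)) = d)
    (hL : Algebra.trdeg ℂ L = n) (p : Ideal (MvPolynomial (Fin n) ℂ))
    (hp : ∀ c, c ∈ p ↔ aeval ξ c = 0) (q : Ideal (MvPolynomial (Fin n) ℂ)) [hqp : q.IsPrime]
    (hq : Algebra.trdeg ℂ (MvPolynomial (Fin n) ℂ ⧸ q) = d)
    (hq1 : ∀ z : Fin n → ℂ, (∀ f ∈ q, eval z f = 0) → z ∈ cone p)
    (hq2 : ∃ G ∉ q, ∀ z ∈ cone p, eval z G ≠ 0 → ∀ f ∈ q, eval z f = 0)
    (hgp : ∀ m : Fin d → Fin n → ℤ, LinearIndependent ℤ m →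
      AlgebraicIndependent ℂ fun j => Ideal.Quotient.mk q (∑ k, C (m j k : ℂ) * X k))
    (hcen : ∀ G ∉ q, ∃ z : Fin n → ℂ, (∀ f ∈ q, eval z f = 0) ∧ eval z G ≠ 0 ∧
      Lim ξ υ z (fun i => (z i).re))
    (Dp : MvPolynomial (Fin n ⊕ Fin n) ℂ) (hDp : aeval (Sum.elim ξ υ) Dp ≠ 0) (M : ℝ) :
    ∃ x : Fin n → ℂ, M < ‖x‖ ∧ OnV ξ υ x (fun i => Complex.exp (x i)) ∧
      eval (Sum.elim x fun i => Complex.exp (x i)) Dp ≠ 0 := by
  classical
  obtain ⟨G₁, hG₁, hq2⟩ := hq2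
  obtain ⟨L₂, _, _, ξ₂, hξ₂, htr₂⟩ := GS.exists_generic_pt q hq
  have hmul : ∀ {a b : MvPolynomial (Fin n) ℂ}, a ∉ q → b ∉ q → a * b ∉ q :=
    fun ha hb h => (hqp.mem_or_mem h).elim ha hb
  -- the relations
  choose S c hSne hc0 hSsupp hrel using fun I : {I : Finset (Fin n) // I.card = k + 1 + 1} =>
    exists_rels ξ υ (k := k + 1) (le_of_eq (trdeg_over ξ hξd hL hdk)) I.1 I.2
  obtain ⟨G₂, hG₂, hsel⟩ := exists_sel_poly hdk q hq hgp S hSsupp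
  choose S' c' hSne' hc0' hSsupp' hrel' using fun I : {I : Finset (Fin n) // I.card = k + 1} =>
    exists_rels_D ξ υ (k := k + 1) (trdeg_over ξ hξd hL hdk) Dp hDp I.1 I.2
  obtain ⟨G₃, hG₃, hsel'⟩ := exists_sel_poly2 hdk q hq hgp S' hSsupp'
  -- the size of the coefficients
  obtain ⟨Gc, hGc, hcoef⟩ := coef_near_all ξ hξd q hq
    (J := (Σ I : {I : Finset (Fin n) // I.card = k + 1 + 1}, {α // α ∈ S I}) ⊕
      (Σ I : {I : Finset (Fin n) // I.card = k + 1}, {α // α ∈ S' I}))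
    (Sum.elim (fun a => c a.1 a.2.1) (fun a => c' a.1 a.2.1)) (by
      rintro (a | a)
      · exact hc0 a.1 a.2.1 a.2.2
      · exact hc0' a.1 a.2.1 a.2.2)
  -- the type
  obtain ⟨Φ, Φ', htype⟩ := exists_type S S' q {z | (∀ f ∈ q, eval z f = 0) ∧ eval z Gc ≠ 0 ∧
      Lim ξ υ z (fun i => (z i).re)} (by
    intro f hf
    obtain ⟨z, h1, h2, h3⟩ := hcen (f * Gc) (hmul hf hGc)
    rw [map_mul, mul_ne_zero_iff] at h2
    exact ⟨z, ⟨h1, h2.2, h3⟩, h2.1⟩)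
  have hΦS : ∀ I, Φ I ⊆ S I := by
    intro I α hα
    obtain ⟨z, -, h1, -, -⟩ := htype 1 (fun h => hqp.ne_top ((Ideal.eq_top_iff_one q).2 h))
    rw [← h1 I, mem_fac] at hα
    exact hα.1
  have hΦ2 : ∀ I, ∃ α ∈ Φ I, ∃ β ∈ Φ I, α ≠ β := by
    intro I
    obtain ⟨z, ⟨hz1, hz2, hz3⟩, h1, -, -⟩ := htype 1
      (fun h => hqp.ne_top ((Ideal.eq_top_iff_one q).2 h))
    obtain ⟨δ, C, hδ, hb⟩ := hcoef z hz1 hz2
    rw [← h1 I]
    refine lim_ties hz3 (S I) (hSne I) (c I) (hrel I) hδ C fun α hα => ?_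
    filter_upwards [hb] with R h2 x hx hxz
    exact h2 x hx hxz (Sum.inl ⟨I, ⟨α, hα⟩⟩)
  -- the rows
  obtain ⟨N, m, s, hmind, hm1, hm2, hm3⟩ := exists_rowsK hdk Φ
    (fun I α hα i hi => hSsupp I α (hΦS I hα) i hi) hΦ2 Φ'
  -- at the points of this type the images are purely imaginary
  have himz : ∀ z : Fin n → ℂ, (∀ I, fac (S I) (fun i => (z i).re) = Φ I) →
      (∀ I, fac (S' I) (fun i => (z i).re) = Φ' I) → ∀ l, (mz m z l).re = 0 := by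
    intro z h1 h2 l
    have key : ∀ α β : Fin n → ℕ, (∑ i, ((α i : ℝ) - β i) * (z i).re = 0) →
        m l = (fun i => (α i : ℤ) - β i) → (mz m z l).re = 0 := by
      intro α β h3 h4
      rw [← h3]
      unfold mz
      rw [Complex.re_sum]
      refine Finset.sum_congr rfl fun i _ => ?_
      rw [h4]
      push_cast
      have h5 : ((α i : ℂ) - (β i : ℂ)) = (((α i : ℝ) - (β i : ℝ) : ℝ) : ℂ) := by push_cast; rfl
      rw [h5, Complex.re_ofReal_mul]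
    rcases hm1 l with ⟨I, α, hα, β, hβ, h3⟩ | ⟨I, α, hα, β, hβ, h3⟩
    · rw [← h1 I] at hα hβ
      exact key α β (fac_value hα hβ) h3
    · rw [← h2 I] at hα hβ
      exact key α β (fac_value hα hβ) h3
  -- the real coordinates
  have hqind : AlgebraicIndependent ℂ fun j : Fin d =>
      Ideal.Quotient.mk q (∑ i, C ((m (s j) i : ℤ) : ℂ) * X i) := hgp (fun j => m (s j)) hmind
  have hW1 := algInd_W p ξ hp q hq1 (fun (j : Fin d) i => ((m (s j) i : ℤ) : ℂ)) hqind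
  have hW2 := algInd_gen q ξ₂ hξ₂ (fun (j : Fin d) i => ((m (s j) i : ℤ) : ℂ)) hqind
  obtain ⟨A, hAre, hA₁, hA₂⟩ := exists_proj2_real
    (fun l => ∑ i, algebraMap ℂ L (m l i : ℂ) * ξ i)
    (fun l => ∑ i, algebraMap ℂ L₂ (m l i : ℂ) * ξ₂ i) (d := d)
    (le_trdeg_of_algInd _ s hW1) (le_trdeg_of_algInd _ s hW2)
  obtain ⟨Z, hZA⟩ : ∃ Z : Fin d → Fin n → ℂ, ∀ j i, Z j i = ∑ l, A j l * (m l i : ℂ) :=
    ⟨fun j i => ∑ l, A j l * (m l i : ℂ), fun _ _ => rfl⟩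
  have hZξ : ∀ {L : Type} [Field L] [Algebra ℂ L] (ξ : Fin n → L) (j : Fin d),
      ∑ i, algebraMap ℂ L (Z j i) * ξ i =
        ∑ l, algebraMap ℂ L (A j l) * ∑ i, algebraMap ℂ L (m l i : ℂ) * ξ i := by
    intro L _ _ ξ j
    simp only [hZA, map_sum, map_mul, Finset.sum_mul, Finset.mul_sum]
    rw [Finset.sum_comm]
    refine Finset.sum_congr rfl fun l _ => Finset.sum_congr rfl fun i _ => ?_
    ring
  have hZre : ∀ j i, (Z j i).im = 0 := by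
    intro j i
    rw [hZA, Complex.im_sum]
    refine Finset.sum_eq_zero fun l _ => ?_
    rw [Complex.mul_im, hAre, Complex.intCast_im]
    ring
  set ζ₁ : Fin d → L := fun j => ∑ i, algebraMap ℂ L (Z j i) * ξ i with hζ₁
  set ζ₂ : Fin d → L₂ := fun j => ∑ i, algebraMap ℂ L₂ (Z j i) * ξ₂ i with hζ₂
  have hZ₁ : AlgebraicIndependent ℂ ζ₁ := by
    have h1 : ζ₁ = fun j => ∑ l, algebraMap ℂ L (A j l) * ∑ i, algebraMap ℂ L (m l i : ℂ) * ξ i :=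
      funext fun j => hZξ ξ j
    rw [h1]
    exact hA₁
  have hZ₂ : AlgebraicIndependent ℂ ζ₂ := by
    have h1 : ζ₂ = fun j => ∑ l, algebraMap ℂ L₂ (A j l) *
        ∑ i, algebraMap ℂ L₂ (m l i : ℂ) * ξ₂ i := funext fun j => hZξ ξ₂ j
    rw [h1]
    exact hA₂
  have hmem : ∀ {L : Type} [Field L] [Algebra ℂ L] (ξ : Fin n → L) (j : Fin d),
      ∑ i, algebraMap ℂ L (Z j i) * ξ i ∈ IntermediateField.adjoin ℂ (Set.range ξ) := by
    intro L _ _ ξ j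
    refine sum_mem fun i _ => mul_mem ?_ (IntermediateField.subset_adjoin _ _ ⟨i, rfl⟩)
    exact IntermediateField.algebraMap_mem _ _
  have halg₁ : ∀ i, IsAlgebraic (Algebra.adjoin ℂ (Set.range ζ₁)) (ξ i) := fun i =>
    GS.isAlgebraic_coord ξ hξd ζ₁ (hmem ξ) hZ₁ i
  have halg₂ : ∀ i, IsAlgebraic (Algebra.adjoin ℂ (Set.range ζ₂)) (ξ₂ i) := fun i =>
    GS.isAlgebraic_coord ξ₂ htr₂ ζ₂ (hmem ξ₂) hZ₂ i
  choose F₂ D₂ hF₂ hD₂ hFD₂ using fun i => GS.exists_rel ξ₂ Z ζ₂ (fun j => rfl) hZ₂ i (halg₂ i)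
  choose F₁ D₁ hF₁ hD₁ hFD₁ using fun i => GS.exists_rel ξ Z ζ₁ (fun j => rfl) hZ₁ i (halg₁ i)
  -- coordinates on `V`
  obtain ⟨B, -, hB, hBalg⟩ := exists_B ξ υ hgen (trdeg_over ξ hξd hL hdk)
  have hind := indep_sum ξ ζ₁ (hmem ξ) hZ₁ (fun j => υ (B j)) hB
  have halgV : ∀ z : L, IsAlgebraic (Algebra.adjoin ℂ (Set.range
      (Sum.elim ζ₁ (fun j => υ (B j))))) z := fun z => alg_sum ξ ζ₁ _ halg₁ z (hBalg z)
  obtain ⟨β, hβ0, hV⟩ := exists_vchart ξ υ Z B hind fun i => halgV _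
  set Dβ : MvPolynomial (Fin n ⊕ Fin n) ℂ := aeval (Sum.elim
    (fun j => ∑ i, C (Z j i) * X (Sum.inl i)) (fun j => X (Sum.inr (B j)))) β with hDβ
  have hDβe : ∀ x y : Fin n → ℂ, eval (Sum.elim x y) Dβ =
      eval (Sum.elim (prj Z x) fun j => y (B j)) β := by
    intro x y
    rw [hDβ, ← MvPolynomial.aeval_eq_eval, ← MvPolynomial.aeval_eq_eval, ← AlgHom.comp_apply,
      MvPolynomial.comp_aeval]
    congr 2
    funext j
    rcases j with j | j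
    · simp [prj]
    · simp
  have hDβ0 : aeval (Sum.elim ξ υ) Dβ ≠ 0 := by
    have h1 : aeval (Sum.elim ξ υ) Dβ = aeval (Sum.elim ζ₁ fun j => υ (B j)) β := by
      rw [hDβ, ← AlgHom.comp_apply, MvPolynomial.comp_aeval]
      congr 2
      funext j
      rcases j with j | j
      · simp [hζ₁]
      · simp
    rw [h1]
    intro h0
    exact hβ0 ((algebraicIndependent_iff.mp hind) β h0)
  -- the polynomial which does not vanish on the sheets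
  set gt : MvPolynomial (Fin n) ℂ := (∏ i, D₁ i) * (∏ I, ∏ α ∈ S I, c I α) *
    ∏ I, ∏ α ∈ S' I, c' I α with hgt
  have hgt0 : aeval ξ gt ≠ 0 := by
    rw [hgt]
    simp only [map_mul, map_prod]
    refine mul_ne_zero (mul_ne_zero ?_ ?_) ?_
    · exact Finset.prod_ne_zero_iff.2 fun i _ => hD₁ i
    · exact Finset.prod_ne_zero_iff.2 fun I _ => Finset.prod_ne_zero_iff.2 fun α hα => hc0 I α hα
    · exact Finset.prod_ne_zero_iff.2 fun I _ => Finset.prod_ne_zero_iff.2 fun α hα => hc0' I α hα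
  obtain ⟨βf, hβf, hfam⟩ := exists_family_at p ξ hp Z ζ₁ (fun j => rfl) hZ₁ halg₁ gt
    (fun h => hgt0 ((hp _).1 h))
  -- the image of the cone is real
  obtain ⟨G₄, hG₄, hreal⟩ := image_real q ξ₂ hξ₂ m A hAre Z hZA hZ₂ halg₂ (by
    intro f hf
    obtain ⟨z, ⟨h1, -, -⟩, h2, h3, h4⟩ := htype _ hf
    exact ⟨z, h1, himz z h2 h3, by rw [← eval_pullm]; exact h4⟩)
  -- a coordinate which is not in `q`
  obtain ⟨k₀, hk₀⟩ : ∃ k₀ : Fin n, (X k₀ : MvPolynomial (Fin n) ℂ) ∉ q := by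
    by_contra hcon
    push Not at hcon
    have h1 : ∀ i, ξ₂ i = 0 := by
      intro i
      have := (hξ₂ (X i)).1 (hcon i)
      rwa [aeval_X] at this
    have h2 : ζ₂ ⟨0, hd⟩ = 0 := by
      rw [hζ₂]
      simp [h1]
    exact hZ₂.ne_zero _ h2
  -- the point
  have hpull : ∀ {N : MvPolynomial (Fin d) ℂ}, N ≠ 0 → pull Z (lead N) ∉ q := fun hN h =>
    pull_ne_zero ξ₂ Z hZ₂ (MV.lead_ne_zero hN) ((hξ₂ _).1 h)
  set pt : MvPolynomial (Fin n) ℂ := G₁ * G₂ * (∏ i, D₂ i) * pull Z (lead βf) * X k₀ *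
    (G₃ * G₄) with hpt
  have hptq : pt ∉ q := by
    refine hmul (hmul (hmul (hmul (hmul hG₁ hG₂) ?_) (hpull hβf)) hk₀) (hmul hG₃ hG₄)
    rw [Ideal.IsPrime.prod_mem_iff (hp := hqp)]
    rintro ⟨i, _, hi⟩
    exact hD₂ i ((hξ₂ _).1 hi)
  obtain ⟨z₀, ⟨hz₀q, hGcz, hlim₀⟩, hty₀, hty₀', hz₀p⟩ := htype pt hptq
  have hz₀c : z₀ ∈ cone p := hq1 z₀ hz₀q
  rw [hpt] at hz₀p
  simp only [map_mul, map_prod, mul_ne_zero_iff, Finset.prod_ne_zero_iff, Finset.mem_univ,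
    true_imp_iff, eval_X, eval_pull] at hz₀p
  obtain ⟨⟨⟨⟨⟨hG₁z, hG₂z⟩, hDz⟩, hβz⟩, hkz⟩, hG₃z, hG₄z⟩ := hz₀p
  have hz₀0 : z₀ ≠ 0 := fun h => hkz (congrFun h k₀)
  -- the chart
  have hlin : LinearIndependent ℂ Z := GS.linearIndependent_rows ξ₂ Z hZ₂
  obtain ⟨σ, hσ⟩ := GS.exists_sigma hdk Z hlin
  have hFq : ∀ i, F₂ i ∈ q := fun i => (hξ₂ _).2 (hF₂ i)
  obtain ⟨H, ρ₁, r₀, ρ, hρ, hρρ₁, hr₀, hHd, hHw, hZH, hr₀Z, huniq, hHshell⟩ :=
    GS.exists_chart2 hdk (cone p) z₀ hz₀c (fun l => G₁ * F₂ (σ l)) (by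
      intro l w' hw'
      rw [map_mul]
      by_cases h : eval w' G₁ = 0
      · rw [h, zero_mul]
      · rw [hq2 w' hw' h _ (hFq _), mul_zero]) Z (by
      intro b hb hbZ
      refine hσ b hbZ fun l => ?_
      have h1 := hb l
      have h2 : ∑ i, b i * eval z₀ (pderiv i (G₁ * F₂ (σ l))) =
          eval z₀ G₁ * ∑ i, b i * eval z₀ (pderiv i (F₂ (σ l))) := by
        rw [Finset.mul_sum]
        refine Finset.sum_congr rfl fun i _ => ?_
        rw [pderiv_mul, map_add, map_mul, map_mul, hz₀q _ (hFq _)]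
        ring
      rw [h2, hFD₂ _ _ _ hbZ] at h1
      rcases mul_eq_zero.1 h1 with h3 | h3
      · exact absurd h3 hG₁z
      · rcases mul_eq_zero.1 h3 with h4 | h4
        · exact h4
        · exact absurd h4 (hDz _))
  have hclose := GC.closeness p z₀ Z H hHd.continuousOn hr₀Z huniq
  have hdiv : ∀ (R : ℝ) (x : Fin n → ℂ), (fun i => x i / (R : ℂ)) = R⁻¹ • x := by
    intro R x
    funext i
    rw [Pi.smul_apply, Complex.real_smul, Complex.ofReal_inv, div_eq_inv_mul]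
  have hHdρ : DifferentiableOn ℂ H (ball (prj Z z₀) ρ₁) := hHd.differentiableOn (by simp)
  have hHc : ContinuousAt H (prj Z z₀) :=
    hHd.continuousOn.continuousAt (isOpen_ball.mem_nhds (mem_ball_self (hρ.trans_le hρρ₁)))
  have hHc' : Tendsto H (𝓝 (prj Z z₀)) (𝓝 z₀) := by
    have := hHc.tendsto
    rwa [hHw] at this
  -- the size of the coefficients near `z₀`
  obtain ⟨δc, Ct, hδc, hcoefz⟩ := hcoef z₀ hz₀q hGcz
  -- openness of the limits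
  obtain ⟨εo, hεo, hopen⟩ := open_lim hdk ξ υ Z B (finSumFinEquiv.trans (finCongr hdk)) β hV Dβ
    hDβ0 hDβe z₀ (fun i => (z₀ i).re) S hSne hSsupp c hrel (r₀ := min δc r₀) (lt_min hδc hr₀) Ct
    (by
      intro I α hα
      filter_upwards [hcoefz] with R h2 x hx hxz
      exact h2 x hx (hxz.trans (min_le_left _ _)) (Sum.inl ⟨I, ⟨α, hα⟩⟩))
    H (hρ.trans_le hρρ₁) hHd.continuousOn hHw (by
      intro ε hε
      filter_upwards [hclose ε hε] with R h2 x hx hxz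
      have h3 := h2 x (fun f hf => hx f ((hp f).1 hf)) (by
        rw [hdiv]
        exact hxz.trans (min_le_right _ _))
      rw [hdiv] at h3
      exact h3) hlim₀
  -- the points of the chart are in the cone
  obtain ⟨ρ', ρ'', hρ', hρ'ρ, hρ'', hfam₀⟩ := hfam z₀ hβz H ρ r₀ hρ hr₀ hHshell hclose
  have hHcone : ∀ z ∈ ball (prj Z z₀) ρ', H z ∈ cone p := by
    obtain ⟨rc, xc, hrc, hxc, hxcz⟩ := hz₀c
    obtain ⟨N₀, X₀, hX₀, hX₀H⟩ := hfam₀ rc xc hrc hxc (by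
      have h1 := (tendsto_iff_norm_sub_tendsto_zero.1 hxcz)
      exact (h1.eventually (gt_mem_nhds hρ'')).mono fun ν h => h.le)
    intro z hz
    have hshift : Tendsto (fun ν => N₀ + ν) atTop atTop := by
      simpa only [add_comm] using tendsto_add_atTop_nat N₀
    refine ⟨fun ν => rc (N₀ + ν), fun ν i => (rc (N₀ + ν) : ℂ) * X₀ (N₀ + ν) z i,
      hrc.comp hshift, fun ν => ((hX₀ (N₀ + ν) (Nat.le_add_right _ _)).2.2.1 z hz).1, ?_⟩
    have h1 : (fun ν => (rc (N₀ + ν))⁻¹ • fun i => (rc (N₀ + ν) : ℂ) * X₀ (N₀ + ν) z i) =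
        fun ν => X₀ (N₀ + ν) z := by
      funext ν i
      have : (rc (N₀ + ν) : ℂ) ≠ 0 := by
        exact_mod_cast (hX₀ (N₀ + ν) (Nat.le_add_right _ _)).1.ne'
      simp only [Pi.smul_apply, Complex.real_smul, Complex.ofReal_inv]
      field_simp
    rw [h1]
    have h2 : Tendsto (fun ν => X₀ ν z) atTop (𝓝 (H z)) := by
      rw [tendsto_iff_norm_sub_tendsto_zero, Metric.tendsto_atTop]
      intro ε hε
      obtain ⟨N, hN⟩ := eventually_atTop.1 (hX₀H (ε / 2) (half_pos hε))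
      refine ⟨N, fun ν hν => ?_⟩
      rw [Real.dist_eq, sub_zero, abs_of_nonneg (norm_nonneg _)]
      exact (hN ν hν z hz).trans_lt (half_lt_self hε)
    exact h2.comp hshift
  -- a smaller ball
  have hreH : ∀ z w : Fin n → ℂ, ‖(fun i => (z i).re) - fun i => (w i).re‖ ≤ ‖z - w‖ := by
    intro z w
    rw [pi_norm_le_iff_of_nonneg (norm_nonneg _)]
    intro i
    rw [Pi.sub_apply, Real.norm_eq_abs, ← Complex.sub_re]
    exact (Complex.abs_re_le_norm _).trans (norm_le_pi_norm (z - w) i)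
  have hfacev : ∀ T : Finset (Fin n → ℕ), ∀ᶠ z in 𝓝 (prj Z z₀),
      fac T (fun i => (H z i).re) ⊆ fac T (fun i => (z₀ i).re) := by
    intro T
    obtain ⟨ε, hε, h⟩ := fac_near T (fun i => (z₀ i).re)
    have h1 : ∀ᶠ z in 𝓝 (prj Z z₀), ‖H z - z₀‖ < ε :=
      (tendsto_iff_norm_sub_tendsto_zero.1 hHc').eventually (gt_mem_nhds hε)
    filter_upwards [h1] with z hz
    exact h _ ((hreH _ _).trans hz.le)
  have hev : ∀ᶠ z in 𝓝 (prj Z z₀), ((eval (H z) G₁ ≠ 0 ∧ eval (H z) G₂ ≠ 0 ∧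
      ‖z₀‖ / 2 < ‖H z‖) ∧ eval z (lead βf) ≠ 0) ∧
      (eval (H z) G₃ ≠ 0 ∧ ∀ i, eval (H z) (D₂ i) ≠ 0) ∧
      ‖H z - z₀‖ < min (δc / 2) εo ∧
      (∀ I, fac (S I) (fun i => (H z i).re) ⊆ fac (S I) (fun i => (z₀ i).re)) ∧
      ∀ I, fac (S' I) (fun i => (H z i).re) ⊆ fac (S' I) (fun i => (z₀ i).re) := by
    refine Filter.Eventually.and (Filter.Eventually.and ?_ ?_) (Filter.Eventually.and
      (Filter.Eventually.and ?_ ?_) (Filter.Eventually.and ?_ (Filter.Eventually.and ?_ ?_)))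
    · refine ((((MvPolynomial.continuous_eval G₁).tendsto z₀).comp hHc').eventually_ne hG₁z).and
        (((((MvPolynomial.continuous_eval G₂).tendsto z₀).comp hHc').eventually_ne hG₂z).and ?_)
      exact hHc'.norm.eventually_const_lt (half_lt_self (norm_pos_iff.2 hz₀0))
    · exact (MvPolynomial.continuous_eval (lead βf)).continuousAt.eventually_ne hβz
    · exact (((MvPolynomial.continuous_eval G₃).tendsto z₀).comp hHc').eventually_ne hG₃z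
    · rw [Filter.eventually_all]
      intro i
      exact (((MvPolynomial.continuous_eval (D₂ i)).tendsto z₀).comp hHc').eventually_ne (hDz i)
    · exact (tendsto_iff_norm_sub_tendsto_zero.1 hHc').eventually
        (gt_mem_nhds (lt_min (half_pos hδc) hεo))
    · rw [Filter.eventually_all]
      exact fun I => hfacev (S I)
    · rw [Filter.eventually_all]
      exact fun I => hfacev (S' I)
  obtain ⟨ρa, hρa, hρaB⟩ := Metric.nhds_basis_closedBall.mem_iff.mp hev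
  obtain ⟨ρ₂, hρ₂⟩ : ∃ ρ₂ : ℝ, ρ₂ = min ρ' ρa := ⟨_, rfl⟩
  have hρ₂0 : 0 < ρ₂ := by rw [hρ₂]; exact lt_min hρ' hρa
  have hb1 : ball (prj Z z₀) ρ₂ ⊆ ball (prj Z z₀) ρ' := by
    rw [hρ₂]; exact ball_subset_ball (min_le_left _ _)
  have hb2 : ball (prj Z z₀) ρ₂ ⊆ closedBall (prj Z z₀) ρa := by
    rw [hρ₂]; exact (ball_subset_ball (min_le_right _ _)).trans ball_subset_closedBall
  have hb3 : ball (prj Z z₀) ρ₂ ⊆ ball (prj Z z₀) ρ := hb1.trans (ball_subset_ball hρ'ρ)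
  have hb4 : ball (prj Z z₀) ρ₂ ⊆ ball (prj Z z₀) ρ₁ := hb3.trans (ball_subset_ball hρρ₁)
  have hHq : ∀ z ∈ ball (prj Z z₀) ρ₂, ∀ f ∈ q, eval (H z) f = 0 := fun z hz =>
    hq2 (H z) (hHcone z (hb1 hz)) (hρaB (hb2 hz)).1.1.1
  -- the image is real
  obtain ⟨ρi, hρi, hρiρ₂, himage⟩ := hreal z₀ hz₀q hG₄z (himz z₀ hty₀ hty₀') H ρ₂ hρ₂0
    (hHdρ.mono hb4) hHw hHq (fun z hz => hZH z (hb4 hz))
  obtain ⟨ρ₃, hρ₃⟩ : ∃ ρ₃ : ℝ, ρ₃ = min ρi εo := ⟨_, rfl⟩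
  have hρ₃0 : 0 < ρ₃ := by rw [hρ₃]; exact lt_min hρi hεo
  have hb5 : ball (prj Z z₀) ρ₃ ⊆ ball (prj Z z₀) ρi := by
    rw [hρ₃]; exact ball_subset_ball (min_le_left _ _)
  have hb6 : ball (prj Z z₀) ρ₃ ⊆ ball (prj Z z₀) ρ₂ := hb5.trans (ball_subset_ball hρiρ₂)
  -- a generic point with purely imaginary coordinates
  have hdn : d ≤ n := by omega
  have hprjA : ∀ z : Fin n → ℂ, ∀ j, prj Z z j = ∑ l, A j l * mz m z l := by
    intro z j
    unfold prj mz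
    simp only [hZA, Finset.sum_mul, Finset.mul_sum]
    rw [Finset.sum_comm]
    refine Finset.sum_congr rfl fun l _ => Finset.sum_congr rfl fun i _ => ?_
    ring
  have hx₀re : ∀ j, (prj Z z₀ j).re = 0 := by
    intro j
    rw [hprjA, Complex.re_sum]
    refine Finset.sum_eq_zero fun l _ => ?_
    rw [Complex.mul_re, himz z₀ hty₀ hty₀' l, hAre]
    ring
  obtain ⟨t₁, ht₁, ht₁re, ht₁m⟩ := exists_generic_imag H hx₀re hρ₃0
    (hHd.mono (hb6.trans hb4)) (fun m hm => exists_move hd hdn q hq hgp ξ₂ hξ₂ Z hZ₂ halg₂ H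
      hρ₃0 (hHdρ.mono (hb6.trans hb4)) (fun z hz => hHq z (hb6 hz))
      (fun z hz => hZH z (hb4 (hb6 hz))) m hm)
  have ht₁b : t₁ ∈ ball (prj Z z₀) ρ₂ := hb6 ht₁
  obtain ⟨him₁, hconj₁⟩ := himage t₁ (hb5 ht₁) ht₁re
  obtain ⟨z₁, hz₁⟩ : ∃ z₁ : Fin n → ℂ, z₁ = H t₁ := ⟨_, rfl⟩
  have hprj₁ : prj Z z₁ = t₁ := by rw [hz₁]; exact hZH t₁ (hb4 ht₁b)
  have hz₁z₀ : ‖z₁ - z₀‖ < min (δc / 2) εo := by rw [hz₁]; exact (hρaB (hb2 ht₁b)).2.2.1
  -- the type of `z₁`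
  have hker : ∀ α β : Fin n → ℕ, (∃ l, m l = fun i => (α i : ℤ) - β i) →
      ∑ i, ((α i : ℝ) - β i) * (z₁ i).re = 0 := by
    rintro α β ⟨l, hl⟩
    rw [← him₁ l, ← hz₁]
    unfold mz
    rw [Complex.re_sum]
    refine Finset.sum_congr rfl fun i _ => ?_
    rw [hl]
    push_cast
    have h5 : ((α i : ℂ) - (β i : ℂ)) = (((α i : ℝ) - (β i : ℝ) : ℝ) : ℂ) := by push_cast; rfl
    rw [h5, Complex.re_ofReal_mul]
  have hty₁ : ∀ I, fac (S I) (fun i => (z₁ i).re) = Φ I := by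
    intro I
    rw [← hty₀ I]
    refine fac_eq (hSne I) (by rw [hz₁]; exact (hρaB (hb2 ht₁b)).2.2.2.1 I) ?_
    intro α hα β hβ
    rw [hty₀ I] at hα hβ
    exact hker α β (hm2 I α hα β hβ)
  have hty₁' : ∀ I, fac (S' I) (fun i => (z₁ i).re) = Φ' I := by
    intro I
    rw [← hty₀' I]
    refine fac_eq (hSne' I) (by rw [hz₁]; exact (hρaB (hb2 ht₁b)).2.2.2.2 I) ?_
    intro α hα β hβ
    rw [hty₀' I] at hα hβ
    exact hker α β (hm3 I α hα β hβ)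
  have hlim₁ : Lim ξ υ z₁ (fun i => (z₁ i).re) := by
    rw [hz₁]
    refine hopen t₁ (fun i => (H t₁ i).re) ?_ ?_ ?_
    · rw [mem_ball, dist_eq_norm] at ht₁
      refine ht₁.trans_le ?_
      rw [hρ₃]
      exact min_le_right _ _
    · refine (hreH _ _).trans_lt ?_
      rw [← hz₁]
      exact hz₁z₀.trans_le (min_le_right _ _)
    · intro I α hα β hβ
      rw [hty₀ I] at hα hβ
      rw [← hz₁]
      exact hker α β (hm2 I α hα β hβ)
  obtain ⟨r', x', y', hr'0, hr', hx'V, hy'0, hx'β, hx'z, hy'η⟩ := lim_perturb ξ υ Dβ hDβ0 hlim₁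
  -- the sheets through these points
  have hz₁r : ‖z₁ - z₀‖ < r₀ / 2 := by rw [hz₁]; exact hHshell t₁ (hb3 ht₁b)
  have hclose₁ : ∀ ε : ℝ, 0 < ε → ∀ᶠ r : ℝ in atTop, ∀ x : Fin n → ℂ, (∀ f ∈ p, eval x f = 0) →
      ‖(fun i => x i / (r : ℂ)) - z₁‖ ≤ r₀ / 2 →
      ‖(fun i => x i / (r : ℂ)) - H (prj Z fun i => x i / (r : ℂ))‖ < ε := by
    intro ε hε
    filter_upwards [hclose ε hε] with R h1 x hx hxz
    refine h1 x hx ?_
    have h2 := norm_add_le ((fun i => x i / (R : ℂ)) - z₁) (z₁ - z₀)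
    rw [sub_add_sub_cancel] at h2
    linarith
  obtain ⟨ρ₄, hρ₄, hρ₄b, hρ₄s⟩ : ∃ ρ₄ : ℝ, 0 < ρ₄ ∧ ball t₁ ρ₄ ⊆ ball (prj Z z₀) ρ₃ ∧
      ∀ z ∈ ball t₁ ρ₄, ‖H z - z₁‖ < r₀ / 2 / 2 := by
    have h1 : ∀ᶠ z in 𝓝 t₁, z ∈ ball (prj Z z₀) ρ₃ ∧ ‖H z - z₁‖ < r₀ / 2 / 2 := by
      refine Filter.Eventually.and (isOpen_ball.mem_nhds ht₁) ?_
      have h2 : ContinuousAt H t₁ :=
        hHd.continuousOn.continuousAt (isOpen_ball.mem_nhds (hb4 ht₁b))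
      have h3 : Tendsto H (𝓝 t₁) (𝓝 z₁) := by
        rw [hz₁]
        exact h2.tendsto
      exact (tendsto_iff_norm_sub_tendsto_zero.1 h3).eventually (gt_mem_nhds (by positivity))
    obtain ⟨ρ₄, hρ₄, h⟩ := Metric.eventually_nhds_iff_ball.mp h1
    exact ⟨ρ₄, hρ₄, fun z hz => (h z hz).1, fun z hz => (h z hz).2⟩
  obtain ⟨ρ₅, ρ₅', hρ₅, hρ₅ρ₄, hρ₅', hfam₁⟩ := hfam z₁ (by
    rw [hprj₁]
    exact (hρaB (hb2 ht₁b)).1.2) H ρ₄ (r₀ / 2) hρ₄ (half_pos hr₀) (by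
    rw [hprj₁]
    exact hρ₄s) hclose₁
  obtain ⟨N₁, X', hX', hX'H⟩ := hfam₁ r' x' hr' (fun ν f hf => (hx'V ν).onW f ((hp f).1 hf)) (by
    have h1 := (tendsto_iff_norm_sub_tendsto_zero.1 hx'z)
    exact (h1.eventually (gt_mem_nhds hρ₅')).mono fun ν h => h.le)
  rw [hprj₁] at hX' hX'H
  have hb7 : ball t₁ ρ₅ ⊆ ball (prj Z z₀) ρ₃ := (ball_subset_ball hρ₅ρ₄).trans hρ₄b
  have hb8 : ball t₁ ρ₅ ⊆ ball (prj Z z₀) ρ₂ := hb7.trans hb6
  -- the Euclidean ball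
  obtain ⟨t₀, ht₀⟩ : ∃ t₀ : Ew d, t₀ = WithLp.toLp 2 t₁ := ⟨_, rfl⟩
  have ht₀₁ : WithLp.ofLp t₀ = t₁ := by rw [ht₀]
  have hball : ∀ t : Ew d, t ∈ ball t₀ ρ₅ → WithLp.ofLp t ∈ ball t₁ ρ₅ := by
    intro t ht
    rw [mem_ball, dist_eq_norm] at ht ⊢
    refine lt_of_le_of_lt ?_ ht
    rw [pi_norm_le_iff_of_nonneg (norm_nonneg _)]
    intro i
    rw [← ht₀₁]
    exact PiLp.norm_apply_le (t - t₀) i
  have hofLp : Differentiable ℂ (fun t : Ew d => (WithLp.ofLp t : Fin d → ℂ)) :=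
    (PiLp.continuousLinearEquiv 2 ℂ (fun _ : Fin d => ℂ)).differentiable
  have htc' : Tendsto (fun ν => (WithLp.toLp 2 (prj Z ((r' ν)⁻¹ • x' ν)) : Ew d)) atTop
      (𝓝 t₀) := by
    have h1 : Tendsto (fun ν => prj Z ((r' ν)⁻¹ • x' ν)) atTop (𝓝 (prj Z z₁)) :=
      ((GC.continuous_prj Z).tendsto z₁).comp hx'z
    rw [hprj₁] at h1
    rw [ht₀]
    exact ((PiLp.continuous_toLp 2 (fun _ : Fin d => ℂ)).tendsto t₁).comp h1
  obtain ⟨N₂, hN₂⟩ := Filter.eventually_atTop.1 ((eventually_ge_atTop N₁).and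
    (htc'.eventually (ball_mem_nhds t₀ hρ₅)))
  have hshift : Tendsto (fun ν => N₂ + ν) atTop atTop := by
    simpa only [add_comm] using tendsto_add_atTop_nat N₂
  have hN₂' : ∀ ν : ℕ, N₁ ≤ N₂ + ν ∧
      (WithLp.toLp 2 (prj Z ((r' (N₂ + ν))⁻¹ • x' (N₂ + ν))) : Ew d) ∈ ball t₀ ρ₅ := fun ν =>
    hN₂ (N₂ + ν) (Nat.le_add_right _ _)
  obtain ⟨r, hrdef⟩ : ∃ r : ℕ → ℝ, r = fun ν => r' (N₂ + ν) := ⟨_, rfl⟩
  obtain ⟨x, hxdef⟩ : ∃ x : ℕ → Fin n → ℂ, x = fun ν => x' (N₂ + ν) := ⟨_, rfl⟩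
  obtain ⟨y, hydef⟩ : ∃ y : ℕ → Fin n → ℂ, y = fun ν => y' (N₂ + ν) := ⟨_, rfl⟩
  obtain ⟨X, hXdef⟩ : ∃ X : ℕ → Ew d → Fin n → ℂ, X = fun ν t => X' (N₂ + ν) (WithLp.ofLp t) :=
    ⟨_, rfl⟩
  obtain ⟨tc, htcdef⟩ : ∃ tc : ℕ → Ew d, tc = fun ν => WithLp.toLp 2 (prj Z ((r ν)⁻¹ • x ν)) :=
    ⟨_, rfl⟩
  set He : Ew d → Fin n → ℂ := fun t => H (WithLp.ofLp t) with hHe
  have hr0 : ∀ ν, 0 < r ν := fun ν => by rw [hrdef]; exact hr'0 _
  have hr : Tendsto r atTop atTop := by rw [hrdef]; exact hr'.comp hshift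
  have hxV : ∀ ν, OnV ξ υ (x ν) (y ν) := fun ν => by rw [hxdef, hydef]; exact hx'V _
  have hy0 : ∀ ν i, y ν i ≠ 0 := fun ν i => by rw [hydef]; exact hy'0 _ i
  have hxβ : ∀ ν, eval (Sum.elim (x ν) (y ν)) Dβ ≠ 0 := fun ν => by
    rw [hxdef, hydef]; exact hx'β _
  have hxz : Tendsto (fun ν => (r ν)⁻¹ • x ν) atTop (𝓝 z₁) := by
    rw [hrdef, hxdef]; exact hx'z.comp hshift
  have hyη : ∀ i, Tendsto (fun ν => (r ν)⁻¹ * Real.log ‖y ν i‖) atTop (𝓝 (z₁ i).re) :=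
    fun i => by rw [hrdef, hydef]; exact (hy'η i).comp hshift
  have htc : Tendsto tc atTop (𝓝 t₀) := by
    rw [htcdef, hrdef, hxdef]
    exact htc'.comp hshift
  have htcb : ∀ ν, tc ν ∈ ball t₀ ρ₅ := fun ν => by
    rw [htcdef, hrdef, hxdef]
    exact (hN₂' ν).2
  have hXν : ∀ ν, DifferentiableOn ℂ (X' (N₂ + ν)) (ball t₁ ρ₅) ∧
      (∀ z ∈ ball t₁ ρ₅, (∀ f ∈ p, eval (fun i => (r ν : ℂ) * X' (N₂ + ν) z i) f = 0) ∧
        eval (fun i => (r ν : ℂ) * X' (N₂ + ν) z i) gt ≠ 0 ∧ prj Z (X' (N₂ + ν) z) = z) ∧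
      X' (N₂ + ν) (prj Z ((r ν)⁻¹ • x ν)) = (r ν)⁻¹ • x ν := by
    intro ν
    obtain ⟨-, h2, h3, -, h5⟩ := hX' (N₂ + ν) (hN₂' ν).1
    rw [hrdef, hxdef]
    exact ⟨h2, h3, h5⟩
  have hXde : ∀ ν, DifferentiableOn ℂ (X ν) (ball t₀ ρ₅) := fun ν => by
    rw [hXdef]
    exact ((hXν ν).1).comp hofLp.differentiableOn fun t ht => hball t ht
  have hHde : DifferentiableOn ℂ He (ball t₀ ρ₅) :=
    (hHdρ.mono (hb8.trans hb4)).comp hofLp.differentiableOn fun t ht => hball t ht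
  have hXHe : ∀ ε : ℝ, 0 < ε → ∀ᶠ ν in atTop, ∀ t ∈ ball t₀ ρ₅, ‖X ν t - He t‖ ≤ ε := by
    intro ε hε
    rw [hXdef]
    exact (hshift.eventually (hX'H ε hε)).mono fun ν h t ht => h _ (hball t ht)
  have hsmulX : ∀ ν t, (r ν : ℂ) • X ν t =
      fun i => (r ν : ℂ) * X' (N₂ + ν) (WithLp.ofLp t) i := by
    intro ν t
    rw [hXdef]
    rfl
  have hXW : ∀ ν, ∀ t ∈ ball t₀ ρ₅, OnW ξ ((r ν : ℂ) • X ν t) := by
    intro ν t ht f hf
    rw [hsmulX]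
    exact ((hXν ν).2.1 _ (hball t ht)).1 f ((hp f).2 hf)
  have hXZ : ∀ ν, ∀ t ∈ ball t₀ ρ₅, ∀ j, prj Z (X ν t) j = t j := by
    intro ν t ht j
    rw [hXdef]
    exact congrFun ((hXν ν).2.1 _ (hball t ht)).2.2 j
  have hXgt : ∀ ν, ∀ t ∈ ball t₀ ρ₅,
      (∀ i, eval ((r ν : ℂ) • X ν t) (D₁ i) ≠ 0) ∧
      (∀ I, ∀ α ∈ S I, eval ((r ν : ℂ) • X ν t) (c I α) ≠ 0) ∧
      ∀ I, ∀ α ∈ S' I, eval ((r ν : ℂ) • X ν t) (c' I α) ≠ 0 := by
    intro ν t ht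
    have h1 := ((hXν ν).2.1 _ (hball t ht)).2.1
    rw [← hsmulX, hgt] at h1
    simp only [map_mul, map_prod, mul_ne_zero_iff, Finset.prod_ne_zero_iff, Finset.mem_univ,
      true_imp_iff] at h1
    exact ⟨h1.1.1, h1.1.2, h1.2⟩
  -- the size of the coefficients on the sheets
  have hrr : ∀ ν t, (r ν)⁻¹ • ((r ν : ℂ) • X ν t) = X ν t := by
    intro ν t
    funext i
    have : (r ν : ℂ) ≠ 0 := by exact_mod_cast (hr0 ν).ne'
    simp only [Pi.smul_apply, Complex.real_smul, Complex.ofReal_inv, smul_eq_mul]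
    field_simp
  have hXz₀ : ∀ᶠ ν in atTop, ∀ t ∈ ball t₀ ρ₅, ‖(r ν)⁻¹ • ((r ν : ℂ) • X ν t) - z₀‖ ≤ δc := by
    filter_upwards [hXHe (δc / 2) (by positivity)] with ν h1 t ht
    rw [hrr]
    have h2 := h1 t ht
    have h3 : ‖He t - z₀‖ < δc / 2 :=
      (hρaB (hb2 (hb8 (hball t ht)))).2.2.1.trans_le (min_le_left _ _)
    have h4 := norm_add_le (X ν t - He t) (He t - z₀)
    rw [sub_add_sub_cancel] at h4
    linarith
  have hcball : ∀ᶠ ν in atTop, ∀ t ∈ ball t₀ ρ₅, ∀ j :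
      (Σ I : {I : Finset (Fin n) // I.card = k + 1 + 1}, {α // α ∈ S I}) ⊕
      (Σ I : {I : Finset (Fin n) // I.card = k + 1}, {α // α ∈ S' I}),
      (r ν ^ Ct)⁻¹ ≤ ‖eval ((r ν : ℂ) • X ν t) (Sum.elim (fun a => c a.1 a.2.1)
        (fun a => c' a.1 a.2.1) j)‖ ∧
      ‖eval ((r ν : ℂ) • X ν t) (Sum.elim (fun a => c a.1 a.2.1)
        (fun a => c' a.1 a.2.1) j)‖ ≤ r ν ^ Ct := by
    filter_upwards [hXz₀, hr.eventually hcoefz] with ν h1 h2 t ht j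
    exact h2 _ (hXW ν t ht) (h1 t ht) j
  have hcb : ∀ I, ∀ α ∈ S I, ∀ᶠ ν in atTop, ∀ t ∈ ball t₀ ρ₅,
      (r ν ^ Ct)⁻¹ ≤ ‖eval ((r ν : ℂ) • X ν t) (c I α)‖ ∧
        ‖eval ((r ν : ℂ) • X ν t) (c I α)‖ ≤ r ν ^ Ct := by
    intro I α hα
    filter_upwards [hcball] with ν h1 t ht
    exact h1 t ht (Sum.inl ⟨I, ⟨α, hα⟩⟩)
  have hcb' : ∀ I, ∀ α ∈ S' I, ∀ᶠ ν in atTop, ∀ t ∈ ball t₀ ρ₅,
      (r ν ^ Ct)⁻¹ ≤ ‖eval ((r ν : ℂ) • X ν t) (c' I α)‖ ∧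
        ‖eval ((r ν : ℂ) • X ν t) (c' I α)‖ ≤ r ν ^ Ct := by
    intro I α hα
    filter_upwards [hcball] with ν h1 t ht
    exact h1 t ht (Sum.inr ⟨I, ⟨α, hα⟩⟩)
  -- the centers
  have hXtc : ∀ ν, (r ν : ℂ) • X ν (tc ν) = x ν := by
    intro ν
    have h1 : X ν (tc ν) = (r ν)⁻¹ • x ν := by
      rw [hXdef, htcdef]
      exact (hXν ν).2.2
    rw [h1]
    funext i
    have : (r ν : ℂ) ≠ 0 := by exact_mod_cast (hr0 ν).ne'
    simp only [Pi.smul_apply, Complex.real_smul, Complex.ofReal_inv, smul_eq_mul]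
    field_simp
  choose uc hu1 hu2 hu3 using fun (ν : ℕ) (i : Fin n) => exists_arg (x ν i) (y ν i) (hy0 ν i)
  have huexp : ∀ ν, (fun i => Complex.exp (uc ν i)) = y ν := fun ν => funext fun i => hu1 ν i
  have hcenm : ∀ ν, (tc ν, uc ν) ∈ Fam ξ υ (fun t => (r ν : ℂ) • X ν t) (ball t₀ ρ₅) ∧
      pf Z B β (fun t => (r ν : ℂ) • X ν t) (tc ν, uc ν) ≠ 0 := by
    intro ν
    refine ⟨⟨htcb ν, ?_⟩, ?_⟩
    · simp only [hXtc ν, huexp ν]
      exact hxV ν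
    · unfold pf
      have h1 : (fun j => Complex.exp ((tc ν, uc ν).2 (B j))) = fun j => y ν (B j) :=
        funext fun j => hu1 ν (B j)
      rw [h1]
      simp only [hXtc ν]
      rw [← hDβe]
      exact hxβ ν
  have hsmall : ∀ ε : ℝ, 0 < ε → ∀ᶠ ν in atTop, ‖(r ν : ℂ) • X ν (tc ν) - uc ν‖ ≤ ε * r ν := by
    intro ε hε
    have hπ : ∀ᶠ ν in atTop, Real.pi ≤ ε / 2 * r ν :=
      (hr.const_mul_atTop (show 0 < ε / 2 by positivity)).eventually_ge_atTop Real.pi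
    have hre : ∀ᶠ ν in atTop, ∀ i, |(r ν)⁻¹ * ((x ν i).re - Real.log ‖y ν i‖)| ≤ ε / 2 := by
      rw [Filter.eventually_all]
      intro i
      have h1 : Tendsto (fun ν => (((r ν)⁻¹ • x ν) i).re) atTop (𝓝 (z₁ i).re) :=
        (Complex.continuous_re.tendsto _).comp (tendsto_pi_nhds.1 hxz i)
      have h2 := h1.sub (hyη i)
      rw [sub_self] at h2
      have h3 := (tendsto_zero_iff_abs_tendsto_zero _).1 h2
      filter_upwards [h3.eventually (gt_mem_nhds (show 0 < ε / 2 by positivity))] with ν h4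
      refine le_trans (le_of_eq ?_) h4.le
      rw [Function.comp_apply, Pi.smul_apply, Complex.real_smul, Complex.re_ofReal_mul, mul_sub]
    filter_upwards [hπ, hre] with ν h1 h2
    rw [hXtc ν, pi_norm_le_iff_of_nonneg (by have := hr0 ν; positivity)]
    intro i
    have h3 : ‖(x ν - uc ν) i‖ ≤ |((x ν - uc ν) i).re| + |((x ν - uc ν) i).im| :=
      Complex.norm_le_abs_re_add_abs_im _
    have h4 : |((x ν - uc ν) i).im| ≤ Real.pi := hu3 ν i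
    have h5 : ((x ν - uc ν) i).re = (x ν i).re - Real.log ‖y ν i‖ := by
      rw [Pi.sub_apply, Complex.sub_re, hu2 ν i]
    have h6 := h2 i
    rw [abs_mul, abs_of_pos (inv_pos.2 (hr0 ν)), inv_mul_le_iff₀ (hr0 ν)] at h6
    rw [h5] at h3
    linarith
  have ht₀b : t₀ ∈ ball t₀ ρ₅ := mem_ball_self hρ₅
  -- the derivative
  have hfde : ∀ t ∈ ball t₀ ρ₅, ∀ b : Ew d,
      fderiv ℂ He t b = fderiv ℂ H (WithLp.ofLp t) (WithLp.ofLp b) := by
    intro t ht b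
    have hdiff : DifferentiableAt ℂ H (WithLp.ofLp t) :=
      hHdρ.differentiableAt (isOpen_ball.mem_nhds (hb4 (hb8 (hball t ht))))
    have h1 : HasFDerivAt He ((fderiv ℂ H (WithLp.ofLp t)).comp
        (PiLp.continuousLinearEquiv 2 ℂ (fun _ : Fin d => ℂ) : Ew d →L[ℂ] (Fin d → ℂ))) t :=
      HasFDerivAt.comp t (g := H) hdiff.hasFDerivAt
        (PiLp.continuousLinearEquiv 2 ℂ (fun _ : Fin d => ℂ)).hasFDerivAt
    rw [h1.fderiv]
    rfl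
  have htan : ∀ b : Fin d → ℂ, ∀ f ∈ q,
      ∑ i, fderiv ℂ H t₁ b i * eval (H t₁) (pderiv i f) = 0 := fun b f hf =>
    GS.chart_tangent q H (hHdρ.mono hb4) hHq ht₁b b hf
  obtain ⟨bv, hbv⟩ := hsel' (H t₁) (hHq t₁ ht₁b) (hρaB (hb2 ht₁b)).2.1.1
  -- the selections
  have hselt : ∀ t, ‖t - t₀‖ ≤ ρ₅ / 2 → ∀ b : Ew d,
      ∀ α β : {I : Finset (Fin n) // I.card = k + 1 + 1} → Fin n → ℕ,
      (∀ j, α j ∈ S j ∧ β j ∈ S j ∧ α j ≠ β j) →
      (∀ j, ∑ i, ((α j i : ℂ) - β j i) * fderiv ℂ He t b i = 0) → b = 0 := by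
    intro t ht b α β' hαβ hb
    have htb : t ∈ ball t₀ ρ₅ := by
      rw [mem_ball, dist_eq_norm]
      linarith
    have htb' := hb8 (hball t htb)
    have h1 : fderiv ℂ H (WithLp.ofLp t) (WithLp.ofLp b) = 0 := by
      refine hsel (H (WithLp.ofLp t)) (hHq _ htb') (hρaB (hb2 htb')).1.1.2.1 _ ?_ α β' hαβ ?_
      · intro f hf
        exact GS.chart_tangent q H (hHdρ.mono hb4) hHq htb' (WithLp.ofLp b) hf
      · intro I
        have h2 := hb I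
        rw [hfde t htb b] at h2
        exact h2
    have h3 := GS.chart_injective Z H (hHdρ.mono hb4) (fun z hz => hZH z (hb4 hz)) htb'
      (WithLp.ofLp b) h1
    have h4 : b = WithLp.toLp 2 (WithLp.ofLp b) := rfl
    rw [h4, h3]
    rfl
  -- the subspace `K`
  obtain ⟨K, hKdef⟩ : ∃ K : Submodule ℂ (Fin n → ℂ),
      ∀ s, s ∈ K ↔ ∀ l, ∑ i, (m l i : ℂ) * s i = 0 := by
    refine ⟨{ carrier := {s | ∀ l, ∑ i, (m l i : ℂ) * s i = 0}
              add_mem' := ?_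
              zero_mem' := ?_
              smul_mem' := ?_ }, fun s => Iff.rfl⟩
    · intro a b ha hb l
      simp only [Pi.add_apply, mul_add, Finset.sum_add_distrib]
      rw [ha l, hb l, add_zero]
    · intro l
      simp
    · intro a s hs l
      have h1 : ∑ i, (m l i : ℂ) * (a • s) i = a * ∑ i, (m l i : ℂ) * s i := by
        rw [Finset.mul_sum]
        refine Finset.sum_congr rfl fun i _ => ?_
        rw [Pi.smul_apply, smul_eq_mul]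
        ring
      rw [h1, hs l, mul_zero]
  have hHe₀ : He t₀ = z₁ := by
    rw [hHe, hz₁]
    simp only [ht₀₁]
  have hKm : ∀ α α' : Fin n → ℕ, (∃ l, m l = fun i => (α i : ℤ) - α' i) → ∀ s ∈ K,
      ∑ i, ((α i : ℂ) - α' i) * s i = 0 := by
    rintro α α' ⟨l, hl⟩ s hs
    have h1 := (hKdef s).1 hs l
    rw [hl] at h1
    push_cast at h1
    exact h1
  have hloc := local_denseK ξ υ Z B (finSumFinEquiv.trans (finCongr hdk)) β hV t₀
    (δ := ρ₅ / 2) (half_pos hρ₅) (half_lt_self hρ₅) r hr0 hr X hXde He hHde hXHe hXW hXZ F₁ D₁ hF₁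
    hFD₁ (fun ν t ht => (hXgt ν t ht).1) S hSne c hrel Ct hcb
    (fun ν I α hα t ht => (hXgt ν t ht).2.1 I α hα) hselt tc uc htc hcenm hsmall
    Dp S' hSne' c' hrel' Ct hcb'
    (fun ν I α hα t ht => (hXgt ν t ht).2.2 I α hα) bv (by
      intro ζ s α β' hαβ hb
      obtain ⟨h1, h2⟩ := hbv (fderiv ℂ H t₁ (WithLp.ofLp ζ)) s (htan _) α β' hαβ (by
        intro I
        have h3 := hb I
        rw [hfde t₀ ht₀b ζ, ht₀₁] at h3
        exact h3)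
      refine ⟨?_, h2⟩
      have h3 := GS.chart_injective Z H (hHdρ.mono hb4) (fun z hz => hZH z (hb4 hz)) ht₁b
        (WithLp.ofLp ζ) h1
      have h4 : ζ = WithLp.toLp 2 (WithLp.ofLp ζ) := rfl
      rw [h4, h3]
      rfl) K
    (by
      intro I α hα α' hα'
      rw [hHe₀, hty₁ I] at hα hα'
      exact hKm α α' (hm2 I α hα α' hα'))
    (by
      intro I α hα α' hα'
      rw [hHe₀, hty₁' I] at hα hα'
      exact hKm α α' (hm3 I α hα α' hα'))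
    (by
      intro s hs
      rw [hKdef] at hs ⊢
      intro l
      have h1 := congrArg (starRingEnd ℂ) (hs l)
      rw [map_sum, map_zero] at h1
      rw [← h1]
      refine Finset.sum_congr rfl fun i _ => ?_
      rw [map_mul, map_intCast])
    (by
      intro ζ
      obtain ⟨b', hb'⟩ := hconj₁ (WithLp.ofLp ζ)
      refine ⟨WithLp.toLp 2 b', ?_⟩
      rw [hKdef]
      intro l
      have h1 := hb' l
      unfold mz at h1
      rw [map_sum] at h1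
      rw [hfde t₀ ht₀b, hfde t₀ ht₀b, ht₀₁]
      have h2 : ∑ i, (m l i : ℂ) * (fderiv ℂ H t₁ (WithLp.ofLp (WithLp.toLp 2 b' : Ew d)) i -
          (starRingEnd ℂ) (fderiv ℂ H t₁ (WithLp.ofLp ζ) i)) =
          ∑ i, (m l i : ℂ) * fderiv ℂ H t₁ b' i -
          ∑ i, (starRingEnd ℂ) ((m l i : ℂ) * fderiv ℂ H t₁ (WithLp.ofLp ζ) i) := by
        rw [← Finset.sum_sub_distrib]
        refine Finset.sum_congr rfl fun i _ => ?_
        rw [map_mul, map_intCast, mul_sub]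
      rw [h2, h1, sub_self])
    (by
      intro m' hm' _
      obtain ⟨b, hb⟩ := ht₁m m' hm'
      refine ⟨WithLp.toLp 2 b, ?_⟩
      rw [hfde t₀ ht₀b, ht₀₁]
      exact hb)
  -- large points
  have hlarge : ∀ᶠ ν in atTop, ∀ t ∈ ball t₀ ρ₅, M < ‖(r ν : ℂ) • X ν t‖ := by
    have hz₀n : 0 < ‖z₀‖ := norm_pos_iff.2 hz₀0
    filter_upwards [hXHe (‖z₀‖ / 4) (by positivity), hr.eventually_gt_atTop (4 * M / ‖z₀‖)]
      with ν h1 h2 t ht
    have h3 := h1 t ht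
    have h4 : ‖z₀‖ / 2 < ‖He t‖ := (hρaB (hb2 (hb8 (hball t ht)))).1.1.2.2
    have h5 : ‖z₀‖ / 4 < ‖X ν t‖ := by
      have h6 : ‖He t‖ ≤ ‖X ν t - He t‖ + ‖X ν t‖ := by
        have h7 : He t = -(X ν t - He t) + X ν t := by abel
        calc ‖He t‖ = ‖-(X ν t - He t) + X ν t‖ := by rw [← h7]
          _ ≤ _ := by
            refine (norm_add_le _ _).trans ?_
            rw [norm_neg]
      linarith
    rw [norm_smul, Complex.norm_real, Real.norm_eq_abs, abs_of_pos (hr0 ν)]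
    rw [div_lt_iff₀ hz₀n] at h2
    have h7 := hr0 ν
    nlinarith
  obtain ⟨ν, ⟨t, ht, hx, hxD⟩, hM⟩ := (hloc.and_eventually hlarge).exists
  have htb : t ∈ ball t₀ ρ₅ := by
    rw [mem_ball, dist_eq_norm]
    linarith
  exact ⟨(r ν : ℂ) • X ν t, hM t htb, hx, hxD⟩

end Pool.Agent.Lib.MP_209724_lc.GF
end

section

/-!
# Zariski density of the exponential points in all varieties over a variety one of whose cones at
infinity is real and in general position, or meets all rational spaces of complementary dimension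
only in zero
-/

namespace Pool.Agent.Lib.MP_209724_lc.GF

open MvPolynomial Filter Topology Metric Set
open GC (prj cone)
open GP (OnV OnW)

variable {n d : ℕ}

/-- Proper position implies that integral forms are algebraically independent. -/
theorem gp_of_pp (p q : Ideal (MvPolynomial (Fin n) ℂ)) [q.IsPrime]
    (hq : Algebra.trdeg ℂ (MvPolynomial (Fin n) ℂ ⧸ q) = d)
    (hq1 : ∀ z : Fin n → ℂ, (∀ f ∈ q, eval z f = 0) → z ∈ cone p)
    (hq2 : ∃ G ∉ q, ∀ z ∈ cone p, eval z G ≠ 0 → ∀ f ∈ q, eval z f = 0)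
    (hpp : ∀ m : Fin d → Fin n → ℤ, LinearIndependent ℤ m → ∀ z : Fin n → ℂ,
      (∀ f ∈ q, eval z f = 0) → (∀ j, ∑ i, (m j i : ℂ) * z i = 0) → z = 0)
    (m : Fin d → Fin n → ℤ) (hm : LinearIndependent ℤ m) :
    AlgebraicIndependent ℂ fun j => Ideal.Quotient.mk q (∑ k, C (m j k : ℂ) * X k) :=
  algInd_of_proper p q hq hq1 hq2 (fun j k => (m j k : ℂ)) (hpp m hm)

/-- The centers over a cone in proper position, in the form of `core_denseK`. -/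
theorem cen_of_pp {k : ℕ} (hd : 0 < d) (hdk : d + k = n) {L : Type} [Field L] [Algebra ℂ L]
    (ξ υ : Fin n → L) (hυ : ∀ i, υ i ≠ 0)
    (hgen : ∀ z : L, IsAlgebraic (Algebra.adjoin ℂ (Set.range (Sum.elim ξ υ))) z)
    (hξd : Algebra.trdeg ℂ (IntermediateField.adjoin ℂ (Set.range ξ)) = d)
    (hL : Algebra.trdeg ℂ L = n) (p : Ideal (MvPolynomial (Fin n) ℂ))
    (hp : ∀ c, c ∈ p ↔ aeval ξ c = 0) (q : Ideal (MvPolynomial (Fin n) ℂ)) [hqp : q.IsPrime]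
    (hq : Algebra.trdeg ℂ (MvPolynomial (Fin n) ℂ ⧸ q) = d)
    (hq1 : ∀ z : Fin n → ℂ, (∀ f ∈ q, eval z f = 0) → z ∈ cone p)
    (hq2 : ∃ G ∉ q, ∀ z ∈ cone p, eval z G ≠ 0 → ∀ f ∈ q, eval z f = 0)
    (hpp : ∀ m : Fin d → Fin n → ℤ, LinearIndependent ℤ m → ∀ z : Fin n → ℂ,
      (∀ f ∈ q, eval z f = 0) → (∀ j, ∑ i, (m j i : ℂ) * z i = 0) → z = 0)
    (G : MvPolynomial (Fin n) ℂ) (hG : G ∉ q) :
    ∃ z : Fin n → ℂ, (∀ f ∈ q, eval z f = 0) ∧ eval z G ≠ 0 ∧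
      Lim ξ υ z (fun i => (z i).re) := by
  obtain ⟨z, r, x, y, hz, hzG, hr0, hr, hxy, hx, hy⟩ := GE.centers hd hdk ξ υ hυ hgen hξd hL p hp q
    hq hq1 hq2 hpp G hG 1 (by rw [map_one]; exact one_ne_zero)
  refine ⟨z, hz, hzG, r, x, y, hr0, hr, fun ν => (hxy ν).1, fun ν => (hxy ν).2.1, hx, fun i => ?_⟩
  have h1 : Tendsto (fun ν => (((r ν)⁻¹ • x ν) i).re) atTop (𝓝 (z i).re) :=
    (Complex.continuous_re.tendsto _).comp (tendsto_pi_nhds.1 hx i)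
  have h2 := h1.sub (hy i)
  rw [sub_zero] at h2
  refine h2.congr fun ν => ?_
  have h3 : (((r ν)⁻¹ • x ν) i).re = (r ν)⁻¹ * (x ν i).re := by
    rw [Pi.smul_apply, Complex.real_smul, Complex.mul_re, Complex.ofReal_re, Complex.ofReal_im]
    ring
  rw [h3]
  ring

/-- Exponential points outside of `D = 0`, cones in proper position. -/
theorem core_pp {k : ℕ} (hd : 0 < d) (hdk : d + k = n) {L : Type} [Field L] [Algebra ℂ L]
    (ξ υ : Fin n → L) (hυ : ∀ i, υ i ≠ 0)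
    (hgen : ∀ z : L, IsAlgebraic (Algebra.adjoin ℂ (Set.range (Sum.elim ξ υ))) z)
    (hξd : Algebra.trdeg ℂ (IntermediateField.adjoin ℂ (Set.range ξ)) = d)
    (hL : Algebra.trdeg ℂ L = n) (p : Ideal (MvPolynomial (Fin n) ℂ))
    (hp : ∀ c, c ∈ p ↔ aeval ξ c = 0) (q : Ideal (MvPolynomial (Fin n) ℂ)) [hqp : q.IsPrime]
    (hq : Algebra.trdeg ℂ (MvPolynomial (Fin n) ℂ ⧸ q) = d)
    (hq1 : ∀ z : Fin n → ℂ, (∀ f ∈ q, eval z f = 0) → z ∈ cone p)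
    (hq2 : ∃ G ∉ q, ∀ z ∈ cone p, eval z G ≠ 0 → ∀ f ∈ q, eval z f = 0)
    (hpp : ∀ m : Fin d → Fin n → ℤ, LinearIndependent ℤ m → ∀ z : Fin n → ℂ,
      (∀ f ∈ q, eval z f = 0) → (∀ j, ∑ i, (m j i : ℂ) * z i = 0) → z = 0)
    (Dp : MvPolynomial (Fin n ⊕ Fin n) ℂ) (hDp : aeval (Sum.elim ξ υ) Dp ≠ 0) (M : ℝ) :
    ∃ x : Fin n → ℂ, M < ‖x‖ ∧ OnV ξ υ x (fun i => Complex.exp (x i)) ∧
      eval (Sum.elim x fun i => Complex.exp (x i)) Dp ≠ 0 := by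
  have hgp := gp_of_pp p q hq hq1 hq2 hpp
  rcases k with _ | k
  · -- `d = n`: the cone is the whole space
    have hdn : d = n := by omega
    subst hdn
    have hind : AlgebraicIndependent ℂ fun j : Fin d => Ideal.Quotient.mk q (X j) := by
      have h1 := hgp (fun j i => if i = j then 1 else 0) (by
        rw [Fintype.linearIndependent_iff]
        intro g hg i
        have := congrFun hg i
        simpa using this)
      convert h1 using 2 with j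
      congr 1
      rw [Finset.sum_eq_single j]
      · simp
      · intro k _ hk
        simp [hk]
      · intro h
        exact absurd (Finset.mem_univ j) h
    have hq0 : ∀ f ∈ q, f = 0 := by
      intro f hf
      refine (algebraicIndependent_iff.1 hind) f ?_
      have h2 : ∀ f : MvPolynomial (Fin d) ℂ, aeval (fun j : Fin d => Ideal.Quotient.mk q (X j)) f =
          Ideal.Quotient.mk q f := by
        intro f
        induction f using MvPolynomial.induction_on with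
        | C a =>
          rw [aeval_C]
          rfl
        | add p q hp hq => rw [map_add, hp, hq, map_add]
        | mul_X p i hp => rw [map_mul, hp, aeval_X, map_mul]
      rw [h2, Ideal.Quotient.eq_zero_iff_mem]
      exact hf
    refine GD.core_all hd hdk ξ υ hυ hgen hξd hL p hp q hq hq1 hq2 ?_ hgp Dp hDp M
    intro f hf
    have hf0 : f ≠ 0 := fun h => hf (h ▸ q.zero_mem)
    by_contra hcon
    push Not at hcon
    apply hf0
    refine MvPolynomial.funext_set (fun _ : Fin d => Set.range ((↑) : ℝ → ℂ))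
      (fun _ => Set.infinite_range_of_injective Complex.ofReal_injective) fun x hx => ?_
    rw [map_zero]
    choose η hη using fun i => hx i (Set.mem_univ i)
    have h1 := hcon η fun h hh => by rw [hq0 h hh, map_zero]
    have h2 : (fun i => (η i : ℂ)) = x := funext hη
    rwa [h2] at h1
  · exact core_denseK hd hdk ξ υ hυ hgen hξd hL p hp q hq hq1 hq2 hgp
      (fun G hG => cen_of_pp hd hdk ξ υ hυ hgen hξd hL p hp q hq hq1 hq2 hpp G hG) Dp hDp M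

/-- **Density of the exponential points.** -/
theorem final (hd : 0 < d) (Q : Ideal (MvPolynomial (Fin n ⊕ Fin n) ℂ)) [Q.IsPrime]
    (hy : ∀ i, (X (Sum.inr i) : MvPolynomial (Fin n ⊕ Fin n) ℂ) ∉ Q)
    (hdim : (n : Cardinal) ≤ Algebra.trdeg ℂ (MvPolynomial (Fin n ⊕ Fin n) ℂ ⧸ Q))
    (p : Ideal (MvPolynomial (Fin n) ℂ)) (hpQ : ∀ c, c ∈ p ↔ rename Sum.inl c ∈ Q)
    (hpd : Algebra.trdeg ℂ (MvPolynomial (Fin n) ℂ ⧸ p) = d)
    (q : Ideal (MvPolynomial (Fin n) ℂ)) [q.IsPrime]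
    (hq : Algebra.trdeg ℂ (MvPolynomial (Fin n) ℂ ⧸ q) = d)
    (hq1 : ∀ z : Fin n → ℂ, (∀ f ∈ q, eval z f = 0) → z ∈ cone p)
    (hq2 : ∃ G ∉ q, ∀ z ∈ cone p, eval z G ≠ 0 → ∀ f ∈ q, eval z f = 0)
    (hor : ((∀ f ∉ q, ∃ η : Fin n → ℝ, (∀ h ∈ q, eval (fun i => (η i : ℂ)) h = 0) ∧
      eval (fun i => (η i : ℂ)) f ≠ 0) ∧
      ∀ m : Fin d → Fin n → ℤ, LinearIndependent ℤ m →
        AlgebraicIndependent ℂ fun j => Ideal.Quotient.mk q (∑ k, C (m j k : ℂ) * X k)) ∨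
      ∀ m : Fin d → Fin n → ℤ, LinearIndependent ℤ m → ∀ z : Fin n → ℂ,
        (∀ f ∈ q, eval z f = 0) → (∀ j, ∑ i, (m j i : ℂ) * z i = 0) → z = 0)
    (D : MvPolynomial (Fin n ⊕ Fin n) ℂ) (hD : D ∉ Q) (M : ℝ) :
    ∃ x : Fin n → ℂ, M < ‖x‖ ∧
      (∀ f ∈ Q, eval (Sum.elim x fun i => Complex.exp (x i)) f = 0) ∧
      eval (Sum.elim x fun i => Complex.exp (x i)) D ≠ 0 := by
  classical
  rcases hor with ⟨hreal, hgp⟩ | hpp
  · exact GD.final hd Q hy hdim p hpQ hpd q hq hq1 hq2 hreal hgp D hD M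
  set L := FractionRing (MvPolynomial (Fin n ⊕ Fin n) ℂ ⧸ Q) with hLdef
  have hinj : Function.Injective (algebraMap (MvPolynomial (Fin n ⊕ Fin n) ℂ ⧸ Q) L) :=
    IsFractionRing.injective _ _
  set w : Fin n ⊕ Fin n → L := fun i =>
    algebraMap (MvPolynomial (Fin n ⊕ Fin n) ℂ ⧸ Q) L (Ideal.Quotient.mk Q (X i)) with hw
  have haev : ∀ f : MvPolynomial (Fin n ⊕ Fin n) ℂ, aeval w f =
      algebraMap (MvPolynomial (Fin n ⊕ Fin n) ℂ ⧸ Q) L (Ideal.Quotient.mk Q f) := by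
    intro f
    induction f using MvPolynomial.induction_on with
    | C a =>
      rw [aeval_C]
      rfl
    | add p q hp hq => rw [map_add, hp, hq, map_add, map_add]
    | mul_X p i hp => rw [map_mul, hp, aeval_X, map_mul, map_mul]
  have haev0 : ∀ f, aeval w f = 0 ↔ f ∈ Q := fun f => by
    rw [haev, map_eq_zero_iff _ hinj, Ideal.Quotient.eq_zero_iff_mem]
  set ξ : Fin n → L := fun i => w (Sum.inl i) with hξ
  set υ : Fin n → L := fun i => w (Sum.inr i) with hυ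
  have hwe : Sum.elim ξ υ = w := by
    funext i
    rcases i with i | i <;> rfl
  have hp : ∀ c, c ∈ p ↔ aeval ξ c = 0 := by
    intro c
    rw [hpQ, ← haev0, aeval_rename]
    rfl
  have hυ0 : ∀ i, υ i ≠ 0 := by
    intro i h0
    apply hy i
    rw [← haev0, aeval_X]
    exact h0
  have hgen : ∀ z : L, IsAlgebraic (Algebra.adjoin ℂ (Set.range (Sum.elim ξ υ))) z := by
    intro z
    rw [hwe]
    obtain ⟨u, v, hv, rfl⟩ := IsFractionRing.div_surjective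
      (A := MvPolynomial (Fin n ⊕ Fin n) ℂ ⧸ Q) z
    obtain ⟨f, rfl⟩ := Ideal.Quotient.mk_surjective u
    obtain ⟨g, rfl⟩ := Ideal.Quotient.mk_surjective v
    have key : ∀ f : MvPolynomial (Fin n ⊕ Fin n) ℂ, IsAlgebraic (Algebra.adjoin ℂ (Set.range w))
        (algebraMap (MvPolynomial (Fin n ⊕ Fin n) ℂ ⧸ Q) L (Ideal.Quotient.mk Q f)) := by
      intro f
      have h1 : algebraMap (MvPolynomial (Fin n ⊕ Fin n) ℂ ⧸ Q) L (Ideal.Quotient.mk Q f) ∈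
          Algebra.adjoin ℂ (Set.range w) := by
        rw [← haev, Algebra.adjoin_range_eq_range_aeval]
        exact ⟨f, rfl⟩
      exact isAlgebraic_algebraMap (⟨_, h1⟩ : Algebra.adjoin ℂ (Set.range w))
    exact (key f).mul (key g).inv
  have hξd : Algebra.trdeg ℂ (IntermediateField.adjoin ℂ (Set.range ξ)) = d := by
    rw [GC.trdeg_adjoin ξ p hp, hpd]
  have hLQ : Algebra.trdeg ℂ L = Algebra.trdeg ℂ (MvPolynomial (Fin n ⊕ Fin n) ℂ ⧸ Q) :=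
    Elim.trdeg_fractionRing (A := MvPolynomial (Fin n ⊕ Fin n) ℂ ⧸ Q)
  have hfin : Algebra.trdeg ℂ (MvPolynomial (Fin n ⊕ Fin n) ℂ ⧸ Q) < Cardinal.aleph0 :=
    trdeg_lt_aleph0_of_finiteType
  obtain ⟨m, hm⟩ := Cardinal.lt_aleph0.1 hfin
  have hnm : n ≤ m := by
    rw [hm] at hdim
    exact_mod_cast hdim
  obtain ⟨e, rfl⟩ := Nat.exists_eq_add_of_le hnm
  have hdn : d ≤ n := by
    have h1 : Algebra.trdeg ℂ (MvPolynomial (Fin n) ℂ ⧸ p) ≤
        Algebra.trdeg ℂ (MvPolynomial (Fin n) ℂ) :=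
      trdeg_le_of_surjective (Ideal.Quotient.mkₐ ℂ p) (Ideal.Quotient.mkₐ_surjective ℂ p)
    rw [hpd, MvPolynomial.trdeg_of_isDomain] at h1
    simpa using h1
  have hdk : d + (n - d) = n := Nat.add_sub_cancel' hdn
  obtain ⟨L', _, _, ξ', υ', h1, h2, h3, h4, h5, h6, h7⟩ := GD.exists_slice_D ξ υ hυ0 hgen hdk hξd
    (e := e) (by rw [hLQ, hm]) D (fun h => hD ((haev0 D).1 (by rw [← hwe]; exact h)))
  obtain ⟨x, hx1, hx2, hx3⟩ := core_pp hd hdk ξ' υ' h3 h4 h5 h6 p (fun c => by rw [hp, h2]) q hq hq1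
    hq2 hpp D h7 M
  refine ⟨x, hx1, fun f hf => hx2 f (h1 f ?_), hx3⟩
  rw [hwe]
  exact (haev0 f).2 hf

end Pool.Agent.Lib.MP_209724_lc.GF
end
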