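import Mathlib
import Pool.Agent.Lib.MP_209724_lc.GP.Local

/-!
# Exponential points over a family of sheets, from general centers
-/

namespace Pool.Agent.Lib.MP_209724_lc.GF

open MvPolynomial Filter Topology Metric Set
open GC (prj)
open GS (Ew)
open GP

variable {n d k : ℕ}

/-- **Exponential points over the sheets.** As `GP.local_points`, for general centers. -/
theorem local_points {L : Type} [Field L] [Algebra ℂ L] (ξ υ : Fin n → L)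
    (Z : Fin d → Fin n → ℂ) (B : Fin k → Fin n) (e : Fin d ⊕ Fin k ≃ Fin n)
    (β : MvPolynomial (Fin d ⊕ Fin k) ℂ)
    (hV : ∀ x₀ y₀ : Fin n → ℂ, OnV ξ υ x₀ y₀ →
      eval (Sum.elim (prj Z x₀) fun j => y₀ (B j)) β ≠ 0 →
      ∃ (δ : ℝ) (Φ Ψ : (Fin d ⊕ Fin k → ℂ) → Fin n → ℂ), 0 < δ ∧
        Φ (Sum.elim (prj Z x₀) fun j => y₀ (B j)) = x₀ ∧
        Ψ (Sum.elim (prj Z x₀) fun j => y₀ (B j)) = y₀ ∧
        DifferentiableOn ℂ Φ (ball (Sum.elim (prj Z x₀) fun j => y₀ (B j)) δ) ∧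
        DifferentiableOn ℂ Ψ (ball (Sum.elim (prj Z x₀) fun j => y₀ (B j)) δ) ∧
        ∀ s ∈ ball (Sum.elim (prj Z x₀) fun j => y₀ (B j)) δ, OnV ξ υ (Φ s) (Ψ s) ∧
          (∀ j, prj Z (Φ s) j = s (Sum.inl j)) ∧ ∀ j, Ψ s (B j) = s (Sum.inr j))
    (t₀ : Ew d) {ρ δ : ℝ} (hδ : 0 < δ) (hδρ : δ < ρ) (r : ℕ → ℝ) (hr0 : ∀ ν, 0 < r ν)
    (hr : Tendsto r atTop atTop) (X : ℕ → Ew d → Fin n → ℂ)
    (hX : ∀ ν, DifferentiableOn ℂ (X ν) (ball t₀ ρ)) (H : Ew d → Fin n → ℂ)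
    (hH : DifferentiableOn ℂ H (ball t₀ ρ))
    (hXH : ∀ ε : ℝ, 0 < ε → ∀ᶠ ν in atTop, ∀ t ∈ ball t₀ ρ, ‖X ν t - H t‖ ≤ ε)
    (hXW : ∀ ν, ∀ t ∈ ball t₀ ρ, OnW ξ ((r ν : ℂ) • X ν t))
    (hXZ : ∀ ν, ∀ t ∈ ball t₀ ρ, ∀ j, prj Z (X ν t) j = t j)
    (F D : Fin n → MvPolynomial (Fin n) ℂ) (hF : ∀ i, aeval ξ (F i) = 0)
    (hFD : ∀ i, ∀ z b : Fin n → ℂ, prj Z b = 0 →
      ∑ k, b k * eval z (pderiv k (F i)) = b i * eval z (D i))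
    (hD : ∀ ν, ∀ t ∈ ball t₀ ρ, ∀ i, eval ((r ν : ℂ) • X ν t) (D i) ≠ 0)
    (S : {I : Finset (Fin n) // I.card = k + 1} → Finset (Fin n → ℕ))
    (hS : ∀ I, (S I).Nonempty)
    (c : {I : Finset (Fin n) // I.card = k + 1} → (Fin n → ℕ) → MvPolynomial (Fin n) ℂ)
    (hrel : ∀ I, ∑ α ∈ S I, aeval ξ (c I α) * ∏ i, υ i ^ α i = 0) (C : ℕ)
    (hc : ∀ I, ∀ α ∈ S I, ∀ᶠ ν in atTop, ∀ t ∈ ball t₀ ρ,
      (r ν ^ C)⁻¹ ≤ ‖eval ((r ν : ℂ) • X ν t) (c I α)‖ ∧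
        ‖eval ((r ν : ℂ) • X ν t) (c I α)‖ ≤ r ν ^ C)
    (hc0 : ∀ ν, ∀ I, ∀ α ∈ S I, ∀ t ∈ ball t₀ ρ, eval ((r ν : ℂ) • X ν t) (c I α) ≠ 0)
    (hsel : ∀ t, ‖t - t₀‖ ≤ δ → ∀ b : Ew d,
      ∀ α β : {I : Finset (Fin n) // I.card = k + 1} → Fin n → ℕ,
      (∀ j, α j ∈ S j ∧ β j ∈ S j ∧ α j ≠ β j) →
      (∀ j, ∑ i, ((α j i : ℂ) - β j i) * fderiv ℂ H t b i = 0) → b = 0)
    (tc : ℕ → Ew d) (uc : ℕ → Fin n → ℂ) (htc : Tendsto tc atTop (𝓝 t₀))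
    (hcen : ∀ ν, (tc ν, uc ν) ∈ Fam ξ υ (fun t => (r ν : ℂ) • X ν t) (ball t₀ ρ) ∧
      pf Z B β (fun t => (r ν : ℂ) • X ν t) (tc ν, uc ν) ≠ 0)
    (hsmall : ∀ ε : ℝ, 0 < ε → ∀ᶠ ν in atTop, ‖(r ν : ℂ) • X ν (tc ν) - uc ν‖ ≤ ε * r ν) :
    ∀ᶠ ν in atTop, ∃ t, ‖t - t₀‖ ≤ δ ∧
      OnV ξ υ ((r ν : ℂ) • X ν t) fun i => Complex.exp ((r ν : ℂ) * X ν t i) := by
  have hρ : 0 < ρ := hδ.trans hδρ
  have ht₀ : t₀ ∈ ball t₀ ρ := mem_ball_self hρ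
  obtain ⟨c₀, hc₀, huo⟩ := uniform_openness ξ υ Z B e β hV t₀ hδ hδρ r hr0 hr X hX H hH hXH hXW hXZ
    F D hF hFD hD S hS c hrel C hc hc0 hsel (R₀ := 1) one_pos
  -- the path
  have hr1 : ∀ᶠ ν in atTop, 1 / r ν ≤ δ / 4 :=
    (hr.const_div_atTop 1).eventually_le_const (by positivity)
  have hr2 : ∀ᶠ ν in atTop, ‖tc ν - t₀‖ ≤ δ / 4 := by
    filter_upwards [htc.eventually (closedBall_mem_nhds t₀ (show 0 < δ / 4 by positivity))] with ν h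
    rwa [dist_eq_norm] at h
  filter_upwards [huo, hsmall (c₀ * δ / 8) (by positivity), hr1, hr2] with ν huo hsm hr1 hr2
  have hrν := hr0 ν
  set x : Ew d → Fin n → ℂ := fun t => (r ν : ℂ) • X ν t with hx
  have hxd : DifferentiableOn ℂ x (ball t₀ ρ) := (hX ν).const_smul (r ν : ℂ)
  have hv₀ : (tc ν, uc ν) ∈ Fam ξ υ x (ball t₀ ρ) := (hcen ν).1
  have hp₀ : pf Z B β x (tc ν, uc ν) ≠ 0 := (hcen ν).2
  set N : ℕ := ⌈2 * ‖x (tc ν) - uc ν‖ / c₀⌉₊ with hN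
  have hN1 : 2 * ‖x (tc ν) - uc ν‖ / c₀ ≤ N := Nat.le_ceil _
  have hN2 : (N : ℝ) < 2 * ‖x (tc ν) - uc ν‖ / c₀ + 1 := Nat.ceil_lt_add_one (by positivity)
  have happ : ∀ η : ℝ, 0 < η → ∃ v ∈ Fam ξ υ x (ball t₀ ρ), ‖v.1 - t₀‖ ≤ δ ∧
      ‖x v.1 - v.2‖ ≤ η := by
    intro η hη
    refine path (F := fun v => x v.1 - v.2) (p := pf Z B β x) hv₀ hp₀ (R := 1 / r ν) (c₀ := c₀)
      (by positivity) hc₀ N t₀ (fun v hv h1 h2 cc h3 η' hη' => huo v hv h1 h2 cc h3 η' hη') ?_ ?_ hη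
    · change ‖x (tc ν) - uc ν‖ ≤ _
      rw [div_le_iff₀ hc₀] at hN1
      linarith
    · change ‖tc ν - t₀‖ + _ ≤ δ
      have h1 : (N : ℝ) * (1 / r ν) ≤ (2 * ‖x (tc ν) - uc ν‖ / c₀ + 1) * (1 / r ν) :=
        mul_le_mul_of_nonneg_right hN2.le (by positivity)
      have h2 : (2 * ‖x (tc ν) - uc ν‖ / c₀ + 1) * (1 / r ν) =
          2 * ‖x (tc ν) - uc ν‖ / c₀ * (1 / r ν) + 1 / r ν := by ring
      have h3 : 2 * ‖x (tc ν) - uc ν‖ / c₀ * (1 / r ν) ≤ δ / 4 := by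
        rw [div_mul_div_comm, mul_one, div_le_iff₀ (by positivity)]
        have : ‖x (tc ν) - uc ν‖ ≤ c₀ * δ / 8 * r ν := hsm
        nlinarith
      linarith
  have hKb : closedBall t₀ δ ⊆ ball t₀ ρ := closedBall_subset_ball hδρ
  have hKset : {v | v ∈ Fam ξ υ x (ball t₀ ρ) ∧ ‖v.1 - t₀‖ ≤ δ ∧ ‖x v.1 - v.2‖ ≤ 1} =
      {v' | v' ∈ Fam ξ υ x (ball t₀ ρ) ∧ v'.1 ∈ closedBall t₀ δ ∧ ‖x v'.1 - v'.2 - 0‖ ≤ 1} := by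
    ext v'
    simp only [mem_ofPred_eq, mem_closedBall, dist_eq_norm, sub_zero]
  have hKc : IsCompact {v | v ∈ Fam ξ υ x (ball t₀ ρ) ∧ ‖v.1 - t₀‖ ≤ δ ∧ ‖x v.1 - v.2‖ ≤ 1} := by
    rw [hKset]
    exact fam_compact ξ υ x hxd.continuousOn (isCompact_closedBall _ _) hKb _ _
  obtain ⟨v, hv, h1, h2⟩ := exists_exact (F := fun v => x v.1 - v.2) hKc (by
    refine ContinuousOn.sub ?_ continuous_snd.continuousOn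
    refine hxd.continuousOn.comp continuous_fst.continuousOn ?_
    rintro v' ⟨h1, -, -⟩
    exact h1.1) happ
  refine ⟨v.1, h1, ?_⟩
  have h3 : x v.1 = v.2 := sub_eq_zero.1 h2
  have h4 : (fun i => Complex.exp (v.2 i)) = fun i => Complex.exp ((r ν : ℂ) * X ν v.1 i) := by
    funext i
    rw [← h3]
    rfl
  rw [← h4]
  exact hv.2

end Pool.Agent.Lib.MP_209724_lc.GF
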